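import Pool.Agent.RadPD.Defs

set_option autoImplicit false

namespace Pool.Agent.RadPD

open MeasureTheory ProbabilityTheory

/-- almost everywhere avoidance -/
def AvoidAE (f : ℂ → Bool) (a b c : ℝ) : Prop :=
  ∀ P Q R : ℂ, ‖P - Q‖ = a → ‖Q - R‖ = b → ‖P - R‖ = c →
    ∀ᵐ z : ℂ, ¬ (f (P + z) = f (Q + z) ∧ f (Q + z) = f (R + z))

end Pool.Agent.RadPD
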