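import Pool.Agent.RadPD.Defs

set_option autoImplicit false

namespace Pool.Agent.RadPD

open MeasureTheory ProbabilityTheory

variable {F : Subfield ℂ} {X : Type*} [mX : MeasurableSpace X]

/-! ## Module CE: conditional expectations and the action -/

section CE

variable (S : RotSys F X) {Y : SA X}

/-- the action as measurable equivalences -/
noncomputable def CE_equiv (u : K F) : X ≃ᵐ X where
  toFun := S.T u
  invFun := S.T u⁻¹
  left_inv := fun x => by rw [← S.T_mul, inv_mul_cancel, S.T_one]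
  right_inv := fun x => by rw [← S.T_mul, mul_inv_cancel, S.T_one]
  measurable_toFun := (S.T_mp u).measurable
  measurable_invFun := (S.T_mp u⁻¹).measurable

theorem CE_emb (u : K F) : MeasurableEmbedding (S.T u) := (CE_equiv S u).measurableEmbedding

theorem condExp_comp_T (hY : S.InvAlg Y) (u : K F) {f : X → ℂ} (hf : Integrable f S.m) :
    S.m[fun x => f (S.T u x) | Y.ms] =ᵐ[S.m] fun x => (S.m[f | Y.ms]) (S.T u x) := by
  have hint : Integrable (S.m[f | Y.ms]) S.m := integrable_condExp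
  have hTY : Measurable[Y.ms, Y.ms] (S.T u) := fun A hA => hY.inv u A hA
  refine (ae_eq_condExp_of_forall_setIntegral_eq hY.le ?_ ?_ ?_ ?_).symm
  · exact (S.T_mp u).integrable_comp_of_integrable hf
  · intro A _ _
    exact ((S.T_mp u).integrable_comp_of_integrable hint).integrableOn
  · intro A hA _
    set A' : Set X := S.T u⁻¹ ⁻¹' A with hA'
    have hA'm : MeasurableSet[Y.ms] A' := hY.inv u⁻¹ A hA
    have hAA : A = S.T u ⁻¹' A' := by
      rw [hA', ← Set.preimage_comp]
      have : S.T u⁻¹ ∘ S.T u = id := by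
        funext x
        simp only [Function.comp_apply, id]
        rw [← S.T_mul, inv_mul_cancel, S.T_one]
      rw [this, Set.preimage_id]
    rw [hAA]
    rw [(S.T_mp u).setIntegral_preimage_emb (CE_emb S u) (S.m[f | Y.ms]) A',
      (S.T_mp u).setIntegral_preimage_emb (CE_emb S u) f A']
    exact setIntegral_condExp hY.le hf hA'm
  · exact (stronglyMeasurable_condExp.comp_measurable hTY).aestronglyMeasurable

theorem norm_condExp_le (m : Measure X) [IsProbabilityMeasure m] (hY : Y.ms ≤ mX) {f : X → ℂ}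
    (hf : BM f) : ∀ᵐ x ∂m, ‖(m[f | Y.ms]) x‖ ≤ 1 :=
  ae_bdd_norm_condExp_of_ae_bdd_norm (Filter.Eventually.of_forall hf.bound)

theorem integral_condExp_mul (m : Measure X) [IsProbabilityMeasure m] (hY : Y.ms ≤ mX)
    {f g : X → ℂ} (hf : MemLp f 2 m) (hg : MemLp g 2 m) :
    ∫ x, (m[f | Y.ms]) x * g x ∂m = ∫ x, (m[f | Y.ms]) x * (m[g | Y.ms]) x ∂m := by
  have hf' : MemLp (m[f | Y.ms]) 2 m := hf.condExp (by norm_num)
  have hfg : Integrable (fun x => (m[f | Y.ms]) x * g x) m := hf'.integrable_mul hg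
  have h1 : m[fun x => (m[f | Y.ms]) x * g x | Y.ms] =ᵐ[m]
      fun x => (m[f | Y.ms]) x * (m[g | Y.ms]) x :=
    condExp_bilin_of_stronglyMeasurable_left (ContinuousLinearMap.mul ℝ ℂ)
      stronglyMeasurable_condExp hfg (hg.integrable (by norm_num))
  rw [← integral_congr_ae h1, integral_condExp hY]

theorem integral_mul_condExp (m : Measure X) [IsProbabilityMeasure m] (hY : Y.ms ≤ mX)
    {f g : X → ℂ} (hf : MemLp f 2 m) (hg : MemLp g 2 m) :
    ∫ x, f x * (m[g | Y.ms]) x ∂m = ∫ x, (m[f | Y.ms]) x * (m[g | Y.ms]) x ∂m := by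
  have h := integral_condExp_mul m hY hg hf
  simp only [mul_comm (f _), mul_comm ((m[f | Y.ms]) _)]
  exact h

/-- integrating against a `Y`-measurable function -/
theorem integral_mul_of_meas (m : Measure X) [IsProbabilityMeasure m] (hY : Y.ms ≤ mX)
    {f c : X → ℂ} (hf : Integrable f m) (hc : Measurable[Y.ms] c) {C : ℝ} (hC : ∀ x, ‖c x‖ ≤ C) :
    ∫ x, f x * c x ∂m = ∫ x, (m[f | Y.ms]) x * c x ∂m := by
  have hcs : StronglyMeasurable[Y.ms] c := hc.stronglyMeasurable
  have hcm : AEStronglyMeasurable c m := (hc.mono hY le_rfl).aestronglyMeasurable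
  have hfc : Integrable (fun x => f x * c x) m :=
    hf.mul_bdd hcm (Filter.Eventually.of_forall hC)
  have h1 : m[fun x => f x * c x | Y.ms] =ᵐ[m] fun x => (m[f | Y.ms]) x * c x :=
    condExp_bilin_of_stronglyMeasurable_right (ContinuousLinearMap.mul ℝ ℂ) hcs hfc hf
  rw [← integral_congr_ae h1, integral_condExp hY]

theorem condExp_conj (m : Measure X) [IsProbabilityMeasure m] (hY : Y.ms ≤ mX)
    {f : X → ℂ} (hf : Integrable f m) :
    m[fun x => (starRingEnd ℂ) (f x) | Y.ms] =ᵐ[m] fun x => (starRingEnd ℂ) ((m[f | Y.ms]) x) :=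
  (ContinuousLinearMap.comp_condExp_comm (m := Y.ms) hf
    (Complex.conjCLE : ℂ →L[ℝ] ℂ)).symm

theorem integral_sq_condExp_le (m : Measure X) [IsProbabilityMeasure m] (hY : Y.ms ≤ mX)
    {f : X → ℂ} (hf : MemLp f 2 m) :
    ∫ x, ‖(m[f | Y.ms]) x‖ ^ 2 ∂m ≤ ∫ x, ‖f x‖ ^ 2 ∂m := by
  have h1 : Integrable (fun x => ‖f x‖ ^ (2 : ℝ)) m := by
    have := hf.integrable_norm_rpow (by norm_num) (by norm_num)
    simpa using this
  have h2 := integral_norm_condExp_rpow_le (m := Y.ms) (p := 2) (by norm_num) h1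
  simpa [Real.rpow_two] using h2

/-- integral of a composition with the action -/
theorem integral_comp_T (u : K F) {E : Type*} [NormedAddCommGroup E] [NormedSpace ℝ E]
    (f : X → E) (hf : AEStronglyMeasurable f S.m) : ∫ x, f (S.T u x) ∂S.m = ∫ x, f x ∂S.m :=
  (S.T_mp u).integral_comp (CE_emb S u) f

theorem ae_comp_T (u : K F) {p : X → Prop} (h : ∀ᵐ x ∂S.m, p x) : ∀ᵐ x ∂S.m, p (S.T u x) :=
  (S.T_mp u).quasiMeasurePreserving.ae h

/-- bounded version of the conditional expectation, strictly `Y`-measurable and bounded by one -/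
theorem exists_bounded_condExp (m : Measure X) [IsProbabilityMeasure m] (hY : Y.ms ≤ mX)
    {f : X → ℂ} (hf : BM f) : ∃ h : X → ℂ, Measurable[Y.ms] h ∧ (∀ x, ‖h x‖ ≤ 1) ∧
      m[f | Y.ms] =ᵐ[m] h := by
  classical
  have hm : Measurable[Y.ms] (m[f | Y.ms]) := stronglyMeasurable_condExp.measurable
  refine ⟨fun x => if ‖(m[f | Y.ms]) x‖ ≤ 1 then (m[f | Y.ms]) x else 0, ?_, ?_, ?_⟩
  · refine Measurable.ite ?_ hm measurable_const
    exact (measurable_norm.comp hm) measurableSet_Iic
  · intro x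
    dsimp only
    split_ifs with h
    · exact h
    · simp
  · filter_upwards [norm_condExp_le m hY hf] with x hx
    rw [if_pos hx]

end CE

end Pool.Agent.RadPD
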