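import Pool.Agent.RadPD.Defs

set_option autoImplicit false

namespace Pool.Agent.RadPD

open MeasureTheory ProbabilityTheory

variable {F : Subfield ℂ} {X : Type*} [mX : MeasurableSpace X]

/-! ## Module CF: calculus of relatively compact families -/

section CF

variable {U : Type*} {m : Measure X} {W : SA X}

/-- Introduction with an arbitrary finite index type. -/
lemma CF_intro {f : U → X → ℂ} (h : ∀ δ : ℝ, 0 < δ → ∃ (ι : Type) (_ : Fintype ι)
    (a : ι → X → ℂ) (C D : ℝ), (∀ r, Measurable (a r)) ∧ (∀ r x, ‖a r x‖ ≤ C) ∧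
      ∀ u : U, ∃ c : ι → X → ℂ, (∀ r, Measurable[W.ms] (c r)) ∧ (∀ r x, ‖c r x‖ ≤ D) ∧
        ∫ x, ‖f u x - ∑ r, a r x * c r x‖ ^ 2 ∂m ≤ δ ^ 2) : CF m W f := by
  intro δ hδ
  obtain ⟨ι, _, a, C, D, ha, haC, hc⟩ := h δ hδ
  let e := Fintype.equivFin ι
  refine ⟨Fintype.card ι, fun r => a (e.symm r), max (max C D) 0, le_max_right _ _,
    fun r => ha _, fun r x => (haC _ x).trans ((le_max_left _ _).trans (le_max_left _ _)),
    fun u => ?_⟩
  obtain ⟨c, hc1, hc2, hc3⟩ := hc u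
  refine ⟨fun r => c (e.symm r), fun r => hc1 _, fun r x => (hc2 _ x).trans
    ((le_max_right _ _).trans (le_max_left _ _)), ?_⟩
  have h1 : ∀ x, ∑ r : Fin (Fintype.card ι), a (e.symm r) x * c (e.symm r) x =
      ∑ r, a r x * c r x := fun x => e.symm.sum_comp (fun r => a r x * c r x)
  simp only [h1]
  exact hc3

lemma CF_sq_add_le {p q : X → ℂ} (hp : Integrable (fun x => ‖p x‖ ^ 2) m)
    (hq : Integrable (fun x => ‖q x‖ ^ 2) m) :
    ∫ x, ‖p x + q x‖ ^ 2 ∂m ≤ 2 * ∫ x, ‖p x‖ ^ 2 ∂m + 2 * ∫ x, ‖q x‖ ^ 2 ∂m := by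
  rw [← integral_const_mul, ← integral_const_mul, ← integral_add (hp.const_mul 2)
    (hq.const_mul 2)]
  refine integral_mono_of_nonneg (Filter.Eventually.of_forall fun x => by positivity)
    ((hp.const_mul 2).add (hq.const_mul 2)) (Filter.Eventually.of_forall fun x => ?_)
  have h1 : ‖p x + q x‖ ≤ ‖p x‖ + ‖q x‖ := norm_add_le _ _
  have h2 : ‖p x + q x‖ ^ 2 ≤ (‖p x‖ + ‖q x‖) ^ 2 := pow_le_pow_left₀ (norm_nonneg _) h1 2
  have h3 := sq_nonneg (‖p x‖ - ‖q x‖)
  simp only []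
  nlinarith

lemma CF_memLp_of_bdd [IsProbabilityMeasure m] {p : X → ℂ} (hp : Measurable p) {C : ℝ}
    (hC : ∀ x, ‖p x‖ ≤ C) : MemLp p 2 m :=
  MemLp.of_bound hp.aestronglyMeasurable C (Filter.Eventually.of_forall hC)

lemma CF_sum_norm_le {ι : Type*} [Fintype ι] {a c : ι → X → ℂ} {C D : ℝ}
    (hD : 0 ≤ C) (ha : ∀ r x, ‖a r x‖ ≤ C) (hc : ∀ r x, ‖c r x‖ ≤ D) (x : X) :
    ‖∑ r, a r x * c r x‖ ≤ Fintype.card ι * (C * D) := by
  refine (norm_sum_le _ _).trans ?_
  have h1 : ∑ r, ‖a r x * c r x‖ ≤ ∑ _r : ι, C * D := by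
    refine Finset.sum_le_sum (fun r _ => ?_)
    rw [norm_mul]
    exact mul_le_mul (ha r x) (hc r x) (norm_nonneg _) hD
  simpa using h1

lemma CF_sum_meas (hW : W.ms ≤ mX) {ι : Type*} [Fintype ι] {a c : ι → X → ℂ}
    (ha : ∀ r, Measurable (a r)) (hc : ∀ r, Measurable[W.ms] (c r)) :
    Measurable (fun x => ∑ r, a r x * c r x) :=
  Finset.measurable_fun_sum _ (fun r _ => (ha r).mul ((hc r).mono hW le_rfl))

lemma CF_memLp_sum [IsProbabilityMeasure m] (hW : W.ms ≤ mX) {ι : Type*} [Fintype ι]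
    {a c : ι → X → ℂ} (ha : ∀ r, Measurable (a r)) (hc : ∀ r, Measurable[W.ms] (c r)) {C D : ℝ}
    (hC : 0 ≤ C) (haC : ∀ r x, ‖a r x‖ ≤ C) (hcD : ∀ r x, ‖c r x‖ ≤ D) :
    MemLp (fun x => ∑ r, a r x * c r x) 2 m :=
  CF_memLp_of_bdd (CF_sum_meas hW ha hc) (CF_sum_norm_le hC haC hcD)

lemma CF_int_of_memLp {p : X → ℂ} (hp : MemLp p 2 m) : Integrable (fun x => ‖p x‖ ^ 2) m :=
  (memLp_two_iff_integrable_sq_norm hp.1).mp hp

theorem CF.of_meas {f : U → X → ℂ} {C : ℝ} (hm : ∀ u, Measurable[W.ms] (f u))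
    (hC : ∀ u x, ‖f u x‖ ≤ C) : CF m W f := by
  refine CF_intro (fun δ hδ => ⟨Unit, inferInstance, fun _ _ => 1, 1, C, fun _ => measurable_const,
    fun _ _ => by simp, fun u => ⟨fun _ => f u, fun _ => hm u, fun _ x => hC u x, ?_⟩⟩)
  have h1 : ∀ x, f u x - ∑ _r : Unit, (1 : ℂ) * f u x = 0 := fun x => by simp
  simp only [h1, norm_zero]
  simp only [ne_eq, OfNat.ofNat_ne_zero, not_false_eq_true, zero_pow, integral_zero]
  positivity

theorem CF.comp_index {V : Type*} {f : U → X → ℂ} (h : CF m W f) (φ : V → U) :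
    CF m W (fun v => f (φ v)) := by
  intro δ hδ
  obtain ⟨n, a, C, hC, ha, haC, hc⟩ := h δ hδ
  exact ⟨n, a, C, hC, ha, haC, fun v => hc (φ v)⟩

theorem CF.congr {f g : U → X → ℂ} (h : CF m W f) (hfg : ∀ u, f u =ᵐ[m] g u) : CF m W g := by
  intro δ hδ
  obtain ⟨n, a, C, hC, ha, haC, hc⟩ := h δ hδ
  refine ⟨n, a, C, hC, ha, haC, fun u => ?_⟩
  obtain ⟨c, hc1, hc2, hc3⟩ := hc u
  refine ⟨c, hc1, hc2, le_of_eq_of_le (integral_congr_ae ?_) hc3⟩
  filter_upwards [hfg u] with x hx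
  rw [hx]

theorem CF.add [IsProbabilityMeasure m] (hW : W.ms ≤ mX) {f g : U → X → ℂ} (hf : CF m W f)
    (hg : CF m W g) (hfm : ∀ u, MemLp (f u) 2 m) (hgm : ∀ u, MemLp (g u) 2 m) :
    CF m W (fun u x => f u x + g u x) := by
  refine CF_intro (fun δ hδ => ?_)
  obtain ⟨n, a, C, hC, ha, haC, hc⟩ := hf (δ / 2) (by positivity)
  obtain ⟨n', a', C', hC', ha', haC', hc'⟩ := hg (δ / 2) (by positivity)
  refine ⟨Fin n ⊕ Fin n', inferInstance, Sum.elim a a', max C C', max C C', ?_, ?_, fun u => ?_⟩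
  · rintro (r | r)
    · exact ha r
    · exact ha' r
  · rintro (r | r) x
    · exact (haC r x).trans (le_max_left _ _)
    · exact (haC' r x).trans (le_max_right _ _)
  · obtain ⟨c, hc1, hc2, hc3⟩ := hc u
    obtain ⟨c', hc1', hc2', hc3'⟩ := hc' u
    refine ⟨Sum.elim c c', ?_, ?_, ?_⟩
    · rintro (r | r)
      · exact hc1 r
      · exact hc1' r
    · rintro (r | r) x
      · exact (hc2 r x).trans (le_max_left _ _)
      · exact (hc2' r x).trans (le_max_right _ _)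
    · have h1 : ∀ x, (f u x + g u x) - ∑ r, Sum.elim a a' r x * Sum.elim c c' r x =
          (f u x - ∑ r, a r x * c r x) + (g u x - ∑ r, a' r x * c' r x) := by
        intro x
        rw [Fintype.sum_sum_type]
        simp only [Sum.elim_inl, Sum.elim_inr]
        ring
      simp only [h1]
      have h2 := CF_sq_add_le (m := m)
        (CF_int_of_memLp ((hfm u).sub (CF_memLp_sum hW ha hc1 hC haC hc2)))
        (CF_int_of_memLp ((hgm u).sub (CF_memLp_sum hW ha' hc1' hC' haC' hc2')))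
      simp only [Pi.sub_apply] at h2
      nlinarith

theorem CF.smul [IsProbabilityMeasure m] (hW : W.ms ≤ mX) {f : U → X → ℂ} (hf : CF m W f)
    (hfm : ∀ u, MemLp (f u) 2 m) (c : ℂ) : CF m W (fun u x => c * f u x) := by
  refine CF_intro (fun δ hδ => ?_)
  have hc0 : 0 < ‖c‖ + 1 := by positivity
  obtain ⟨n, a, C, hC, ha, haC, hcc⟩ := hf (δ / (‖c‖ + 1)) (by positivity)
  refine ⟨Fin n, inferInstance, a, C, ‖c‖ * C, ha, haC, fun u => ?_⟩
  obtain ⟨b, hb1, hb2, hb3⟩ := hcc u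
  refine ⟨fun r x => c * b r x, fun r => (hb1 r).const_mul c, fun r x => ?_, ?_⟩
  · rw [norm_mul]
    exact mul_le_mul_of_nonneg_left (hb2 r x) (norm_nonneg _)
  · have h1 : ∀ x, ‖c * f u x - ∑ r, a r x * (c * b r x)‖ ^ 2 =
        ‖c‖ ^ 2 * ‖f u x - ∑ r, a r x * b r x‖ ^ 2 := by
      intro x
      rw [← mul_pow, ← norm_mul, mul_sub, Finset.mul_sum]
      congr 3
      exact Finset.sum_congr rfl (fun r _ => by ring)
    simp only [h1]
    rw [integral_const_mul]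
    have h2 : ‖c‖ ^ 2 * (∫ x, ‖f u x - ∑ r, a r x * b r x‖ ^ 2 ∂m) ≤
        ‖c‖ ^ 2 * (δ / (‖c‖ + 1)) ^ 2 := mul_le_mul_of_nonneg_left hb3 (by positivity)
    refine h2.trans ?_
    rw [div_pow, ← mul_div_assoc, div_le_iff₀ (by positivity)]
    have h3 : ‖c‖ ^ 2 ≤ (‖c‖ + 1) ^ 2 := by
      have := norm_nonneg c
      nlinarith
    nlinarith [sq_nonneg δ, mul_le_mul_of_nonneg_right h3 (sq_nonneg δ)]

theorem CF.conj {f : U → X → ℂ} (hf : CF m W f) :
    CF m W (fun u x => (starRingEnd ℂ) (f u x)) := by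
  intro δ hδ
  obtain ⟨n, a, C, hC, ha, haC, hc⟩ := hf δ hδ
  refine ⟨n, fun r x => (starRingEnd ℂ) (a r x), C, hC,
    fun r => Complex.continuous_conj.measurable.comp (ha r), fun r x => ?_, fun u => ?_⟩
  · rw [RCLike.norm_conj]
    exact haC r x
  · obtain ⟨c, hc1, hc2, hc3⟩ := hc u
    refine ⟨fun r x => (starRingEnd ℂ) (c r x),
      fun r => Complex.continuous_conj.measurable.comp (hc1 r), fun r x => ?_, ?_⟩
    · rw [RCLike.norm_conj]
      exact hc2 r x
    · have h1 : ∀ x, ‖(starRingEnd ℂ) (f u x) - ∑ r, (starRingEnd ℂ) (a r x) *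
          (starRingEnd ℂ) (c r x)‖ = ‖f u x - ∑ r, a r x * c r x‖ := by
        intro x
        rw [← RCLike.norm_conj (f u x - ∑ r, a r x * c r x)]
        simp only [map_sub, map_sum, map_mul]
      simp only [h1]
      exact hc3

theorem CF.mul [IsProbabilityMeasure m] (hW : W.ms ≤ mX) {f g : U → X → ℂ} (hf : CF m W f)
    (hg : CF m W g) (hfm : ∀ u, Measurable (f u)) (hgm : ∀ u, Measurable (g u)) {C : ℝ}
    (hfC : ∀ u x, ‖f u x‖ ≤ C) (hgC : ∀ u x, ‖g u x‖ ≤ C) :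
    CF m W (fun u x => f u x * g u x) := by
  refine CF_intro (fun δ hδ => ?_)
  obtain ⟨n, a, A, hA, ha, haA, hc⟩ := hf (δ / (2 * (|C| + 1))) (by positivity)
  set D : ℝ := Fintype.card (Fin n) * (A * A) with hD
  have hD0 : 0 ≤ D := by positivity
  obtain ⟨n', a', A', hA', ha', haA', hc'⟩ := hg (δ / (2 * (D + 1))) (by positivity)
  refine ⟨Fin n × Fin n', inferInstance, fun r x => a r.1 x * a' r.2 x, A * A', A * A',
    fun r => (ha _).mul (ha' _), fun r x => ?_, fun u => ?_⟩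
  · rw [norm_mul]
    exact mul_le_mul (haA _ x) (haA' _ x) (norm_nonneg _) hA
  · obtain ⟨c, hc1, hc2, hc3⟩ := hc u
    obtain ⟨c', hc1', hc2', hc3'⟩ := hc' u
    refine ⟨fun r x => c r.1 x * c' r.2 x, fun r => (hc1 _).mul (hc1' _), fun r x => ?_, ?_⟩
    · rw [norm_mul]
      exact mul_le_mul (hc2 _ x) (hc2' _ x) (norm_nonneg _) hA
    · have h1 : ∀ x, f u x * g u x - ∑ r : Fin n × Fin n', (a r.1 x * a' r.2 x) *
          (c r.1 x * c' r.2 x) = (f u x - ∑ r, a r x * c r x) * g u x +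
            (∑ r, a r x * c r x) * (g u x - ∑ r, a' r x * c' r x) := by
        intro x
        have h2 : ∑ r : Fin n × Fin n', (a r.1 x * a' r.2 x) * (c r.1 x * c' r.2 x) =
            (∑ r, a r x * c r x) * (∑ r, a' r x * c' r x) := by
          rw [Fintype.sum_prod_type, Finset.sum_mul_sum]
          exact Finset.sum_congr rfl (fun i _ => Finset.sum_congr rfl (fun j _ => by ring))
        rw [h2]
        ring
      simp only [h1]
      have hCx : ∀ x : X, 0 ≤ C := fun x => (norm_nonneg _).trans (hfC u x)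
      have hsm := CF_sum_meas hW ha hc1
      have hsm' := CF_sum_meas hW ha' hc1'
      have hsn : ∀ x, ‖∑ r, a r x * c r x‖ ≤ D := CF_sum_norm_le hA haA hc2
      have hsn' := CF_sum_norm_le hA' haA' hc2'
      have hi1 : MemLp (fun x => f u x - ∑ r, a r x * c r x) 2 m :=
        (CF_memLp_of_bdd (hfm u) (hfC u)).sub (CF_memLp_of_bdd hsm hsn)
      have hi2 : MemLp (fun x => g u x - ∑ r, a' r x * c' r x) 2 m :=
        (CF_memLp_of_bdd (hgm u) (hgC u)).sub (CF_memLp_of_bdd hsm' hsn')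
      have hC1 : ∀ x, ‖g u x‖ ≤ |C| := fun x => (hgC u x).trans (le_abs_self C)
      have hf1 : ∀ x, ‖f u x‖ ≤ |C| := fun x => (hfC u x).trans (le_abs_self C)
      have hb1 : MemLp (fun x => (f u x - ∑ r, a r x * c r x) * g u x) 2 m := by
        refine CF_memLp_of_bdd (C := (|C| + D) * |C|) (((hfm u).sub hsm).mul (hgm u))
          (fun x => ?_)
        rw [norm_mul]
        refine mul_le_mul ((norm_sub_le _ _).trans (add_le_add (hf1 x) (hsn x))) (hC1 x)
          (norm_nonneg _) (by positivity)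
      have hb2 : MemLp (fun x => (∑ r, a r x * c r x) * (g u x - ∑ r, a' r x * c' r x)) 2 m := by
        refine CF_memLp_of_bdd (C := D * (|C| + Fintype.card (Fin n') * (A' * A')))
          (hsm.mul ((hgm u).sub hsm')) (fun x => ?_)
        rw [norm_mul]
        exact mul_le_mul (hsn x) ((norm_sub_le _ _).trans (add_le_add (hC1 x) (hsn' x)))
          (norm_nonneg _) hD0
      refine (CF_sq_add_le (CF_int_of_memLp hb1) (CF_int_of_memLp hb2)).trans ?_
      have e1 : ∫ x, ‖(f u x - ∑ r, a r x * c r x) * g u x‖ ^ 2 ∂m ≤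
          |C| ^ 2 * (δ / (2 * (|C| + 1))) ^ 2 := by
        have h3 : ∫ x, ‖(f u x - ∑ r, a r x * c r x) * g u x‖ ^ 2 ∂m ≤
            ∫ x, |C| ^ 2 * ‖f u x - ∑ r, a r x * c r x‖ ^ 2 ∂m := by
          refine integral_mono (CF_int_of_memLp hb1) ((CF_int_of_memLp hi1).const_mul _)
            (fun x => ?_)
          simp only []
          rw [norm_mul, mul_pow, mul_comm]
          exact mul_le_mul_of_nonneg_right (pow_le_pow_left₀ (norm_nonneg _) (hC1 x) 2)
            (by positivity)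
        refine h3.trans ?_
        rw [integral_const_mul]
        exact mul_le_mul_of_nonneg_left hc3 (by positivity)
      have e2 : ∫ x, ‖(∑ r, a r x * c r x) * (g u x - ∑ r, a' r x * c' r x)‖ ^ 2 ∂m ≤
          D ^ 2 * (δ / (2 * (D + 1))) ^ 2 := by
        have h3 : ∫ x, ‖(∑ r, a r x * c r x) * (g u x - ∑ r, a' r x * c' r x)‖ ^ 2 ∂m ≤
            ∫ x, D ^ 2 * ‖g u x - ∑ r, a' r x * c' r x‖ ^ 2 ∂m := by
          refine integral_mono (CF_int_of_memLp hb2) ((CF_int_of_memLp hi2).const_mul _)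
            (fun x => ?_)
          simp only []
          rw [norm_mul, mul_pow]
          exact mul_le_mul_of_nonneg_right (pow_le_pow_left₀ (norm_nonneg _) (hsn x) 2)
            (by positivity)
        refine h3.trans ?_
        rw [integral_const_mul]
        exact mul_le_mul_of_nonneg_left hc3' (by positivity)
      have key : ∀ t : ℝ, 0 ≤ t → t ^ 2 * (δ / (2 * (t + 1))) ^ 2 ≤ δ ^ 2 / 4 := by
        intro t ht
        have h4 : t * (δ / (2 * (t + 1))) ≤ δ / 2 := by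
          rw [← mul_div_assoc, div_le_div_iff₀ (by positivity) (by positivity)]
          nlinarith
        have h5 : (t * (δ / (2 * (t + 1)))) ^ 2 ≤ (δ / 2) ^ 2 :=
          pow_le_pow_left₀ (by positivity) h4 2
        rw [mul_pow] at h5
        linarith [show (δ / 2) ^ 2 = δ ^ 2 / 4 by ring]
      have k1 := key |C| (abs_nonneg C)
      have k2 := key D hD0
      linarith

/-- uniform `L²` limits -/
theorem CF.of_approx [IsProbabilityMeasure m] (hW : W.ms ≤ mX) {f : U → X → ℂ}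
    (hfm : ∀ u, MemLp (f u) 2 m)
    (h : ∀ ε : ℝ, 0 < ε → ∃ g : U → X → ℂ, (∀ u, MemLp (g u) 2 m) ∧ CF m W g ∧
      ∀ u, ∫ x, ‖f u x - g u x‖ ^ 2 ∂m ≤ ε ^ 2) : CF m W f := by
  intro δ hδ
  obtain ⟨g, hg1, hg2, hg3⟩ := h (δ / 2) (by positivity)
  obtain ⟨n, a, C, hC, ha, haC, hc⟩ := hg2 (δ / 2) (by positivity)
  refine ⟨n, a, C, hC, ha, haC, fun u => ?_⟩
  obtain ⟨c, hc1, hc2, hc3⟩ := hc u
  refine ⟨c, hc1, hc2, ?_⟩
  have h1 : ∀ x, f u x - ∑ r, a r x * c r x = (f u x - g u x) + (g u x - ∑ r, a r x * c r x) :=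
    fun x => by ring
  simp only [h1]
  have h2 := CF_sq_add_le (m := m) (CF_int_of_memLp ((hfm u).sub (hg1 u)))
    (CF_int_of_memLp ((hg1 u).sub (CF_memLp_sum hW ha hc1 hC haC hc2)))
  simp only [Pi.sub_apply] at h2
  have h3 := hg3 u
  nlinarith

end CF

end Pool.Agent.RadPD
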