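import Pool.Agent.RadPD.FM
import Pool.Agent.RadPD.CE

set_option autoImplicit false

namespace Pool.Agent.RadPD

open MeasureTheory ProbabilityTheory

variable {F : Subfield ℂ} {X : Type*} [mX : MeasurableSpace X]

/-! ## Module ER: mean ergodic theorem for the invariant σ-algebra -/

theorem ER_invt_le (S : RotSys F X) : S.invt.ms ≤ mX := fun _ h => h.1

theorem ER_bm_integrable (m : Measure X) [IsProbabilityMeasure m] {f : X → ℂ} (hf : BM f) :
    Integrable f m :=
  Integrable.of_bound hf.meas.aestronglyMeasurable 1 (Filter.Eventually.of_forall hf.bound)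

theorem ER_bm_memLp (m : Measure X) [IsProbabilityMeasure m] {f : X → ℂ} (hf : BM f) :
    MemLp f 2 m :=
  MemLp.of_bound hf.meas.aestronglyMeasurable 1 (Filter.Eventually.of_forall hf.bound)

theorem ER_bm_comp (S : RotSys F X) {f : X → ℂ} (hf : BM f) (u : K F) :
    BM (fun x => f (S.T u x)) :=
  ⟨hf.meas.comp (S.T_mp u).measurable, fun _ => hf.bound _⟩

theorem ER_bm_mul {f g : X → ℂ} (hf : BM f) (hg : BM g) : BM (fun x => f x * g x) := by
  refine ⟨hf.meas.mul hg.meas, fun x => ?_⟩
  rw [norm_mul]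
  exact mul_le_one₀ (hf.bound x) (norm_nonneg _) (hg.bound x)

theorem ER_norm_integral_le (m : Measure X) [IsProbabilityMeasure m] {f : X → ℂ} (hf : BM f) :
    ‖∫ x, f x ∂m‖ ≤ 1 := by
  have h := norm_integral_le_of_norm_le_const (μ := m) (C := 1)
    (Filter.Eventually.of_forall hf.bound)
  simpa using h

/-- change of variables by an element of the group -/
theorem ER_int_T (S : RotSys F X) (u : K F) {f : X → ℂ} (hf : Measurable f) :
    ∫ x, f (S.T u x) ∂S.m = ∫ x, f x ∂S.m :=
  integral_comp_T S u f hf.aestronglyMeasurable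

/-- the weak mean of the rotates is invariant -/
theorem ER_inv (S : RotSys F X) (M : Mean (K F)) (hM : M.IsInv) {f V : X → ℂ} (hf : BM f)
    (hV : BM V) (h : ∀ g : X → ℂ, MemLp g 2 S.m →
      ∫ x, V x * g x ∂S.m = M.cx (fun u => ∫ x, f (S.T u x) * g x ∂S.m)) (w : K F) :
    (fun x => V (S.T w x)) =ᵐ[S.m] V := by
  have key : ∀ g : X → ℂ, BM g → ∫ x, V (S.T w x) * g x ∂S.m = ∫ x, V x * g x ∂S.m := by
    intro g hg
    have hT : ∀ x, S.T w⁻¹ (S.T w x) = x := by
      intro x
      rw [← S.T_mul, inv_mul_cancel, S.T_one]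
    have h1 : ∫ x, V (S.T w x) * g x ∂S.m = ∫ x, V x * g (S.T w⁻¹ x) ∂S.m := by
      rw [← ER_int_T S w (f := fun x => V x * g (S.T w⁻¹ x))
        (hV.meas.mul (hg.meas.comp (S.T_mp w⁻¹).measurable))]
      simp only [hT]
    have h2 : ∀ u : K F, ∫ x, f (S.T u x) * g (S.T w⁻¹ x) ∂S.m =
        ∫ x, f (S.T (w * u) x) * g x ∂S.m := by
      intro u
      rw [← ER_int_T S w (f := fun x => f (S.T u x) * g (S.T w⁻¹ x))
        ((hf.meas.comp (S.T_mp u).measurable).mul (hg.meas.comp (S.T_mp w⁻¹).measurable))]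
      simp only [hT, ← S.T_mul, mul_comm w u]
    rw [h1, h (fun x => g (S.T w⁻¹ x)) (ER_bm_memLp _ (ER_bm_comp S hg w⁻¹))]
    simp only [h2]
    rw [hM.cx w (f := fun u => ∫ x, f (S.T u x) * g x ∂S.m) (C := 1)
      (fun u => ER_norm_integral_le _ (ER_bm_mul (ER_bm_comp S hf u) hg)),
      ← h g (ER_bm_memLp _ hg)]
  -- test with the conjugate of the difference
  set D : X → ℂ := fun x => V (S.T w x) - V x with hD
  have hDm : Measurable D := (hV.meas.comp (S.T_mp w).measurable).sub hV.meas
  have hD2 : ∀ x, ‖D x‖ ≤ 2 := fun x =>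
    (norm_sub_le _ _).trans (by linarith [hV.bound (S.T w x), hV.bound x])
  set g : X → ℂ := fun x => (1 / 2 : ℂ) * (starRingEnd ℂ) (D x) with hg
  have hgB : BM g := by
    refine ⟨(Complex.continuous_conj.measurable.comp hDm).const_mul _, fun x => ?_⟩
    simp only [hg, norm_mul, RCLike.norm_conj]
    have := hD2 x
    norm_num
    linarith
  have h3 := key g hgB
  have hi1 : Integrable (fun x => V (S.T w x) * g x) S.m :=
    ER_bm_integrable _ (ER_bm_mul (ER_bm_comp S hV w) hgB)
  have hi2 : Integrable (fun x => V x * g x) S.m := ER_bm_integrable _ (ER_bm_mul hV hgB)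
  have h4 : ∫ x, (1 / 2 : ℂ) * ((‖D x‖ ^ 2 : ℝ) : ℂ) ∂S.m = 0 := by
    rw [← sub_eq_zero, ← integral_sub hi1 hi2] at h3
    rw [← h3]
    refine integral_congr_ae (Filter.Eventually.of_forall fun x => ?_)
    simp only [hg]
    have : (V (S.T w x) - V x) * (starRingEnd ℂ) (D x) = ((‖D x‖ ^ 2 : ℝ) : ℂ) := by
      change D x * (starRingEnd ℂ) (D x) = _
      rw [Complex.mul_conj, Complex.normSq_eq_norm_sq]
    rw [← this]
    ring
  have h5 : ∫ x, ‖D x‖ ^ 2 ∂S.m = 0 := by
    rw [integral_const_mul, integral_complex_ofReal] at h4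
    have h6 := (mul_eq_zero.1 h4).resolve_left (by norm_num)
    exact_mod_cast h6
  have h6 : (fun x => ‖D x‖ ^ 2) =ᵐ[S.m] 0 := by
    refine (integral_eq_zero_iff_of_nonneg (fun x => by positivity) ?_).1 h5
    refine Integrable.of_bound (hDm.norm.pow_const 2).aestronglyMeasurable 4
      (Filter.Eventually.of_forall fun x => ?_)
    rw [Real.norm_eq_abs, abs_of_nonneg (by positivity)]
    have := hD2 x
    nlinarith [norm_nonneg (D x)]
  filter_upwards [h6] with x hx
  have h7 : ‖D x‖ = 0 := by simpa using hx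
  have h8 : D x = 0 := norm_eq_zero.1 h7
  exact sub_eq_zero.1 h8

theorem mean_ergodic (S : RotSys F X) (M : Mean (K F)) (hM : M.IsInv) {f g : X → ℂ} (hf : BM f)
    (hg : BM g) :
    M.cx (fun u => ∫ x, f (S.T u x) * g x ∂S.m) =
      ∫ x, (S.m[f | S.invt.ms]) x * g x ∂S.m := by
  obtain ⟨V, hV, h⟩ := exists_fmean M S.m (fun u x => f (S.T u x)) fun u => ER_bm_comp S hf u
  have hinv := ER_inv S M hM hf hV h
  have hVm : Measurable[S.invt.ms] V := by
    intro B hB
    refine ⟨hV.meas hB, fun u => ?_⟩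
    filter_upwards [hinv u] with x hx
    change (V (S.T u x) ∈ B) = (V x ∈ B)
    have hx' : V (S.T u x) = V x := hx
    rw [hx']
  have hVe : V =ᵐ[S.m] S.m[f | S.invt.ms] := by
    refine ae_eq_condExp_of_forall_setIntegral_eq (ER_invt_le S) (ER_bm_integrable _ hf)
      (fun s _ _ => (ER_bm_integrable _ hV).integrableOn) (fun s hs _ => ?_)
      (hVm.stronglyMeasurable.aestronglyMeasurable)
    have hs' : MeasurableSet s := hs.1
    set ind : X → ℂ := s.indicator fun _ => 1 with hind
    have hB : BM ind := by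
      refine ⟨measurable_const.indicator hs', fun x => ?_⟩
      simp only [hind]
      by_cases hx : x ∈ s
      · rw [Set.indicator_of_mem hx, norm_one]
      · rw [Set.indicator_of_notMem hx, norm_zero]
        exact zero_le_one
    have hmulind : ∀ W : X → ℂ, ∫ x in s, W x ∂S.m = ∫ x, W x * ind x ∂S.m := by
      intro W
      rw [← integral_indicator hs']
      refine integral_congr_ae (Filter.Eventually.of_forall fun x => ?_)
      simp only [hind]
      by_cases hx : x ∈ s
      · rw [Set.indicator_of_mem hx, Set.indicator_of_mem hx, mul_one]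
      · rw [Set.indicator_of_notMem hx, Set.indicator_of_notMem hx, mul_zero]
    rw [hmulind, hmulind, h ind (ER_bm_memLp _ hB)]
    have h1 : ∀ u : K F, ∫ x, f (S.T u x) * ind x ∂S.m = ∫ x, f x * ind x ∂S.m := by
      intro u
      rw [← ER_int_T S u (f := fun x => f x * ind x) (hf.meas.mul hB.meas)]
      refine integral_congr_ae ?_
      filter_upwards [hs.2 u] with x hx
      have hx' : S.T u x ∈ s ↔ x ∈ s := iff_of_eq hx
      have hx2 : ind (S.T u x) = ind x := by
        simp only [hind]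
        by_cases h3 : x ∈ s
        · rw [Set.indicator_of_mem h3, Set.indicator_of_mem (hx'.2 h3)]
        · rw [Set.indicator_of_notMem h3, Set.indicator_of_notMem fun h4 => h3 (hx'.1 h4)]
      rw [hx2]
    simp only [h1]
    exact M.cx_const _
  rw [← h g (ER_bm_memLp _ hg)]
  refine integral_congr_ae ?_
  filter_upwards [hVe] with x hx
  rw [hx]

end Pool.Agent.RadPD
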