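import Pool.Agent.RadPD.Defs

set_option autoImplicit false

namespace Pool.Agent.RadPD

open MeasureTheory ProbabilityTheory

/-! ## Module FL: the field -/

section FL

variable {F : Subfield ℂ}

theorem cK_mul (u v : K F) : cK F (u * v) = cK F u * cK F v := by
  apply Subtype.ext
  simp [cK]
theorem cK_one : cK F 1 = 1 := by
  apply Subtype.ext
  simp [cK]
theorem cK_inv (u : K F) : cK F u⁻¹ = (cK F u)⁻¹ := by
  apply Subtype.ext
  simp [cK]
theorem cK_pow (u : K F) (n : ℕ) : cK F (u ^ n) = cK F u ^ n := by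
  apply Subtype.ext
  simp [cK]
theorem cK_injective : Function.Injective (cK F) := by
  intro u v h
  have h1 : ((cK F u : F) : ℂ) = ((cK F v : F) : ℂ) := by rw [h]
  apply Subtype.ext
  apply Circle.ext
  exact h1
theorem norm_cK (u : K F) : ‖((cK F u : F) : ℂ)‖ = 1 := by
  simp [cK]
theorem cK_ne_zero (u : K F) : cK F u ≠ 0 := by
  intro h
  have h1 := norm_cK u
  rw [h] at h1
  simp at h1
theorem cR_add (s t : F0 F) : cR F (s + t) = cR F s + cR F t := by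
  apply Subtype.ext
  simp [cR]
theorem cR_mul (s t : F0 F) : cR F (s * t) = cR F s * cR F t := by
  apply Subtype.ext
  simp [cR]
theorem cR_one : cR F 1 = 1 := by
  apply Subtype.ext
  simp [cR]
theorem cR_zero : cR F 0 = 0 := by
  apply Subtype.ext
  simp [cR]
theorem cR_neg (s : F0 F) : cR F (-s) = - cR F s := by
  apply Subtype.ext
  simp [cR]
theorem cR_pow (s : F0 F) (n : ℕ) : cR F (s ^ n) = cR F s ^ n := by
  apply Subtype.ext
  simp [cR]
theorem cR_injective : Function.Injective (cR F) := by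
  intro s t h
  have h1 : ((cR F s : F) : ℂ) = ((cR F t : F) : ℂ) := by rw [h]
  apply Subtype.ext
  exact Complex.ofReal_injective h1
theorem coe_cR (t : F0 F) : ((cR F t : F) : ℂ) = ((t : ℝ) : ℂ) := rfl
theorem coe_cK (u : K F) : ((cK F u : F) : ℂ) = ((u : Circle) : ℂ) := rfl

/-! private helpers -/

theorem FL_mem_F0 {x : ℝ} (h : (x : ℂ) ∈ F) : x ∈ F0 F := h

/-- a unimodular element of `F` gives an element of `K F` -/
theorem FL_exists_cK {z : ℂ} (hz : z ∈ F) (h1 : ‖z‖ = 1) : ∃ u : K F, ((u : Circle) : ℂ) = z := by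
  refine ⟨⟨⟨z, by simp [Submonoid.unitSphere, h1]⟩, ?_⟩, rfl⟩
  exact hz

variable (hF : RadClosed F)
include hF

theorem FL_sqrt_mem {x : ℝ} (hx : 0 ≤ x) (h : (x : ℂ) ∈ F) : ((Real.sqrt x : ℝ) : ℂ) ∈ F := by
  obtain ⟨w, hw, hw2⟩ := hF.root_mem 2 (by norm_num) _ h
  have h3 : ((Real.sqrt x : ℝ) : ℂ) ^ 2 = (x : ℂ) := by
    rw [← Complex.ofReal_pow, Real.sq_sqrt hx]
  have h4 : w ^ 2 = ((Real.sqrt x : ℝ) : ℂ) ^ 2 := by rw [h3, hw2]
  rcases sq_eq_sq_iff_eq_or_eq_neg.mp h4 with h5 | h5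
  · rw [← h5]; exact hw
  · have : ((Real.sqrt x : ℝ) : ℂ) = - w := by rw [h5]; ring
    rw [this]
    exact F.neg_mem hw

theorem FL_norm_mem {z : ℂ} (hz : z ∈ F) : ((‖z‖ : ℝ) : ℂ) ∈ F := by
  have h1 : (((‖z‖ ^ 2 : ℝ)) : ℂ) ∈ F := by
    have h2 : (((‖z‖ ^ 2 : ℝ)) : ℂ) = z * (starRingEnd ℂ) z := by
      rw [Complex.mul_conj, Complex.normSq_eq_norm_sq]
    rw [h2]
    exact F.mul_mem hz (hF.conj_mem z hz)
  have h3 := FL_sqrt_mem hF (sq_nonneg _) h1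
  rwa [Real.sqrt_sq (norm_nonneg _)] at h3

theorem FL_I_mem : Complex.I ∈ F := by
  obtain ⟨w, hw, hw2⟩ := hF.root_mem 2 (by norm_num) (-1) (F.neg_mem F.one_mem)
  have h4 : w ^ 2 = Complex.I ^ 2 := by rw [hw2, Complex.I_sq]
  rcases sq_eq_sq_iff_eq_or_eq_neg.mp h4 with h5 | h5
  · rw [← h5]; exact hw
  · have : Complex.I = - w := by rw [h5]; ring
    rw [this]
    exact F.neg_mem hw

theorem FL_re_mem {z : ℂ} (hz : z ∈ F) : ((z.re : ℝ) : ℂ) ∈ F := by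
  have h : ((z.re : ℝ) : ℂ) = (z + (starRingEnd ℂ) z) / 2 := by
    rw [Complex.add_conj]; push_cast; ring
  rw [h]
  exact F.div_mem (F.add_mem hz (hF.conj_mem z hz)) (by
    have : (2:ℂ) = 1 + 1 := by norm_num
    rw [this]; exact F.add_mem F.one_mem F.one_mem)

theorem FL_im_mem {z : ℂ} (hz : z ∈ F) : ((z.im : ℝ) : ℂ) ∈ F := by
  have h1 := FL_re_mem hF (F.mul_mem (F.neg_mem (FL_I_mem hF)) hz)
  have h2 : (-Complex.I * z).re = z.im := by simp
  rwa [h2] at h1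

theorem exists_cR_norm (z : F) : ∃ t : F0 F, (t : ℝ) = ‖(z : ℂ)‖ :=
  ⟨⟨‖(z : ℂ)‖, FL_norm_mem hF z.2⟩, rfl⟩
theorem exists_polar (z : F) : ∃ (u : K F) (t : F0 F), (t : ℝ) = ‖(z : ℂ)‖ ∧ z = cK F u * cR F t := by
  by_cases hz : (z : ℂ) = 0
  · refine ⟨1, 0, by simp [hz], ?_⟩
    rw [cR_zero, mul_zero]
    exact Subtype.ext hz
  · have hn : ‖(z : ℂ)‖ ≠ 0 := by simpa using hz
    have hnc : ((‖(z : ℂ)‖ : ℝ) : ℂ) ≠ 0 := by exact_mod_cast hn
    have h1 : (z : ℂ) / ((‖(z : ℂ)‖ : ℝ) : ℂ) ∈ F := F.div_mem z.2 (FL_norm_mem hF z.2)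
    have h2 : ‖(z : ℂ) / ((‖(z : ℂ)‖ : ℝ) : ℂ)‖ = 1 := by
      rw [norm_div, Complex.norm_real, norm_norm, div_self hn]
    obtain ⟨u, hu⟩ := FL_exists_cK h1 h2
    refine ⟨u, ⟨‖(z : ℂ)‖, FL_norm_mem hF z.2⟩, rfl, ?_⟩
    apply Subtype.ext
    have h3 : ((cK F u * cR F ⟨‖(z : ℂ)‖, FL_norm_mem hF z.2⟩ : F) : ℂ) =
        ((u : Circle) : ℂ) * ((‖(z : ℂ)‖ : ℝ) : ℂ) := rfl
    rw [h3, hu]
    field_simp
omit hF in
theorem FL_exists_rot {z w : F} (h : ‖(z : ℂ)‖ = ‖(w : ℂ)‖) :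
    ∃ v : K F, w = cK F v * z := by
  by_cases hz : (z : ℂ) = 0
  · refine ⟨1, ?_⟩
    have hw : (w : ℂ) = 0 := by
      rw [hz] at h
      simpa using h.symm
    apply Subtype.ext
    have h3 : ((cK F 1 * z : F) : ℂ) = ((cK F 1 : F) : ℂ) * (z : ℂ) := rfl
    rw [h3, hz, hw, mul_zero]
  · have hn : ‖(z : ℂ)‖ ≠ 0 := by simpa using hz
    have h1 : (w : ℂ) / (z : ℂ) ∈ F := F.div_mem w.2 z.2
    have h2 : ‖(w : ℂ) / (z : ℂ)‖ = 1 := by
      rw [norm_div, ← h, div_self hn]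
    obtain ⟨u, hu⟩ := FL_exists_cK h1 h2
    refine ⟨u, ?_⟩
    apply Subtype.ext
    have h3 : ((cK F u * z : F) : ℂ) = ((u : Circle) : ℂ) * (z : ℂ) := rfl
    rw [h3, hu]
    field_simp
theorem exists_rot_of_norm_eq {z w : F} (h : ‖(z : ℂ)‖ = ‖(w : ℂ)‖) :
    ∃ v : K F, w = cK F v * z := by
  have _ := hF
  exact FL_exists_rot h
/-- isosceles triangles -/
theorem exists_isosceles {s c : F0 F} (hs : 0 < (s : ℝ)) (h0 : 0 ≤ (c : ℝ)) (h1 : (c : ℝ) < 2 * s) :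
    ∃ u : K F, cR F c = cR F s * (cK F u + cK F u⁻¹) := by
  set x : ℝ := (c : ℝ) / (2 * s) with hx
  have hx0 : 0 ≤ x := by positivity
  have hx1 : x < 1 := by rw [hx, div_lt_one (by positivity)]; exact h1
  have hxF : (x : ℂ) ∈ F := by
    rw [hx]; push_cast
    exact F.div_mem c.2 (F.mul_mem (by
      have : (2:ℂ) = 1 + 1 := by norm_num
      rw [this]; exact F.add_mem F.one_mem F.one_mem) s.2)
  have hy0 : 0 ≤ 1 - x ^ 2 := by nlinarith
  have hyF : ((Real.sqrt (1 - x ^ 2) : ℝ) : ℂ) ∈ F := by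
    apply FL_sqrt_mem hF hy0
    push_cast
    exact F.sub_mem F.one_mem (F.pow_mem hxF 2)
  set y := Real.sqrt (1 - x ^ 2) with hy
  have hxy : x ^ 2 + y ^ 2 = 1 := by rw [hy, Real.sq_sqrt hy0]; ring
  have hzF : (x : ℂ) + y * Complex.I ∈ F := F.add_mem hxF (F.mul_mem hyF (FL_I_mem hF))
  have hn : ‖(x : ℂ) + y * Complex.I‖ = 1 := by
    rw [Complex.norm_add_mul_I, hxy, Real.sqrt_one]
  obtain ⟨u, hu⟩ := FL_exists_cK hzF hn
  refine ⟨u, ?_⟩
  apply Subtype.ext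
  have h3 : ((cR F s * (cK F u + cK F u⁻¹) : F) : ℂ) =
      ((s : ℝ) : ℂ) * (((u : Circle) : ℂ) + ((u : Circle) : ℂ)⁻¹) := by
    rw [cK_inv]; rfl
  have h4 : ((cR F c : F) : ℂ) = ((c : ℝ) : ℂ) := rfl
  rw [h3, h4, hu]
  have h5 : ((x : ℂ) + y * Complex.I)⁻¹ = (x : ℂ) - y * Complex.I := by
    apply inv_eq_of_mul_eq_one_right
    have h6 : ((x : ℂ) ^ 2 + (y : ℂ) ^ 2) = 1 := by exact_mod_cast hxy
    linear_combination h6 - (y : ℂ) ^ 2 * Complex.I_sq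
  rw [h5]
  have h7 : ((s : ℝ) : ℂ) ≠ 0 := by exact_mod_cast hs.ne'
  have h8 : (x : ℂ) = ((c : ℝ) : ℂ) / (2 * ((s : ℝ) : ℂ)) := by rw [hx]; push_cast; ring
  rw [h8]
  field_simp
  ring
theorem K_divisible {n : ℕ} (hn : 0 < n) (u : K F) : ∃ v : K F, v ^ n = u := by
  obtain ⟨w, hw, hwn⟩ := hF.root_mem n hn ((u : Circle) : ℂ) u.2
  have h1 : ‖w‖ = 1 := by
    have h2 : ‖w‖ ^ n = 1 := by rw [← norm_pow, hwn]; simp
    exact (pow_eq_one_iff_of_nonneg (norm_nonneg _) hn.ne').mp h2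
  obtain ⟨v, hv⟩ := FL_exists_cK hw h1
  refine ⟨v, ?_⟩
  apply Subtype.ext
  apply Circle.ext
  have h3 : (((v ^ n : K F) : Circle) : ℂ) = ((v : Circle) : ℂ) ^ n := by simp
  rw [h3, hv, hwn]
theorem exists_pos_root {n : ℕ} (hn : 0 < n) {t : F0 F} (ht : 0 < (t : ℝ)) :
    ∃ r : F0 F, 0 < (r : ℝ) ∧ r ^ n = t := by
  obtain ⟨w, hw, hwn⟩ := hF.root_mem n hn ((t : ℝ) : ℂ) t.2
  have h2 : ‖w‖ ^ n = (t : ℝ) := by
    rw [← norm_pow, hwn, Complex.norm_real, Real.norm_of_nonneg ht.le]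
  have h3 : 0 < ‖w‖ := by
    rcases (norm_nonneg w).lt_or_eq with h | h
    · exact h
    · exfalso
      rw [← h, zero_pow hn.ne'] at h2
      exact ht.ne h2
  refine ⟨⟨‖w‖, FL_norm_mem hF hw⟩, h3, ?_⟩
  apply Subtype.ext
  simpa using h2
omit hF in
theorem FL_exists_negOne : ∃ u : K F, cK F u = -1 := by
  obtain ⟨u, hu⟩ := FL_exists_cK (F := F) (z := -1) (F.neg_mem F.one_mem) (by simp)
  refine ⟨u, ?_⟩
  apply Subtype.ext
  rw [coe_cK, hu]
  simp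
theorem exists_negOne : ∃ u : K F, cK F u = -1 := by
  have _ := hF
  exact FL_exists_negOne
theorem K_infinite : Infinite (K F) := by
  by_contra hfin
  rw [not_infinite_iff_finite] at hfin
  obtain ⟨u, hu⟩ := exists_negOne hF
  obtain ⟨v, hv⟩ := K_divisible hF (n := Nat.card (K F)) Nat.card_pos u
  have h1 : v ^ Nat.card (K F) = 1 := pow_card_eq_one'
  rw [h1] at hv
  rw [← hv, cK_one] at hu
  have h2 : ((1 : F) : ℂ) = ((-1 : F) : ℂ) := by rw [← hu]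
  simp only [OneMemClass.coe_one, NegMemClass.coe_neg] at h2
  norm_num at h2
omit hF in
theorem FL_sq_eq {a b : Circle} (h : ((b : ℂ) / (a : ℂ)).im = 0) : a ^ 2 = b ^ 2 := by
  have h1 : ‖(b : ℂ) / (a : ℂ)‖ = 1 := by rw [norm_div]; simp
  have h2 : ((b : ℂ) / (a : ℂ)) ^ 2 = 1 := by
    have h3 : (b : ℂ) / (a : ℂ) = ((((b : ℂ) / (a : ℂ)).re : ℝ) : ℂ) := by
      apply Complex.ext <;> simp [h]
    have h4 : (((b : ℂ) / (a : ℂ)).re) ^ 2 = 1 := by
      rw [h3, Complex.norm_real, Real.norm_eq_abs] at h1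
      rw [← sq_abs, h1]; norm_num
    rw [h3]
    exact_mod_cast h4
  apply Circle.ext
  rw [Circle.coe_pow, Circle.coe_pow]
  rw [div_pow, div_eq_one_iff_eq (pow_ne_zero 2 (Circle.coe_ne_zero a))] at h2
  exact h2.symm
/-- many unit vectors, pairwise not parallel -/
theorem exists_nonparallel (N : ℕ) : ∃ f : Fin N → K F, ∀ i j, i ≠ j →
    (((f j : Circle) : ℂ) / ((f i : Circle) : ℂ)).im ≠ 0 := by
  have := K_infinite hF
  obtain ⟨g⟩ : Nonempty (Fin N ↪ K F) := by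
    exact ⟨(Fin.valEmbedding).trans (Infinite.natEmbedding (K F))⟩
  choose f hf using fun i => K_divisible hF (n := 2) (by norm_num) (g i)
  refine ⟨f, fun i j hij h => hij ?_⟩
  apply g.injective
  rw [← hf i, ← hf j]
  apply Subtype.ext
  exact FL_sq_eq h
/-- coordinates with respect to two non-parallel directions -/
theorem exists_coords {u v : K F} (huv : (((v : Circle) : ℂ) / ((u : Circle) : ℂ)).im ≠ 0)
    {w : F} (hw : w ≠ 0) {k : ℕ} (hk : 0 < k) :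
    ∃ C : ℝ, 0 < C ∧ ∀ z : F, ∃ σ τ : F0 F, |(σ : ℝ)| ≤ C * ‖(z : ℂ)‖ ∧ |(τ : ℝ)| ≤ C * ‖(z : ℂ)‖ ∧
      z = (k : F) * cR F σ * (cK F u * w) + (k : F) * cR F τ * (cK F v * w) := by
  set q : ℂ := ((v : Circle) : ℂ) / ((u : Circle) : ℂ) with hq
  have hqF : q ∈ F := F.div_mem v.2 u.2
  have hwc : (w : ℂ) ≠ 0 := fun h => hw (Subtype.ext h)
  have hwn : 0 < ‖(w : ℂ)‖ := norm_pos_iff.mpr hwc
  have hk' : (0:ℝ) < k := by exact_mod_cast hk
  have hqn : ‖q‖ = 1 := by rw [hq, norm_div]; simp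
  have hqi : 0 < |q.im| := abs_pos.mpr huv
  refine ⟨(1 + 1 / |q.im|) / (k * ‖(w : ℂ)‖), by positivity, fun z => ?_⟩
  set z' : ℂ := (z : ℂ) / ((k : ℂ) * (((u : Circle) : ℂ) * (w : ℂ))) with hz'
  have hkF : (k : ℂ) ∈ F := by exact_mod_cast natCast_mem F k
  have hzF : z' ∈ F := F.div_mem z.2 (F.mul_mem hkF (F.mul_mem u.2 w.2))
  have hzn : ‖z'‖ = ‖(z : ℂ)‖ / (k * ‖(w : ℂ)‖) := by
    rw [hz', norm_div, norm_mul, norm_mul]
    simp
  have hτF : ((z'.im / q.im : ℝ) : ℂ) ∈ F := by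
    push_cast
    exact F.div_mem (FL_im_mem hF hzF) (FL_im_mem hF hqF)
  have hσF : ((z'.re - q.re * (z'.im / q.im) : ℝ) : ℂ) ∈ F := by
    rw [Complex.ofReal_sub, Complex.ofReal_mul]
    exact F.sub_mem (FL_re_mem hF hzF) (F.mul_mem (FL_re_mem hF hqF) hτF)
  have hre : |z'.re| ≤ ‖z'‖ := Complex.abs_re_le_norm z'
  have him : |z'.im| ≤ ‖z'‖ := Complex.abs_im_le_norm z'
  have hqre : |q.re| ≤ 1 := by rw [← hqn]; exact Complex.abs_re_le_norm q
  have hC : (1 + 1 / |q.im|) / (k * ‖(w : ℂ)‖) * ‖(z : ℂ)‖ = ‖z'‖ + ‖z'‖ / |q.im| := by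
    rw [hzn]; field_simp
  have hτb : |z'.im / q.im| ≤ ‖z'‖ / |q.im| := by
    rw [abs_div]
    gcongr
  refine ⟨⟨z'.re - q.re * (z'.im / q.im), hσF⟩, ⟨z'.im / q.im, hτF⟩, ?_, ?_, ?_⟩
  · rw [hC]
    show |z'.re - q.re * (z'.im / q.im)| ≤ _
    calc |z'.re - q.re * (z'.im / q.im)| ≤ |z'.re| + |q.re * (z'.im / q.im)| := abs_sub _ _
      _ ≤ ‖z'‖ + 1 * (‖z'‖ / |q.im|) := by
          rw [abs_mul]
          gcongr
      _ = _ := by ring
  · rw [hC]
    show |z'.im / q.im| ≤ _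
    have := norm_nonneg z'
    linarith
  · apply Subtype.ext
    have h3 : ((((k : F) * cR F ⟨z'.re - q.re * (z'.im / q.im), hσF⟩ * (cK F u * w) +
        (k : F) * cR F ⟨z'.im / q.im, hτF⟩ * (cK F v * w) : F)) : ℂ) =
        (k : ℂ) * ((z'.re - q.re * (z'.im / q.im) : ℝ) : ℂ) * (((u : Circle) : ℂ) * (w : ℂ)) +
        (k : ℂ) * ((z'.im / q.im : ℝ) : ℂ) * (((v : Circle) : ℂ) * (w : ℂ)) := by
      simp [cR, cK]
    rw [h3]
    have hu0 : ((u : Circle) : ℂ) ≠ 0 := Circle.coe_ne_zero _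
    have hv : ((v : Circle) : ℂ) = q * ((u : Circle) : ℂ) := by rw [hq]; field_simp
    have hkc : (k : ℂ) ≠ 0 := by exact_mod_cast hk.ne'
    have hz : (z : ℂ) = z' * ((k : ℂ) * (((u : Circle) : ℂ) * (w : ℂ))) := by
      rw [hz']; field_simp
    rw [hv, hz]
    have h5 : z' = ((z'.re - q.re * (z'.im / q.im) : ℝ) : ℂ) + ((z'.im / q.im : ℝ) : ℂ) * q := by
      apply Complex.ext
      · simp
        ring
      · simp
        field_simp
    calc z' * ((k : ℂ) * (((u : Circle) : ℂ) * (w : ℂ)))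
        = (((z'.re - q.re * (z'.im / q.im) : ℝ) : ℂ) + ((z'.im / q.im : ℝ) : ℂ) * q) *
          ((k : ℂ) * (((u : Circle) : ℂ) * (w : ℂ))) := by rw [← h5]
      _ = _ := by ring
/-- infinitely many elements of `K` near `1` -/
theorem infinite_near_one {r : ℝ} (hr : 0 < r) :
    {u : K F | ‖((u : Circle) : ℂ) - 1‖ < r}.Infinite := by
  have := K_infinite hF
  have htb : TotallyBounded (Set.univ : Set Circle) := isCompact_univ.totallyBounded
  obtain ⟨t, htf, ht⟩ := Metric.totallyBounded_iff.mp htb (r / 2) (by positivity)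
  have h1 : ∃ y ∈ t, {u : K F | dist (u : Circle) y < r / 2}.Infinite := by
    by_contra hcon
    push Not at hcon
    have h2 : (⋃ y ∈ t, {u : K F | dist (u : Circle) y < r / 2}).Finite := by
      refine Set.Finite.biUnion htf fun y hy => ?_
      exact hcon y hy
    have h3 : (⋃ y ∈ t, {u : K F | dist (u : Circle) y < r / 2}) = Set.univ := by
      rw [Set.eq_univ_iff_forall]
      intro u
      have := ht (Set.mem_univ (u : Circle))
      simpa using this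
    rw [h3] at h2
    exact Set.infinite_univ h2
  obtain ⟨y, -, hy⟩ := h1
  obtain ⟨u0, hu0⟩ := hy.nonempty
  have hinj : Function.Injective (fun u : K F => u * u0⁻¹) := mul_left_injective u0⁻¹
  have h4 := hy.image (f := fun u : K F => u * u0⁻¹) hinj.injOn
  refine h4.mono ?_
  rintro _ ⟨u, hu, rfl⟩
  simp only [Set.mem_ofPred_eq] at hu hu0 ⊢
  have h5 : dist (u : Circle) (u0 : Circle) < r := by
    calc dist (u : Circle) (u0 : Circle) ≤ dist (u : Circle) y + dist (u0 : Circle) y :=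
          dist_triangle_right _ _ _
      _ < r / 2 + r / 2 := add_lt_add hu hu0
      _ = r := by ring
  have h6 : dist (u : Circle) (u0 : Circle) = ‖((u : Circle) : ℂ) - ((u0 : Circle) : ℂ)‖ :=
    dist_eq_norm ((u : Circle) : ℂ) ((u0 : Circle) : ℂ)
  have h7 : (((u * u0⁻¹ : K F) : Circle) : ℂ) - 1 =
      (((u : Circle) : ℂ) - ((u0 : Circle) : ℂ)) * ((u0 : Circle) : ℂ)⁻¹ := by
    have hu0' : ((u0 : Circle) : ℂ) ≠ 0 := Circle.coe_ne_zero _
    have : (((u * u0⁻¹ : K F) : Circle) : ℂ) = ((u : Circle) : ℂ) * ((u0 : Circle) : ℂ)⁻¹ := by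
      simp
    rw [this]
    field_simp
  rw [h7, norm_mul, norm_inv, Circle.norm_coe, inv_one, mul_one, ← h6]
  exact h5
omit hF in
theorem FL_finite_norm_sub_one (c : ℝ) : {u : K F | ‖((u : Circle) : ℂ) - 1‖ = c}.Finite := by
  have hinj : Function.Injective (fun u : K F => ((u : Circle) : ℂ)) := by
    intro u v h
    exact Subtype.ext (Circle.ext h)
  set a : ℝ := 1 - c ^ 2 / 2
  set s : ℝ := Real.sqrt (1 - a ^ 2)
  have hfin : ({⟨a, s⟩, ⟨a, -s⟩} : Set ℂ).Finite := Set.toFinite _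
  refine Set.Finite.subset (hfin.preimage (f := fun u : K F => ((u : Circle) : ℂ)) hinj.injOn) ?_
  intro u hu
  simp only [Set.mem_ofPred_eq] at hu
  set z : ℂ := ((u : Circle) : ℂ) with hz
  have hzn : z.re ^ 2 + z.im ^ 2 = 1 := by
    have h1 : ‖z‖ ^ 2 = 1 := by rw [hz]; simp
    rw [← Complex.normSq_eq_norm_sq, Complex.normSq_apply] at h1
    nlinarith
  have h2 : (z.re - 1) ^ 2 + z.im ^ 2 = c ^ 2 := by
    have h1 : ‖z - 1‖ ^ 2 = c ^ 2 := by rw [hu]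
    rw [← Complex.normSq_eq_norm_sq, Complex.normSq_apply] at h1
    simp only [Complex.sub_re, Complex.one_re, Complex.sub_im, Complex.one_im, sub_zero] at h1
    nlinarith
  have hre : z.re = a := by
    show z.re = 1 - c ^ 2 / 2
    nlinarith
  have him : z.im = s ∨ z.im = -s := by
    have h3 : z.im ^ 2 = 1 - a ^ 2 := by rw [← hre]; linarith
    have h4 : s ^ 2 = 1 - a ^ 2 := Real.sq_sqrt (by rw [← h3]; positivity)
    exact sq_eq_sq_iff_eq_or_eq_neg.mp (by rw [h3, h4])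
  show z ∈ ({⟨a, s⟩, ⟨a, -s⟩} : Set ℂ)
  rcases him with h | h
  · left; exact Complex.ext hre h
  · right; exact Complex.ext hre h
/-- only finitely many `u` with `‖u - 1‖ = c` -/
theorem finite_norm_sub_one (c : ℝ) : {u : K F | ‖((u : Circle) : ℂ) - 1‖ = c}.Finite := by
  have _ := hF
  exact FL_finite_norm_sub_one c

end FL

end Pool.Agent.RadPD
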