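import Pool.Agent.RadPD.MB

set_option autoImplicit false

namespace Pool.Agent.RadPD

open MeasureTheory ProbabilityTheory

/-! ## Module ME: existence of invariant means -/

namespace MeanEx

section Amen

variable {G : Type*} [CommGroup G]

/-- The space of bounded functions. -/
def BF (G : Type*) : Submodule ℝ (G → ℝ) where
  carrier := {f | Bdd f}
  zero_mem' := ⟨0, fun i => by simp⟩
  add_mem' := by
    rintro f g ⟨C, hC⟩ ⟨D, hD⟩
    exact ⟨C + D, fun i => (abs_add_le _ _).trans (add_le_add (hC i) (hD i))⟩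
  smul_mem' := by
    rintro c f ⟨C, hC⟩
    refine ⟨|c| * C, fun i => ?_⟩
    rw [Pi.smul_apply, smul_eq_mul, abs_mul]
    exact mul_le_mul_of_nonneg_left (hC i) (abs_nonneg c)

/-- Upper bounds of averages of translates. -/
def UA (f : G → ℝ) : Set ℝ :=
  {s | ∃ n : ℕ, 0 < n ∧ ∃ g : Fin n → G, ∀ x, ∑ i, f (g i * x) ≤ n * s}

lemma mem_UA_of_le {f : G → ℝ} {C : ℝ} (hC : ∀ x, f x ≤ C) : C ∈ UA f := by
  refine ⟨1, one_pos, fun _ => 1, fun x => ?_⟩
  simpa using hC x

lemma le_of_mem_UA {f : G → ℝ} {C s : ℝ} (hC : ∀ x, C ≤ f x) (hs : s ∈ UA f) : C ≤ s := by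
  obtain ⟨n, hn, g, hg⟩ := hs
  have h1 := hg 1
  have h2 : (n : ℝ) * C ≤ ∑ i, f (g i * 1) := by
    have h3 : ∑ _i : Fin n, C ≤ ∑ i, f (g i * 1) := Finset.sum_le_sum (fun i _ => hC _)
    simpa using h3
  have hn' : (0 : ℝ) < n := by exact_mod_cast hn
  exact le_of_mul_le_mul_left (h2.trans h1) hn'

lemma add_mem_UA {f f' : G → ℝ} {s s' : ℝ} (hs : s ∈ UA f) (hs' : s' ∈ UA f') :
    s + s' ∈ UA (f + f') := by
  obtain ⟨n, hn, g, hg⟩ := hs
  obtain ⟨m, hm, h, hh⟩ := hs'
  refine ⟨n * m, Nat.mul_pos hn hm, fun k => g (finProdFinEquiv.symm k).1 *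
    h (finProdFinEquiv.symm k).2, fun x => ?_⟩
  rw [← finProdFinEquiv.sum_comp]
  simp only [Equiv.symm_apply_apply, Pi.add_apply]
  rw [Fintype.sum_prod_type]
  simp only [Finset.sum_add_distrib]
  have h1 : ∑ i, ∑ j, f (g i * h j * x) ≤ m * (n * s) := by
    rw [Finset.sum_comm]
    have h3 : ∑ j : Fin m, ∑ i, f (g i * h j * x) ≤ ∑ _j : Fin m, (n * s : ℝ) := by
      refine Finset.sum_le_sum (fun j _ => ?_)
      simpa only [mul_assoc] using hg (h j * x)
    simpa using h3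
  have h2 : ∑ i, ∑ j, f' (g i * h j * x) ≤ n * (m * s') := by
    have h3 : ∑ i : Fin n, ∑ j, f' (g i * h j * x) ≤ ∑ _i : Fin n, (m * s' : ℝ) := by
      refine Finset.sum_le_sum (fun i _ => ?_)
      have h4 := hh (g i * x)
      refine le_of_eq_of_le ?_ h4
      refine Finset.sum_congr rfl (fun j _ => ?_)
      rw [mul_comm (g i) (h j), mul_assoc]
    simpa using h3
  push_cast
  linarith

lemma smul_mem_UA {f : G → ℝ} {s c : ℝ} (hc : 0 < c) (hs : s ∈ UA f) : c * s ∈ UA (c • f) := by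
  obtain ⟨n, hn, g, hg⟩ := hs
  refine ⟨n, hn, g, fun x => ?_⟩
  simp only [Pi.smul_apply, smul_eq_mul]
  rw [← Finset.mul_sum]
  have h1 := mul_le_mul_of_nonneg_left (hg x) hc.le
  linarith

/-- The sublinear functional. -/
noncomputable def pp (f : G → ℝ) : ℝ := sInf (UA f)

lemma UA_nonempty {f : G → ℝ} (hf : Bdd f) : (UA f).Nonempty := by
  obtain ⟨C, hC⟩ := hf
  exact ⟨C, mem_UA_of_le (fun x => (abs_le.mp (hC x)).2)⟩

lemma UA_bddBelow {f : G → ℝ} (hf : Bdd f) : BddBelow (UA f) := by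
  obtain ⟨C, hC⟩ := hf
  exact ⟨-C, fun s hs => le_of_mem_UA (fun x => (abs_le.mp (hC x)).1) hs⟩

lemma pp_le {f : G → ℝ} (hf : Bdd f) {s : ℝ} (hs : s ∈ UA f) : pp f ≤ s :=
  csInf_le (UA_bddBelow hf) hs

lemma pp_add {f f' : G → ℝ} (hf : Bdd f) (hf' : Bdd f') : pp (f + f') ≤ pp f + pp f' := by
  have hff : Bdd (f + f') := (BF G).add_mem hf hf'
  have h1 : ∀ s ∈ UA f, pp (f + f') - s ≤ pp f' := by
    intro s hs
    refine le_csInf (UA_nonempty hf') (fun s' hs' => ?_)
    have := pp_le hff (add_mem_UA hs hs')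
    linarith
  have h2 : pp (f + f') - pp f' ≤ pp f := by
    refine le_csInf (UA_nonempty hf) (fun s hs => ?_)
    have := h1 s hs
    linarith
  linarith

lemma pp_smul {f : G → ℝ} (hf : Bdd f) {c : ℝ} (hc : 0 < c) : pp (c • f) = c * pp f := by
  have hcf : Bdd (c • f) := (BF G).smul_mem c hf
  apply le_antisymm
  · have h1 : pp (c • f) / c ≤ pp f := by
      refine le_csInf (UA_nonempty hf) (fun s hs => ?_)
      rw [div_le_iff₀ hc]
      have := pp_le hcf (smul_mem_UA hc hs)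
      linarith
    rw [div_le_iff₀ hc] at h1
    linarith
  · refine le_csInf (UA_nonempty hcf) (fun s hs => ?_)
    have h1 := smul_mem_UA (inv_pos.mpr hc) hs
    rw [smul_smul, inv_mul_cancel₀ hc.ne', one_smul] at h1
    have h2 := pp_le hf h1
    rw [← div_eq_inv_mul, le_div_iff₀ hc] at h2
    linarith

end Amen

end MeanEx

open MeanEx in
/-- commutative groups are amenable -/
theorem exists_invMean (G : Type*) [CommGroup G] : ∃ M : Mean G, M.IsInv := by
  classical
  obtain ⟨L, -, hL⟩ := exists_extension_of_le_sublinear (E := BF G) (⊥ : BF G →ₗ.[ℝ] ℝ)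
    (fun f => pp (f : G → ℝ)) (fun c hc f => pp_smul f.2 hc) (fun f f' => pp_add f.2 f'.2) (by
      rintro ⟨x, hx⟩
      have hx0 : x = 0 := hx
      subst hx0
      have h0 : ((⊥ : BF G →ₗ.[ℝ] ℝ) ⟨0, hx⟩) = 0 := rfl
      rw [h0]
      refine le_csInf (UA_nonempty (0 : BF G).2) (fun s hs => le_of_mem_UA (fun x => ?_) hs)
      simp)
  have hL' : ∀ (f : G → ℝ) (hf : Bdd f) (s : ℝ), s ∈ UA f → L ⟨f, hf⟩ ≤ s :=
    fun f hf s hs => (hL ⟨f, hf⟩).trans (pp_le hf hs)
  have hbc : ∀ c : ℝ, Bdd (fun _ : G => c) := fun c => ⟨|c|, fun _ => le_rfl⟩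
  refine ⟨⟨fun f => if h : Bdd f then L ⟨f, h⟩ else 0, ?_, ?_, ?_, ?_⟩, ?_⟩
  · intro f g hf hg
    have hfg : Bdd (fun i => f i + g i) := (BF G).add_mem hf hg
    simp only [dif_pos hf, dif_pos hg, dif_pos hfg]
    rw [← map_add]
    rfl
  · intro c f hf
    have hcf : Bdd (fun i => c * f i) := (BF G).smul_mem c hf
    simp only [dif_pos hf, dif_pos hcf]
    rw [← smul_eq_mul, ← map_smul]
    rfl
  · intro f hf h0
    simp only [dif_pos hf]
    have h1 := hL' _ ((BF G).neg_mem hf) 0 (mem_UA_of_le (fun x => by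
      simpa using h0 x))
    have h2 : (⟨-f, (BF G).neg_mem hf⟩ : BF G) = -⟨f, hf⟩ := rfl
    rw [h2, map_neg] at h1
    linarith
  · simp only [dif_pos (hbc 1)]
    apply le_antisymm
    · exact hL' _ (hbc 1) 1 (mem_UA_of_le (fun x => le_rfl))
    · have h1 := hL' _ (hbc (-1)) (-1) (mem_UA_of_le (fun x => le_rfl))
      have h2 : (⟨fun _ => -1, hbc (-1)⟩ : BF G) = -⟨fun _ => 1, hbc 1⟩ := rfl
      rw [h2, map_neg] at h1
      linarith
  · intro g f hf
    have hgf : Bdd (fun x => f (g * x)) := by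
      obtain ⟨C, hC⟩ := hf
      exact ⟨C, fun x => hC _⟩
    simp only [dif_pos hf, dif_pos hgf]
    obtain ⟨C, hC⟩ := hf
    have hf : Bdd f := ⟨C, hC⟩
    -- telescoping
    have key : ∀ n : ℕ, 0 < n → (2 * C / n) ∈ UA (fun x => f (g * x) - f x) ∧
        (2 * C / n) ∈ UA (fun x => f x - f (g * x)) := by
      intro n hn
      have hn' : (n : ℝ) ≠ 0 := by exact_mod_cast hn.ne'
      have htel : ∀ x : G, ∑ i : Fin n, (f (g * (g ^ (i : ℕ) * x)) - f (g ^ (i : ℕ) * x)) =
          f (g ^ n * x) - f x := by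
        intro x
        rw [Fin.sum_univ_eq_sum_range (fun i => f (g * (g ^ i * x)) - f (g ^ i * x)) n]
        have h1 : ∀ i, f (g * (g ^ i * x)) - f (g ^ i * x) =
            f (g ^ (i + 1) * x) - f (g ^ i * x) := by
          intro i
          rw [pow_succ', mul_assoc]
        simp only [h1]
        rw [Finset.sum_range_sub (fun i => f (g ^ i * x)), pow_zero, one_mul]
      refine ⟨⟨n, hn, fun i => g ^ (i : ℕ), fun x => ?_⟩,
        ⟨n, hn, fun i => g ^ (i : ℕ), fun x => ?_⟩⟩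
      · rw [htel, mul_div_cancel₀ _ hn']
        have h1 := (abs_le.mp (hC (g ^ n * x))).2
        have h2 := (abs_le.mp (hC x)).1
        linarith
      · have h3 : ∑ i : Fin n, (f (g ^ (i : ℕ) * x) - f (g * (g ^ (i : ℕ) * x))) =
            -(f (g ^ n * x) - f x) := by
          rw [← htel x, ← Finset.sum_neg_distrib]
          exact Finset.sum_congr rfl (fun i _ => by ring)
        rw [h3, mul_div_cancel₀ _ hn']
        have h1 := (abs_le.mp (hC (g ^ n * x))).1
        have h2 := (abs_le.mp (hC x)).2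
        linarith
    have hlim : Filter.Tendsto (fun n : ℕ => 2 * C / (n : ℝ)) Filter.atTop (nhds 0) :=
      tendsto_const_div_atTop_nhds_zero_nat (2 * C)
    apply le_antisymm
    · have h1 : ∀ n : ℕ, 0 < n → L ⟨_, hgf⟩ - L ⟨f, hf⟩ ≤ 2 * C / n := by
        intro n hn
        have h2 := hL' _ ((BF G).sub_mem hgf hf) _ (key n hn).1
        have h3 : (⟨(fun x => f (g * x)) - f, (BF G).sub_mem hgf hf⟩ : BF G) =
          ⟨_, hgf⟩ - ⟨f, hf⟩ := rfl
        rw [← map_sub, ← h3]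
        exact h2
      have h4 := ge_of_tendsto hlim (Filter.eventually_atTop.mpr ⟨1, fun n hn => h1 n hn⟩)
      linarith
    · have h1 : ∀ n : ℕ, 0 < n → L ⟨f, hf⟩ - L ⟨_, hgf⟩ ≤ 2 * C / n := by
        intro n hn
        have h2 := hL' _ ((BF G).sub_mem hf hgf) _ (key n hn).2
        have h3 : (⟨f - (fun x => f (g * x)), (BF G).sub_mem hf hgf⟩ : BF G) =
          ⟨f, hf⟩ - ⟨_, hgf⟩ := rfl
        rw [← map_sub, ← h3]
        exact h2
      have h4 := ge_of_tendsto hlim (Filter.eventually_atTop.mpr ⟨1, fun n hn => h1 n hn⟩)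
      linarith

namespace MeanEx

section Loc

variable {F : Subfield ℂ} (s : F0 F)

/-- reduction modulo `s` -/
noncomputable def md (x : F0 F) : F0 F := x - ⌊(x : ℝ) / (s : ℝ)⌋ • s

lemma md_coe (x : F0 F) : ((md s x : F0 F) : ℝ) = (x : ℝ) - ⌊(x : ℝ) / (s : ℝ)⌋ * (s : ℝ) := by
  rw [md]
  push_cast
  rw [zsmul_eq_mul]

variable {s}

lemma md_nonneg (hs : 0 < (s : ℝ)) (x : F0 F) : 0 ≤ (md s x : ℝ) := by
  rw [md_coe]
  have h1 := Int.floor_le ((x : ℝ) / (s : ℝ))
  rw [le_div_iff₀ hs] at h1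
  linarith

lemma md_lt (hs : 0 < (s : ℝ)) (x : F0 F) : (md s x : ℝ) < s := by
  rw [md_coe]
  have h1 := Int.lt_floor_add_one ((x : ℝ) / (s : ℝ))
  rw [div_lt_iff₀ hs] at h1
  linarith

lemma md_add (hs : 0 < (s : ℝ)) (x τ : F0 F) (h0 : 0 ≤ (md s x : ℝ) + τ)
    (h1 : (md s x : ℝ) + τ < s) : md s (x + τ) = md s x + τ := by
  have h2 : ⌊((x + τ : F0 F) : ℝ) / (s : ℝ)⌋ = ⌊(x : ℝ) / (s : ℝ)⌋ := by
    rw [Int.floor_eq_iff, le_div_iff₀ hs, div_lt_iff₀ hs]
    rw [md_coe] at h0 h1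
    push_cast
    constructor <;> linarith
  rw [md, md, h2]
  ring

open Classical in
/-- indicator of the set of `x` with `x mod s < τ` -/
noncomputable def ind (s : F0 F) (τ : ℝ) (x : F0 F) : ℝ :=
  if ∃ a : ℤ, 0 ≤ (x : ℝ) - a * s ∧ (x : ℝ) - a * s < τ then 1 else 0

lemma ind_nonneg (s : F0 F) (τ : ℝ) (x : F0 F) : 0 ≤ ind s τ x := by
  rw [ind]
  split_ifs <;> norm_num

lemma ind_le (s : F0 F) (τ : ℝ) (x : F0 F) : ind s τ x ≤ 1 := by
  rw [ind]
  split_ifs <;> norm_num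

lemma ind_bdd (s : F0 F) (τ : ℝ) : Bdd (ind s τ) :=
  ⟨1, fun x => by rw [abs_of_nonneg (ind_nonneg s τ x)]; exact ind_le s τ x⟩

lemma ind_sum (hs : 0 < (s : ℝ)) {τ : F0 F} (hτ : 0 < (τ : ℝ)) (n : ℕ)
    (hn : (n : ℝ) * τ ≤ s) (x : F0 F) :
    ∑ j : Fin n, ind s τ (-((j : ℕ) • τ) + x) ≤ 1 := by
  classical
  by_cases h : ∃ j : Fin n, ind s τ (-((j : ℕ) • τ) + x) ≠ 0
  · obtain ⟨j₀, hj₀⟩ := h
    rw [Finset.sum_eq_single j₀]
    · exact ind_le _ _ _
    · intro j _ hj
      by_contra hne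
      have e1 : ∃ a : ℤ, 0 ≤ ((-((j₀ : ℕ) • τ) + x : F0 F) : ℝ) - a * s ∧
          ((-((j₀ : ℕ) • τ) + x : F0 F) : ℝ) - a * s < τ := by
        by_contra hc
        exact hj₀ (by rw [ind, if_neg hc])
      have e2 : ∃ a : ℤ, 0 ≤ ((-((j : ℕ) • τ) + x : F0 F) : ℝ) - a * s ∧
          ((-((j : ℕ) • τ) + x : F0 F) : ℝ) - a * s < τ := by
        by_contra hc
        exact hne (by rw [ind, if_neg hc])
      obtain ⟨a, ha1, ha2⟩ := e1
      obtain ⟨b, hb1, hb2⟩ := e2
      push_cast at ha1 ha2 hb1 hb2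
      rw [nsmul_eq_mul] at ha1 ha2 hb1 hb2
      have key : ∀ (i i' : Fin n) (a b : ℤ), (i : ℕ) < i' →
          0 ≤ -((i : ℕ) * (τ : ℝ)) + (x : ℝ) - a * s → -((i : ℕ) * (τ : ℝ)) + (x : ℝ) - a * s < τ →
          0 ≤ -((i' : ℕ) * (τ : ℝ)) + (x : ℝ) - b * s →
          -((i' : ℕ) * (τ : ℝ)) + (x : ℝ) - b * s < τ → False := by
        intro i i' a b hii h1 h2 h3 h4
        have h5 : ((i : ℕ) : ℝ) + 1 ≤ (i' : ℕ) := by exact_mod_cast hii
        have h6 : ((i' : ℕ) : ℝ) + 1 ≤ n := by exact_mod_cast i'.2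
        have h7 : 0 ≤ ((i : ℕ) : ℝ) := by positivity
        have h8 : ((i' : ℕ) : ℝ) * τ - (i : ℕ) * τ ≤ s - τ := by nlinarith
        have h9 : (τ : ℝ) ≤ ((i' : ℕ) : ℝ) * τ - (i : ℕ) * τ := by nlinarith
        have h10 : 0 < ((a - b : ℤ) : ℝ) * s := by push_cast; linarith
        have h11 : ((a - b : ℤ) : ℝ) * s < 1 * s := by push_cast; linarith
        have h12 : (0 : ℝ) < ((a - b : ℤ) : ℝ) := by
          by_contra hcon
          push Not at hcon
          nlinarith
        have h13 : ((a - b : ℤ) : ℝ) < 1 := lt_of_mul_lt_mul_right h11 hs.le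
        have h14 : (0 : ℤ) < a - b := by exact_mod_cast h12
        have h15 : a - b < (1 : ℤ) := by exact_mod_cast h13
        omega
      rcases lt_trichotomy (j : ℕ) (j₀ : ℕ) with hl | hl | hl
      · exact key j j₀ b a hl hb1 hb2 ha1 ha2
      · exact hj (Fin.ext hl)
      · exact key j₀ j a b hl ha1 ha2 hb1 hb2
    · intro h; exact absurd (Finset.mem_univ _) h
  · push Not at h
    rw [Finset.sum_eq_zero (fun j _ => h j)]
    exact zero_le_one

/-- the indicator has small mean -/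
lemma ind_mean (hs : 0 < (s : ℝ)) {m : Mean (F0 F)}
    (hm : ∀ (τ : F0 F) (f : F0 F → ℝ), Bdd f → m.toFun (fun x => f (τ + x)) = m.toFun f)
    {τ : F0 F} (hτ : 0 < (τ : ℝ)) (hτs : (τ : ℝ) ≤ s) :
    m.toFun (ind s τ) ≤ 2 * τ / s := by
  set n := ⌊(s : ℝ) / τ⌋₊ with hn
  have h1 : 1 ≤ (s : ℝ) / τ := by rw [le_div_iff₀ hτ]; linarith
  have hn1 : (n : ℝ) ≤ s / τ := Nat.floor_le (by positivity)
  have hn2 : (s : ℝ) / τ < n + 1 := Nat.lt_floor_add_one _
  have hn3 : 1 ≤ n := Nat.le_floor (by simpa using h1)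
  have hn3' : (1 : ℝ) ≤ n := by exact_mod_cast hn3
  have hn4 : (n : ℝ) * τ ≤ s := by rwa [le_div_iff₀ hτ] at hn1
  have h2 := m.map_sum (Finset.univ : Finset (Fin n))
    (fun j x => ind s τ (-((j : ℕ) • τ) + x)) (fun j _ =>
      (ind_bdd s τ).imp fun _ h _ => h _)
  have h3 : ∀ j : Fin n, m.toFun (fun x => ind s τ (-((j : ℕ) • τ) + x)) =
      m.toFun (ind s τ) := fun j => hm _ _ (ind_bdd s τ)
  simp only [h3] at h2
  rw [Finset.sum_const, Finset.card_univ, Fintype.card_fin, nsmul_eq_mul] at h2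
  have hb : Bdd (fun x => ∑ j : Fin n, ind s τ (-((j : ℕ) • τ) + x)) := by
    refine ⟨1, fun x => ?_⟩
    rw [abs_of_nonneg (Finset.sum_nonneg (fun j _ => ind_nonneg _ _ _))]
    exact ind_sum hs hτ n hn4 x
  have h4 := m.mono hb (Bdd.const 1) (fun x => ind_sum hs hτ n hn4 x)
  rw [m.map_const, h2] at h4
  have h5 : 0 ≤ m.toFun (ind s τ) := m.nonneg _ (ind_bdd s τ) (ind_nonneg s τ)
  rw [le_div_iff₀ hs]
  rw [div_lt_iff₀ hτ] at hn2
  nlinarith [mul_le_mul_of_nonneg_right h4 hτ.le]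

end Loc

end MeanEx

open MeanEx in
/-- existence of local means -/
theorem exists_locMean (F : Subfield ℂ) (s : F0 F) (hs : 0 < (s : ℝ)) :
    ∃ M : Mean (F0 F), IsLocMean F s M := by
  obtain ⟨m₀, hm₀⟩ := exists_invMean (Multiplicative (F0 F))
  set m : Mean (F0 F) := m₀.push Multiplicative.toAdd with hmdef
  have hm : ∀ (τ : F0 F) (f : F0 F → ℝ), Bdd f → m.toFun (fun x => f (τ + x)) = m.toFun f := by
    intro τ f hf
    exact hm₀ (Multiplicative.ofAdd τ) (fun x => f (Multiplicative.toAdd x))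
      (hf.imp fun _ h _ => h _)
  refine ⟨m.push (md s), ?_, ?_⟩
  · intro f hf h0
    have h1 : (fun x => f (md s x)) = fun _ => 0 := by
      funext x
      exact h0 _ (md_nonneg hs x) (md_lt hs x)
    show m.toFun (fun x => f (md s x)) = 0
    rw [h1, m.map_const]
  · intro f C hC τ hτ
    show |m.toFun (fun x => f (md s x + τ)) - m.toFun (fun x => f (md s x))| ≤ _
    have hC0 : 0 ≤ C := (abs_nonneg _).trans (hC 0)
    have hb : ∀ φ : F0 F → F0 F, Bdd (fun x => f (φ x)) := fun φ => ⟨C, fun x => hC _⟩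
    by_cases hτ0 : (τ : ℝ) = 0
    · have h1 : τ = 0 := by exact_mod_cast hτ0
      subst h1
      simp
    have e1 : m.toFun (fun x => f (md s x)) = m.toFun (fun x => f (md s (x + τ))) := by
      rw [← hm τ (fun x => f (md s x)) (hb _)]
      simp only [add_comm τ]
    rw [e1, ← m.map_sub (hb _) (hb _)]
    set τ' : F0 F := if 0 ≤ (τ : ℝ) then τ else -τ with hτ'
    have hτ'c : (τ' : ℝ) = |(τ : ℝ)| := by
      rw [hτ']
      split_ifs with h
      · rw [abs_of_nonneg h]
      · push_cast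
        rw [abs_of_neg (not_le.mp h)]
    have hτ'0 : 0 < (τ' : ℝ) := by rw [hτ'c]; exact abs_pos.mpr hτ0
    have hτ's : (τ' : ℝ) ≤ s := by rw [hτ'c]; exact hτ
    -- the translation of the exceptional set
    obtain ⟨σ, hσ⟩ : ∃ σ : F0 F, ∀ x, |f (md s x + τ) - f (md s (x + τ))| ≤
        2 * C * ind s τ' (σ + x) := by
      by_cases h : 0 ≤ (τ : ℝ)
      · refine ⟨τ, fun x => ?_⟩
        have h1 : τ' = τ := by rw [hτ', if_pos h]
        by_cases h2 : (md s x : ℝ) + τ < s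
        · rw [md_add hs x τ (add_nonneg (md_nonneg hs x) h) h2, sub_self, abs_zero]
          exact mul_nonneg (by positivity) (ind_nonneg _ _ _)
        · push Not at h2
          have h3 : ind s τ' (τ + x) = 1 := by
            rw [ind, if_pos]
            refine ⟨⌊(x : ℝ) / (s : ℝ)⌋ + 1, ?_, ?_⟩
            · rw [md_coe] at h2
              push_cast
              linarith
            · have h4 := md_lt hs x
              rw [md_coe] at h4
              rw [h1]
              push_cast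
              linarith
          rw [h3, mul_one]
          have h5 := hC (md s x + τ)
          have h6 := hC (md s (x + τ))
          refine (abs_sub _ _).trans ?_
          linarith
      · refine ⟨0, fun x => ?_⟩
        have h1 : τ' = -τ := by rw [hτ', if_neg h]
        push Not at h
        by_cases h2 : 0 ≤ (md s x : ℝ) + τ
        · rw [md_add hs x τ h2 (by linarith [md_lt hs x]), sub_self, abs_zero]
          exact mul_nonneg (by positivity) (ind_nonneg _ _ _)
        · push Not at h2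
          have h3 : ind s τ' (0 + x) = 1 := by
            rw [zero_add, ind, if_pos]
            refine ⟨⌊(x : ℝ) / (s : ℝ)⌋, ?_, ?_⟩
            · rw [← md_coe]
              exact md_nonneg hs x
            · rw [← md_coe, h1]
              push_cast
              linarith
          rw [h3, mul_one]
          have h5 := hC (md s x + τ)
          have h6 := hC (md s (x + τ))
          refine (abs_sub _ _).trans ?_
          linarith
    have hind : Bdd (fun x => 2 * C * ind s τ' (σ + x)) := by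
      refine ⟨2 * C, fun x => ?_⟩
      rw [abs_of_nonneg (mul_nonneg (by positivity) (ind_nonneg _ _ _))]
      have := ind_le s τ' (σ + x)
      nlinarith
    have hd : Bdd (fun x => f (md s x + τ) - f (md s (x + τ))) := by
      refine ⟨2 * C, fun x => (abs_sub _ _).trans ?_⟩
      have h5 := hC (md s x + τ)
      have h6 := hC (md s (x + τ))
      linarith
    have hnd : Bdd (fun x => -(2 * C * ind s τ' (σ + x))) := by
      obtain ⟨B, hB⟩ := hind
      exact ⟨B, fun x => by rw [abs_neg]; exact hB x⟩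
    have hmean : m.toFun (fun x => 2 * C * ind s τ' (σ + x)) ≤ 4 * |(τ : ℝ)| / s * C := by
      rw [m.map_smul (2 * C) (fun x => ind s τ' (σ + x)) ((ind_bdd s τ').imp fun _ h _ => h _),
        hm σ _ (ind_bdd s τ')]
      have h1 := ind_mean hs hm hτ'0 hτ's
      have h2 := mul_le_mul_of_nonneg_left h1 (by positivity : (0 : ℝ) ≤ 2 * C)
      refine h2.trans (le_of_eq ?_)
      rw [hτ'c]
      ring
    rw [abs_le]
    constructor
    · have h1 := m.mono hnd hd (fun x => (abs_le.mp (hσ x)).1)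
      rw [m.map_neg hind] at h1
      linarith
    · have h1 := m.mono hd hind (fun x => (abs_le.mp (hσ x)).2)
      linarith

/-- the push-forward of a local mean by multiplication by `k` is a local mean -/
theorem IsLocMean.exists_small {F : Subfield ℂ} {s : ℝ} {M : Mean (F0 F)} (hM : IsLocMean F s M)
    {f : F0 F → ℝ} (hf : Bdd f) (h : M.toFun f ≤ 0) {ε : ℝ} (hε : 0 < ε) :
    ∃ t : F0 F, 0 ≤ (t : ℝ) ∧ (t : ℝ) < s ∧ f t ≤ ε := by
  classical
  by_contra hcon
  push Not at hcon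
  set g : F0 F → ℝ := fun t => if 0 ≤ (t : ℝ) ∧ (t : ℝ) < s then f t else ε with hg
  obtain ⟨C, hC⟩ := hf
  have hf : Bdd f := ⟨C, hC⟩
  have hgb : Bdd g := by
    refine ⟨max C |ε|, fun t => ?_⟩
    simp only [hg]
    split_ifs
    · exact (hC t).trans (le_max_left _ _)
    · exact le_max_right _ _
  have h1 : M.toFun (fun t => f t - g t) = 0 := by
    refine hM.supp _ ?_ (fun t h0 hs => ?_)
    · obtain ⟨D, hD⟩ := hgb
      exact ⟨C + D, fun t => (abs_sub _ _).trans (add_le_add (hC t) (hD t))⟩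
    · simp only [hg, if_pos (And.intro h0 hs), sub_self]
  rw [M.map_sub hf hgb] at h1
  have h2 : ε ≤ M.toFun g := by
    have h3 := M.mono (Bdd.const ε) hgb (fun t => by
      simp only [hg]
      split_ifs with hh
      · exact (hcon t hh.1 hh.2).le
      · exact le_rfl)
    rwa [M.map_const] at h3
  linarith

end Pool.Agent.RadPD
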