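import Pool.Agent.RadPD.CE

set_option autoImplicit false

namespace Pool.Agent.RadPD

open MeasureTheory ProbabilityTheory

variable {F : Subfield ℂ} {X : Type*} [mX : MeasurableSpace X]

/-! ## Module PA: the pair system -/

/-- a relatively independent self-joining over `Y` -/
structure PairData (S : RotSys F X) (Y : SA X) where
  κ : Kernel X X
  markov : IsMarkovKernel κ
  κ_spec : ∀ f : X → ℂ, BM f → (fun x => ∫ y, f y ∂κ x) =ᵐ[S.m] S.m[f | Y.ms]
  P : RotSys F (X × X)
  P_m : P.m = S.m ⊗ₘ κ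
  P_T : ∀ u p, P.T u p = (S.T u p.1, S.T u p.2)
  P_e : ∀ z p, P.e z p = S.e z p.1 * (starRingEnd ℂ) (S.e z p.2)

theorem PA_BM_integrable (m : Measure X) [IsFiniteMeasure m] {f : X → ℂ} (hf : BM f) :
    Integrable f m :=
  Integrable.of_bound hf.meas.aestronglyMeasurable 1 (Filter.Eventually.of_forall hf.bound)

theorem PA_kernel_comp_T (S : RotSys F X) {Y : SA X} (hY : S.InvAlg Y) (κ : Kernel X X)
    [IsMarkovKernel κ]
    (hκ : ∀ f : X → ℂ, BM f → (fun x => ∫ y, f y ∂κ x) =ᵐ[S.m] S.m[f | Y.ms])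
    (u : K F) {B : Set X} (hB : MeasurableSet B) :
    ∀ᵐ x ∂S.m, κ x (S.T u ⁻¹' B) = κ (S.T u x) B := by
  have hT := (S.T_mp u).measurable
  have hBM : ∀ C : Set X, MeasurableSet C → BM (C.indicator (fun _ => (1 : ℂ))) := by
    intro C hC
    refine ⟨measurable_const.indicator hC, fun x => ?_⟩
    by_cases hx : x ∈ C <;> simp [hx]
  have hint : ∀ (C : Set X), MeasurableSet C → ∀ x, ∫ y, C.indicator (fun _ => (1 : ℂ)) y ∂κ x =
      (((κ x).real C : ℝ) : ℂ) := by
    intro C hC x
    rw [integral_indicator hC]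
    simp
  have h1 := hκ _ (hBM _ (hT hB))
  have h2 := condExp_comp_T S hY u (PA_BM_integrable S.m (hBM B hB))
  have h3 := ae_comp_T S u (hκ _ (hBM B hB))
  have e : (fun x => B.indicator (fun _ => (1 : ℂ)) (S.T u x)) =
      (S.T u ⁻¹' B).indicator (fun _ => (1 : ℂ)) := by
    funext x
    rfl
  rw [e] at h2
  filter_upwards [h1, h2, h3] with x h1 h2 h3
  have h4 : ((κ x).real (S.T u ⁻¹' B) : ℂ) = (((κ (S.T u x)).real B : ℝ) : ℂ) := by
    rw [← hint _ (hT hB), ← hint _ hB]
    exact h1.trans (h2.trans h3.symm)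
  have h5 : (κ x).real (S.T u ⁻¹' B) = (κ (S.T u x)).real B := by exact_mod_cast h4
  exact (ENNReal.toReal_eq_toReal_iff' (measure_ne_top _ _) (measure_ne_top _ _)).1 h5

theorem exists_pairData [StandardBorelSpace X] (S : RotSys F X) {Y : SA X} (hY : S.InvAlg Y) :
    Nonempty (PairData S Y) := by
  have hid : @Measurable X X mX Y.ms id := measurable_id'' hY.le
  let κ : Kernel X X := @Kernel.comap X X Y.ms mX X mX (condExpKernel S.m Y.ms) id hid
  have hκa : ∀ x, κ x = condExpKernel S.m Y.ms x := fun x => rfl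
  have hM : IsMarkovKernel κ := by
    refine ⟨fun x => ?_⟩
    rw [hκa]
    exact (inferInstance : IsMarkovKernel (condExpKernel S.m Y.ms)).isProbabilityMeasure x
  have hspec : ∀ f : X → ℂ, BM f → (fun x => ∫ y, f y ∂κ x) =ᵐ[S.m] S.m[f | Y.ms] := by
    intro f hf
    exact (condExp_ae_eq_integral_condExpKernel hY.le (PA_BM_integrable S.m hf)).symm
  have hT : ∀ u, Measurable (S.T u) := fun u => (S.T_mp u).measurable
  have hmp : ∀ u, MeasurePreserving (fun p : X × X => (S.T u p.1, S.T u p.2)) (S.m ⊗ₘ κ)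
      (S.m ⊗ₘ κ) := by
    intro u
    have hm : Measurable (fun p : X × X => (S.T u p.1, S.T u p.2)) :=
      ((hT u).comp measurable_fst).prodMk ((hT u).comp measurable_snd)
    refine ⟨hm, ?_⟩
    have : IsFiniteMeasure ((S.m ⊗ₘ κ).map (fun p : X × X => (S.T u p.1, S.T u p.2))) :=
      inferInstance
    refine Measure.ext_prod ?_
    intro A B hA hB
    rw [Measure.map_apply hm (hA.prod hB)]
    have e : (fun p : X × X => (S.T u p.1, S.T u p.2)) ⁻¹' (A ×ˢ B) =
        (S.T u ⁻¹' A) ×ˢ (S.T u ⁻¹' B) := by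
      ext p
      rfl
    rw [e, Measure.compProd_apply_prod (hT u hA) (hT u hB), Measure.compProd_apply_prod hA hB]
    have h1 : ∫⁻ x in S.T u ⁻¹' A, κ x (S.T u ⁻¹' B) ∂S.m =
        ∫⁻ x in S.T u ⁻¹' A, κ (S.T u x) B ∂S.m :=
      lintegral_congr_ae (ae_restrict_of_ae (PA_kernel_comp_T S hY κ hspec u hB))
    rw [h1]
    exact (S.T_mp u).setLIntegral_comp_preimage hA (κ.measurable_coe hB)
  refine ⟨{ κ := κ, markov := hM, κ_spec := hspec, P := ?P, P_m := ?_, P_T := ?_, P_e := ?_ }⟩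
  case P =>
    exact
      { m := S.m ⊗ₘ κ
        T := fun u p => (S.T u p.1, S.T u p.2)
        e := fun z p => S.e z p.1 * (starRingEnd ℂ) (S.e z p.2)
        prob := inferInstance
        T_mp := hmp
        T_one := fun x => by simp [S.T_one]
        T_mul := fun u v x => by simp [S.T_mul]
        e_meas := fun z => ((S.e_meas z).comp measurable_fst).mul
          (Complex.continuous_conj.measurable.comp ((S.e_meas z).comp measurable_snd))
        e_norm := fun z x => by simp [S.e_norm]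
        e_add := fun z w x => by
          simp only [S.e_add, map_mul]
          ring
        e_rot := fun u z x => by simp only [S.e_rot] }
  · rfl
  · intro u p
    rfl
  · intro z p
    rfl

section PA

variable {S : RotSys F X} {Y : SA X} (D : PairData S Y)

theorem PairData.integral_eq {E : Type*} [NormedAddCommGroup E] [NormedSpace ℝ E] [CompleteSpace E]
    {f : X × X → E} (hf : Integrable f D.P.m) :
    ∫ p, f p ∂D.P.m = ∫ x, ∫ y, f (x, y) ∂D.κ x ∂S.m := by
  have := D.markov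
  rw [D.P_m] at hf ⊢
  exact Measure.integral_compProd hf

theorem PairData.integral_prod (hY : Y.ms ≤ mX) {f g : X → ℂ} (hf : BM f) (hg : BM g) :
    ∫ p, f p.1 * g p.2 ∂D.P.m = ∫ x, (S.m[f | Y.ms]) x * (S.m[g | Y.ms]) x ∂S.m := by
  have := D.markov
  have hfg : BM (fun p : X × X => f p.1 * g p.2) := by
    refine ⟨(hf.meas.comp measurable_fst).mul (hg.meas.comp measurable_snd), fun p => ?_⟩
    rw [norm_mul]
    exact mul_le_one₀ (hf.bound _) (norm_nonneg _) (hg.bound _)
  rw [D.integral_eq (PA_BM_integrable D.P.m hfg)]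
  have h1 : ∫ x, ∫ y, f (x, y).1 * g (x, y).2 ∂D.κ x ∂S.m =
      ∫ x, f x * (S.m[g | Y.ms]) x ∂S.m := by
    refine integral_congr_ae ?_
    filter_upwards [D.κ_spec g hg] with x hx
    rw [← hx]
    exact integral_const_mul _ _
  rw [h1]
  have hL : ∀ {f : X → ℂ}, BM f → MemLp f 2 S.m := fun {f} hf =>
    MemLp.of_bound hf.meas.aestronglyMeasurable 1 (Filter.Eventually.of_forall hf.bound)
  exact integral_mul_condExp S.m hY (hL hf) (hL hg)

theorem PA_BM_conj {f : X → ℂ} (hf : BM f) : BM (fun x => (starRingEnd ℂ) (f x)) :=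
  ⟨Complex.continuous_conj.measurable.comp hf.meas, fun x => by
    rw [RCLike.norm_conj]
    exact hf.bound x⟩

/-- `∫ θ_z (A ⊗ Ā) = ‖E[e_z A | Y]‖²` -/
theorem PairData.integral_sq (hY : Y.ms ≤ mX) {f : X → ℂ} (hf : BM f) :
    ∫ p, f p.1 * (starRingEnd ℂ) (f p.2) ∂D.P.m =
      ((∫ x, ‖(S.m[f | Y.ms]) x‖ ^ 2 ∂S.m : ℝ) : ℂ) := by
  rw [D.integral_prod hY hf (PA_BM_conj hf), ← integral_complex_ofReal]
  refine integral_congr_ae ?_
  filter_upwards [condExp_conj S.m hY (PA_BM_integrable S.m hf)] with x hx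
  rw [hx, Complex.mul_conj, Complex.normSq_eq_norm_sq]

theorem PairData.marg_fst {E : Type*} [NormedAddCommGroup E] [NormedSpace ℝ E]
    (f : X → E) (hf : AEStronglyMeasurable f S.m) : ∫ p, f p.1 ∂D.P.m = ∫ x, f x ∂S.m := by
  have := D.markov
  have h : D.P.m.map Prod.fst = S.m := by
    rw [D.P_m]
    exact Measure.fst_compProd S.m D.κ
  have hf' : AEStronglyMeasurable f (D.P.m.map Prod.fst) := by rwa [h]
  rw [← integral_map measurable_fst.aemeasurable hf', h]

end PA

end Pool.Agent.RadPD
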