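import Pool.Agent.RadPD.L1
import Pool.Agent.RadPD.PA
import Pool.Agent.RadPD.ME

set_option autoImplicit false

namespace Pool.Agent.RadPD

open MeasureTheory ProbabilityTheory

variable {F : Subfield ℂ} {X : Type*} [mX : MeasurableSpace X]

/-! ## Module NU: null σ-algebras -/

/-- products of bounded measurable functions -/
private theorem NU_BM_mul {f g : X → ℂ} (hf : BM f) (hg : BM g) : BM (fun x => f x * g x) :=
  ⟨hf.meas.mul hg.meas, fun x => by
    rw [norm_mul]
    exact mul_le_one₀ (hf.bound x) (norm_nonneg _) (hg.bound x)⟩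

private theorem NU_BM_conj {f : X → ℂ} (hf : BM f) : BM (fun x => (starRingEnd ℂ) (f x)) :=
  ⟨Complex.continuous_conj.measurable.comp hf.meas, fun x => by
    rw [RCLike.norm_conj]; exact hf.bound x⟩

private theorem NU_BM_e (S : RotSys F X) (z : F) : BM (S.e z) :=
  ⟨S.e_meas z, fun x => (S.e_norm z x).le⟩

private theorem NU_BM_T (S : RotSys F X) (u : K F) {f : X → ℂ} (hf : BM f) :
    BM (fun x => f (S.T u x)) :=
  ⟨hf.meas.comp (S.T_mp u).measurable, fun _ => hf.bound _⟩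

private theorem NU_BM_memLp (m : Measure X) [IsProbabilityMeasure m] {f : X → ℂ} (hf : BM f)
    (p : ENNReal) : MemLp f p m :=
  MemLp.of_bound hf.meas.aestronglyMeasurable 1 (Filter.Eventually.of_forall hf.bound)

private theorem NU_BM_int (m : Measure X) [IsProbabilityMeasure m] {f : X → ℂ} (hf : BM f) :
    Integrable f m :=
  memLp_one_iff_integrable.1 (NU_BM_memLp m hf 1)

/-- (*) if the pair system of `Y` has property (D) then `Y` is null -/
theorem null_of_pair_condD (hF : RadClosed F) {S : RotSys F X} {Y : SA X} (hY : S.InvAlg Y)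
    (D : PairData S Y) (hD : D.P.CondD) : S.Null Y := by
  intro s M hs hM k hk A hA
  have hg : BM (fun p : X × X => A p.1 * (starRingEnd ℂ) (A p.2)) := by
    refine NU_BM_mul (X := X × X) (f := fun p => A p.1) (g := fun p => (starRingEnd ℂ) (A p.2)) ?_ ?_
    · exact ⟨hA.meas.comp measurable_fst, fun p => hA.bound _⟩
    · exact NU_BM_conj (X := X × X) (f := fun p => A p.2)
        ⟨hA.meas.comp measurable_snd, fun p => hA.bound _⟩
  have h1 := locMean_integral_eq_zero hF D.P hD s hs M hM k hk 1 one_ne_zero _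
    (NU_BM_memLp D.P.m hg 2)
  have h2 : (fun t : F0 F => ∫ p, D.P.e ((k : F) * cR F t * 1) p *
      (A p.1 * (starRingEnd ℂ) (A p.2)) ∂D.P.m) =
      fun t : F0 F => ((∫ x, ‖(S.m[fun x => S.e ((k : F) * cR F t) x * A x | Y.ms]) x‖ ^ 2 ∂S.m : ℝ)
        : ℂ) := by
    funext t
    rw [← D.integral_sq hY.le (NU_BM_mul (NU_BM_e S ((k : F) * cR F t)) hA)]
    refine integral_congr_ae (Filter.Eventually.of_forall fun p => ?_)
    simp only [mul_one, D.P_e, map_mul]
    ring
  rw [h2, Mean.cx_ofReal] at h1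
  exact_mod_cast h1

theorem invt_invAlg (S : RotSys F X) : S.InvAlg S.invt where
  le := fun A hA => hA.1
  inv := fun u A hA => by
    refine ⟨(S.T_mp u).measurable hA.1, fun v => ?_⟩
    have h1 : S.T v ⁻¹' (S.T u ⁻¹' A) =ᵐ[S.m] S.T v ⁻¹' A :=
      (S.T_mp v).quasiMeasurePreserving.preimage_ae_eq (hA.2 u)
    exact (h1.trans (hA.2 v)).trans (hA.2 u).symm

/-- conditional expectation on the invariant sets does not see the action -/
private theorem NU_condExp_T (S : RotSys F X) (u : K F) {f : X → ℂ} (hf : BM f) :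
    S.m[fun x => f (S.T u x) | S.invt.ms] =ᵐ[S.m] S.m[f | S.invt.ms] := by
  have hle : S.invt.ms ≤ mX := (invt_invAlg S).le
  symm
  refine ae_eq_condExp_of_forall_setIntegral_eq hle (NU_BM_int S.m (NU_BM_T S u hf))
    (fun A _ _ => integrable_condExp.integrableOn) (fun A hA _ => ?_)
    stronglyMeasurable_condExp.aestronglyMeasurable
  rw [setIntegral_condExp hle (NU_BM_int S.m hf) hA]
  have hA' : MeasurableSet A := hle _ hA
  rw [← integral_indicator hA', ← integral_indicator hA']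
  have h1 : ∫ x, A.indicator f x ∂S.m = ∫ x, A.indicator f (S.T u x) ∂S.m := by
    rw [integral_comp_T S u (A.indicator f)
      ((hf.meas.indicator hA').aestronglyMeasurable)]
  rw [h1]
  refine integral_congr_ae ?_
  have h2 : S.T u ⁻¹' A =ᵐ[S.m] A := hA.2 u
  filter_upwards [h2] with x hx
  have hx' : (S.T u x ∈ A) = (x ∈ A) := hx
  by_cases h : x ∈ A
  · have h' : S.T u x ∈ A := by rw [hx']; exact h
    simp [Set.indicator, h, h']
  · have h' : ¬ S.T u x ∈ A := by rw [hx']; exact h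
    simp [Set.indicator, h, h']

private theorem NU_sq_le_one (m : Measure X) [IsProbabilityMeasure m] {Y : SA X} (hY : Y.ms ≤ mX)
    {f : X → ℂ} (hf : BM f) : ∫ x, ‖(m[f | Y.ms]) x‖ ^ 2 ∂m ≤ 1 := by
  refine (integral_sq_condExp_le m hY (NU_BM_memLp m hf 2)).trans ?_
  have h1 : ∫ x, ‖f x‖ ^ 2 ∂m ≤ ∫ _, (1 : ℝ) ∂m := by
    refine integral_mono_of_nonneg (Filter.Eventually.of_forall fun x => by positivity)
      (integrable_const _) (Filter.Eventually.of_forall fun x => ?_)
    exact pow_le_one₀ (norm_nonneg _) (hf.bound x)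
  simpa using h1

private theorem NU_e_zero (S : RotSys F X) (x : X) : S.e 0 x = 1 := by
  have h1 := S.e_add 0 0 x
  rw [add_zero] at h1
  have h2 : S.e 0 x ≠ 0 := by
    intro h
    have := S.e_norm 0 x
    rw [h] at this
    simp at this
  exact mul_left_cancel₀ h2 (by rw [← h1, mul_one])

private theorem NU_e_neg (S : RotSys F X) (z : F) (x : X) :
    (starRingEnd ℂ) (S.e z x) = S.e (-z) x := by
  have h1 : S.e z x * S.e (-z) x = 1 := by
    rw [← S.e_add, add_neg_cancel, NU_e_zero]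
  have h2 : S.e z x * (starRingEnd ℂ) (S.e z x) = 1 := by
    rw [Complex.mul_conj, Complex.normSq_eq_norm_sq, S.e_norm]
    simp
  have h3 : S.e z x ≠ 0 := by
    intro h
    rw [h, zero_mul] at h1
    exact zero_ne_one h1
  exact mul_left_cancel₀ h3 (h2.trans h1.symm)

/-- averaging over finitely many rotations -/
private theorem NU_avg (S : RotSys F X) {f : X → ℂ} (hf : BM f) (N : ℕ) (hN : 0 < N)
    (u : Fin N → K F) :
    ∫ x, ‖(S.m[f | S.invt.ms]) x‖ ^ 2 ∂S.m ≤ ((N : ℝ) ^ 2)⁻¹ * ∑ i, ∑ j,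
      (∫ x, f (S.T (u i) x) * (starRingEnd ℂ) (f (S.T (u j) x)) ∂S.m).re := by
  have hle : S.invt.ms ≤ mX := (invt_invAlg S).le
  have hN0 : (N : ℂ) ≠ 0 := by exact_mod_cast hN.ne'
  have hfi : ∀ i, BM (fun x => f (S.T (u i) x)) := fun i => NU_BM_T S (u i) hf
  set g : X → ℂ := (N : ℂ)⁻¹ • ∑ i, fun x => f (S.T (u i) x) with hg
  have hgx : ∀ x, g x = (N : ℂ)⁻¹ * ∑ i, f (S.T (u i) x) := fun x => by
    simp [hg, Finset.sum_apply]
  have h1 : S.m[g | S.invt.ms] =ᵐ[S.m] S.m[f | S.invt.ms] := by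
    refine (condExp_smul _ _ _).trans ?_
    have h2 := condExp_finsetSum (μ := S.m) (s := Finset.univ)
      (f := fun i : Fin N => fun x => f (S.T (u i) x))
      (fun i _ => NU_BM_int S.m (hfi i)) S.invt.ms
    have h3 : ∀ᵐ x ∂S.m, ∀ i : Fin N, (S.m[fun x => f (S.T (u i) x) | S.invt.ms]) x =
        (S.m[f | S.invt.ms]) x := by
      rw [ae_all_iff]
      exact fun i => NU_condExp_T S (u i) hf
    filter_upwards [h2, h3] with x hx2 hx3
    rw [Pi.smul_apply, hx2, Finset.sum_apply, Finset.sum_congr rfl fun i _ => hx3 i]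
    simp only [Finset.sum_const, Finset.card_univ, Fintype.card_fin, smul_eq_mul, nsmul_eq_mul]
    field_simp
  have hgm : MemLp g 2 S.m := by
    refine MemLp.const_smul ?_ _
    exact memLp_finsetSum' _ fun i _ => NU_BM_memLp S.m (hfi i) 2
  have h4 : ∫ x, ‖(S.m[f | S.invt.ms]) x‖ ^ 2 ∂S.m = ∫ x, ‖(S.m[g | S.invt.ms]) x‖ ^ 2 ∂S.m := by
    refine integral_congr_ae ?_
    filter_upwards [h1] with x hx
    rw [hx]
  rw [h4]
  refine (integral_sq_condExp_le S.m hle hgm).trans (le_of_eq ?_)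
  have h5 : ∀ x, ‖g x‖ ^ 2 = ((N : ℝ) ^ 2)⁻¹ * ∑ i, ∑ j,
      (f (S.T (u i) x) * (starRingEnd ℂ) (f (S.T (u j) x))).re := by
    intro x
    rw [hgx, norm_mul, mul_pow, norm_inv, Complex.norm_natCast, inv_pow]
    congr 1
    have h6 : ((‖∑ i, f (S.T (u i) x)‖ ^ 2 : ℝ) : ℂ) =
        ∑ i, ∑ j, f (S.T (u i) x) * (starRingEnd ℂ) (f (S.T (u j) x)) := by
      rw [← Complex.normSq_eq_norm_sq, ← Complex.mul_conj, map_sum, Finset.sum_mul_sum]
    have h7 := congrArg Complex.re h6
    rw [Complex.ofReal_re] at h7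
    rw [h7, Complex.re_sum]
    exact Finset.sum_congr rfl fun i _ => Complex.re_sum _ _
  have hij : ∀ i j, BM (fun x => f (S.T (u i) x) * (starRingEnd ℂ) (f (S.T (u j) x))) :=
    fun i j => NU_BM_mul (hfi i) (NU_BM_conj (hfi j))
  have hint : ∀ i j, Integrable
      (fun x => (f (S.T (u i) x) * (starRingEnd ℂ) (f (S.T (u j) x))).re) S.m :=
    fun i j => (NU_BM_int S.m (hij i j)).re
  simp only [h5]
  rw [integral_const_mul, integral_finsetSum _ fun i _ => integrable_finsetSum _ fun j _ => hint i j]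
  congr 1
  refine Finset.sum_congr rfl fun i _ => ?_
  rw [integral_finsetSum _ fun j _ => hint i j]
  refine Finset.sum_congr rfl fun j _ => ?_
  exact integral_re (𝕜 := ℂ) (NU_BM_int S.m (hij i j))

/-- Lemma 2 -/
theorem null_invt (hF : RadClosed F) (S : RotSys F X) (hD : S.CondD) : S.Null S.invt := by
  intro s M hs hM k hk A hA
  have hle : S.invt.ms ≤ mX := (invt_invAlg S).le
  have := K_infinite hF
  set r : F0 F → ℝ := fun t =>
    ∫ x, ‖(S.m[fun x => S.e ((k : F) * cR F t) x * A x | S.invt.ms]) x‖ ^ 2 ∂S.m with hr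
  have hft : ∀ t : F0 F, BM (fun x => S.e ((k : F) * cR F t) x * A x) :=
    fun t => NU_BM_mul (NU_BM_e S _) hA
  have hr0 : ∀ t, 0 ≤ r t := fun t => integral_nonneg fun x => by positivity
  have hr1 : ∀ t, r t ≤ 1 := fun t => NU_sq_le_one S.m hle (hft t)
  have hrb : Bdd r := ⟨1, fun t => by rw [abs_of_nonneg (hr0 t)]; exact hr1 t⟩
  have hMr : 0 ≤ M.toFun r := M.nonneg r hrb hr0
  have key : ∀ N : ℕ, 0 < N → M.toFun r ≤ (N : ℝ)⁻¹ := by
    intro N hN
    set u : Fin N → K F := fun i => Infinite.natEmbedding (K F) i with hu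
    have hinj : Function.Injective u :=
      (Infinite.natEmbedding (K F)).injective.comp Fin.val_injective
    set I : Fin N → Fin N → F0 F → ℂ := fun i j t =>
      ∫ x, (S.e ((k : F) * cR F t) (S.T (u i) x) * A (S.T (u i) x)) *
        (starRingEnd ℂ) (S.e ((k : F) * cR F t) (S.T (u j) x) * A (S.T (u j) x)) ∂S.m with hI
    have hIn : ∀ i j t, ‖I i j t‖ ≤ 1 := by
      intro i j t
      have h1 : BM (fun x => (S.e ((k : F) * cR F t) (S.T (u i) x) * A (S.T (u i) x)) *
        (starRingEnd ℂ) (S.e ((k : F) * cR F t) (S.T (u j) x) * A (S.T (u j) x))) :=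
        NU_BM_mul (NU_BM_T S (u i) (hft t)) (NU_BM_conj (NU_BM_T S (u j) (hft t)))
      refine (norm_integral_le_of_norm_le_const (Filter.Eventually.of_forall h1.bound)).trans ?_
      simp
    have hIre : ∀ i j t, |(I i j t).re| ≤ 1 := fun i j t =>
      (Complex.abs_re_le_norm _).trans (hIn i j t)
    have h1 : ∀ t, r t ≤ ((N : ℝ) ^ 2)⁻¹ * ∑ i, ∑ j, (I i j t).re :=
      fun t => NU_avg S (hft t) N hN u
    have hb1 : ∀ i j, Bdd (fun t => (I i j t).re) := fun i j => ⟨1, hIre i j⟩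
    have hbs : ∀ (s : Finset (Fin N)) (g : Fin N → F0 F → ℝ), (∀ i, Bdd (g i)) →
        Bdd (fun t => ∑ i ∈ s, g i t) := by
      intro s g hg
      choose C hC using hg
      refine ⟨∑ i ∈ s, C i, fun t => ?_⟩
      exact (Finset.abs_sum_le_sum_abs _ _).trans (Finset.sum_le_sum fun i _ => hC i t)
    have hb2 : ∀ i, Bdd (fun t => ∑ j, (I i j t).re) := fun i => hbs _ _ (hb1 i)
    have hb3 : Bdd (fun t => ∑ i, ∑ j, (I i j t).re) := hbs _ _ hb2
    have hb4 : Bdd (fun t => ((N : ℝ) ^ 2)⁻¹ * ∑ i, ∑ j, (I i j t).re) :=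
      Bdd.mul (Bdd.const _) hb3
    have h2 : M.toFun r ≤ ((N : ℝ) ^ 2)⁻¹ * ∑ i, ∑ j, M.toFun (fun t => (I i j t).re) := by
      refine (M.mono hrb hb4 h1).trans (le_of_eq ?_)
      rw [M.map_smul _ _ hb3, M.map_sum _ _ fun i _ => hb2 i]
      congr 1
      exact Finset.sum_congr rfl fun i _ => M.map_sum _ _ fun j _ => hb1 i j
    have h3 : ∀ i j, M.toFun (fun t => (I i j t).re) ≤ if i = j then 1 else 0 := by
      intro i j
      split_ifs with hij
      · exact (le_abs_self _).trans (M.abs_le (hIre i j))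
      · rw [← M.re_cx]
        have hw : cK F (u i) - cK F (u j) ≠ 0 := by
          rw [sub_ne_zero]
          exact fun h => hij (hinj (cK_injective h))
        have hg : BM (fun x => A (S.T (u i) x) * (starRingEnd ℂ) (A (S.T (u j) x))) :=
          NU_BM_mul (NU_BM_T S (u i) hA) (NU_BM_conj (NU_BM_T S (u j) hA))
        have h4 := locMean_integral_eq_zero hF S hD s hs M hM k hk _ hw _
          (NU_BM_memLp S.m hg 2)
        have h5 : I i j = fun t : F0 F => ∫ x, S.e ((k : F) * cR F t *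
            (cK F (u i) - cK F (u j))) x *
            (A (S.T (u i) x) * (starRingEnd ℂ) (A (S.T (u j) x))) ∂S.m := by
          funext t
          refine integral_congr_ae (Filter.Eventually.of_forall fun x => ?_)
          have h6 : (k : F) * cR F t * (cK F (u i) - cK F (u j)) =
              cK F (u i) * ((k : F) * cR F t) + -(cK F (u j) * ((k : F) * cR F t)) := by ring
          simp only [h6, S.e_add, S.e_rot, ← NU_e_neg, map_mul]
          ring
        rw [h5, h4]
        simp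
    have h7 : ∑ i : Fin N, ∑ j : Fin N, M.toFun (fun t => (I i j t).re) ≤ N := by
      calc ∑ i : Fin N, ∑ j : Fin N, M.toFun (fun t => (I i j t).re)
          ≤ ∑ i : Fin N, ∑ j : Fin N, (if i = j then (1 : ℝ) else 0) :=
            Finset.sum_le_sum fun i _ => Finset.sum_le_sum fun j _ => h3 i j
        _ = N := by simp
    have hNpos : (0 : ℝ) < N := by exact_mod_cast hN
    calc M.toFun r ≤ ((N : ℝ) ^ 2)⁻¹ * ∑ i, ∑ j, M.toFun (fun t => (I i j t).re) := h2
      _ ≤ ((N : ℝ) ^ 2)⁻¹ * N := by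
          exact mul_le_mul_of_nonneg_left h7 (by positivity)
      _ = (N : ℝ)⁻¹ := by field_simp
  refine le_antisymm ?_ hMr
  refine le_of_forall_pos_le_add fun ε hε => ?_
  obtain ⟨n, hn⟩ := exists_nat_gt ε⁻¹
  have hn0 : (0 : ℝ) < n := (inv_pos.2 hε).trans hn
  refine (key n (by exact_mod_cast hn0)).trans ?_
  rw [zero_add]
  exact (inv_le_comm₀ hn0 hε).2 hn.le

private theorem NU_set_T (S : RotSys F X) (u : K F) (B : Set X) (hB : MeasurableSet[S.invt.ms] B)
    (h : X → ℝ) (hh : AEStronglyMeasurable h S.m) :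
    ∫ x in B, h (S.T u x) ∂S.m = ∫ x in B, h x ∂S.m := by
  have hB' : MeasurableSet B := (invt_invAlg S).le _ hB
  rw [← integral_indicator hB', ← integral_indicator hB']
  have h1 : ∫ x, B.indicator h x ∂S.m = ∫ x, B.indicator h (S.T u x) ∂S.m := by
    rw [integral_comp_T S u (B.indicator h) (hh.indicator hB')]
  rw [h1]
  refine integral_congr_ae ?_
  have h2 : S.T u ⁻¹' B =ᵐ[S.m] B := hB.2 u
  filter_upwards [h2] with x hx
  have hx' : (S.T u x ∈ B) = (x ∈ B) := hx
  by_cases h3 : x ∈ B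
  · have h' : S.T u x ∈ B := by rw [hx']; exact h3
    simp [Set.indicator, h3, h']
  · have h' : ¬ S.T u x ∈ B := by rw [hx']; exact h3
    simp [Set.indicator, h3, h']

private theorem NU_lin {Z : Type*} [MeasurableSpace Z] (ν : Measure Z) [IsFiniteMeasure ν]
    {a b c : Z → ℝ} (ha : Integrable a ν) (hb : Integrable b ν) (hc : Integrable c ν) (φ : ℝ) :
    ∫ p, (2 + 2 * a p - 4 * φ * b p - 4 * φ * c p + 4 * φ ^ 2) ∂ν =
      2 * ν.real Set.univ + 2 * ∫ p, a p ∂ν - 4 * φ * ∫ p, b p ∂ν - 4 * φ * ∫ p, c p ∂ν +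
        4 * φ ^ 2 * ν.real Set.univ := by
  have i2 : Integrable (fun _ : Z => (2 : ℝ)) ν := integrable_const _
  have ia : Integrable (fun p => 2 * a p) ν := ha.const_mul 2
  have ib : Integrable (fun p => 4 * φ * b p) ν := hb.const_mul _
  have ic : Integrable (fun p => 4 * φ * c p) ν := hc.const_mul _
  have i4 : Integrable (fun _ : Z => 4 * φ ^ 2) ν := integrable_const _
  have i5 : Integrable (fun p => 2 + 2 * a p) ν := i2.add ia
  have i6 : Integrable (fun p => 2 + 2 * a p - 4 * φ * b p) ν := i5.sub ib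
  have i7 : Integrable (fun p => 2 + 2 * a p - 4 * φ * b p - 4 * φ * c p) ν := i6.sub ic
  have h1 : ∫ p, (2 + 2 * a p - 4 * φ * b p - 4 * φ * c p + 4 * φ ^ 2) ∂ν =
      ∫ p, (2 + 2 * a p - 4 * φ * b p - 4 * φ * c p) ∂ν + ∫ _, 4 * φ ^ 2 ∂ν :=
    integral_add i7 i4
  have h2 : ∫ p, (2 + 2 * a p - 4 * φ * b p - 4 * φ * c p) ∂ν =
      ∫ p, (2 + 2 * a p - 4 * φ * b p) ∂ν - ∫ p, 4 * φ * c p ∂ν := integral_sub i6 ic
  have h3 : ∫ p, (2 + 2 * a p - 4 * φ * b p) ∂ν =
      ∫ p, (2 + 2 * a p) ∂ν - ∫ p, 4 * φ * b p ∂ν := integral_sub i5 ib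
  have h4 : ∫ p, (2 + 2 * a p) ∂ν = ∫ _, (2 : ℝ) ∂ν + ∫ p, 2 * a p ∂ν := integral_add i2 ia
  rw [h1, h2, h3, h4]
  simp only [integral_const_mul, integral_const, smul_eq_mul]
  ring

/-- pointwise inequality behind Lemma 3 -/
private theorem NU_point (a b : ℂ) (ha : ‖a‖ = 1) (hb : ‖b‖ = 1) (φ : ℝ) :
    0 ≤ 2 + 2 * (a * b).re - 4 * φ * a.re - 4 * φ * b.re + 4 * φ ^ 2 := by
  have ha' : a.re ^ 2 + a.im ^ 2 = 1 := by
    have := Complex.sq_norm a
    rw [ha, Complex.normSq_apply] at this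
    linarith
  have hb' : b.re ^ 2 + b.im ^ 2 = 1 := by
    have := Complex.sq_norm b
    rw [hb, Complex.normSq_apply] at this
    linarith
  rw [Complex.mul_re]
  nlinarith [sq_nonneg (a.re + b.re - 2 * φ), sq_nonneg (a.im - b.im)]

/-- Lemma 3 -/
theorem null_bound [StandardBorelSpace X] (hF : RadClosed F) (S : RotSys F X) {Y : SA X}
    (hY : S.InvAlg Y) (hN : S.Null Y) (B : Set X) (hB : MeasurableSet[Y.ms] B)
    (hBi : MeasurableSet[S.invt.ms] B)
    (β : F) (hβ : β ≠ 0) :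
    ∫ x in B, ‖(S.m[S.e β | Y.ms]) x‖ ^ 2 ∂S.m ≤ S.m.real B / Real.sqrt 2 := by
  obtain ⟨D⟩ := exists_pairData S hY
  have hBm : MeasurableSet B := hY.le _ hB
  set f : F → ℝ := fun z => ∫ x in B, ‖(S.m[S.e z | Y.ms]) x‖ ^ 2 ∂S.m with hf
  set BB : Set (X × X) := B ×ˢ B with hBB
  have hBBm : MeasurableSet BB := hBm.prod hBm
  have hsm : ∀ g : X → ℂ, AEStronglyMeasurable (fun x => ‖(S.m[g | Y.ms]) x‖ ^ 2) S.m := fun g =>
    ((stronglyMeasurable_condExp.mono hY.le).norm.pow 2).aestronglyMeasurable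
  -- the square integral as a pair integral
  have hJ : ∀ z : F, ((f z : ℝ) : ℂ) = ∫ p in BB, D.P.e z p ∂D.P.m := by
    intro z
    have h1 : BM (B.indicator (S.e z)) := ⟨(S.e_meas z).indicator hBm, fun x => by
      by_cases h : x ∈ B
      · simp [h, S.e_norm]
      · simp [h]⟩
    have h2 := D.integral_sq hY.le h1
    have h3 : S.m[B.indicator (S.e z) | Y.ms] =ᵐ[S.m] B.indicator (S.m[S.e z | Y.ms]) :=
      condExp_indicator (NU_BM_int S.m (NU_BM_e S z)) hB
    have h4 : ∫ x, ‖(S.m[B.indicator (S.e z) | Y.ms]) x‖ ^ 2 ∂S.m = f z := by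
      change _ = ∫ x in B, ‖(S.m[S.e z | Y.ms]) x‖ ^ 2 ∂S.m
      rw [← integral_indicator hBm]
      refine integral_congr_ae ?_
      filter_upwards [h3] with x hx
      rw [hx]
      by_cases h : x ∈ B
      · simp [h]
      · simp [h]
    rw [h4] at h2
    rw [← h2, ← integral_indicator hBBm]
    refine integral_congr_ae (Filter.Eventually.of_forall fun p => ?_)
    rw [hBB]
    by_cases h5 : p.1 ∈ B
    · by_cases h6 : p.2 ∈ B
      · have h7 : p ∈ B ×ˢ B := ⟨h5, h6⟩
        simp [h5, h6, h7, D.P_e]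
      · have h7 : ¬ p ∈ B ×ˢ B := fun h => h6 h.2
        simp [h6, h7]
    · have h7 : ¬ p ∈ B ×ˢ B := fun h => h5 h.1
      simp [h5, h7]
  have hnu : IsFiniteMeasure (D.P.m.restrict BB) := inferInstance
  have hint : ∀ z : F, Integrable (D.P.e z) (D.P.m.restrict BB) := fun z =>
    (NU_BM_int D.P.m (NU_BM_e D.P z)).restrict
  have hJre : ∀ z : F, f z = ∫ p in BB, (D.P.e z p).re ∂D.P.m := by
    intro z
    have h1 := congrArg Complex.re (hJ z)
    rw [Complex.ofReal_re] at h1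
    rw [h1]
    exact (integral_re (𝕜 := ℂ) (hint z)).symm
  -- total mass
  have hmass : D.P.m.real BB = S.m.real B := by
    have h1 : f 0 = S.m.real B := by
      have h2 : S.e 0 = fun _ => (1 : ℂ) := funext fun x => NU_e_zero S x
      rw [hf]
      simp only [h2]
      rw [condExp_const hY.le]
      simp
    rw [← h1, hJre 0]
    have h2 : D.P.e 0 = fun _ => (1 : ℂ) := funext fun x => NU_e_zero D.P x
    simp [h2]
  set mB : ℝ := S.m.real B with hmB
  have hmB0 : 0 ≤ mB := measureReal_nonneg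
  -- rotation invariance
  have hrot : ∀ (u : K F) (z : F), f (cK F u * z) = f z := by
    intro u z
    have h1 : S.e (cK F u * z) = fun x => S.e z (S.T u x) := funext fun x => (S.e_rot u z x).symm
    have h2 := condExp_comp_T S hY u (NU_BM_int S.m (NU_BM_e S z))
    rw [hf]
    simp only [h1]
    rw [← NU_set_T S u B hBi _ (hsm (S.e z))]
    refine integral_congr_ae (ae_restrict_of_ae ?_)
    filter_upwards [h2] with x hx
    rw [hx]
  -- the basic inequality
  obtain ⟨w, s, hs, hws⟩ := exists_polar hF β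
  have hspos : 0 < (s : ℝ) := by
    rw [hs, norm_pos_iff]
    exact fun h => hβ (Subtype.ext h)
  have hfβ : f β = f (cR F s) := by rw [hws, hrot]
  have hge : ∀ (φ : ℝ) (c : F0 F), 0 ≤ (c : ℝ) → (c : ℝ) < 2 * s →
      0 ≤ 2 * mB + 2 * f (cR F c) - 8 * φ * f (cR F s) + 4 * φ ^ 2 * mB := by
    intro φ c hc0 hc1
    obtain ⟨u, hu⟩ := exists_isosceles hF hspos hc0 hc1
    set z1 : F := cK F u * cR F s with hz1
    set z2 : F := cK F u⁻¹ * cR F s with hz2
    have hz : cR F c = z1 + z2 := by rw [hu, hz1, hz2]; ring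
    have h1 : 0 ≤ ∫ p in BB, (2 + 2 * (D.P.e (cR F c) p).re - 4 * φ * (D.P.e z1 p).re -
        4 * φ * (D.P.e z2 p).re + 4 * φ ^ 2) ∂D.P.m := by
      refine integral_nonneg fun p => ?_
      have := NU_point (D.P.e z1 p) (D.P.e z2 p) (D.P.e_norm z1 p) (D.P.e_norm z2 p) φ
      rw [hz, D.P.e_add]
      exact this
    have i0 : ∀ z : F, Integrable (fun p => (D.P.e z p).re) (D.P.m.restrict BB) :=
      fun z => (hint z).re
    rw [NU_lin (D.P.m.restrict BB) (i0 (cR F c)) (i0 z1) (i0 z2) φ] at h1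
    simp only [← hJre, measureReal_restrict_apply_univ, hmass] at h1
    rw [hz1, hz2, hrot, hrot] at h1
    linarith
  -- nullness
  obtain ⟨M, hM⟩ := exists_locMean F (s + s) (by push_cast; linarith)
  have hh := hN (s + s) M (by push_cast; linarith) hM 1 one_pos (fun _ => 1)
    ⟨measurable_const, fun _ => by simp⟩
  set h : F0 F → ℝ := fun t =>
    ∫ x, ‖(S.m[fun x => S.e (((1 : ℕ) : F) * cR F t) x * 1 | Y.ms]) x‖ ^ 2 ∂S.m with hhdef
  have hhe : ∀ t, h t = ∫ x, ‖(S.m[S.e (cR F t) | Y.ms]) x‖ ^ 2 ∂S.m := by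
    intro t
    rw [hhdef]
    simp only [Nat.cast_one, one_mul, mul_one]
  have hfh : ∀ t : F0 F, f (cR F t) ≤ h t := by
    intro t
    rw [hhe]
    refine setIntegral_le_integral ?_ (Filter.Eventually.of_forall fun x => by positivity)
    exact ((memLp_two_iff_integrable_sq_norm
      (stronglyMeasurable_condExp.mono hY.le).aestronglyMeasurable).1
      (MemLp.condExp one_le_two (NU_BM_memLp S.m (NU_BM_e S _) 2)))
  have hhb : Bdd h := by
    refine ⟨1, fun t => ?_⟩
    rw [hhe, abs_of_nonneg (integral_nonneg fun x => by positivity)]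
    exact NU_sq_le_one S.m hY.le (NU_BM_e S _)
  have hfin : ∀ φ : ℝ, 0 ≤ 2 * mB - 8 * φ * f (cR F s) + 4 * φ ^ 2 * mB := by
    intro φ
    refine le_of_forall_pos_le_add fun ε hε => ?_
    obtain ⟨t, ht0, ht1, ht2⟩ := hM.exists_small hhb hh.le (half_pos hε)
    have h1 := hge φ t ht0 (by push_cast at ht1; linarith)
    have h2 := hfh t
    linarith
  have hfs0 : 0 ≤ f (cR F s) := setIntegral_nonneg hBm fun x _ => by positivity
  change f β ≤ mB / Real.sqrt 2
  rw [hfβ, le_div_iff₀ (by positivity)]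
  rcases hmB0.eq_or_lt with h0 | h0
  · have h1 := hfin 1
    rw [← h0] at h1 ⊢
    have h2 : f (cR F s) = 0 := by linarith
    rw [h2]
    simp
  · have h1 := hfin (f (cR F s) / mB)
    have h2 : 2 * f (cR F s) ^ 2 ≤ mB ^ 2 := by
      have h3 : 0 ≤ (2 * mB - 8 * (f (cR F s) / mB) * f (cR F s) +
          4 * (f (cR F s) / mB) ^ 2 * mB) * mB := mul_nonneg h1 h0.le
      have h4 : (2 * mB - 8 * (f (cR F s) / mB) * f (cR F s) +
          4 * (f (cR F s) / mB) ^ 2 * mB) * mB = 2 * mB ^ 2 - 4 * f (cR F s) ^ 2 := by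
        field_simp
        ring
      rw [h4] at h3
      linarith
    refine abs_le_of_sq_le_sq' ?_ h0.le |>.2
    rw [mul_pow, Real.sq_sqrt (by norm_num)]
    linarith

end Pool.Agent.RadPD
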