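import Pool.Agent.RadPD.PL
import Pool.Agent.RadPD.NU

set_option autoImplicit false

namespace Pool.Agent.RadPD

open MeasureTheory ProbabilityTheory

theorem KE_pow_sub_one (w : ℂ) (hw : ‖w‖ = 1) (j : ℕ) : ‖w ^ j - 1‖ ≤ j * ‖w - 1‖ := by
  induction j with
  | zero => simp
  | succ j ih =>
    have h : w ^ (j + 1) - 1 = w ^ j * (w - 1) + (w ^ j - 1) := by ring
    rw [h]
    calc ‖w ^ j * (w - 1) + (w ^ j - 1)‖ ≤ ‖w ^ j * (w - 1)‖ + ‖w ^ j - 1‖ := norm_add_le _ _
      _ ≤ ‖w - 1‖ + j * ‖w - 1‖ := by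
        rw [norm_mul, norm_pow, hw, one_pow, one_mul]
        linarith
      _ = _ := by push_cast; ring

/-- Fejér kernel lower bound, used in Lemma 5 -/
theorem fejer_lower (n : ℕ) (hn : 0 < n) (w : ℂ) (hw : ‖w‖ = 1) :
    (n : ℝ) ^ 2 / 2 * (1 - 4 * (n : ℝ) ^ 2 * ‖w - 1‖ ^ 2) ≤ ‖∑ j ∈ Finset.range n, w ^ j‖ ^ 2 := by
  by_cases h : 1 ≤ 4 * (n : ℝ) ^ 2 * ‖w - 1‖ ^ 2
  · have h0 : (n : ℝ) ^ 2 / 2 * (1 - 4 * (n : ℝ) ^ 2 * ‖w - 1‖ ^ 2) ≤ 0 :=
      mul_nonpos_of_nonneg_of_nonpos (by positivity) (by linarith)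
    exact h0.trans (by positivity)
  · push Not at h
    have hnr : (0 : ℝ) < n := by exact_mod_cast hn
    have hw0 : 0 ≤ ‖w - 1‖ := norm_nonneg _
    have h1 : 2 * (n : ℝ) * ‖w - 1‖ < 1 := by
      by_contra hc
      push Not at hc
      have : (1 : ℝ) ≤ (2 * (n : ℝ) * ‖w - 1‖) ^ 2 := one_le_pow₀ hc
      nlinarith
    have h2 : (n : ℝ) - ∑ j ∈ Finset.range n, ‖w ^ j - 1‖ ≤ ‖∑ j ∈ Finset.range n, w ^ j‖ := by
      have e : (n : ℂ) = ∑ j ∈ Finset.range n, w ^ j - ∑ j ∈ Finset.range n, (w ^ j - 1) := by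
        rw [Finset.sum_sub_distrib]
        simp
      have h3 : (n : ℝ) = ‖(n : ℂ)‖ := by simp
      have h4 : ‖∑ j ∈ Finset.range n, (w ^ j - 1)‖ ≤ ∑ j ∈ Finset.range n, ‖w ^ j - 1‖ :=
        norm_sum_le _ _
      have h5 : ‖(n : ℂ)‖ ≤ ‖∑ j ∈ Finset.range n, w ^ j‖ + ‖∑ j ∈ Finset.range n, (w ^ j - 1)‖ := by
        rw [e]
        exact norm_sub_le _ _
      linarith
    have h3 : ∑ j ∈ Finset.range n, ‖w ^ j - 1‖ ≤ (n : ℝ) ^ 2 / 2 * ‖w - 1‖ := by
      calc ∑ j ∈ Finset.range n, ‖w ^ j - 1‖ ≤ ∑ j ∈ Finset.range n, (j : ℝ) * ‖w - 1‖ :=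
            Finset.sum_le_sum fun j _ => KE_pow_sub_one w hw j
        _ = (∑ j ∈ Finset.range n, (j : ℝ)) * ‖w - 1‖ := by rw [Finset.sum_mul]
        _ ≤ (n : ℝ) ^ 2 / 2 * ‖w - 1‖ := by
            apply mul_le_mul_of_nonneg_right _ hw0
            have h6 : ∀ m : ℕ, ∑ j ∈ Finset.range m, (j : ℝ) = (m : ℝ) * (m - 1) / 2 := by
              intro m
              induction m with
              | zero => simp
              | succ m ih =>
                rw [Finset.sum_range_succ, ih]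
                push_cast
                ring
            rw [h6]
            nlinarith
    have h4 : 3 * (n : ℝ) / 4 ≤ ‖∑ j ∈ Finset.range n, w ^ j‖ := by nlinarith
    have h5 : (3 * (n : ℝ) / 4) ^ 2 ≤ ‖∑ j ∈ Finset.range n, w ^ j‖ ^ 2 :=
      pow_le_pow_left₀ (by positivity) h4 2
    have h6 : (n : ℝ) ^ 2 / 2 * (1 - 4 * (n : ℝ) ^ 2 * ‖w - 1‖ ^ 2) ≤ (n : ℝ) ^ 2 / 2 := by
      have : 0 ≤ (n : ℝ) ^ 2 / 2 * (4 * (n : ℝ) ^ 2 * ‖w - 1‖ ^ 2) := by positivity
      nlinarith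
    nlinarith

theorem KE_conj_mul (w : ℂ) (hw : ‖w‖ = 1) : w * (starRingEnd ℂ) w = 1 := by
  rw [Complex.mul_conj, Complex.normSq_eq_norm_sq, hw]
  simp

theorem KE_re_pow (w : ℂ) (hw : ‖w‖ = 1) (j k : ℕ) :
    (w ^ j * (starRingEnd ℂ) (w ^ k)).re = (w ^ (max j k - min j k)).re := by
  have hc := KE_conj_mul w hw
  rcases le_total k j with h | h
  · rw [max_eq_left h, min_eq_right h]
    obtain ⟨d, rfl⟩ := Nat.exists_eq_add_of_le h
    have : w ^ (k + d) * (starRingEnd ℂ) (w ^ k) = w ^ d := by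
      rw [map_pow, pow_add]
      calc w ^ k * w ^ d * (starRingEnd ℂ) w ^ k = (w * (starRingEnd ℂ) w) ^ k * w ^ d := by ring
        _ = w ^ d := by rw [hc]; ring
    rw [this]
    congr 2
    omega
  · rw [max_eq_right h, min_eq_left h]
    obtain ⟨d, rfl⟩ := Nat.exists_eq_add_of_le h
    have : w ^ j * (starRingEnd ℂ) (w ^ (j + d)) = (starRingEnd ℂ) (w ^ d) := by
      rw [map_pow, map_pow, pow_add]
      calc w ^ j * ((starRingEnd ℂ) w ^ j * (starRingEnd ℂ) w ^ d) =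
          (w * (starRingEnd ℂ) w) ^ j * (starRingEnd ℂ) w ^ d := by ring
        _ = _ := by rw [hc]; ring
    rw [this, Complex.conj_re]
    congr 2
    omega

theorem KE_norm_sq (w : ℂ) (hw : ‖w‖ = 1) (n : ℕ) :
    ‖∑ j ∈ Finset.range n, w ^ j‖ ^ 2 =
      ∑ j ∈ Finset.range n, ∑ k ∈ Finset.range n, (w ^ (max j k - min j k)).re := by
  have h1 : (‖∑ j ∈ Finset.range n, w ^ j‖ ^ 2 : ℝ) =
      ((∑ j ∈ Finset.range n, w ^ j) * (starRingEnd ℂ) (∑ j ∈ Finset.range n, w ^ j)).re := by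
    rw [Complex.mul_conj, Complex.normSq_eq_norm_sq, Complex.ofReal_re]
  rw [h1, map_sum, Finset.sum_mul_sum, Complex.re_sum]
  apply Finset.sum_congr rfl
  intro j _
  rw [Complex.re_sum]
  apply Finset.sum_congr rfl
  intro k _
  exact KE_re_pow w hw j k

theorem KE_pointwise (a b : ℂ) (ha : ‖a‖ = 1) (hb : ‖b‖ = 1) (g g' : ℝ) (hg0 : 0 ≤ g) (hg1 : g ≤ 1)
    (hg0' : 0 ≤ g') (hg1' : g' ≤ 1) (n : ℕ) (hn : 0 < n) :
    (n : ℝ) ^ 2 / 2 * (g * g' - 8 * (n : ℝ) ^ 2 * (g * ‖a - 1‖ ^ 2 + g' * ‖b - 1‖ ^ 2)) ≤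
      ‖∑ j ∈ Finset.range n, (a * b) ^ j‖ ^ 2 := by
  have hw : ‖a * b‖ = 1 := by rw [norm_mul, ha, hb, one_mul]
  have h1 := fejer_lower n hn (a * b) hw
  have h2 : ‖a * b - 1‖ ≤ ‖a - 1‖ + ‖b - 1‖ := by
    have e : a * b - 1 = a * (b - 1) + (a - 1) := by ring
    rw [e]
    calc ‖a * (b - 1) + (a - 1)‖ ≤ ‖a * (b - 1)‖ + ‖a - 1‖ := norm_add_le _ _
      _ = ‖a - 1‖ + ‖b - 1‖ := by rw [norm_mul, ha, one_mul]; ring
  have h3 : ‖a * b - 1‖ ^ 2 ≤ 2 * (‖a - 1‖ ^ 2 + ‖b - 1‖ ^ 2) := by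
    have := pow_le_pow_left₀ (norm_nonneg _) h2 2
    nlinarith [sq_nonneg (‖a - 1‖ - ‖b - 1‖)]
  have hS : 0 ≤ ‖∑ j ∈ Finset.range n, (a * b) ^ j‖ ^ 2 := by positivity
  have hgg0 : 0 ≤ g * g' := mul_nonneg hg0 hg0'
  have hgg1 : g * g' ≤ 1 := by nlinarith
  have h4 : g * g' * ((n : ℝ) ^ 2 / 2 * (1 - 4 * (n : ℝ) ^ 2 * ‖a * b - 1‖ ^ 2)) ≤
      ‖∑ j ∈ Finset.range n, (a * b) ^ j‖ ^ 2 := by
    calc _ ≤ g * g' * ‖∑ j ∈ Finset.range n, (a * b) ^ j‖ ^ 2 :=
          mul_le_mul_of_nonneg_left h1 hgg0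
      _ ≤ 1 * ‖∑ j ∈ Finset.range n, (a * b) ^ j‖ ^ 2 := mul_le_mul_of_nonneg_right hgg1 hS
      _ = _ := one_mul _
  refine le_trans ?_ h4
  have hx : 0 ≤ ‖a - 1‖ ^ 2 := by positivity
  have hy : 0 ≤ ‖b - 1‖ ^ 2 := by positivity
  have h5 : g * g' * ‖a * b - 1‖ ^ 2 ≤ 2 * (g * ‖a - 1‖ ^ 2 + g' * ‖b - 1‖ ^ 2) := by
    have e1 : g * g' * ‖a - 1‖ ^ 2 ≤ g * ‖a - 1‖ ^ 2 := by
      apply mul_le_mul_of_nonneg_right _ hx
      nlinarith
    have e2 : g * g' * ‖b - 1‖ ^ 2 ≤ g' * ‖b - 1‖ ^ 2 := by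
      apply mul_le_mul_of_nonneg_right _ hy
      nlinarith
    have e3 := mul_le_mul_of_nonneg_left h3 hgg0
    nlinarith
  have hn2 : 0 ≤ (n : ℝ) ^ 2 / 2 := by positivity
  have hn3 : 0 ≤ (n : ℝ) ^ 2 := by positivity
  have h6 : g * g' - 8 * (n : ℝ) ^ 2 * (g * ‖a - 1‖ ^ 2 + g' * ‖b - 1‖ ^ 2) ≤
      g * g' * (1 - 4 * (n : ℝ) ^ 2 * ‖a * b - 1‖ ^ 2) := by
    have := mul_le_mul_of_nonneg_left h5 hn3
    nlinarith
  calc _ ≤ (n : ℝ) ^ 2 / 2 * (g * g' * (1 - 4 * (n : ℝ) ^ 2 * ‖a * b - 1‖ ^ 2)) :=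
        mul_le_mul_of_nonneg_left h6 hn2
    _ = _ := by ring

theorem KE_pair {Y : Type*} [MeasurableSpace Y] (ν : Measure Y) [IsProbabilityMeasure ν]
    (α β : Y → ℂ) (hα : Measurable α) (hβ : Measurable β) (hα1 : ∀ y, ‖α y‖ = 1)
    (hβ1 : ∀ y, ‖β y‖ = 1) (G : Y → ℝ) (hG : Measurable G) (hG0 : ∀ y, 0 ≤ G y)
    (hG1 : ∀ y, G y ≤ 1) (n : ℕ) (hn : 0 < n) :
    (n : ℝ) ^ 2 / 2 * ((∫ y, G y ∂ν) ^ 2 - 8 * (n : ℝ) ^ 2 *
      (∫ y, G y * ‖α y - 1‖ ^ 2 ∂ν + ∫ y, G y * ‖β y - 1‖ ^ 2 ∂ν)) ≤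
      ∑ j ∈ Finset.range n, ∑ k ∈ Finset.range n,
        ((∫ y, α y ^ (max j k - min j k) ∂ν) * ∫ y, β y ^ (max j k - min j k) ∂ν).re := by
  have hGn : ∀ y, ‖G y‖ ≤ 1 := fun y => by rw [Real.norm_of_nonneg (hG0 y)]; exact hG1 y
  have hb2 : ∀ (a : ℂ), ‖a‖ = 1 → ‖a - 1‖ ^ 2 ≤ 4 := by
    intro a ha
    have : ‖a - 1‖ ≤ 2 := by
      calc ‖a - 1‖ ≤ ‖a‖ + ‖(1:ℂ)‖ := norm_sub_le _ _
        _ = 2 := by rw [ha, norm_one]; norm_num
    nlinarith [norm_nonneg (a - 1)]
  -- integrability facts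
  have iG : Integrable G ν := Integrable.of_bound hG.aestronglyMeasurable 1 (Filter.Eventually.of_forall hGn)
  have iA : Integrable (fun y => G y * ‖α y - 1‖ ^ 2) ν := by
    refine Integrable.of_bound (by fun_prop) 4 (Filter.Eventually.of_forall fun y => ?_)
    rw [norm_mul, Real.norm_of_nonneg (hG0 y), Real.norm_of_nonneg (by positivity)]
    nlinarith [hb2 (α y) (hα1 y), hG0 y, hG1 y, sq_nonneg ‖α y - 1‖]
  have iB : Integrable (fun y => G y * ‖β y - 1‖ ^ 2) ν := by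
    refine Integrable.of_bound (by fun_prop) 4 (Filter.Eventually.of_forall fun y => ?_)
    rw [norm_mul, Real.norm_of_nonneg (hG0 y), Real.norm_of_nonneg (by positivity)]
    nlinarith [hb2 (β y) (hβ1 y), hG0 y, hG1 y, sq_nonneg ‖β y - 1‖]
  have hm : ∀ d : ℕ, Measurable (fun p : Y × Y => (α p.1 * β p.2) ^ d) := fun d => by fun_prop
  have iw : ∀ d : ℕ, Integrable (fun p : Y × Y => (α p.1 * β p.2) ^ d) (ν.prod ν) := fun d => by
    refine Integrable.of_bound (hm d).aestronglyMeasurable 1 (Filter.Eventually.of_forall fun p => ?_)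
    rw [norm_pow, norm_mul, hα1, hβ1]
    simp
  have key : ∫ p : Y × Y, ((n : ℝ) ^ 2 / 2 * (G p.1 * G p.2 - 8 * (n : ℝ) ^ 2 *
      (G p.1 * ‖α p.1 - 1‖ ^ 2 + G p.2 * ‖β p.2 - 1‖ ^ 2))) ∂(ν.prod ν) ≤
      ∫ p : Y × Y, ∑ j ∈ Finset.range n, ∑ k ∈ Finset.range n,
        ((α p.1 * β p.2) ^ (max j k - min j k)).re ∂(ν.prod ν) := by
    apply integral_mono
    · apply Integrable.const_mul
      apply Integrable.sub
      · exact iG.mul_prod iG
      · apply Integrable.const_mul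
        apply Integrable.add
        · exact iA.comp_fst ν
        · exact iB.comp_snd ν
    · apply integrable_finsetSum
      intro j _
      apply integrable_finsetSum
      intro k _
      exact (iw _).re
    · intro p
      have h := KE_pointwise (α p.1) (β p.2) (hα1 _) (hβ1 _) (G p.1) (G p.2) (hG0 _) (hG1 _) (hG0 _)
        (hG1 _) n hn
      rw [KE_norm_sq _ (by rw [norm_mul, hα1, hβ1, one_mul])] at h
      exact h
  have e1 : ∫ p : Y × Y, ((n : ℝ) ^ 2 / 2 * (G p.1 * G p.2 - 8 * (n : ℝ) ^ 2 *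
      (G p.1 * ‖α p.1 - 1‖ ^ 2 + G p.2 * ‖β p.2 - 1‖ ^ 2))) ∂(ν.prod ν) =
      (n : ℝ) ^ 2 / 2 * ((∫ y, G y ∂ν) ^ 2 - 8 * (n : ℝ) ^ 2 *
      (∫ y, G y * ‖α y - 1‖ ^ 2 ∂ν + ∫ y, G y * ‖β y - 1‖ ^ 2 ∂ν)) := by
    rw [integral_const_mul, integral_sub, integral_const_mul, integral_add, integral_prod_mul,
      integral_fun_fst (fun y => G y * ‖α y - 1‖ ^ 2), integral_fun_snd (fun y => G y * ‖β y - 1‖ ^ 2)]
    · simp [sq]
    · exact iA.comp_fst ν
    · exact iB.comp_snd ν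
    · exact iG.mul_prod iG
    · apply Integrable.const_mul
      apply Integrable.add
      · exact iA.comp_fst ν
      · exact iB.comp_snd ν
  have e2 : ∫ p : Y × Y, ∑ j ∈ Finset.range n, ∑ k ∈ Finset.range n,
        ((α p.1 * β p.2) ^ (max j k - min j k)).re ∂(ν.prod ν) =
      ∑ j ∈ Finset.range n, ∑ k ∈ Finset.range n,
        ((∫ y, α y ^ (max j k - min j k) ∂ν) * ∫ y, β y ^ (max j k - min j k) ∂ν).re := by
    rw [integral_finsetSum]
    · apply Finset.sum_congr rfl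
      intro j _
      rw [integral_finsetSum]
      · apply Finset.sum_congr rfl
        intro k _
        rw [← integral_prod_mul]
        have h7 := integral_re (iw (max j k - min j k))
        simp only [mul_pow, RCLike.re_eq_complex_re] at h7 ⊢
        exact h7
      · intro k _
        exact (iw _).re
    · intro j _
      apply integrable_finsetSum
      intro k _
      exact (iw _).re
  rw [e1, e2] at key
  exact key

theorem KE_e_zero {F : Subfield ℂ} {X : Type*} [MeasurableSpace X] (S : RotSys F X) (x : X) :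
    S.e 0 x = 1 := by
  have h := S.e_add 0 0 x
  rw [add_zero] at h
  have h0 : S.e 0 x ≠ 0 := by
    intro h1
    have := S.e_norm 0 x
    rw [h1, norm_zero] at this
    exact zero_ne_one this
  exact (mul_right_cancel₀ h0 (by rw [one_mul]; exact h)).symm

theorem KE_e_pow {F : Subfield ℂ} {X : Type*} [MeasurableSpace X] (S : RotSys F X) (d : ℕ) (z : F)
    (x : X) : S.e ((d : F) * z) x = S.e z x ^ d := by
  induction d with
  | zero => simp [KE_e_zero]
  | succ d ih =>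
    have : ((d + 1 : ℕ) : F) * z = (d : F) * z + z := by push_cast; ring
    rw [this, S.e_add, ih, pow_succ]

/-- `(∫ ‖g‖)² ≤ ∫ ‖g‖²` on a probability space -/
theorem KE_sq_int {X : Type*} [MeasurableSpace X] (m : Measure X) [IsProbabilityMeasure m]
    (g : X → ℝ) (hg : MemLp g 2 m) : (∫ x, g x ∂m) ^ 2 ≤ ∫ x, g x ^ 2 ∂m := by
  have i1 : Integrable g m := hg.integrable (by norm_num)
  have i2 : Integrable (fun x => g x ^ 2) m := hg.integrable_sq
  set q := ∫ x, g x ∂m with hq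
  have h : 0 ≤ ∫ x, (g x - q) ^ 2 ∂m := integral_nonneg fun x => sq_nonneg _
  have e : ∫ x, (g x - q) ^ 2 ∂m = ∫ x, g x ^ 2 ∂m - q ^ 2 := by
    have : ∀ x, (g x - q) ^ 2 = g x ^ 2 - (2 * q * g x - q ^ 2) := fun x => by ring
    simp_rw [this]
    have j0 : Integrable (fun x => 2 * q * g x) m := i1.const_mul _
    have j1 : Integrable (fun x => 2 * q * g x - q ^ 2) m := j0.sub (integrable_const _)
    rw [integral_sub i2 j1, integral_sub j0 (integrable_const _), integral_const_mul, ← hq]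
    simp
    ring
  linarith

theorem KE_upper {F : Subfield ℂ} {X : Type*} [mX : MeasurableSpace X] (S : RotSys F X) {W : SA X}
    (hW : S.InvAlg W) (e : X → ℂ) (he : BM e) (f : X → ℂ) (hf : Measurable f)
    (hfC : ∀ x, ‖f x‖ ≤ 1) (N : ℕ) (a c : Fin N → X → ℂ) (C : ℝ) (hC : 0 ≤ C)
    (ha : ∀ r, Measurable (a r)) (haC : ∀ r x, ‖a r x‖ ≤ C) (hc : ∀ r, Measurable[W.ms] (c r))
    (hcC : ∀ r x, ‖c r x‖ ≤ C) (η : ℝ) (hη : 0 ≤ η)
    (happ : ∫ x, ‖f x - ∑ r, a r x * c r x‖ ^ 2 ∂S.m ≤ (η / 2) ^ 2) (κ : ℝ) (hκ : 0 ≤ κ)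
    (hsm : ∀ r, ∫ x, ‖(S.m[fun x => e x * (a r x / ((C + 1 : ℝ) : ℂ)) | W.ms]) x‖ ^ 2 ∂S.m ≤ κ ^ 2) :
    ‖∫ x, e x * f x ∂S.m‖ ≤ η / 2 + N * ((C + 1) * C * κ) := by
  have hcm : ∀ r, Measurable (c r) := fun r => (hc r).mono hW.le le_rfl
  have hC1 : (0 : ℝ) < C + 1 := by linarith
  have hC1c : ((C + 1 : ℝ) : ℂ) ≠ 0 := by exact_mod_cast hC1.ne'
  have hsum : ∀ x, ‖∑ r, a r x * c r x‖ ≤ N * (C * C) := by
    intro x
    calc ‖∑ r, a r x * c r x‖ ≤ ∑ r, ‖a r x * c r x‖ := norm_sum_le _ _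
      _ ≤ ∑ _r : Fin N, C * C := by
          apply Finset.sum_le_sum
          intro r _
          rw [norm_mul]
          exact mul_le_mul (haC r x) (hcC r x) (norm_nonneg _) hC
      _ = N * (C * C) := by simp
  have hgm : Measurable (fun x => f x - ∑ r, a r x * c r x) := by
    apply hf.sub
    apply Finset.measurable_fun_sum
    intro r _
    exact (ha r).mul (hcm r)
  have hgb : ∀ x, ‖f x - ∑ r, a r x * c r x‖ ≤ 1 + N * (C * C) := by
    intro x
    exact (norm_sub_le _ _).trans (add_le_add (hfC x) (hsum x))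
  have iac : ∀ r, Integrable (fun x => e x * (a r x * c r x)) S.m := by
    intro r
    refine Integrable.of_bound (by have := ha r; have := hcm r; have := he.meas; fun_prop) (C * C)
      (Filter.Eventually.of_forall fun x => ?_)
    rw [norm_mul, norm_mul]
    calc ‖e x‖ * (‖a r x‖ * ‖c r x‖) ≤ 1 * (C * C) := by
          apply mul_le_mul (he.bound x) _ (by positivity) zero_le_one
          exact mul_le_mul (haC r x) (hcC r x) (norm_nonneg _) hC
      _ = C * C := one_mul _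
  have i1 : Integrable (fun x => e x * (f x - ∑ r, a r x * c r x)) S.m := by
    refine Integrable.of_bound (he.meas.mul hgm).aestronglyMeasurable (1 * (1 + N * (C * C)))
      (Filter.Eventually.of_forall fun x => ?_)
    rw [norm_mul]
    exact mul_le_mul (he.bound x) (hgb x) (norm_nonneg _) zero_le_one
  have i2 : Integrable (fun x => ∑ r, e x * (a r x * c r x)) S.m :=
    integrable_finsetSum _ fun r _ => iac r
  have hsplit : ∫ x, e x * f x ∂S.m = ∫ x, e x * (f x - ∑ r, a r x * c r x) ∂S.m +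
      ∑ r, ∫ x, e x * (a r x * c r x) ∂S.m := by
    rw [← integral_finsetSum _ (fun r _ => iac r), ← integral_add i1 i2]
    apply integral_congr_ae
    filter_upwards with x
    rw [← Finset.mul_sum]
    ring
  have h1 : ‖∫ x, e x * (f x - ∑ r, a r x * c r x) ∂S.m‖ ≤ η / 2 := by
    have hL2 : MemLp (fun x => ‖f x - ∑ r, a r x * c r x‖) 2 S.m := by
      refine MemLp.of_bound hgm.norm.aestronglyMeasurable (1 + N * (C * C))
        (Filter.Eventually.of_forall fun x => ?_)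
      rw [norm_norm]
      exact hgb x
    have h2 := KE_sq_int S.m _ hL2
    have h3 : ‖∫ x, e x * (f x - ∑ r, a r x * c r x) ∂S.m‖ ≤
        ∫ x, ‖f x - ∑ r, a r x * c r x‖ ∂S.m := by
      refine (norm_integral_le_integral_norm _).trans ?_
      apply integral_mono i1.norm (hL2.integrable (by norm_num))
      intro x
      simp only [norm_mul]
      calc ‖e x‖ * ‖f x - ∑ r, a r x * c r x‖ ≤ 1 * ‖f x - ∑ r, a r x * c r x‖ :=
            mul_le_mul_of_nonneg_right (he.bound x) (norm_nonneg _)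
        _ = _ := one_mul _
    have h4 : 0 ≤ ∫ x, ‖f x - ∑ r, a r x * c r x‖ ∂S.m := integral_nonneg fun x => norm_nonneg _
    refine h3.trans ?_
    exact le_of_sq_le_sq (h2.trans happ) (by positivity)
  have h2 : ∀ r, ‖∫ x, e x * (a r x * c r x) ∂S.m‖ ≤ (C + 1) * C * κ := by
    intro r
    have hBb : ∀ x, ‖a r x / ((C + 1 : ℝ) : ℂ)‖ ≤ 1 := by
      intro x
      rw [norm_div, Complex.norm_real, Real.norm_of_nonneg hC1.le, div_le_one hC1]
      linarith [haC r x]
    have hBm : Measurable (fun x => e x * (a r x / ((C + 1 : ℝ) : ℂ))) :=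
      he.meas.mul ((ha r).div_const _)
    have hBM : BM (fun x => e x * (a r x / ((C + 1 : ℝ) : ℂ))) := by
      refine ⟨hBm, fun x => ?_⟩
      rw [norm_mul]
      calc ‖e x‖ * ‖a r x / ((C + 1 : ℝ) : ℂ)‖ ≤ 1 * 1 :=
            mul_le_mul (he.bound x) (hBb x) (norm_nonneg _) zero_le_one
        _ = 1 := one_mul _
    have iB : Integrable (fun x => e x * (a r x / ((C + 1 : ℝ) : ℂ))) S.m :=
      Integrable.of_bound hBm.aestronglyMeasurable 1 (Filter.Eventually.of_forall hBM.bound)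
    have e1 : ∫ x, e x * (a r x * c r x) ∂S.m = ((C + 1 : ℝ) : ℂ) *
        ∫ x, (e x * (a r x / ((C + 1 : ℝ) : ℂ))) * c r x ∂S.m := by
      rw [← integral_const_mul]
      apply integral_congr_ae
      filter_upwards with x
      field_simp
    rw [e1, integral_mul_of_meas S.m hW.le iB (hc r) (hcC r), norm_mul, Complex.norm_real,
      Real.norm_of_nonneg hC1.le, mul_assoc]
    apply mul_le_mul_of_nonneg_left _ hC1.le
    set g := S.m[fun x => e x * (a r x / ((C + 1 : ℝ) : ℂ)) | W.ms] with hg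
    have hgL : MemLp g 2 S.m := by
      have hL : MemLp (fun x => e x * (a r x / ((C + 1 : ℝ) : ℂ))) 2 S.m :=
        MemLp.of_bound hBm.aestronglyMeasurable 1 (Filter.Eventually.of_forall hBM.bound)
      exact hL.condExp (by norm_num)
    have h3 := KE_sq_int S.m (fun x => ‖g x‖) hgL.norm
    have h4 : ∫ x, ‖g x‖ ∂S.m ≤ κ := le_of_sq_le_sq (h3.trans (hsm r)) hκ
    calc ‖∫ x, g x * c r x ∂S.m‖ ≤ ∫ x, ‖g x * c r x‖ ∂S.m := norm_integral_le_integral_norm _
      _ ≤ ∫ x, C * ‖g x‖ ∂S.m := by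
          apply integral_mono_of_nonneg (Filter.Eventually.of_forall fun x => norm_nonneg _)
            ((hgL.norm.integrable (by norm_num)).const_mul C)
          filter_upwards with x
          rw [norm_mul, mul_comm]
          exact mul_le_mul_of_nonneg_right (hcC r x) (norm_nonneg _)
      _ = C * ∫ x, ‖g x‖ ∂S.m := integral_const_mul _ _
      _ ≤ C * κ := mul_le_mul_of_nonneg_left h4 hC
  rw [hsplit]
  calc _ ≤ ‖∫ x, e x * (f x - ∑ r, a r x * c r x) ∂S.m‖ +
        ‖∑ r, ∫ x, e x * (a r x * c r x) ∂S.m‖ := norm_add_le _ _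
    _ ≤ η / 2 + ∑ r : Fin N, (C + 1) * C * κ := by
        apply add_le_add h1
        exact (norm_sum_le _ _).trans (Finset.sum_le_sum fun r _ => h2 r)
    _ = _ := by simp

section
variable {F : Subfield ℂ} {X : Type*} [mX : MeasurableSpace X]

/-- a sum over a square with `1` on the diagonal and at most `η` elsewhere -/
theorem KE_square_sum (n : ℕ) (R : ℕ → ℝ) (η : ℝ) (hη : 0 ≤ η) (h0 : R 0 = 1)
    (hR : ∀ d, 1 ≤ d → d < n → R d ≤ η) :
    ∑ j ∈ Finset.range n, ∑ k ∈ Finset.range n, R (max j k - min j k) ≤ n * (1 + n * η) := by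
  have h1 : ∀ j ∈ Finset.range n, ∑ k ∈ Finset.range n, R (max j k - min j k) ≤ 1 + n * η := by
    intro j hj
    rw [Finset.mem_range] at hj
    calc ∑ k ∈ Finset.range n, R (max j k - min j k)
        ≤ ∑ k ∈ Finset.range n, ((if j = k then 1 else 0) + η) := by
          apply Finset.sum_le_sum
          intro k hk
          rw [Finset.mem_range] at hk
          by_cases hjk : j = k
          · subst hjk
            simp [h0, hη]
          · rw [if_neg hjk, zero_add]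
            apply hR
            · omega
            · omega
      _ = 1 + n * η := by
          rw [Finset.sum_add_distrib, Finset.sum_ite_eq, if_pos (Finset.mem_range.mpr hj)]
          simp
  calc _ ≤ ∑ j ∈ Finset.range n, (1 + n * η) := Finset.sum_le_sum h1
    _ = _ := by
      simp
      ring

/-- Lemma 5 (key lemma) -/
theorem null_plus [StandardBorelSpace X] (hF : RadClosed F) (S : RotSys F X) {W : SA X}
    (hW : S.InvAlg W) (hN : S.Null W) : S.Null (S.plus W) := by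
  have hY := plus_invAlg S hW
  obtain ⟨D⟩ := exists_pairData S hY
  by_contra hnot
  have hnD : ¬ D.P.CondD := fun h => hnot (null_of_pair_condD hF hY D h)
  unfold RotSys.CondD at hnD
  push Not at hnD
  obtain ⟨G, hGm, hG0, hG1, hGlim, hGne⟩ := hnD
  have := D.markov
  -- the mass of `G`
  have iG : Integrable G D.P.m := Integrable.of_bound hGm.aestronglyMeasurable 1
    (Filter.Eventually.of_forall fun p => by rw [Real.norm_of_nonneg (hG0 p)]; exact hG1 p)
  set q : ℝ := ∫ p, G p ∂D.P.m with hq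
  have hqn : 0 ≤ ∫ p, G p ∂D.P.m := integral_nonneg fun p => hG0 p
  have hq0 : 0 < q := by
    rcases hqn.lt_or_eq with h | h
    · exact h
    · exfalso
      have h1 := (integral_eq_zero_iff_of_nonneg (fun p => hG0 p) iG).mp h.symm
      apply hGne
      filter_upwards [h1] with p hp
      simpa using hp
  obtain ⟨n, hn⟩ := exists_nat_ge (8 / q ^ 2)
  have hq2 : 0 < q ^ 2 := by positivity
  have hn0 : 0 < n := by
    have : (0 : ℝ) < n := lt_of_lt_of_le (by positivity) hn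
    exact_mod_cast this
  have hnr : (0 : ℝ) < n := by exact_mod_cast hn0
  have hnq : 8 ≤ n * q ^ 2 := by
    rw [div_le_iff₀ hq2] at hn
    exact hn
  set δ : ℝ := q ^ 2 / (32 * (n : ℝ) ^ 2) with hδ
  have hδ0 : 0 < δ := by positivity
  obtain ⟨r, hr0, hr⟩ := hGlim δ hδ0
  obtain ⟨N0, hN0⟩ := exists_nat_one_div_lt hr0
  -- the radius `s`
  obtain ⟨s, hs0, hsr⟩ : ∃ s : F0 F, 0 < (s : ℝ) ∧ (s : ℝ) < r := by
    refine ⟨1 / ((N0 : F0 F) + 1), ?_, ?_⟩
    · push_cast
      positivity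
    · push_cast
      exact hN0
  -- bounded versions of the conditional expectations
  have hBMe : ∀ z : F, BM (S.e z) := fun z => ⟨S.e_meas z, fun x => (S.e_norm z x).le⟩
  have hh := fun d : ℕ => exists_bounded_condExp S.m hY.le (hBMe ((d : F) * cR F s))
  choose h hhm hhb hhe using hh
  have hhm' : ∀ d, Measurable (h d) := fun d => (hhm d).mono hY.le le_rfl
  set η : ℝ := 1 / (2 * n) with hη
  have hη0 : 0 < η := by positivity
  set f : ℕ → K F → X → ℂ := fun d u x =>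
    (starRingEnd ℂ) (h d (S.T u x) * h d (S.T u⁻¹ x)) with hf
  have hTm : ∀ u, Measurable (S.T u) := fun u => (S.T_mp u).measurable
  have hfm : ∀ d u, Measurable (f d u) := by
    intro d u
    have h1 : Measurable (fun x => h d (S.T u x)) := (hhm' d).comp (hTm u)
    have h2 : Measurable (fun x => h d (S.T u⁻¹ x)) := (hhm' d).comp (hTm u⁻¹)
    exact Complex.continuous_conj.measurable.comp (h1.mul h2)
  have hfb : ∀ d u x, ‖f d u x‖ ≤ 1 := by
    intro d u x
    simp only [hf, RCLike.norm_conj, norm_mul]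
    calc ‖h d (S.T u x)‖ * ‖h d (S.T u⁻¹ x)‖ ≤ 1 * 1 :=
          mul_le_mul (hhb d _) (hhb d _) (norm_nonneg _) zero_le_one
      _ = 1 := one_mul _
  have hCF : ∀ d, CF (U := K F) S.m W (f d) := by
    intro d
    have c1 : CF (U := K F) S.m W (fun u x => h d (S.T u x)) :=
      cap_of_meas_plus S hW (hhm d) (hhb d)
    have c2 : CF (U := K F) S.m W (fun u x => h d (S.T u⁻¹ x)) := c1.comp_index (fun u => u⁻¹)
    have c3 := CF.mul hW.le c1 c2 (fun u => (hhm' d).comp (hTm u)) (fun u => (hhm' d).comp (hTm u⁻¹))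
      (fun u x => hhb d _) (fun u x => hhb d _)
    exact c3.conj
  have hA := fun d : ℕ => hCF d (η / 2) (by positivity)
  choose N a C hC0 ham haC hc using hA
  -- the constant
  set B : ℝ := ∑ d ∈ Finset.range n, (N (d + 1) : ℝ) * ((C (d + 1) + 1) * C (d + 1)) with hB
  have hBt : ∀ d, 0 ≤ (N (d + 1) : ℝ) * ((C (d + 1) + 1) * C (d + 1)) := fun d => by
    have := hC0 (d + 1)
    positivity
  have hB0 : 0 ≤ B := Finset.sum_nonneg fun d _ => hBt d
  set κ : ℝ := η / (2 * (B + 1)) with hκ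
  have hκ0 : 0 < κ := by positivity
  -- the functions of `t`
  set b : (d : ℕ) → Fin (N d) → X → ℂ := fun d r x => a d r x / ((C d + 1 : ℝ) : ℂ) with hb
  have hbBM : ∀ d r, BM (b d r) := by
    intro d r
    have hC1 : (0 : ℝ) < C d + 1 := by linarith [hC0 d]
    refine ⟨(ham d r).div_const _, fun x => ?_⟩
    simp only [hb]
    rw [norm_div, Complex.norm_real, Real.norm_of_nonneg hC1.le, div_le_one hC1]
    linarith [haC d r x]
  set g : (d : ℕ) → Fin (N d) → F0 F → ℝ := fun d r t =>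
    ∫ x, ‖(S.m[fun x => S.e ((d : F) * cR F t) x * b d r x | W.ms]) x‖ ^ 2 ∂S.m with hg
  have hg0 : ∀ d r t, 0 ≤ g d r t := fun d r t => integral_nonneg fun x => by positivity
  have hg1 : ∀ d r t, g d r t ≤ 1 := by
    intro d r t
    have hm1 : Measurable (fun x => S.e ((d : F) * cR F t) x * b d r x) :=
      (S.e_meas _).mul (hbBM d r).meas
    have hb1 : ∀ x, ‖S.e ((d : F) * cR F t) x * b d r x‖ ≤ 1 := by
      intro x
      rw [norm_mul, S.e_norm, one_mul]
      exact (hbBM d r).bound x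
    have hL : MemLp (fun x => S.e ((d : F) * cR F t) x * b d r x) 2 S.m :=
      MemLp.of_bound hm1.aestronglyMeasurable 1 (Filter.Eventually.of_forall hb1)
    refine (integral_sq_condExp_le S.m hW.le hL).trans ?_
    calc ∫ x, ‖S.e ((d : F) * cR F t) x * b d r x‖ ^ 2 ∂S.m ≤ ∫ _x, (1 : ℝ) ∂S.m := by
          apply integral_mono_of_nonneg (Filter.Eventually.of_forall fun x => by positivity)
            (integrable_const _)
          filter_upwards with x
          exact pow_le_one₀ (norm_nonneg _) (hb1 x)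
      _ = 1 := by simp
  have hgB : ∀ d r, Bdd (g d r) := fun d r => ⟨1, fun t => by
    rw [abs_of_nonneg (hg0 d r t)]; exact hg1 d r t⟩
  -- the local mean of radius `2 s`
  have hs2 : 0 < ((s + s : F0 F) : ℝ) := by push_cast; linarith
  obtain ⟨M, hM⟩ := exists_locMean F (s + s) hs2
  set Φ : F0 F → ℝ := fun t => ∑ d ∈ Finset.range n, ∑ r : Fin (N (d + 1)), g (d + 1) r t with hΦ
  have hinB : ∀ d, Bdd (fun t => ∑ r : Fin (N (d + 1)), g (d + 1) r t) := by
    intro d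
    refine ⟨N (d + 1), fun t => ?_⟩
    rw [abs_of_nonneg (Finset.sum_nonneg fun r _ => hg0 _ r t)]
    calc ∑ r : Fin (N (d + 1)), g (d + 1) r t ≤ ∑ _r : Fin (N (d + 1)), (1 : ℝ) :=
          Finset.sum_le_sum fun r _ => hg1 _ r t
      _ = _ := by simp
  have hΦB : Bdd Φ := by
    refine ⟨∑ d ∈ Finset.range n, (N (d + 1) : ℝ), fun t => ?_⟩
    rw [abs_of_nonneg (Finset.sum_nonneg fun d _ => Finset.sum_nonneg fun r _ => hg0 _ r t)]
    apply Finset.sum_le_sum
    intro d _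
    calc ∑ r : Fin (N (d + 1)), g (d + 1) r t ≤ ∑ _r : Fin (N (d + 1)), (1 : ℝ) :=
          Finset.sum_le_sum fun r _ => hg1 _ r t
      _ = _ := by simp
  have hΦ0 : M.toFun Φ = 0 := by
    rw [hΦ, Mean.map_sum M _ _ (fun d _ => hinB d)]
    apply Finset.sum_eq_zero
    intro d _
    rw [Mean.map_sum M _ _ (fun r _ => hgB (d + 1) r)]
    apply Finset.sum_eq_zero
    intro r _
    exact hN (s + s) M hs2 hM (d + 1) (Nat.succ_pos d) (b (d + 1) r) (hbBM (d + 1) r)
  obtain ⟨t, ht0, ht1, htΦ⟩ := hM.exists_small hΦB hΦ0.le (ε := κ ^ 2) (by positivity)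
  have htg : ∀ d, d < n → ∀ r, g (d + 1) r t ≤ κ ^ 2 := by
    intro d hd r
    refine le_trans ?_ htΦ
    calc g (d + 1) r t ≤ ∑ r : Fin (N (d + 1)), g (d + 1) r t :=
          Finset.single_le_sum (f := fun r => g (d + 1) r t) (fun r _ => hg0 _ r t)
            (Finset.mem_univ r)
      _ ≤ Φ t := Finset.single_le_sum (f := fun d => ∑ r : Fin (N (d + 1)), g (d + 1) r t)
            (fun d _ => Finset.sum_nonneg fun r _ => hg0 _ r t) (Finset.mem_range.mpr hd)
  have ht1' : (t : ℝ) < 2 * s := by push_cast at ht1; linarith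
  obtain ⟨u, hu⟩ := exists_isosceles hF hs0 ht0 ht1'
  -- the two directions
  set z1 : F := cR F s * cK F u with hz1
  set z2 : F := cR F s * cK F u⁻¹ with hz2
  have hnz1 : ‖(z1 : ℂ)‖ < r := by
    have : ‖(z1 : ℂ)‖ = s := by
      rw [hz1]
      push_cast
      rw [norm_mul, norm_cK, coe_cR, Complex.norm_real, Real.norm_of_nonneg hs0.le, mul_one]
    rw [this]
    exact hsr
  have hnz2 : ‖(z2 : ℂ)‖ < r := by
    have : ‖(z2 : ℂ)‖ = s := by
      rw [hz2]
      push_cast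
      rw [norm_mul, norm_cK, coe_cR, Complex.norm_real, Real.norm_of_nonneg hs0.le, mul_one]
    rw [this]
    exact hsr
  have hz12 : ∀ d : ℕ, (d : F) * z1 + (d : F) * z2 = (d : F) * cR F t := by
    intro d
    rw [hu, hz1, hz2]
    ring
  -- kernel integrals
  set E : ℕ → F → X → ℂ := fun d z x => ∫ y, S.e ((d : F) * z) y ∂D.κ x with hE
  have hEm : ∀ d z, Measurable (E d z) := by
    intro d z
    have h1 : StronglyMeasurable (fun p : X × X => S.e ((d : F) * z) p.2) :=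
      ((S.e_meas _).comp measurable_snd).stronglyMeasurable
    exact (h1.integral_kernel_prod_right' (κ := D.κ)).measurable
  have hEb : ∀ d z x, ‖E d z x‖ ≤ 1 := by
    intro d z x
    calc ‖E d z x‖ ≤ ∫ y, ‖S.e ((d : F) * z) y‖ ∂D.κ x := norm_integral_le_integral_norm _
      _ = 1 := by simp [S.e_norm]
  set J : ℕ → X → ℂ := fun d x => (S.e ((d : F) * z1) x * (starRingEnd ℂ) (E d z1 x)) *
    (S.e ((d : F) * z2) x * (starRingEnd ℂ) (E d z2 x)) with hJ
  have hJm : ∀ d, Measurable (J d) := by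
    intro d
    have c1 := Complex.continuous_conj.measurable.comp (hEm d z1)
    have c2 := Complex.continuous_conj.measurable.comp (hEm d z2)
    exact ((S.e_meas _).mul c1).mul ((S.e_meas _).mul c2)
  have hJb : ∀ d x, ‖J d x‖ ≤ 1 := by
    intro d x
    simp only [hJ, norm_mul, S.e_norm, one_mul, RCLike.norm_conj]
    calc ‖E d z1 x‖ * ‖E d z2 x‖ ≤ 1 * 1 :=
          mul_le_mul (hEb _ _ _) (hEb _ _ _) (norm_nonneg _) zero_le_one
      _ = 1 := one_mul _
  have iJ : ∀ d, Integrable (J d) S.m := fun d =>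
    Integrable.of_bound (hJm d).aestronglyMeasurable 1 (Filter.Eventually.of_forall (hJb d))
  -- pair characters
  have hPe : ∀ z x y, D.P.e z (x, y) = S.e z x * (starRingEnd ℂ) (S.e z y) := fun z x y =>
    D.P_e z (x, y)
  have hpow : ∀ (d : ℕ) (z : F) (x : X), ∫ y, (D.P.e z (x, y)) ^ d ∂D.κ x =
      S.e ((d : F) * z) x * (starRingEnd ℂ) (E d z x) := by
    intro d z x
    have h1 : ∀ y, (D.P.e z (x, y)) ^ d = S.e ((d : F) * z) x *
        (starRingEnd ℂ) (S.e ((d : F) * z) y) := by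
      intro y
      rw [hPe, mul_pow, KE_e_pow, KE_e_pow, map_pow]
    simp_rw [h1]
    rw [integral_const_mul]
    congr 1
    exact integral_conj
  -- pointwise inequality
  set A : X → ℝ := fun x => ∫ y, G (x, y) ∂D.κ x with hAdef
  set a1 : X → ℝ := fun x => ∫ y, G (x, y) * ‖D.P.e z1 (x, y) - 1‖ ^ 2 ∂D.κ x with ha1
  set a2 : X → ℝ := fun x => ∫ y, G (x, y) * ‖D.P.e z2 (x, y) - 1‖ ^ 2 ∂D.κ x with ha2
  have hPm : ∀ z, Measurable (D.P.e z) := D.P.e_meas
  have hpt : ∀ x, (n : ℝ) ^ 2 / 2 * (A x ^ 2 - 8 * (n : ℝ) ^ 2 * (a1 x + a2 x)) ≤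
      ∑ j ∈ Finset.range n, ∑ k ∈ Finset.range n, (J (max j k - min j k) x).re := by
    intro x
    have h1 := KE_pair (D.κ x) (fun y => D.P.e z1 (x, y)) (fun y => D.P.e z2 (x, y))
      ((hPm z1).comp measurable_prodMk_left) ((hPm z2).comp measurable_prodMk_left)
      (fun y => D.P.e_norm _ _) (fun y => D.P.e_norm _ _) (fun y => G (x, y))
      (hGm.comp measurable_prodMk_left) (fun y => hG0 _) (fun y => hG1 _) n hn0
    simp only [hpow] at h1
    exact h1
  have hAm : Measurable A := (hGm.stronglyMeasurable.integral_kernel_prod_right' (κ := D.κ)).measurable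
  have hgm1 : ∀ z, Measurable (fun p : X × X => G p * ‖D.P.e z p - 1‖ ^ 2) := fun z => by
    have := hPm z
    fun_prop
  have ha1m : Measurable a1 :=
    ((hgm1 z1).stronglyMeasurable.integral_kernel_prod_right' (κ := D.κ)).measurable
  have ha2m : Measurable a2 :=
    ((hgm1 z2).stronglyMeasurable.integral_kernel_prod_right' (κ := D.κ)).measurable
  have hA0 : ∀ x, 0 ≤ A x := fun x => integral_nonneg fun y => hG0 _
  have hA1 : ∀ x, A x ≤ 1 := fun x => by
    calc A x ≤ ∫ _y, (1 : ℝ) ∂D.κ x := by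
          apply integral_mono_of_nonneg (Filter.Eventually.of_forall fun y => hG0 _)
            (integrable_const _) (Filter.Eventually.of_forall fun y => hG1 _)
      _ = 1 := by simp
  have hb4 : ∀ z p, G p * ‖D.P.e z p - 1‖ ^ 2 ≤ 4 := by
    intro z p
    have h1 : ‖D.P.e z p - 1‖ ≤ 2 := by
      calc ‖D.P.e z p - 1‖ ≤ ‖D.P.e z p‖ + ‖(1 : ℂ)‖ := norm_sub_le _ _
        _ = 2 := by rw [D.P.e_norm, norm_one]; norm_num
    have h2 : ‖D.P.e z p - 1‖ ^ 2 ≤ 4 := by nlinarith [norm_nonneg (D.P.e z p - 1)]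
    nlinarith [hG0 p, hG1 p, sq_nonneg ‖D.P.e z p - 1‖]
  have hb40 : ∀ z p, 0 ≤ G p * ‖D.P.e z p - 1‖ ^ 2 := fun z p => mul_nonneg (hG0 p) (by positivity)
  have hai : ∀ z, Integrable (fun x => ∫ y, G (x, y) * ‖D.P.e z (x, y) - 1‖ ^ 2 ∂D.κ x) S.m := by
    intro z
    refine Integrable.of_bound ((hgm1 z).stronglyMeasurable.integral_kernel_prod_right'
      (κ := D.κ)).aestronglyMeasurable 4 (Filter.Eventually.of_forall fun x => ?_)
    rw [Real.norm_of_nonneg (integral_nonneg fun y => hb40 z _)]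
    calc ∫ y, G (x, y) * ‖D.P.e z (x, y) - 1‖ ^ 2 ∂D.κ x ≤ ∫ _y, (4 : ℝ) ∂D.κ x := by
          apply integral_mono_of_nonneg (Filter.Eventually.of_forall fun y => hb40 z _)
            (integrable_const _) (Filter.Eventually.of_forall fun y => hb4 z _)
      _ = 4 := by simp
  have hAL : MemLp A 2 S.m := MemLp.of_bound hAm.aestronglyMeasurable 1
    (Filter.Eventually.of_forall fun x => by rw [Real.norm_of_nonneg (hA0 x)]; exact hA1 x)
  have hAint : ∫ x, A x ∂S.m = q := (D.integral_eq iG).symm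
  have hAsq : q ^ 2 ≤ ∫ x, A x ^ 2 ∂S.m := by
    rw [← hAint]
    exact KE_sq_int S.m A hAL
  have haint : ∀ z : F, ‖(z : ℂ)‖ < r → ∫ x, ∫ y, G (x, y) * ‖D.P.e z (x, y) - 1‖ ^ 2 ∂D.κ x ∂S.m ≤ δ := by
    intro z hz
    have i1 : Integrable (fun p : X × X => G p * ‖D.P.e z p - 1‖ ^ 2) D.P.m :=
      Integrable.of_bound (hgm1 z).aestronglyMeasurable 4 (Filter.Eventually.of_forall fun p => by
        rw [Real.norm_of_nonneg (hb40 z p)]; exact hb4 z p)
    rw [← D.integral_eq i1]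
    have := hr z hz
    simp_rw [mul_comm (‖D.P.e z _ - 1‖ ^ 2)] at this
    exact this
  have hlow : (n : ℝ) ^ 2 / 2 * (q ^ 2 - 8 * (n : ℝ) ^ 2 * (δ + δ)) ≤
      ∑ j ∈ Finset.range n, ∑ k ∈ Finset.range n, (∫ x, J (max j k - min j k) x ∂S.m).re := by
    have iJr : ∀ d, Integrable (fun x => (J d x).re) S.m := fun d => (iJ d).re
    have e1 : ∑ j ∈ Finset.range n, ∑ k ∈ Finset.range n, (∫ x, J (max j k - min j k) x ∂S.m).re =
        ∫ x, ∑ j ∈ Finset.range n, ∑ k ∈ Finset.range n, (J (max j k - min j k) x).re ∂S.m := by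
      rw [integral_finsetSum (Finset.range n) (f := fun j x => ∑ k ∈ Finset.range n,
        (J (max j k - min j k) x).re) (fun j _ => integrable_finsetSum _ fun k _ => iJr _)]
      apply Finset.sum_congr rfl
      intro j _
      rw [integral_finsetSum (Finset.range n) (f := fun k x => (J (max j k - min j k) x).re)
        (fun k _ => iJr _)]
      apply Finset.sum_congr rfl
      intro k _
      have h7 := integral_re (iJ (max j k - min j k))
      simp only [RCLike.re_eq_complex_re] at h7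
      exact h7.symm
    rw [e1]
    have e2 : ∫ x, ((n : ℝ) ^ 2 / 2 * (A x ^ 2 - 8 * (n : ℝ) ^ 2 * (a1 x + a2 x))) ∂S.m ≤
        ∫ x, ∑ j ∈ Finset.range n, ∑ k ∈ Finset.range n, (J (max j k - min j k) x).re ∂S.m := by
      apply integral_mono
      · apply Integrable.const_mul
        apply Integrable.sub hAL.integrable_sq
        apply Integrable.const_mul
        exact (hai z1).add (hai z2)
      · exact integrable_finsetSum _ fun j _ => integrable_finsetSum _ fun k _ => iJr _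
      · exact hpt
    refine le_trans ?_ e2
    have i12 : Integrable (fun x => a1 x + a2 x) S.m := (hai z1).add (hai z2)
    rw [integral_const_mul, integral_sub hAL.integrable_sq (i12.const_mul _), integral_const_mul,
      integral_add (hai z1) (hai z2)]
    apply mul_le_mul_of_nonneg_left _ (by positivity)
    have h1 := haint z1 hnz1
    have h2 := haint z2 hnz2
    have h3 : 8 * (n : ℝ) ^ 2 * (∫ x, a1 x ∂S.m + ∫ x, a2 x ∂S.m) ≤ 8 * (n : ℝ) ^ 2 * (δ + δ) := by
      apply mul_le_mul_of_nonneg_left _ (by positivity)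
      exact add_le_add h1 h2
    linarith
  -- upper bound
  have hJ0 : (∫ x, J 0 x ∂S.m).re = 1 := by
    have : ∀ x, J 0 x = 1 := by
      intro x
      simp [hJ, hE, KE_e_zero]
    simp_rw [this]
    simp
  have hJd : ∀ d, 1 ≤ d → d < n → (∫ x, J d x ∂S.m).re ≤ η := by
    intro d hd1 hdn
    have hEae : ∀ (v : K F), ∀ᵐ x ∂S.m, E d (cR F s * cK F v) x = h d (S.T v x) := by
      intro v
      have h1 := D.κ_spec (S.e ((d : F) * (cR F s * cK F v))) (hBMe _)
      have h2 : (S.e ((d : F) * (cR F s * cK F v))) = fun x => S.e ((d : F) * cR F s) (S.T v x) := by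
        funext x
        rw [S.e_rot]
        congr 1
        ring
      have h3 := condExp_comp_T S hY v
        (Integrable.of_bound (S.e_meas ((d : F) * cR F s)).aestronglyMeasurable 1
          (Filter.Eventually.of_forall fun x => (S.e_norm _ x).le))
      have h4 := ae_comp_T S v (hhe d)
      rw [← h2] at h3
      filter_upwards [h1, h3, h4] with x e1 e2 e3
      simp only [hE]
      rw [e1, e2, e3]
    have hJae : J d =ᵐ[S.m] fun x => S.e ((d : F) * cR F t) x * f d u x := by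
      filter_upwards [hEae u, hEae u⁻¹] with x e1 e2
      simp only [hJ, hf]
      rw [← hz12 d, S.e_add, e1, e2, map_mul]
      ring
    rw [integral_congr_ae hJae]
    obtain ⟨c, hcm, hcC, happ⟩ := hc d u
    obtain ⟨d', rfl⟩ : ∃ d', d = d' + 1 := ⟨d - 1, by omega⟩
    have h1 := KE_upper S hW (S.e (((d' + 1 : ℕ) : F) * cR F t)) (hBMe _) (f (d' + 1) u)
      (hfm _ _) (hfb _ _) (N (d' + 1)) (a (d' + 1)) c (C (d' + 1)) (hC0 _) (ham _) (haC _) hcm hcC
      η hη0.le happ κ hκ0.le (fun r => htg d' (by omega) r)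
    have h2 : (N (d' + 1) : ℝ) * ((C (d' + 1) + 1) * C (d' + 1) * κ) ≤ η / 2 := by
      have h3 : (N (d' + 1) : ℝ) * ((C (d' + 1) + 1) * C (d' + 1)) ≤ B :=
        Finset.single_le_sum (f := fun d => (N (d + 1) : ℝ) * ((C (d + 1) + 1) * C (d + 1)))
          (fun d _ => hBt d) (Finset.mem_range.mpr (by omega))
      calc (N (d' + 1) : ℝ) * ((C (d' + 1) + 1) * C (d' + 1) * κ) =
            ((N (d' + 1) : ℝ) * ((C (d' + 1) + 1) * C (d' + 1))) * κ := by ring
        _ ≤ (B + 1) * κ := mul_le_mul_of_nonneg_right (by linarith) hκ0.le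
        _ = η / 2 := by
            rw [hκ]
            field_simp
    exact (Complex.re_le_norm _).trans (h1.trans (by linarith))
  have hup := KE_square_sum n (fun d => (∫ x, J d x ∂S.m).re) η hη0.le hJ0 hJd
  have hfin := hlow.trans hup
  have e1 : (n : ℝ) * (1 + n * η) = 3 / 2 * n := by
    rw [hη]
    field_simp
    ring
  have e2 : (n : ℝ) ^ 2 / 2 * (q ^ 2 - 8 * (n : ℝ) ^ 2 * (δ + δ)) = (n : ℝ) * (n * q ^ 2) / 4 := by
    rw [hδ]
    field_simp
    ring
  rw [e1, e2] at hfin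
  nlinarith

end

end Pool.Agent.RadPD
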