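import Pool.Agent.RadPD.HL
import Pool.Agent.RadPD.KE
import Pool.Agent.RadPD.ER
import Pool.Agent.RadPD.FL

set_option autoImplicit false

namespace Pool.Agent.RadPD

open MeasureTheory ProbabilityTheory

/-- selection of a sequence along which the correlations are small -/
theorem CH_select {G : Type*} [CommGroup G] (M : Mean G) (hM : M.IsInv) (γ : G → ℂ)
    (hγb : ∀ v, ‖γ v‖ ≤ 1) (hγ : M.toFun (fun v => ‖γ v‖ ^ 2) = 0) (ε : ℝ) (hε : 0 < ε) (N : ℕ) :
    ∃ v : ℕ → G, ∀ k < N, ∀ l < k, ‖γ (v k * (v l)⁻¹)‖ ≤ ε := by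
  induction N with
  | zero => exact ⟨fun _ => 1, fun k hk => absurd hk (Nat.not_lt_zero k)⟩
  | succ N ih =>
    obtain ⟨v, hv⟩ := ih
    have hb1 : ∀ g : G, |‖γ g‖ ^ 2| ≤ 1 := by
      intro g
      rw [abs_of_nonneg (by positivity)]
      exact pow_le_one₀ (norm_nonneg _) (hγb _)
    have hb : ∀ l ∈ Finset.range N, Bdd (fun w => ‖γ (w * (v l)⁻¹)‖ ^ 2) :=
      fun l _ => ⟨1, fun w => hb1 _⟩
    have hbs : Bdd (fun w => ∑ l ∈ Finset.range N, ‖γ (w * (v l)⁻¹)‖ ^ 2) := by
      refine ⟨N, fun w => ?_⟩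
      refine (Finset.abs_sum_le_sum_abs _ _).trans ?_
      refine (Finset.sum_le_sum (fun l _ => hb1 _)).trans ?_
      simp
    have h0 : M.toFun (fun w => ∑ l ∈ Finset.range N, ‖γ (w * (v l)⁻¹)‖ ^ 2) = 0 := by
      rw [M.map_sum _ (fun l w => ‖γ (w * (v l)⁻¹)‖ ^ 2) hb]
      refine Finset.sum_eq_zero fun l _ => ?_
      have h := hM ((v l)⁻¹) (fun w => ‖γ w‖ ^ 2) ⟨1, fun w => hb1 _⟩
      have h2 : (fun w => ‖γ (w * (v l)⁻¹)‖ ^ 2) = (fun w => ‖γ ((v l)⁻¹ * w)‖ ^ 2) := by
        funext w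
        rw [mul_comm]
      rw [h2]
      exact h.trans hγ
    obtain ⟨w, hw⟩ := M.exists_le hbs (le_of_eq h0) (pow_pos hε 2)
    rw [zero_add] at hw
    refine ⟨Function.update v N w, ?_⟩
    intro k hk l hl
    rcases Nat.lt_succ_iff_lt_or_eq.mp hk with h | h
    · rw [Function.update_of_ne (by omega), Function.update_of_ne (by omega)]
      exact hv k h l hl
    · subst h
      rw [Function.update_self, Function.update_of_ne (by omega)]
      have h1 : ‖γ (w * (v l)⁻¹)‖ ^ 2 ≤ ε ^ 2 :=
        (Finset.single_le_sum (f := fun l => ‖γ (w * (v l)⁻¹)‖ ^ 2)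
          (fun i _ => by positivity) (Finset.mem_range.mpr hl)).trans hw
      exact le_of_sq_le_sq h1 hε.le

/-- van der Corput lemma for means -/
theorem CH_vdc {G : Type*} [CommGroup G] (M : Mean G) (hM : M.IsInv) (a : G → ℂ) (B : G → G → ℂ)
    {C : ℝ} (ha : ∀ u, ‖a u‖ ≤ C) (hB : ∀ u w, ‖B u w‖ ≤ 1)
    (hsym : ∀ u w, B u w = (starRingEnd ℂ) (B w u))
    (hpos : ∀ (N : ℕ) (v : ℕ → G), ‖∑ k ∈ Finset.range N, a (v k)‖ ^ 2 ≤
      ∑ k ∈ Finset.range N, ∑ l ∈ Finset.range N, (B (v k) (v l)).re)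
    (hγ : M.toFun (fun v => ‖M.cx (fun u => B (v * u) u)‖ ^ 2) = 0) :
    M.cx a = 0 := by
  set γ : G → ℂ := fun v => M.cx (fun u => B (v * u) u) with hγdef
  have hγb : ∀ v, ‖γ v‖ ≤ 1 := fun v => M.norm_cx_le (fun u => hB _ _)
  have key : ∀ (ε : ℝ), 0 < ε → ∀ N : ℕ, 0 < N → ‖M.cx a‖ ^ 2 ≤ 1 / (N : ℝ) + ε := by
    intro ε hε N hN
    obtain ⟨v, hv⟩ := CH_select M hM γ hγb hγ ε hε N
    have hcorr : ∀ k l : ℕ, M.cx (fun u => B (v k * u) (v l * u)) = γ (v k * (v l)⁻¹) := by
      intro k l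
      have h := hM.cx (v l) (f := fun u => B (v k * (v l)⁻¹ * u) u) (fun u => hB _ _)
      rw [← hγdef] at *
      have h2 : (fun x => B (v k * (v l)⁻¹ * (v l * x)) (v l * x)) =
          fun u => B (v k * u) (v l * u) := by
        funext u
        congr 1
        group
      rw [← h2]
      exact h
    have hterm : ∀ k ∈ Finset.range N, ∀ l ∈ Finset.range N,
        M.toFun (fun u => (B (v k * u) (v l * u)).re) ≤ (if k = l then 1 else 0) + ε := by
      intro k hk l hl
      rw [Finset.mem_range] at hk hl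
      rw [← Mean.re_cx]
      refine (Complex.re_le_norm _).trans ?_
      rcases lt_trichotomy k l with h | h | h
      · rw [if_neg (by omega), zero_add]
        have e1 : (fun u => B (v k * u) (v l * u)) =
            fun u => (starRingEnd ℂ) (B (v l * u) (v k * u)) := by
          funext u
          exact hsym _ _
        rw [e1, M.cx_conj (fun u => hB _ _), RCLike.norm_conj, hcorr]
        exact hv l hl k h
      · subst h
        rw [if_pos rfl]
        have := M.norm_cx_le (f := fun u => B (v k * u) (v k * u)) (fun u => hB _ _)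
        linarith
      · rw [if_neg (by omega), zero_add, hcorr]
        exact hv k hk l h
    have hNpos : (0 : ℝ) < N := by exact_mod_cast hN
    have hsum : (N : ℂ) * M.cx a = M.cx (fun u => ∑ k ∈ Finset.range N, a (v k * u)) := by
      rw [M.cx_sum (Finset.range N) (fun k u => a (v k * u)) (fun k _ u => ha _)]
      rw [Finset.sum_congr rfl (fun k _ => hM.cx (v k) ha)]
      simp
    have hbd : ∀ u, ‖∑ k ∈ Finset.range N, a (v k * u)‖ ≤ N * C := by
      intro u
      refine (norm_sum_le _ _).trans ?_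
      refine (Finset.sum_le_sum (fun k _ => ha _)).trans ?_
      simp
    have h1 : ((N : ℝ) * ‖M.cx a‖) ^ 2 ≤
        M.toFun (fun u => ‖∑ k ∈ Finset.range N, a (v k * u)‖ ^ 2) := by
      have h2 : (N : ℝ) * ‖M.cx a‖ ≤ M.toFun (fun u => ‖∑ k ∈ Finset.range N, a (v k * u)‖) := by
        have := M.norm_cx_le_mean hbd
        rw [← hsum, norm_mul, Complex.norm_natCast] at this
        exact this
      refine (pow_le_pow_left₀ (by positivity) h2 2).trans ?_
      exact M.sq_le (Bdd.of_norm hbd).2.2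
    have hbB : ∀ k l : ℕ, Bdd (fun u => (B (v k * u) (v l * u)).re) := fun k l =>
      (Bdd.of_norm (fun u => hB (v k * u) (v l * u))).1
    have hbdB2 : ∀ s : Finset ℕ, ∀ t : Finset ℕ, Bdd (fun u => ∑ k ∈ s, ∑ l ∈ t,
        (B (v k * u) (v l * u)).re) := by
      intro s t
      refine ⟨∑ k ∈ s, ∑ l ∈ t, 1, fun u => ?_⟩
      refine (Finset.abs_sum_le_sum_abs _ _).trans (Finset.sum_le_sum fun k _ => ?_)
      refine (Finset.abs_sum_le_sum_abs _ _).trans (Finset.sum_le_sum fun l _ => ?_)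
      exact (Complex.abs_re_le_norm _).trans (hB _ _)
    have h3 : M.toFun (fun u => ‖∑ k ∈ Finset.range N, a (v k * u)‖ ^ 2) ≤
        ∑ k ∈ Finset.range N, ∑ l ∈ Finset.range N, ((if k = l then (1 : ℝ) else 0) + ε) := by
      refine (M.mono ?_ (hbdB2 _ _) (fun u => hpos N (fun k => v k * u))).trans ?_
      · refine ⟨(N * C) ^ 2, fun u => ?_⟩
        rw [abs_of_nonneg (by positivity)]
        exact pow_le_pow_left₀ (norm_nonneg _) (hbd u) 2
      · rw [M.map_sum (Finset.range N)
          (fun k u => ∑ l ∈ Finset.range N, (B (v k * u) (v l * u)).re) (fun k _ => by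
            have := hbdB2 {k} (Finset.range N)
            simpa using this)]
        refine Finset.sum_le_sum fun k hk => ?_
        rw [M.map_sum (Finset.range N)
          (fun l u => (B (v k * u) (v l * u)).re) (fun l _ => hbB k l)]
        exact Finset.sum_le_sum fun l hl => hterm k hk l hl
    have h4 : ∑ k ∈ Finset.range N, ∑ l ∈ Finset.range N, ((if k = l then (1 : ℝ) else 0) + ε) =
        N + N ^ 2 * ε := by
      rw [Finset.sum_congr rfl (g := fun _ => 1 + (N : ℝ) * ε)]
      · simp; ring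
      · intro k hk
        rw [Finset.sum_add_distrib, Finset.sum_ite_eq, if_pos hk]
        simp
    rw [h4] at h3
    have h5 : (N : ℝ) ^ 2 * ‖M.cx a‖ ^ 2 ≤ N + N ^ 2 * ε := by
      rw [← mul_pow]
      exact h1.trans h3
    have h6 : ‖M.cx a‖ ^ 2 ≤ (N + N ^ 2 * ε) / (N : ℝ) ^ 2 := by
      rw [le_div_iff₀ (by positivity)]
      linarith
    refine h6.trans (le_of_eq ?_)
    field_simp
  have hz : ‖M.cx a‖ ^ 2 ≤ 0 := by
    refine le_of_forall_pos_le_add fun ε hε => ?_
    obtain ⟨N, hN⟩ := exists_nat_gt (2 / ε)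
    have hNpos : (0 : ℝ) < N := lt_trans (by positivity) hN
    have h := key (ε / 2) (by positivity) N (by exact_mod_cast hNpos)
    have h2 : 1 / (N : ℝ) ≤ ε / 2 := by
      rw [div_le_iff₀ hNpos]
      rw [div_lt_iff₀ hε] at hN
      linarith
    linarith
  have : ‖M.cx a‖ = 0 := by
    have h0 := norm_nonneg (M.cx a)
    nlinarith
  exact norm_eq_zero.mp this

section CHconc

variable {F : Subfield ℂ} {X : Type*} [mX : MeasurableSpace X]

theorem CH_BM_mul {f g : X → ℂ} (hf : BM f) (hg : BM g) : BM (fun x => f x * g x) :=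
  ⟨hf.meas.mul hg.meas, fun x => by
    rw [norm_mul]
    exact mul_le_one₀ (hf.bound x) (norm_nonneg _) (hg.bound x)⟩

theorem CH_BM_conj {f : X → ℂ} (hf : BM f) : BM (fun x => (starRingEnd ℂ) (f x)) :=
  ⟨Complex.continuous_conj.measurable.comp hf.meas, fun x => by
    rw [RCLike.norm_conj]
    exact hf.bound x⟩

theorem CH_BM_comp (S : RotSys F X) (u : K F) {f : X → ℂ} (hf : BM f) :
    BM (fun x => f (S.T u x)) :=
  ⟨hf.meas.comp (S.T_mp u).measurable, fun _ => hf.bound _⟩

theorem CH_BM_prod (s : Finset ℕ) {f : ℕ → X → ℂ} (hf : ∀ j ∈ s, BM (f j)) :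
    BM (fun x => ∏ j ∈ s, f j x) :=
  ⟨Finset.measurable_prod s fun j hj => (hf j hj).meas, fun x => by
    rw [norm_prod]
    exact Finset.prod_le_one (fun j _ => norm_nonneg _) (fun j hj => (hf j hj).bound x)⟩

theorem CH_BM_integrable (m : Measure X) [IsProbabilityMeasure m] {f : X → ℂ} (hf : BM f) :
    Integrable f m :=
  Integrable.of_bound hf.meas.aestronglyMeasurable 1 (ae_of_all _ hf.bound)

theorem CH_norm_integral_le (m : Measure X) [IsProbabilityMeasure m] {f : X → ℂ} (hf : BM f) :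
    ‖∫ x, f x ∂m‖ ≤ 1 := by
  have := norm_integral_le_of_norm_le_const (μ := m) (ae_of_all _ hf.bound)
  simpa using this

theorem CH_jensen (m : Measure X) [IsProbabilityMeasure m] {g : X → ℝ} (hg : Integrable g m)
    (hg2 : Integrable (fun x => g x ^ 2) m) : (∫ x, g x ∂m) ^ 2 ≤ ∫ x, g x ^ 2 ∂m := by
  have h : 0 ≤ ∫ x, (g x - ∫ y, g y ∂m) ^ 2 ∂m := integral_nonneg fun _ => by positivity
  set c := ∫ y, g y ∂m with hc
  have h2 : ∫ x, (g x - c) ^ 2 ∂m = ∫ x, g x ^ 2 ∂m - c ^ 2 := by
    have e1 : (fun x => (g x - c) ^ 2) = fun x => g x ^ 2 - (2 * c) * g x + c ^ 2 := by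
      funext x
      ring
    have i1 : Integrable (fun x => (2 * c) * g x) m := hg.const_mul _
    have i2 : Integrable (fun x => g x ^ 2 - (2 * c) * g x) m := hg2.sub i1
    rw [e1, integral_add i2 (integrable_const _), integral_sub hg2 i1, integral_const_mul, ← hc]
    simp
    ring
  rw [h2] at h
  linarith

theorem CH_pos (m : Measure X) [IsProbabilityMeasure m] {f : X → ℂ} (hf : BM f)
    (G : ℕ → X → ℂ) (hG : ∀ k, BM (G k)) (N : ℕ) :
    ‖∑ k ∈ Finset.range N, ∫ x, G k x * f x ∂m‖ ^ 2 ≤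
      ∑ k ∈ Finset.range N, ∑ l ∈ Finset.range N,
        (∫ x, G k x * (starRingEnd ℂ) (G l x) ∂m).re := by
  set H : X → ℂ := fun x => ∑ k ∈ Finset.range N, G k x with hH
  have hHm : Measurable H := Finset.measurable_sum _ fun k _ => (hG k).meas
  have hHb : ∀ x, ‖H x‖ ≤ N := by
    intro x
    refine (norm_sum_le _ _).trans ?_
    refine (Finset.sum_le_sum (fun k _ => (hG k).bound x)).trans ?_
    simp
  have e1 : ∑ k ∈ Finset.range N, ∫ x, G k x * f x ∂m = ∫ x, H x * f x ∂m := by
    rw [← integral_finsetSum _ fun k _ => CH_BM_integrable m (CH_BM_mul (hG k) hf)]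
    congr 1
    funext x
    rw [hH, Finset.sum_mul]
  have hHi : Integrable (fun x => ‖H x‖) m :=
    Integrable.of_bound hHm.norm.aestronglyMeasurable N (ae_of_all _ fun x => by
      rw [norm_norm]
      exact hHb x)
  have hH2 : Integrable (fun x => ‖H x‖ ^ 2) m :=
    Integrable.of_bound (hHm.norm.pow_const 2).aestronglyMeasurable ((N : ℝ) ^ 2)
      (ae_of_all _ fun x => by
        rw [norm_pow, norm_norm]
        exact pow_le_pow_left₀ (norm_nonneg _) (hHb x) 2)
  have h1 : ‖∫ x, H x * f x ∂m‖ ≤ ∫ x, ‖H x‖ ∂m := by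
    refine (norm_integral_le_integral_norm _).trans ?_
    refine integral_mono_of_nonneg (ae_of_all _ fun x => norm_nonneg _) hHi
      (ae_of_all _ fun x => ?_)
    simp only [norm_mul]
    exact mul_le_of_le_one_right (norm_nonneg _) (hf.bound x)
  have h2 : ‖∫ x, H x * f x ∂m‖ ^ 2 ≤ ∫ x, ‖H x‖ ^ 2 ∂m :=
    (pow_le_pow_left₀ (norm_nonneg _) h1 2).trans (CH_jensen m hHi hH2)
  have hint : ∀ k l, Integrable (fun x => G k x * (starRingEnd ℂ) (G l x)) m := fun k l =>
    CH_BM_integrable m (CH_BM_mul (hG k) (CH_BM_conj (hG l)))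
  have hintre : ∀ k l, Integrable (fun x => (G k x * (starRingEnd ℂ) (G l x)).re) m :=
    fun k l => (hint k l).re
  have h3 : ∫ x, ‖H x‖ ^ 2 ∂m = ∑ k ∈ Finset.range N, ∑ l ∈ Finset.range N,
        (∫ x, G k x * (starRingEnd ℂ) (G l x) ∂m).re := by
    have e2 : ∀ x, ‖H x‖ ^ 2 = ∑ k ∈ Finset.range N, ∑ l ∈ Finset.range N,
        (G k x * (starRingEnd ℂ) (G l x)).re := by
      intro x
      have e3 : ((‖H x‖ ^ 2 : ℝ) : ℂ) = H x * (starRingEnd ℂ) (H x) := by
        rw [Complex.mul_conj, Complex.normSq_eq_norm_sq]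
      have e4 : ‖H x‖ ^ 2 = (H x * (starRingEnd ℂ) (H x)).re := by
        rw [← e3]
        exact (Complex.ofReal_re _).symm
      rw [e4, hH]
      simp only [map_sum]
      rw [Finset.sum_mul_sum]
      simp only [Complex.re_sum]
    simp only [e2]
    rw [integral_finsetSum _ fun k _ => integrable_finsetSum _ fun l _ => (hintre k l)]
    refine Finset.sum_congr rfl fun k _ => ?_
    rw [integral_finsetSum _ fun l _ => hintre k l]
    refine Finset.sum_congr rfl fun l _ => ?_
    exact integral_re (hint k l)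
  rw [e1]
  exact h2.trans (le_of_eq h3)

/-- the right-hand side integrand is controlled by any factor -/
theorem CH_bound (S : RotSys F X) {W : SA X} (hW : W.ms ≤ mX) (n : ℕ) (g : ℕ → X → ℂ)
    (hg : ∀ j, BM (g j)) (i : ℕ) (hi : i < n + 1) (u : K F) :
    ‖∫ x, ∏ j ∈ Finset.range (n + 1), (S.m[g j | W.ms]) (S.T (u ^ j) x) ∂S.m‖ ^ 2 ≤
      ∫ x, ‖(S.m[g i | W.ms]) x‖ ^ 2 ∂S.m := by
  choose h hh using fun j => exists_bounded_condExp S.m hW (hg j)
  have hBM : ∀ j, BM (h j) := fun j => ⟨(hh j).1.mono hW le_rfl, (hh j).2.1⟩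
  have e1 : ∫ x, ∏ j ∈ Finset.range (n + 1), (S.m[g j | W.ms]) (S.T (u ^ j) x) ∂S.m =
      ∫ x, ∏ j ∈ Finset.range (n + 1), h j (S.T (u ^ j) x) ∂S.m := by
    refine integral_congr_ae ?_
    have : ∀ᵐ x ∂S.m, ∀ j ∈ Finset.range (n + 1),
        (S.m[g j | W.ms]) (S.T (u ^ j) x) = h j (S.T (u ^ j) x) := by
      rw [Filter.eventually_all_finset]
      intro j _
      exact ae_comp_T S (u ^ j) (p := fun x => (S.m[g j | W.ms]) x = h j x) (hh j).2.2
    filter_upwards [this] with x hx
    exact Finset.prod_congr rfl hx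
  have e2 : ∫ x, ‖(S.m[g i | W.ms]) x‖ ^ 2 ∂S.m = ∫ x, ‖h i x‖ ^ 2 ∂S.m := by
    refine integral_congr_ae ?_
    filter_upwards [(hh i).2.2] with x hx
    rw [hx]
  rw [e1, e2]
  have hi1 : Integrable (fun x => ‖h i x‖) S.m := (CH_BM_integrable S.m (hBM i)).norm
  have hi2 : Integrable (fun x => ‖h i x‖ ^ 2) S.m :=
    Integrable.of_bound ((hBM i).meas.norm.pow_const 2).aestronglyMeasurable 1
      (ae_of_all _ fun x => by
        rw [norm_pow, norm_norm]
        exact pow_le_one₀ (norm_nonneg _) ((hBM i).bound x))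
  have h1 : ‖∫ x, ∏ j ∈ Finset.range (n + 1), h j (S.T (u ^ j) x) ∂S.m‖ ≤
      ∫ x, ‖h i x‖ ∂S.m := by
    refine (norm_integral_le_integral_norm _).trans ?_
    rw [← integral_comp_T S (u ^ i) (fun x => ‖h i x‖) hi1.aestronglyMeasurable]
    refine integral_mono_of_nonneg (ae_of_all _ fun x => norm_nonneg _)
      (CH_BM_integrable S.m (CH_BM_comp S (u ^ i) (hBM i))).norm (ae_of_all _ fun x => ?_)
    simp only [norm_prod]
    rw [← Finset.mul_prod_erase _ _ (Finset.mem_range.mpr hi)]
    refine mul_le_of_le_one_right (norm_nonneg _) ?_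
    exact Finset.prod_le_one (fun j _ => norm_nonneg _) (fun j _ => (hBM j).bound _)
  exact (pow_le_pow_left₀ (norm_nonneg _) h1 2).trans (CH_jensen S.m hi1 hi2)

end CHconc

variable {F : Subfield ℂ} {X : Type*} [mX : MeasurableSpace X]

/-! ## Module CH: characteristic factors -/

/-- the tower of isometric extensions -/
def RotSys.tower (S : RotSys F X) : ℕ → SA X
  | 0 => S.invt
  | n + 1 => S.plus (S.tower n)

theorem tower_invAlg (S : RotSys F X) (n : ℕ) : S.InvAlg (S.tower n) := by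
  induction n with
  | zero => exact invt_invAlg S
  | succ n ih => exact plus_invAlg S ih

theorem invt_le_tower (S : RotSys F X) (n : ℕ) : S.invt.ms ≤ (S.tower n).ms := by
  induction n with
  | zero => exact le_rfl
  | succ n ih => exact ih.trans (le_plus S (tower_invAlg S n))

theorem tower_null [StandardBorelSpace X] (hF : RadClosed F) (S : RotSys F X) (hD : S.CondD)
    (n : ℕ) : S.Null (S.tower n) := by
  induction n with
  | zero => exact null_invt hF S hD
  | succ n ih => exact null_plus hF S (tower_invAlg S n) ih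

/-- the inductive step of the characteristic factor theorem, case of a positive index -/
theorem CH_key [StandardBorelSpace X] (hF : RadClosed F) (S : RotSys F X) (n : ℕ)
    (ih : ∀ (M : Mean (K F)), M.IsInv → ∀ f : ℕ → X → ℂ, (∀ j, BM (f j)) →
      M.cx (fun u => ∫ x, ∏ j ∈ Finset.range (n + 1), f j (S.T (u ^ j) x) ∂S.m) =
      M.cx (fun u => ∫ x, ∏ j ∈ Finset.range (n + 1),
        (S.m[f j | (S.tower n).ms]) (S.T (u ^ j) x) ∂S.m))
    (M : Mean (K F)) (hM : M.IsInv) (f : ℕ → X → ℂ) (hf : ∀ j, BM (f j))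
    (i : ℕ) (hi : i < n + 1) (h0 : S.m[f (i + 1) | (S.tower (n + 1)).ms] =ᵐ[S.m] 0) :
    M.cx (fun u => ∫ x, ∏ j ∈ Finset.range (n + 2), f j (S.T (u ^ j) x) ∂S.m) = 0 := by
  set Φ : K F → X → ℂ := fun u x =>
    ∏ j ∈ Finset.range (n + 1), f (j + 1) (S.T (u ^ (j + 1)) x) with hΦ
  have hΦB : ∀ u, BM (Φ u) := fun u => CH_BM_prod _ fun j _ => CH_BM_comp S _ (hf (j + 1))
  have e1 : (fun u : K F => ∫ x, ∏ j ∈ Finset.range (n + 2), f j (S.T (u ^ j) x) ∂S.m) =
      fun u => ∫ x, Φ u x * f 0 x ∂S.m := by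
    funext u
    congr 1
    funext x
    rw [Finset.prod_range_succ', pow_zero, S.T_one]
  rw [e1]
  refine CH_vdc M hM _ (fun u w => ∫ x, Φ u x * (starRingEnd ℂ) (Φ w x) ∂S.m) (C := 1)
    ?_ ?_ ?_ ?_ ?_
  · intro u
    exact CH_norm_integral_le S.m (CH_BM_mul (hΦB u) (hf 0))
  · intro u w
    exact CH_norm_integral_le S.m (CH_BM_mul (hΦB u) (CH_BM_conj (hΦB w)))
  · intro u w
    rw [← integral_conj]
    congr 1
    funext x
    simp [mul_comm]
  · intro N v
    exact CH_pos S.m (hf 0) (fun k => Φ (v k)) (fun k => hΦB _) N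
  · have hpush : (M.push (fun u : K F => u ^ (i + 1))).IsInv :=
      hM.push_pow (i + 1) (fun u => K_divisible hF (Nat.succ_pos i) u)
    have hH := hlemma hF S (tower_invAlg S n) (M.push (fun u : K F => u ^ (i + 1))) hpush
      (hf (i + 1)) (CH_BM_conj (hf (i + 1))) h0
    have hpt : ∀ v : K F, ‖M.cx (fun u => ∫ x, Φ (v * u) x * (starRingEnd ℂ) (Φ u x) ∂S.m)‖ ^ 2 ≤
        ∫ x, ‖(S.m[fun x => f (i + 1) (S.T (v ^ (i + 1)) x) *
          (starRingEnd ℂ) (f (i + 1) x) | (S.tower n).ms]) x‖ ^ 2 ∂S.m := by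
      intro v
      set g : ℕ → X → ℂ := fun j y => f (j + 1) (S.T (v ^ (j + 1)) y) *
        (starRingEnd ℂ) (f (j + 1) y) with hg
      have hgB : ∀ j, BM (g j) := fun j =>
        CH_BM_mul (CH_BM_comp S _ (hf (j + 1))) (CH_BM_conj (hf (j + 1)))
      have e2 : (fun u : K F => ∫ x, Φ (v * u) x * (starRingEnd ℂ) (Φ u x) ∂S.m) =
          fun u => ∫ x, ∏ j ∈ Finset.range (n + 1), g j (S.T (u ^ j) x) ∂S.m := by
        funext u
        have hb : BM (fun x => ∏ j ∈ Finset.range (n + 1), g j (S.T (u ^ j) x)) :=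
          CH_BM_prod _ fun j _ => CH_BM_comp S _ (hgB j)
        rw [← integral_comp_T S u _ hb.meas.aestronglyMeasurable]
        congr 1
        funext x
        simp only [hΦ, hg]
        rw [map_prod, ← Finset.prod_mul_distrib]
        refine Finset.prod_congr rfl fun j _ => ?_
        have t1 : S.T (u ^ j) (S.T u x) = S.T (u ^ (j + 1)) x := by
          rw [← S.T_mul, pow_succ]
        rw [t1, ← S.T_mul, mul_pow]
      rw [e2, ih M hM g hgB]
      have hb := fun u : K F => CH_bound S (tower_invAlg S n).le n g hgB i hi u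
      have h1 : ‖M.cx (fun u => ∫ x, ∏ j ∈ Finset.range (n + 1),
          (S.m[g j | (S.tower n).ms]) (S.T (u ^ j) x) ∂S.m)‖ ≤
          Real.sqrt (∫ x, ‖(S.m[g i | (S.tower n).ms]) x‖ ^ 2 ∂S.m) :=
        M.norm_cx_le fun u => Real.le_sqrt_of_sq_le (hb u)
      refine (pow_le_pow_left₀ (norm_nonneg _) h1 2).trans (le_of_eq ?_)
      exact Real.sq_sqrt (integral_nonneg fun x => by positivity)
    have hb1 : Bdd (fun v : K F =>
        ‖M.cx (fun u => ∫ x, Φ (v * u) x * (starRingEnd ℂ) (Φ u x) ∂S.m)‖ ^ 2) := by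
      refine ⟨1, fun v => ?_⟩
      rw [abs_of_nonneg (by positivity)]
      refine pow_le_one₀ (norm_nonneg _) ?_
      exact M.norm_cx_le fun u =>
        CH_norm_integral_le S.m (CH_BM_mul (hΦB (v * u)) (CH_BM_conj (hΦB u)))
    have hb2 : Bdd (fun v : K F => ∫ x, ‖(S.m[fun x => f (i + 1) (S.T (v ^ (i + 1)) x) *
          (starRingEnd ℂ) (f (i + 1) x) | (S.tower n).ms]) x‖ ^ 2 ∂S.m) := by
      refine ⟨1, fun v => ?_⟩
      have hBM : BM (fun x => f (i + 1) (S.T (v ^ (i + 1)) x) *
          (starRingEnd ℂ) (f (i + 1) x)) :=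
        CH_BM_mul (CH_BM_comp S _ (hf (i + 1))) (CH_BM_conj (hf (i + 1)))
      rw [abs_of_nonneg (integral_nonneg fun x => by positivity)]
      have h2 := norm_condExp_le S.m (tower_invAlg S n).le hBM
      have h3 : ∫ x, ‖(S.m[fun x => f (i + 1) (S.T (v ^ (i + 1)) x) *
          (starRingEnd ℂ) (f (i + 1) x) | (S.tower n).ms]) x‖ ^ 2 ∂S.m ≤ ∫ x, (1 : ℝ) ∂S.m := by
        refine integral_mono_of_nonneg (ae_of_all _ fun x => by positivity)
          (integrable_const _) ?_
        filter_upwards [h2] with x hx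
        exact pow_le_one₀ (norm_nonneg _) hx
      simpa using h3
    refine le_antisymm ?_ (M.nonneg _ hb1 fun v => by positivity)
    refine (M.mono hb1 hb2 hpt).trans (le_of_eq ?_)
    exact hH

/-- a vanishing conditional expectation kills the multiple average -/
theorem CH_zero [StandardBorelSpace X] (hF : RadClosed F) (S : RotSys F X) (n : ℕ)
    (ih : ∀ (M : Mean (K F)), M.IsInv → ∀ f : ℕ → X → ℂ, (∀ j, BM (f j)) →
      M.cx (fun u => ∫ x, ∏ j ∈ Finset.range (n + 1), f j (S.T (u ^ j) x) ∂S.m) =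
      M.cx (fun u => ∫ x, ∏ j ∈ Finset.range (n + 1),
        (S.m[f j | (S.tower n).ms]) (S.T (u ^ j) x) ∂S.m))
    (M : Mean (K F)) (hM : M.IsInv) (f : ℕ → X → ℂ) (hf : ∀ j, BM (f j))
    (i : ℕ) (hi : i < n + 2) (h0 : S.m[f i | (S.tower (n + 1)).ms] =ᵐ[S.m] 0) :
    M.cx (fun u => ∫ x, ∏ j ∈ Finset.range (n + 2), f j (S.T (u ^ j) x) ∂S.m) = 0 := by
  rcases Nat.eq_zero_or_pos i with h | h
  · subst h
    have e1 : M.cx (fun u => ∫ x, ∏ j ∈ Finset.range (n + 2), f j (S.T (u ^ j) x) ∂S.m) =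
        (M.push (fun u : K F => u⁻¹)).cx
          (fun u => ∫ x, ∏ j ∈ Finset.range (n + 2), f (n + 1 - j) (S.T (u ^ j) x) ∂S.m) := by
      have e2 : (M.push (fun u : K F => u⁻¹)).cx
          (fun u => ∫ x, ∏ j ∈ Finset.range (n + 2), f (n + 1 - j) (S.T (u ^ j) x) ∂S.m) =
          M.cx (fun u =>
            ∫ x, ∏ j ∈ Finset.range (n + 2), f (n + 1 - j) (S.T (u⁻¹ ^ j) x) ∂S.m) := rfl
      rw [e2]
      congr 1
      funext u
      have hb : BM (fun x => ∏ j ∈ Finset.range (n + 2), f j (S.T (u ^ j) x)) :=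
        CH_BM_prod _ fun j _ => CH_BM_comp S _ (hf j)
      rw [← integral_comp_T S (u⁻¹ ^ (n + 1)) _ hb.meas.aestronglyMeasurable]
      congr 1
      funext x
      rw [← Finset.prod_range_reflect]
      refine Finset.prod_congr rfl fun j hj => ?_
      rw [Finset.mem_range] at hj
      rw [← S.T_mul]
      have e3 : n + 2 - 1 - j = n + 1 - j := by omega
      rw [e3]
      congr 2
      obtain ⟨k, hk⟩ : ∃ k, n + 1 = k + j := ⟨n + 1 - j, by omega⟩
      rw [hk, Nat.add_sub_cancel, pow_add, ← mul_assoc, ← mul_pow, mul_inv_cancel, one_pow,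
        one_mul]
    rw [e1]
    refine CH_key hF S n ih _ hM.push_inv (fun j => f (n + 1 - j)) (fun j => hf _) n
      (Nat.lt_succ_self n) ?_
    simpa using h0
  · obtain ⟨k, rfl⟩ : ∃ k, i = k + 1 := ⟨i - 1, by omega⟩
    exact CH_key hF S n ih M hM f hf k (by omega) h0

/-- `S(n)` -/
theorem charfac [StandardBorelSpace X] (hF : RadClosed F) (S : RotSys F X) (n : ℕ)
    (M : Mean (K F)) (hM : M.IsInv) (f : ℕ → X → ℂ) (hf : ∀ j, BM (f j)) :
    M.cx (fun u => ∫ x, ∏ j ∈ Finset.range (n + 1), f j (S.T (u ^ j) x) ∂S.m) =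
      M.cx (fun u => ∫ x, ∏ j ∈ Finset.range (n + 1),
        (S.m[f j | (S.tower n).ms]) (S.T (u ^ j) x) ∂S.m) := by
  induction n generalizing M f with
  | zero =>
    congr 1
    funext u
    simp only [zero_add, Finset.prod_range_one, pow_zero, S.T_one]
    exact (integral_condExp (tower_invAlg S 0).le).symm
  | succ n ih =>
    have hle := (tower_invAlg S (n + 1)).le
    choose h hh using fun j => exists_bounded_condExp S.m hle (hf j)
    have hBM : ∀ j, BM (h j) := fun j => ⟨(hh j).1.mono hle le_rfl, (hh j).2.1⟩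
    have e1 : (fun u : K F => ∫ x, ∏ j ∈ Finset.range (n + 1 + 1),
        (S.m[f j | (S.tower (n + 1)).ms]) (S.T (u ^ j) x) ∂S.m) =
        fun u => ∫ x, ∏ j ∈ Finset.range (n + 1 + 1), h j (S.T (u ^ j) x) ∂S.m := by
      funext u
      refine integral_congr_ae ?_
      have : ∀ᵐ x ∂S.m, ∀ j ∈ Finset.range (n + 1 + 1),
          (S.m[f j | (S.tower (n + 1)).ms]) (S.T (u ^ j) x) = h j (S.T (u ^ j) x) := by
        rw [Filter.eventually_all_finset]
        intro j _
        exact ae_comp_T S (u ^ j) (p := fun x => (S.m[f j | (S.tower (n + 1)).ms]) x = h j x)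
          (hh j).2.2
      filter_upwards [this] with x hx
      exact Finset.prod_congr rfl hx
    rw [e1]
    set mix : ℕ → ℕ → X → ℂ := fun k j => if j < k then h j else f j with hmix
    have hmixB : ∀ k j, BM (mix k j) := by
      intro k j
      simp only [hmix]
      split_ifs
      · exact hBM j
      · exact hf j
    have step : ∀ k, k ≤ n + 2 →
        M.cx (fun u => ∫ x, ∏ j ∈ Finset.range (n + 2), mix 0 j (S.T (u ^ j) x) ∂S.m) =
        M.cx (fun u => ∫ x, ∏ j ∈ Finset.range (n + 2), mix k j (S.T (u ^ j) x) ∂S.m) := by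
      intro k
      induction k with
      | zero => intro _; rfl
      | succ k ihk =>
        intro hk
        rw [ihk (by omega)]
        set g : ℕ → X → ℂ := fun j =>
          if j = k then (fun x => (1 / 2 : ℂ) * (f k x - h k x)) else mix k j with hg
        have hgB : ∀ j, BM (g j) := by
          intro j
          simp only [hg]
          split_ifs
          · refine ⟨(((hf k).meas.sub (hBM k).meas).const_mul _), fun x => ?_⟩
            rw [norm_mul]
            have h1 : ‖f k x - h k x‖ ≤ 2 := by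
              refine (norm_sub_le _ _).trans ?_
              have := (hf k).bound x
              have := (hBM k).bound x
              linarith
            have h2 : ‖(1 / 2 : ℂ)‖ = 1 / 2 := by simp
            rw [h2]
            linarith
          · exact hmixB k j
        have hz : M.cx (fun u => ∫ x, ∏ j ∈ Finset.range (n + 2), g j (S.T (u ^ j) x) ∂S.m) =
            0 := by
          refine CH_zero hF S n ih M hM g hgB k (by omega) ?_
          have e2 : g k = (1 / 2 : ℂ) • (f k - h k) := by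
            simp only [hg, if_true]
            rfl
          rw [e2]
          have hfi := CH_BM_integrable S.m (hf k)
          have hhi := CH_BM_integrable S.m (hBM k)
          have c1 := condExp_smul (μ := S.m) (1 / 2 : ℂ) (f k - h k) (S.tower (n + 1)).ms
          have c2 := condExp_sub (μ := S.m) hfi hhi (S.tower (n + 1)).ms
          have c3 : S.m[h k | (S.tower (n + 1)).ms] = h k :=
            condExp_of_stronglyMeasurable hle (hh k).1.stronglyMeasurable hhi
          filter_upwards [c1, c2, (hh k).2.2] with x h1 h2 h3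
          rw [h1, Pi.smul_apply, h2, Pi.sub_apply, c3, h3]
          simp
        have e3 : ∀ u : K F, ∫ x, ∏ j ∈ Finset.range (n + 2), mix k j (S.T (u ^ j) x) ∂S.m =
            2 * ∫ x, ∏ j ∈ Finset.range (n + 2), g j (S.T (u ^ j) x) ∂S.m +
            ∫ x, ∏ j ∈ Finset.range (n + 2), mix (k + 1) j (S.T (u ^ j) x) ∂S.m := by
          intro u
          have i1 : Integrable (fun x => ∏ j ∈ Finset.range (n + 2), g j (S.T (u ^ j) x)) S.m :=
            CH_BM_integrable S.m (CH_BM_prod _ fun j _ => CH_BM_comp S _ (hgB j))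
          have i2 : Integrable
              (fun x => ∏ j ∈ Finset.range (n + 2), mix (k + 1) j (S.T (u ^ j) x)) S.m :=
            CH_BM_integrable S.m (CH_BM_prod _ fun j _ => CH_BM_comp S _ (hmixB (k + 1) j))
          rw [← integral_const_mul, ← integral_add (i1.const_mul _) i2]
          congr 1
          funext x
          have hkm : k ∈ Finset.range (n + 2) := Finset.mem_range.mpr (by omega)
          rw [← Finset.mul_prod_erase _ (fun j => mix k j (S.T (u ^ j) x)) hkm,
            ← Finset.mul_prod_erase _ (fun j => g j (S.T (u ^ j) x)) hkm,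
            ← Finset.mul_prod_erase _ (fun j => mix (k + 1) j (S.T (u ^ j) x)) hkm]
          have p1 : ∏ j ∈ (Finset.range (n + 2)).erase k, g j (S.T (u ^ j) x) =
              ∏ j ∈ (Finset.range (n + 2)).erase k, mix k j (S.T (u ^ j) x) := by
            refine Finset.prod_congr rfl fun j hj => ?_
            have hjk : j ≠ k := Finset.ne_of_mem_erase hj
            simp only [hg, if_neg hjk]
          have p2 : ∏ j ∈ (Finset.range (n + 2)).erase k, mix (k + 1) j (S.T (u ^ j) x) =
              ∏ j ∈ (Finset.range (n + 2)).erase k, mix k j (S.T (u ^ j) x) := by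
            refine Finset.prod_congr rfl fun j hj => ?_
            have hjk : j ≠ k := Finset.ne_of_mem_erase hj
            simp only [hmix]
            by_cases hlt : j < k
            · rw [if_pos hlt, if_pos (by omega)]
            · rw [if_neg hlt, if_neg (by omega)]
          rw [p1, p2]
          have q1 : mix k k = f k := by
            simp only [hmix, lt_irrefl, if_false]
          have q2 : mix (k + 1) k = h k := by
            simp only [hmix, Nat.lt_succ_self, if_true]
          have q3 : g k = fun x => (1 / 2 : ℂ) * (f k x - h k x) := by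
            simp only [hg, if_true]
          rw [q1, q2, q3]
          ring
        have e4 : M.cx (fun u => ∫ x, ∏ j ∈ Finset.range (n + 2), mix k j (S.T (u ^ j) x) ∂S.m) =
            2 * M.cx (fun u => ∫ x, ∏ j ∈ Finset.range (n + 2), g j (S.T (u ^ j) x) ∂S.m) +
            M.cx (fun u =>
              ∫ x, ∏ j ∈ Finset.range (n + 2), mix (k + 1) j (S.T (u ^ j) x) ∂S.m) := by
          have b1 : ∀ u : K F,
              ‖∫ x, ∏ j ∈ Finset.range (n + 2), g j (S.T (u ^ j) x) ∂S.m‖ ≤ 1 := fun u =>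
            CH_norm_integral_le S.m (CH_BM_prod _ fun j _ => CH_BM_comp S _ (hgB j))
          have b2 : ∀ u : K F,
              ‖∫ x, ∏ j ∈ Finset.range (n + 2), mix (k + 1) j (S.T (u ^ j) x) ∂S.m‖ ≤ 1 :=
            fun u => CH_norm_integral_le S.m
              (CH_BM_prod _ fun j _ => CH_BM_comp S _ (hmixB (k + 1) j))
          have b3 : ∀ u : K F,
              ‖2 * ∫ x, ∏ j ∈ Finset.range (n + 2), g j (S.T (u ^ j) x) ∂S.m‖ ≤ 2 := by
            intro u
            rw [norm_mul]
            have := b1 u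
            have h2 : ‖(2 : ℂ)‖ = 2 := by simp
            rw [h2]
            linarith
          simp only [e3]
          rw [M.cx_add b3 b2, M.cx_smul 2 b1]
        rw [e4, hz, mul_zero, zero_add]
    have hfin := step (n + 2) le_rfl
    have m0 : ∀ j, mix 0 j = f j := fun j => by
      simp only [hmix, Nat.not_lt_zero, if_false]
    simp only [m0] at hfin
    have e5 : (fun u : K F => ∫ x, ∏ j ∈ Finset.range (n + 2), mix (n + 2) j (S.T (u ^ j) x) ∂S.m)
        = fun u => ∫ x, ∏ j ∈ Finset.range (n + 2), h j (S.T (u ^ j) x) ∂S.m := by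
      funext u
      congr 1
      funext x
      refine Finset.prod_congr rfl fun j hj => ?_
      simp only [hmix, if_pos (Finset.mem_range.mp hj)]
    rw [e5] at hfin
    exact hfin

end Pool.Agent.RadPD
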