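import Pool.Agent.RadPD.UR
import Pool.Agent.RadPD.ME

set_option autoImplicit false

namespace Pool.Agent.RadPD

open MeasureTheory ProbabilityTheory

/-! ## Module CO: the invariant random colouring -/

section CO

open CompactlySupported in
/-- Riesz representation on a compact metrizable space -/
private theorem CO_riesz {X : Type} [TopologicalSpace X] [CompactSpace X] [T2Space X]
    [MeasurableSpace X] [BorelSpace X] (L : (X → ℝ) → ℝ)
    (hadd : ∀ f g : X → ℝ, Continuous f → Continuous g → L (fun x => f x + g x) = L f + L g)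
    (hsmul : ∀ (c : ℝ) (f : X → ℝ), Continuous f → L (fun x => c * f x) = c * L f)
    (hpos : ∀ f : X → ℝ, Continuous f → (∀ x, 0 ≤ f x) → 0 ≤ L f) (hone : L (fun _ => 1) = 1) :
    ∃ P : Measure X, IsProbabilityMeasure P ∧ ∀ f : X → ℝ, Continuous f → ∫ x, f x ∂P = L f := by
  let Λ₀ : C_c(X, ℝ) →ₗ[ℝ] ℝ :=
    { toFun := fun f => L f
      map_add' := fun f g => hadd f g f.continuous g.continuous
      map_smul' := fun c f => hsmul c f f.continuous }
  let Λ : C_c(X, ℝ) →ₚ[ℝ] ℝ := PositiveLinearMap.mk₀ Λ₀
    (fun f hf => hpos f f.continuous (fun x => hf x))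
  have hΛ : ∀ f : C_c(X, ℝ), Λ f = L f := fun f => rfl
  have key : ∀ f : X → ℝ, Continuous f → ∫ x, f x ∂(RealRMK.rieszMeasure Λ) = L f := by
    intro f hf
    let g : C_c(X, ℝ) := ⟨⟨f, hf⟩, HasCompactSupport.of_compactSpace _⟩
    exact (RealRMK.integral_rieszMeasure Λ g).trans (hΛ g)
  refine ⟨RealRMK.rieszMeasure Λ, ⟨?_⟩, key⟩
  have h1 := key (fun _ => 1) continuous_const
  rw [hone, integral_const, smul_eq_mul, mul_one, measureReal_def] at h1
  rw [← ENNReal.ofReal_toReal (measure_ne_top (RealRMK.rieszMeasure Λ) Set.univ), h1,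
    ENNReal.ofReal_one]

variable {F : Subfield ℂ} {C : Type} [Fintype C] [MeasurableSpace C] [MeasurableSingletonClass C]

/-- translation of colourings of `F` -/
noncomputable def tau (z : F) (ω : F → C) : F → C := fun w => ω (w + z)
/-- rotation of colourings of `F` -/
noncomputable def rot (u : K F) (ω : F → C) : F → C := fun w => ω (cK F u * w)

omit [Fintype C] [MeasurableSpace C] [MeasurableSingletonClass C] in
private theorem CO_cK_mul (u v : K F) : cK F (u * v) = cK F u * cK F v := by
  ext
  simp [cK]

omit [Fintype C] [MeasurableSpace C] [MeasurableSingletonClass C] in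
private theorem CO_cK_one : cK F 1 = 1 := by
  ext
  simp [cK]

theorem exists_colMeasure [Countable F] (hF : RadClosed F) (χ : F → C) :
    ∃ P : Measure (F → C), IsProbabilityMeasure P ∧ (∀ z, MeasurePreserving (tau (C := C) z) P P) ∧
      (∀ u, MeasurePreserving (rot (C := C) u) P P) ∧
      ∀ (n : ℕ) (p : Fin n → F) (Q : (Fin n → C) → Prop),
        (∀ (z : F) (u : K F), Q (fun i => χ (z + cK F u * p i))) → ∀ᵐ ω ∂P, Q (fun i => ω (p i)) := by
  classical
  have _ := hF
  letI : TopologicalSpace C := ⊥
  haveI : DiscreteTopology C := ⟨rfl⟩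
  haveI : BorelSpace C := by
    constructor
    have h1 : ‹MeasurableSpace C› = ⊤ := by
      refine le_antisymm le_top fun s _ => ?_
      exact (Set.toFinite s).measurableSet
    rw [h1]
    refine le_antisymm (fun s _ => ?_) le_top
    exact MeasurableSpace.measurableSet_generateFrom (isOpen_discrete s)
  obtain ⟨MF, hMF⟩ := exists_invMean (Multiplicative F)
  obtain ⟨MK, hMK⟩ := exists_invMean (K F)
  -- the pattern seen from `(z, u)`
  obtain ⟨pat, hpat⟩ : ∃ pat : K F → F → (F → C), ∀ u z w, pat u z w = χ (z + cK F u * w) :=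
    ⟨_, fun _ _ _ => rfl⟩
  obtain ⟨inn, hid⟩ : ∃ inn : ((F → C) → ℝ) → K F → ℝ, ∀ f u, inn f u =
      MF.toFun (fun z => f (pat u (Multiplicative.toAdd z))) := ⟨_, fun _ _ => rfl⟩
  obtain ⟨L, hLd⟩ : ∃ L : ((F → C) → ℝ) → ℝ, ∀ f, L f = MK.toFun (inn f) := ⟨_, fun _ => rfl⟩
  have hbd : ∀ f : (F → C) → ℝ, Continuous f → ∃ B : ℝ, ∀ x, |f x| ≤ B := by
    intro f hf
    obtain ⟨B, hB⟩ := (isCompact_range hf).isBounded.exists_norm_le
    exact ⟨B, fun x => hB _ ⟨x, rfl⟩⟩
  have hbdz : ∀ f : (F → C) → ℝ, Continuous f → ∀ u,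
      Bdd (fun z : Multiplicative F => f (pat u (Multiplicative.toAdd z))) := by
    intro f hf u
    obtain ⟨B, hB⟩ := hbd f hf
    exact ⟨B, fun z => hB _⟩
  have hbdu : ∀ f : (F → C) → ℝ, Continuous f → Bdd (inn f) := by
    intro f hf
    obtain ⟨B, hB⟩ := hbd f hf
    refine ⟨B, fun u => ?_⟩
    rw [hid]
    exact MF.abs_le (fun z => hB _)
  obtain ⟨P, hP, hint⟩ := CO_riesz (X := F → C) L
    (by
      intro f g hf hg
      have e : inn (fun x => f x + g x) = fun u => inn f u + inn g u := by
        funext u
        rw [hid, hid, hid]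
        exact MF.map_add _ _ (hbdz f hf u) (hbdz g hg u)
      rw [hLd, hLd, hLd, e]
      exact MK.map_add _ _ (hbdu f hf) (hbdu g hg))
    (by
      intro c f hf
      have e : inn (fun x => c * f x) = fun u => c * inn f u := by
        funext u
        rw [hid, hid]
        exact MF.map_smul c _ (hbdz f hf u)
      rw [hLd, hLd, e]
      exact MK.map_smul c _ (hbdu f hf))
    (by
      intro f hf h0
      rw [hLd]
      refine MK.nonneg _ (hbdu f hf) (fun u => ?_)
      rw [hid]
      exact MF.nonneg _ (hbdz f hf u) (fun z => h0 _))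
    (by
      have e : inn (fun _ => 1) = fun _ => 1 := by
        funext u
        rw [hid]
        exact MF.map_one
      rw [hLd, e]
      exact MK.map_one)
  haveI := hP
  letI := TopologicalSpace.metrizableSpaceMetric (F → C)
  have hinv : ∀ g : (F → C) → (F → C), Continuous g →
      (∀ f : (F → C) → ℝ, Continuous f → L (fun x => f (g x)) = L f) →
      MeasurePreserving g P P := by
    intro g hg hL
    refine ⟨hg.measurable, ?_⟩
    haveI : IsFiniteMeasure (P.map g) := inferInstance
    refine ext_of_forall_integral_eq_of_IsFiniteMeasure fun f => ?_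
    rw [integral_map hg.measurable.aemeasurable f.continuous.aestronglyMeasurable,
      hint _ f.continuous, ← hL _ f.continuous]
    exact hint _ (f.continuous.comp hg)
  refine ⟨P, hP, ?_, ?_, ?_⟩
  · intro z₀
    refine hinv _ (continuous_pi fun w => continuous_apply _) ?_
    intro f hf
    rw [hLd, hLd]
    refine congrArg MK.toFun (funext fun u => ?_)
    rw [hid, hid]
    have h := hMF (Multiplicative.ofAdd (cK F u * z₀))
      (fun z => f (pat u (Multiplicative.toAdd z))) (hbdz f hf u)
    refine Eq.trans ?_ h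
    refine congrArg MF.toFun (funext fun z => congrArg f (funext fun w => ?_))
    rw [tau, hpat, hpat]
    congr 1
    rw [toAdd_mul, toAdd_ofAdd]
    ring
  · intro u₀
    refine hinv _ (continuous_pi fun w => continuous_apply _) ?_
    intro f hf
    have h := hMK u₀ (inn f) (hbdu f hf)
    rw [hLd, hLd]
    refine Eq.trans ?_ h
    refine congrArg MK.toFun (funext fun u => ?_)
    rw [hid, hid]
    refine congrArg MF.toFun (funext fun z => congrArg f (funext fun w => ?_))
    rw [rot, hpat, hpat, CO_cK_mul]
    congr 1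
    ring
  · intro n p Q hQ
    let f : (F → C) → ℝ := fun ω => if Q (fun i => ω (p i)) then 0 else 1
    have hf : Continuous f := by
      have h1 : Continuous (fun ω : F → C => (fun i => ω (p i) : Fin n → C)) :=
        continuous_pi fun i => continuous_apply _
      have h2 : Continuous (fun x : Fin n → C => (if Q x then 0 else 1 : ℝ)) :=
        continuous_of_discreteTopology
      exact h2.comp h1
    have h0 : ∫ ω, f ω ∂P = 0 := by
      rw [hint f hf]
      have e : inn f = fun _ => 0 := by
        funext u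
        have : (fun z : Multiplicative F => f (pat u (Multiplicative.toAdd z))) = fun _ => 0 := by
          funext z
          have h2 := hQ (Multiplicative.toAdd z) u
          refine if_pos ?_
          simpa only [hpat] using h2
        rw [hid, this]
        exact MF.map_const 0
      rw [hLd, e]
      exact MK.map_const 0
    have hnn : 0 ≤ f := fun ω => by
      change 0 ≤ if Q (fun i => ω (p i)) then (0 : ℝ) else 1
      split_ifs <;> norm_num
    have hfi : Integrable f P := by
      obtain ⟨B, hB⟩ := hbd f hf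
      exact Integrable.of_bound hf.aestronglyMeasurable B (Filter.Eventually.of_forall hB)
    have hae := (integral_eq_zero_iff_of_nonneg hnn hfi).mp h0
    filter_upwards [hae] with ω hω
    by_contra hcon
    have : f ω = 1 := if_neg hcon
    rw [this] at hω
    exact one_ne_zero hω

/-- the unitary representation on `L²(P)` -/
theorem exists_urep (P : Measure (F → C)) [IsProbabilityMeasure P]
    (hτ : ∀ z, MeasurePreserving (tau (C := C) z) P P)
    (hr : ∀ u, MeasurePreserving (rot (C := C) u) P P) :
    ∃ ρ : URep F (Lp ℂ 2 P), (∀ z (f : Lp ℂ 2 P), ρ.U z f =ᵐ[P] fun ω => f (tau z ω)) ∧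
      (∀ u (f : Lp ℂ 2 P), ρ.R u f =ᵐ[P] fun ω => f (rot u ω)) := by
  have hcomp : ∀ (g : (F → C) → (F → C)) (hg : MeasurePreserving g P P) (f : Lp ℂ 2 P),
      (Lp.compMeasurePreservingₗᵢ ℂ g hg f : (F → C) → ℂ) =ᵐ[P] fun ω => f (g ω) := fun g hg f =>
    Lp.coeFn_compMeasurePreserving f hg
  have hcomp2 : ∀ (g h : (F → C) → (F → C)) (hg : MeasurePreserving g P P)
      (hh : MeasurePreserving h P P) (f : Lp ℂ 2 P),
      (Lp.compMeasurePreservingₗᵢ ℂ g hg (Lp.compMeasurePreservingₗᵢ ℂ h hh f) : (F → C) → ℂ)
        =ᵐ[P] fun ω => f (h (g ω)) := by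
    intro g h hg hh f
    refine (hcomp g hg _).trans ?_
    exact hg.quasiMeasurePreserving.ae_eq_comp (hcomp h hh f)
  refine ⟨{ U := fun z => Lp.compMeasurePreservingₗᵢ ℂ (tau z) (hτ z)
            R := fun u => Lp.compMeasurePreservingₗᵢ ℂ (rot u) (hr u)
            U_zero := ?_
            U_add := ?_
            R_one := ?_
            R_mul := ?_
            R_U := ?_ }, ?_, ?_⟩
  · intro v
    apply Lp.ext
    refine (hcomp _ (hτ 0) v).trans (Filter.Eventually.of_forall fun ω => ?_)
    change v (tau 0 ω) = v ω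
    congr 1
    funext w
    simp [tau]
  · intro z w v
    apply Lp.ext
    refine (hcomp _ (hτ (z + w)) v).trans ?_
    refine Filter.EventuallyEq.trans (Filter.Eventually.of_forall fun ω => ?_)
      (hcomp2 _ _ (hτ z) (hτ w) v).symm
    change v (tau (z + w) ω) = v (tau w (tau z ω))
    congr 1
    funext x
    simp only [tau]
    congr 1
    ring
  · intro v
    apply Lp.ext
    refine (hcomp _ (hr 1) v).trans (Filter.Eventually.of_forall fun ω => ?_)
    change v (rot 1 ω) = v ω
    congr 1
    funext w
    simp only [rot, CO_cK_one, one_mul]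
  · intro u w v
    apply Lp.ext
    refine (hcomp _ (hr (u * w)) v).trans ?_
    refine Filter.EventuallyEq.trans (Filter.Eventually.of_forall fun ω => ?_)
      (hcomp2 _ _ (hr u) (hr w) v).symm
    change v (rot (u * w) ω) = v (rot w (rot u ω))
    congr 1
    funext x
    simp only [rot, CO_cK_mul, mul_assoc]
  · intro u z v
    apply Lp.ext
    refine (hcomp2 _ _ (hr u) (hτ z) v).trans ?_
    refine Filter.EventuallyEq.trans (Filter.Eventually.of_forall fun ω => ?_)
      (hcomp2 _ _ (hτ (cK F u * z)) (hr u) v).symm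
    change v (tau z (rot u ω)) = v (rot u (tau (cK F u * z) ω))
    congr 1
    funext x
    simp only [rot, tau, mul_add]
  · exact fun z f => hcomp _ (hτ z) f
  · exact fun u f => hcomp _ (hr u) f

end CO

end Pool.Agent.RadPD
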