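import Mathlib

set_option autoImplicit false

/-!
Definitions for the theorem on radial positive definite functions on the discrete plane.
-/

namespace Pool.Agent.RadPD

open MeasureTheory ProbabilityTheory

/-! ## Bounded functions and means -/

/-- bounded real functions -/
def Bdd {ι : Type*} (f : ι → ℝ) : Prop := ∃ C : ℝ, ∀ i, |f i| ≤ C

/-- a mean on a set: a positive normalised linear functional on bounded functions -/
structure Mean (ι : Type*) where
  toFun : (ι → ℝ) → ℝ
  map_add : ∀ f g : ι → ℝ, Bdd f → Bdd g → toFun (fun i => f i + g i) = toFun f + toFun g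
  map_smul : ∀ (c : ℝ) (f : ι → ℝ), Bdd f → toFun (fun i => c * f i) = c * toFun f
  nonneg : ∀ f : ι → ℝ, Bdd f → (∀ i, 0 ≤ f i) → 0 ≤ toFun f
  map_one : toFun (fun _ => 1) = 1

/-- extension of a mean to complex functions -/
noncomputable def Mean.cx {ι : Type*} (M : Mean ι) (f : ι → ℂ) : ℂ :=
  ⟨M.toFun (fun i => (f i).re), M.toFun (fun i => (f i).im)⟩

/-- invariance of a mean on a group -/
def Mean.IsInv {G : Type*} [Group G] (M : Mean G) : Prop :=
  ∀ (g : G) (f : G → ℝ), Bdd f → M.toFun (fun x => f (g * x)) = M.toFun f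

/-- push-forward of a mean -/
def Mean.push {ι κ : Type*} (M : Mean ι) (φ : ι → κ) : Mean κ where
  toFun f := M.toFun (fun i => f (φ i))
  map_add _ _ hf hg := M.map_add _ _ (hf.imp fun _ h _ => h _) (hg.imp fun _ h _ => h _)
  map_smul c _ hf := M.map_smul c _ (hf.imp fun _ h _ => h _)
  nonneg _ hf h := M.nonneg _ (hf.imp fun _ h _ => h _) (fun _ => h _)
  map_one := M.map_one

/-! ## The field -/

/-- a subfield of `ℂ` closed under conjugation and under `n`-th roots -/
structure RadClosed (F : Subfield ℂ) : Prop where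
  conj_mem : ∀ z ∈ F, (starRingEnd ℂ) z ∈ F
  root_mem : ∀ n : ℕ, 0 < n → ∀ z ∈ F, ∃ w ∈ F, w ^ n = z

variable (F : Subfield ℂ)

/-- the real elements of `F` -/
noncomputable def F0 : Subfield ℝ := F.comap Complex.ofRealHom

/-- the unit circle of `F` -/
def K : Subgroup Circle where
  carrier := {u | (u : ℂ) ∈ F}
  mul_mem' := by
    intro a b ha hb
    simp only [Set.mem_ofPred_eq, Circle.coe_mul] at *
    exact F.mul_mem ha hb
  one_mem' := by
    simp only [Set.mem_ofPred_eq, Circle.coe_one]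
    exact F.one_mem
  inv_mem' := by
    intro a ha
    simp only [Set.mem_ofPred_eq, Circle.coe_inv] at *
    exact F.inv_mem ha

/-- inclusion of the unit circle of `F` into `F` -/
def cK (u : K F) : F := ⟨((u : Circle) : ℂ), u.2⟩

/-- inclusion of the real elements of `F` into `F` -/
noncomputable def cR (t : F0 F) : F := ⟨((t : ℝ) : ℂ), t.2⟩

/-- local means: means on the real elements of `F` that only see `[0, s)` and are almost
translation invariant -/
structure IsLocMean (s : ℝ) (M : Mean (F0 F)) : Prop where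
  supp : ∀ f : F0 F → ℝ, Bdd f → (∀ t : F0 F, 0 ≤ (t : ℝ) → (t : ℝ) < s → f t = 0) → M.toFun f = 0
  inv : ∀ (f : F0 F → ℝ) (C : ℝ), (∀ t, |f t| ≤ C) → ∀ τ : F0 F, |(τ : ℝ)| ≤ s →
    |M.toFun (fun t => f (t + τ)) - M.toFun f| ≤ 4 * |(τ : ℝ)| / s * C

/-! ## Rotation systems -/

/-- a rotation system: the unit circle of `F` acts by measure preserving maps, `e z` are
unimodular random characters of `F` -/
structure RotSys (X : Type*) [MeasurableSpace X] where
  m : Measure X
  T : K F → X → X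
  e : F → X → ℂ
  prob : IsProbabilityMeasure m
  T_mp : ∀ u, MeasurePreserving (T u) m m
  T_one : ∀ x, T 1 x = x
  T_mul : ∀ u v x, T (u * v) x = T u (T v x)
  e_meas : ∀ z, Measurable (e z)
  e_norm : ∀ z x, ‖e z x‖ = 1
  e_add : ∀ z w x, e (z + w) x = e z x * e w x
  e_rot : ∀ u z x, e z (T u x) = e (cK F u * z) x

variable {F}
variable {X : Type*} [mX : MeasurableSpace X]

instance (S : RotSys F X) : IsProbabilityMeasure S.m := S.prob

/-- Condition (D): the random character is nowhere continuous -/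
def RotSys.CondD (S : RotSys F X) : Prop :=
  ∀ G : X → ℝ, Measurable G → (∀ x, 0 ≤ G x) → (∀ x, G x ≤ 1) →
    (∀ ε : ℝ, 0 < ε → ∃ r : ℝ, 0 < r ∧ ∀ z : F, ‖(z : ℂ)‖ < r →
      ∫ x, ‖S.e z x - 1‖ ^ 2 * G x ∂S.m ≤ ε) →
    ∀ᵐ x ∂S.m, G x = 0

/-- a wrapper for σ-algebras (so that they are not found as instances) -/
structure SA (X : Type*) where
  ms : MeasurableSpace X

/-- invariant sub-σ-algebras -/
structure RotSys.InvAlg (S : RotSys F X) (Y : SA X) : Prop where
  le : Y.ms ≤ mX
  inv : ∀ (u : K F) (A : Set X), MeasurableSet[Y.ms] A → MeasurableSet[Y.ms] (S.T u ⁻¹' A)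

/-- bounded measurable functions (bound 1) -/
structure BM (f : X → ℂ) : Prop where
  meas : Measurable f
  bound : ∀ x, ‖f x‖ ≤ 1

/-- null σ-algebras -/
def RotSys.Null (S : RotSys F X) (Y : SA X) : Prop :=
  ∀ (s : F0 F) (M : Mean (F0 F)), 0 < (s : ℝ) → IsLocMean F s M → ∀ k : ℕ, 0 < k →
    ∀ A : X → ℂ, BM A →
      M.toFun (fun t => ∫ x, ‖(S.m[fun x => S.e ((k : F) * cR F t) x * A x | Y.ms]) x‖ ^ 2 ∂S.m) = 0

/-- the σ-algebra of invariant sets -/
def RotSys.invt (S : RotSys F X) : SA X where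
  ms :=
    { MeasurableSet' := fun A => MeasurableSet A ∧ ∀ u, S.T u ⁻¹' A =ᵐ[S.m] A
      measurableSet_empty := ⟨MeasurableSet.empty, fun u => by simp⟩
      measurableSet_compl := fun A h => ⟨h.1.compl, fun u => by
        rw [Set.preimage_compl]
        exact (h.2 u).compl⟩
      measurableSet_iUnion := fun A h => ⟨MeasurableSet.iUnion fun i => (h i).1, fun u => by
        rw [Set.preimage_iUnion]
        exact Filter.EventuallyEq.countable_iUnion fun i => (h i).2 u⟩ }

/-- a family of functions is compact relative to `W` -/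
def CF {U : Type*} (m : Measure X) (W : SA X) (f : U → X → ℂ) : Prop :=
  ∀ δ : ℝ, 0 < δ → ∃ (n : ℕ) (a : Fin n → X → ℂ) (C : ℝ), 0 ≤ C ∧ (∀ r, Measurable (a r)) ∧
    (∀ r x, ‖a r x‖ ≤ C) ∧ ∀ u : U, ∃ c : Fin n → X → ℂ, (∀ r, Measurable[W.ms] (c r)) ∧
      (∀ r x, ‖c r x‖ ≤ C) ∧
      ∫ x, ‖f u x - ∑ r, a r x * c r x‖ ^ 2 ∂m ≤ δ ^ 2

/-- conditionally almost periodic functions over `W` -/
def RotSys.CAP (S : RotSys F X) (W : SA X) (f : X → ℂ) : Prop :=
  CF (U := K F) S.m W (fun u x => f (S.T u x))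

end Pool.Agent.RadPD
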