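import Pool.Agent.RadPD.MB

set_option autoImplicit false

namespace Pool.Agent.RadPD

open MeasureTheory ProbabilityTheory

/-! ## Module FM: means of functions -/

lemma FM_nonempty {ι : Type*} (M : Mean ι) : Nonempty ι := by
  by_contra h
  rw [not_nonempty_iff] at h
  have h1 : (fun _ : ι => (1 : ℝ)) = fun _ => (0 : ℝ) := by
    funext i; exact (h.false i).elim
  have h2 := M.map_one
  rw [h1, M.map_const] at h2
  exact zero_ne_one h2

/-- weak mean of a bounded family in a Hilbert space -/
theorem exists_wmean {ι : Type*} (M : Mean ι) {H : Type*} [NormedAddCommGroup H]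
    [InnerProductSpace ℂ H] [CompleteSpace H] (v : ι → H) {C : ℝ} (hv : ∀ i, ‖v i‖ ≤ C) :
    ∃ h : H, ‖h‖ ≤ C ∧ ∀ w : H, inner ℂ h w = M.cx (fun i => inner ℂ (v i) w) := by
  obtain ⟨i₀⟩ := FM_nonempty M
  have hC : 0 ≤ C := (norm_nonneg _).trans (hv i₀)
  have hb : ∀ (w : H) (i : ι), ‖(inner ℂ (v i) w : ℂ)‖ ≤ C * ‖w‖ := fun w i =>
    (norm_inner_le_norm _ _).trans (mul_le_mul_of_nonneg_right (hv i) (norm_nonneg w))
  let l : H →ₗ[ℂ] ℂ :=
    { toFun := fun w => M.cx (fun i => inner ℂ (v i) w)
      map_add' := by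
        intro w w'
        rw [← M.cx_add (hb w) (hb w')]
        congr 1
        funext i
        exact inner_add_right _ _ _
      map_smul' := by
        intro c w
        rw [RingHom.id_apply, smul_eq_mul, ← M.cx_smul c (hb w)]
        congr 1
        funext i
        exact inner_smul_right _ _ _ }
  have hl : ∀ w, ‖l w‖ ≤ C * ‖w‖ := fun w => M.norm_cx_le (hb w)
  let L : StrongDual ℂ H := l.mkContinuous C hl
  refine ⟨(InnerProductSpace.toDual ℂ H).symm L, ?_, fun w => ?_⟩
  · rw [LinearIsometryEquiv.norm_map]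
    exact l.mkContinuous_norm_le hC hl
  · rw [InnerProductSpace.toDual_symm_apply]
    rfl

/-- weak mean of a bounded family of functions -/
theorem exists_fmean {ι : Type*} (M : Mean ι) {X : Type*} [MeasurableSpace X] (m : Measure X)
    [IsProbabilityMeasure m] (v : ι → X → ℂ) (hv : ∀ i, BM (v i)) :
    ∃ V : X → ℂ, BM V ∧ ∀ g : X → ℂ, MemLp g 2 m →
      ∫ x, V x * g x ∂m = M.cx (fun i => ∫ x, v i x * g x ∂m) := by
  classical
  have hmem : ∀ i, MemLp (fun x => (starRingEnd ℂ) (v i x)) 2 m := by
    intro i
    refine MemLp.of_bound ?_ 1 (Filter.Eventually.of_forall fun x => ?_)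
    · exact (Complex.continuous_conj.measurable.comp (hv i).meas).aestronglyMeasurable
    · rw [RCLike.norm_conj]; exact (hv i).bound x
  let u : ι → Lp ℂ 2 m := fun i => (hmem i).toLp
  have hu : ∀ i, ‖u i‖ ≤ 1 := by
    intro i
    have h1 : ‖u i‖ ≤ (m Set.univ).toReal ^ ((2 : ENNReal).toReal⁻¹) * 1 := by
      refine Lp.norm_le_of_ae_bound zero_le_one ?_
      filter_upwards [(hmem i).coeFn_toLp] with x hx
      rw [hx, RCLike.norm_conj]; exact (hv i).bound x
    simpa using h1
  obtain ⟨h, -, hh⟩ := exists_wmean M u hu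
  -- the defining identity for functions
  have key : ∀ g : X → ℂ, MemLp g 2 m →
      ∫ x, (starRingEnd ℂ) (h x) * g x ∂m = M.cx (fun i => ∫ x, v i x * g x ∂m) := by
    intro g hg
    have h1 := hh (hg.toLp g)
    rw [L2.inner_def] at h1
    have h2 : ∫ x, (starRingEnd ℂ) (h x) * g x ∂m = ∫ x, inner ℂ (h x) (hg.toLp g x) ∂m := by
      apply integral_congr_ae
      filter_upwards [hg.coeFn_toLp] with x hx
      rw [hx, RCLike.inner_apply, mul_comm]
    rw [h2, h1]
    congr 1
    funext i
    rw [L2.inner_def]
    apply integral_congr_ae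
    filter_upwards [hg.coeFn_toLp, (hmem i).coeFn_toLp] with x hx hx'
    rw [hx, hx', RCLike.inner_apply, Complex.conj_conj, mul_comm]
  have hmeas : Measurable (h : X → ℂ) := (Lp.stronglyMeasurable h).measurable
  have hnm : Measurable fun x => ‖h x‖ := hmeas.norm
  -- the bound
  have hle : ∀ᵐ x ∂m, ‖h x‖ ≤ 1 := by
    let A : Set X := {x | 1 < ‖h x‖}
    have hA : MeasurableSet A := measurableSet_lt measurable_const hnm
    let g : X → ℂ := A.indicator fun x => h x / (‖h x‖ : ℂ)
    have hgm : Measurable g :=
      Measurable.indicator (hmeas.div (Complex.measurable_ofReal.comp hnm)) hA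
    have hgn : ∀ x, ‖g x‖ = A.indicator (fun _ => (1 : ℝ)) x := by
      intro x
      by_cases hx : x ∈ A
      · have hx0 : ‖h x‖ ≠ 0 := (zero_lt_one.trans hx).ne'
        simp only [g, Set.indicator_of_mem hx]
        rw [norm_div, Complex.norm_real, norm_norm, div_self hx0]
      · simp only [g, Set.indicator_of_notMem hx, norm_zero]
    have hg2 : MemLp g 2 m := by
      refine MemLp.of_bound hgm.aestronglyMeasurable 1 (Filter.Eventually.of_forall fun x => ?_)
      rw [hgn]
      by_cases hx : x ∈ A
      · rw [Set.indicator_of_mem hx]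
      · rw [Set.indicator_of_notMem hx]; exact zero_le_one
    have h1 := key g hg2
    have h2 : ∀ x, (starRingEnd ℂ) (h x) * g x = ((A.indicator (fun x => ‖h x‖) x : ℝ) : ℂ) := by
      intro x
      by_cases hx : x ∈ A
      · have hx0 : (‖h x‖ : ℂ) ≠ 0 := by
          rw [Ne, Complex.ofReal_eq_zero]; exact (zero_lt_one.trans hx).ne'
        simp only [g, Set.indicator_of_mem hx]
        rw [← mul_div_assoc, mul_comm ((starRingEnd ℂ) (h x)), Complex.mul_conj,
          Complex.normSq_eq_norm_sq]
        push_cast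
        field_simp
      · simp only [g, Set.indicator_of_notMem hx, mul_zero, Complex.ofReal_zero]
    have h3 : ∫ x, (starRingEnd ℂ) (h x) * g x ∂m =
        ((∫ x, A.indicator (fun x => ‖h x‖) x ∂m : ℝ) : ℂ) := by
      rw [← integral_complex_ofReal]
      exact integral_congr_ae (Filter.Eventually.of_forall h2)
    have h4 : ∀ i, ‖∫ x, v i x * g x ∂m‖ ≤ m.real A := by
      intro i
      calc ‖∫ x, v i x * g x ∂m‖ ≤ ∫ x, A.indicator (fun _ => (1 : ℝ)) x ∂m := by
            refine norm_integral_le_of_norm_le ?_ (Filter.Eventually.of_forall fun x => ?_)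
            · exact (integrable_const 1).indicator hA
            · rw [norm_mul, hgn]
              have h5 : 0 ≤ A.indicator (fun _ => (1 : ℝ)) x :=
                Set.indicator_nonneg (fun _ _ => zero_le_one) x
              calc ‖v i x‖ * A.indicator (fun _ => (1 : ℝ)) x
                  ≤ 1 * A.indicator (fun _ => (1 : ℝ)) x :=
                    mul_le_mul_of_nonneg_right ((hv i).bound x) h5
                _ = _ := one_mul _
        _ = m.real A := by
            rw [integral_indicator hA, setIntegral_const, smul_eq_mul, mul_one]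
    have h5 : ∫ x, A.indicator (fun x => ‖h x‖) x ∂m ≤ m.real A := by
      have h6 := M.norm_cx_le h4
      rw [← h1, h3, Complex.norm_real] at h6
      exact (le_abs_self _).trans h6
    have hint : Integrable (fun x => ‖h x‖) m := ((Lp.memLp h).integrable (by norm_num)).norm
    have h6 : ∫ x, A.indicator (fun x => ‖h x‖ - 1) x ∂m ≤ 0 := by
      have h7 : (fun x => A.indicator (fun x => ‖h x‖ - 1) x) =
          fun x => A.indicator (fun x => ‖h x‖) x - A.indicator (fun _ => (1 : ℝ)) x := by
        funext x
        by_cases hx : x ∈ A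
        · simp [Set.indicator_of_mem hx]
        · simp [Set.indicator_of_notMem hx]
      rw [h7, integral_sub (hint.indicator hA) ((integrable_const 1).indicator hA)]
      have h8 : ∫ x, A.indicator (fun _ => (1 : ℝ)) x ∂m = m.real A := by
        rw [integral_indicator hA, setIntegral_const, smul_eq_mul, mul_one]
      rw [h8]; linarith
    have h0 : 0 ≤ᵐ[m] fun x => A.indicator (fun x => ‖h x‖ - 1) x := by
      refine Filter.Eventually.of_forall fun x => ?_
      refine Set.indicator_nonneg (fun x hx => ?_) x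
      have : 1 < ‖h x‖ := hx
      linarith
    have h9 : (fun x => A.indicator (fun x => ‖h x‖ - 1) x) =ᵐ[m] 0 := by
      rw [← integral_eq_zero_iff_of_nonneg_ae h0
        ((hint.sub (integrable_const 1)).indicator hA)]
      exact le_antisymm h6 (integral_nonneg_of_ae h0)
    filter_upwards [h9] with x hx
    by_contra hcon
    push Not at hcon
    have hxA : x ∈ A := hcon
    simp only [Set.indicator_of_mem hxA, Pi.zero_apply] at hx
    linarith
  let V : X → ℂ := fun x => if ‖h x‖ ≤ 1 then (starRingEnd ℂ) (h x) else 0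
  have hV : ∀ᵐ x ∂m, V x = (starRingEnd ℂ) (h x) := by
    filter_upwards [hle] with x hx
    exact if_pos hx
  refine ⟨V, ⟨?_, fun x => ?_⟩, fun g hg => ?_⟩
  · exact Measurable.ite (measurableSet_le hnm measurable_const)
      (Complex.continuous_conj.measurable.comp hmeas) measurable_const
  · by_cases hx : ‖h x‖ ≤ 1
    · simp only [V, if_pos hx]
      rw [RCLike.norm_conj]; exact hx
    · simp only [V, if_neg hx, norm_zero]
      exact zero_le_one
  · rw [← key g hg]
    apply integral_congr_ae
    filter_upwards [hV] with x hx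
    rw [hx]

/-- real version -/
theorem exists_fmean_real {ι : Type*} (M : Mean ι) {X : Type*} [MeasurableSpace X] (m : Measure X)
    [IsProbabilityMeasure m] (v : ι → X → ℝ) (hm : ∀ i, Measurable (v i)) (h0 : ∀ i x, 0 ≤ v i x)
    (h1 : ∀ i x, v i x ≤ 1) :
    ∃ V : X → ℝ, Measurable V ∧ (∀ x, 0 ≤ V x) ∧ (∀ x, V x ≤ 1) ∧ ∀ g : X → ℝ, MemLp g 2 m →
      ∫ x, V x * g x ∂m = M.toFun (fun i => ∫ x, v i x * g x ∂m) := by
  classical
  have hv : ∀ i, BM (fun x => (v i x : ℂ)) := by
    intro i
    refine ⟨Complex.measurable_ofReal.comp (hm i), fun x => ?_⟩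
    rw [Complex.norm_real, Real.norm_eq_abs, abs_of_nonneg (h0 i x)]
    exact h1 i x
  obtain ⟨W, hW, hkey⟩ := exists_fmean M m (fun i x => (v i x : ℂ)) hv
  have hWm : Measurable fun x => (W x).re := Complex.measurable_re.comp hW.meas
  have hW1 : ∀ x, |(W x).re| ≤ 1 := fun x => (Complex.abs_re_le_norm _).trans (hW.bound x)
  have key : ∀ g : X → ℝ, MemLp g 2 m →
      ∫ x, (W x).re * g x ∂m = M.toFun (fun i => ∫ x, v i x * g x ∂m) := by
    intro g hg
    have hgi : Integrable g m := hg.integrable (by norm_num)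
    have hWg : Integrable (fun x => W x * (g x : ℂ)) m := by
      refine Integrable.bdd_mul (c := 1) hgi.ofReal hW.meas.aestronglyMeasurable ?_
      exact Filter.Eventually.of_forall hW.bound
    have h2 := hkey (fun x => (g x : ℂ)) hg.ofReal
    have h3 : ∀ i, ∫ x, (v i x : ℂ) * (g x : ℂ) ∂m = ((∫ x, v i x * g x ∂m : ℝ) : ℂ) := by
      intro i
      rw [← integral_complex_ofReal]
      congr 1
      funext x
      push_cast
      rfl
    have h4 : (fun i => ∫ x, (v i x : ℂ) * (g x : ℂ) ∂m) =
        fun i => ((∫ x, v i x * g x ∂m : ℝ) : ℂ) := funext h3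
    rw [h4, M.cx_ofReal] at h2
    have h5 := congrArg Complex.re h2
    rw [Complex.ofReal_re] at h5
    rw [← h5]
    have h6 : (∫ x, W x * (g x : ℂ) ∂m).re = ∫ x, (W x * (g x : ℂ)).re ∂m :=
      (integral_re (𝕜 := ℂ) hWg).symm
    rw [h6]
    congr 1
    funext x
    rw [Complex.re_mul_ofReal]
  -- nonnegativity
  have hpos : ∀ᵐ x ∂m, 0 ≤ (W x).re := by
    let A : Set X := {x | (W x).re < 0}
    have hA : MeasurableSet A := measurableSet_lt hWm measurable_const
    let g : X → ℝ := A.indicator fun _ => 1
    have hgm : Measurable g := measurable_const.indicator hA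
    have hg0 : ∀ x, 0 ≤ g x := fun x => Set.indicator_nonneg (fun _ _ => zero_le_one) x
    have hg1 : ∀ x, g x ≤ 1 := by
      intro x
      by_cases hx : x ∈ A
      · simp [g, Set.indicator_of_mem hx]
      · simp [g, Set.indicator_of_notMem hx]
    have hg2 : MemLp g 2 m := by
      refine MemLp.of_bound hgm.aestronglyMeasurable 1 (Filter.Eventually.of_forall fun x => ?_)
      rw [Real.norm_eq_abs, abs_of_nonneg (hg0 x)]; exact hg1 x
    have h2 := key g hg2
    have hb : ∀ i, |∫ x, v i x * g x ∂m| ≤ 1 := by
      intro i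
      have h3 : ‖∫ x, v i x * g x ∂m‖ ≤ 1 * m.real Set.univ := by
        refine norm_integral_le_of_norm_le_const (Filter.Eventually.of_forall fun x => ?_)
        rw [norm_mul, Real.norm_eq_abs, Real.norm_eq_abs, abs_of_nonneg (h0 i x),
          abs_of_nonneg (hg0 x)]
        exact mul_le_one₀ (h1 i x) (hg0 x) (hg1 x)
      simpa using h3
    have h3 : 0 ≤ ∫ x, (W x).re * g x ∂m := by
      rw [h2]
      refine M.nonneg _ ⟨1, hb⟩ fun i => ?_
      exact integral_nonneg fun x => mul_nonneg (h0 i x) (hg0 x)
    have h4 : 0 ≤ᵐ[m] fun x => -((W x).re * g x) := by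
      refine Filter.Eventually.of_forall fun x => ?_
      change 0 ≤ -((W x).re * g x)
      by_cases hx : x ∈ A
      · have h5 : (W x).re < 0 := hx
        simp only [g, Set.indicator_of_mem hx, mul_one]
        linarith
      · simp [g, Set.indicator_of_notMem hx]
    have hint : Integrable (fun x => (W x).re * g x) m := by
      refine Integrable.bdd_mul (c := 1) (hg2.integrable (by norm_num))
        hWm.aestronglyMeasurable ?_
      exact Filter.Eventually.of_forall hW1
    have h5 : (fun x => -((W x).re * g x)) =ᵐ[m] 0 := by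
      rw [← integral_eq_zero_iff_of_nonneg_ae h4 hint.neg]
      refine le_antisymm ?_ (integral_nonneg_of_ae h4)
      rw [integral_neg]
      linarith
    filter_upwards [h5] with x hx
    by_contra hcon
    push Not at hcon
    have hxA : x ∈ A := hcon
    simp only [g, Set.indicator_of_mem hxA, mul_one, Pi.zero_apply] at hx
    linarith
  refine ⟨fun x => max 0 (W x).re, measurable_const.max hWm, fun x => le_max_left _ _,
    fun x => max_le zero_le_one ((le_abs_self _).trans (hW1 x)), fun g hg => ?_⟩
  rw [← key g hg]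
  apply integral_congr_ae
  filter_upwards [hpos] with x hx
  rw [max_eq_right hx]

end Pool.Agent.RadPD
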