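import Pool.Agent.RadPD.FL
import Pool.Agent.RadPD.ER

set_option autoImplicit false

namespace Pool.Agent.RadPD

open MeasureTheory ProbabilityTheory

variable {F : Subfield ℂ} {X : Type*} [mX : MeasurableSpace X]

/-! ## Module FP: the flip -/

theorem FP_norm_sub {a : ℝ} {u : ℂ} (hu : ‖u‖ = 1) : ‖u - (a : ℂ)‖ = ‖1 - (a : ℂ) * u‖ := by
  have h2 : u * (starRingEnd ℂ) u = 1 := by
    rw [Complex.mul_conj, Complex.normSq_eq_norm_sq, hu]; simp
  have h3 : u - (a : ℂ) = u * (starRingEnd ℂ) (1 - (a : ℂ) * u) := by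
    rw [map_sub, map_mul, map_one, Complex.conj_ofReal, mul_sub, mul_one]
    linear_combination (a : ℂ) * h2
  rw [h3, norm_mul, hu, one_mul, Complex.norm_conj]

/-- the flip identity -/
theorem flip_norm {a A : ℝ} {u : ℂ} (hu : ‖u‖ = 1) (n : ℕ) :
    ‖(A : ℂ) * u ^ n - A * a ^ n‖ =
      ‖(A : ℂ) * (1 - a * u) * ∑ k ∈ Finset.range n, (a : ℂ) ^ (n - 1 - k) * u ^ k‖ := by
  have h1 : u ^ n - (a : ℂ) ^ n = (∑ k ∈ Finset.range n, (a : ℂ) ^ (n - 1 - k) * u ^ k) *
      (u - (a : ℂ)) := by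
    rw [← geom_sum₂_mul]
    congr 1
    exact Finset.sum_congr rfl fun i _ => mul_comm _ _
  rw [← mul_sub, h1, norm_mul, norm_mul, norm_mul, norm_mul, FP_norm_sub hu]
  ring

theorem FP_coeff {R : Type*} [CommRing R] (A a u : R) (m : ℕ) :
    ∑ j ∈ Finset.range (m + 2), (if j = 0 then A * a ^ m else if j = m + 1 then -(A * a)
      else A * (1 - a ^ 2) * a ^ (m - j)) * u ^ j =
    A * (1 - a * u) * ∑ k ∈ Finset.range (m + 1), a ^ (m - k) * u ^ k := by
  have h1 : A * (1 - a * u) * ∑ k ∈ Finset.range (m + 1), a ^ (m - k) * u ^ k =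
      A * ∑ k ∈ Finset.range (m + 1), a ^ (m - k) * u ^ k -
        A * ∑ k ∈ Finset.range (m + 1), a ^ (m + 1 - k) * u ^ (k + 1) := by
    have h2 : ∑ k ∈ Finset.range (m + 1), a ^ (m + 1 - k) * u ^ (k + 1) =
        (a * u) * ∑ k ∈ Finset.range (m + 1), a ^ (m - k) * u ^ k := by
      rw [Finset.mul_sum]
      apply Finset.sum_congr rfl
      intro k hk
      have hk' : k ≤ m := Nat.lt_succ_iff.mp (Finset.mem_range.mp hk)
      rw [show m + 1 - k = (m - k) + 1 by omega, pow_succ, pow_succ]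
      ring
    rw [h2]; ring
  rw [h1, Finset.sum_range_succ, Finset.sum_range_succ', Finset.sum_range_succ' (n := m),
    Finset.sum_range_succ (n := m)]
  have h3 : ∀ i ∈ Finset.range m, (if i + 1 = 0 then A * a ^ m else if i + 1 = m + 1 then -(A * a)
      else A * (1 - a ^ 2) * a ^ (m - (i + 1))) * u ^ (i + 1) =
      A * (a ^ (m - (i + 1)) * u ^ (i + 1)) - A * (a ^ (m + 1 - i) * u ^ (i + 1)) := by
    intro i hi
    have hi' := Finset.mem_range.mp hi
    rw [if_neg (by omega), if_neg (by omega), show m + 1 - i = (m - (i + 1)) + 2 by omega, pow_add]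
    ring
  rw [Finset.sum_congr rfl h3, Finset.sum_sub_distrib, ← Finset.mul_sum, ← Finset.mul_sum]
  simp only [if_true, Nat.sub_zero, pow_zero, mul_one, if_neg (Nat.succ_ne_zero m),
    show m + 1 - m = 1 by omega, pow_one]
  ring

/-- the flip, in the field -/
theorem exists_flip (hF : RadClosed F) {A B : F0 F} (hA : 0 < (A : ℝ)) (hB : 0 < (B : ℝ))
    (hAB : A ≠ B) {n : ℕ} (hn : 0 < n) : ∃ β : ℕ → F, (∀ j ≤ n, β j ≠ 0) ∧ ∀ u : K F, ∃ v : K F,
      cK F v * (cR F A * cK F (u ^ n) - cR F B) =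
        ∑ j ∈ Finset.range (n + 1), β j * cK F (u ^ j) := by
  obtain ⟨m, rfl⟩ : ∃ m, n = m + 1 := ⟨n - 1, by omega⟩
  have hBA : 0 < ((B / A : F0 F) : ℝ) := by
    push_cast
    exact div_pos hB hA
  obtain ⟨a, ha0, ha⟩ := exists_pos_root hF hn hBA
  have hA0 : A ≠ 0 := by
    rintro rfl
    simp at hA
  have haB : A * a ^ (m + 1) = B := by
    rw [ha]
    field_simp
  have ha0' : a ≠ 0 := by
    rintro rfl
    simp at ha0
  have ha1 : 1 - a ^ 2 ≠ 0 := by
    intro h
    have h1 : (a - 1) * (a + 1) = 0 := by linear_combination -h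
    rcases mul_eq_zero.mp h1 with h2 | h2
    · apply hAB
      rw [← haB, sub_eq_zero.mp h2, one_pow, mul_one]
    · have h3 : (a : ℝ) + 1 = 0 := by
        have := congrArg (fun t : F0 F => (t : ℝ)) h2
        simpa using this
      linarith
  refine ⟨fun j => cR F (if j = 0 then A * a ^ m else if j = m + 1 then -(A * a)
      else A * (1 - a ^ 2) * a ^ (m - j)), ?_, ?_⟩
  · intro j _ h0
    have h1 : (if j = 0 then A * a ^ m else if j = m + 1 then -(A * a)
      else A * (1 - a ^ 2) * a ^ (m - j)) = 0 := cR_injective (by rw [cR_zero]; exact h0)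
    split_ifs at h1 with h2 h3
    · exact mul_ne_zero hA0 (pow_ne_zero _ ha0') h1
    · exact neg_ne_zero.mpr (mul_ne_zero hA0 ha0') h1
    · exact mul_ne_zero (mul_ne_zero hA0 ha1) (pow_ne_zero _ ha0') h1
  · intro u
    have hsum : ∑ j ∈ Finset.range (m + 1 + 1), cR F (if j = 0 then A * a ^ m
        else if j = m + 1 then -(A * a) else A * (1 - a ^ 2) * a ^ (m - j)) * cK F (u ^ j) =
        cR F A * (1 - cR F a * cK F u) *
          ∑ k ∈ Finset.range (m + 1), cR F a ^ (m - k) * cK F u ^ k := by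
      rw [← FP_coeff]
      apply Finset.sum_congr rfl
      intro j _
      rw [cK_pow]
      congr 1
      split_ifs
      · rw [cR_mul, cR_pow]
      · rw [cR_neg, cR_mul]
      · rw [cR_mul, cR_mul, cR_pow, sub_eq_add_neg, sub_eq_add_neg, cR_add, cR_one, cR_neg, cR_pow]
    obtain ⟨v, hv⟩ := exists_rot_of_norm_eq hF (z := cR F A * cK F (u ^ (m + 1)) - cR F B)
      (w := cR F A * (1 - cR F a * cK F u) *
          ∑ k ∈ Finset.range (m + 1), cR F a ^ (m - k) * cK F u ^ k) (by
        have h := flip_norm (a := (a : ℝ)) (A := (A : ℝ)) (norm_cK u) (m + 1)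
        have hB' : ((cR F B : F) : ℂ) = ((A : ℝ) : ℂ) * ((a : ℝ) : ℂ) ^ (m + 1) := by
          rw [← haB, coe_cR]
          push_cast
          ring
        have e1 : ((cR F A * cK F (u ^ (m + 1)) - cR F B : F) : ℂ) =
            ((A : ℝ) : ℂ) * ((cK F u : F) : ℂ) ^ (m + 1) - (A : ℝ) * (a : ℝ) ^ (m + 1) := by
          push_cast
          rw [hB', coe_cR, cK_pow]
          push_cast
          ring
        have e2 : ((cR F A * (1 - cR F a * cK F u) *
            ∑ k ∈ Finset.range (m + 1), cR F a ^ (m - k) * cK F u ^ k : F) : ℂ) =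
            ((A : ℝ) : ℂ) * (1 - (a : ℝ) * ((cK F u : F) : ℂ)) *
            ∑ k ∈ Finset.range (m + 1), ((a : ℝ) : ℂ) ^ (m + 1 - 1 - k) * ((cK F u : F) : ℂ) ^ k := by
          push_cast
          rw [coe_cR, coe_cR]
        rw [e1, e2]
        exact h)
    exact ⟨v, by rw [hsum, hv]⟩

/-! product bound -/

section PB

variable (S : RotSys F X)

theorem FP_invt_le : S.invt.ms ≤ mX := fun _ h => h.1

theorem FP_comp {b : X → ℝ} (hb : Measurable[S.invt.ms] b) (u : K F) :
    ∀ᵐ x ∂S.m, b (S.T u x) = b x := by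
  have h1 : ∀ q : ℚ, ∀ᵐ x ∂S.m, (b (S.T u x) < (q : ℝ) ↔ b x < (q : ℝ)) := by
    intro q
    have h2 : MeasurableSet[S.invt.ms] (b ⁻¹' Set.Iio (q : ℝ)) := hb measurableSet_Iio
    have h3 := h2.2 u
    filter_upwards [h3.mem_iff] with x hx
    exact hx
  filter_upwards [ae_all_iff.mpr h1] with x hx
  apply le_antisymm
  · apply le_of_forall_gt_imp_ge_of_dense
    intro c hc
    obtain ⟨q, hq1, hq2⟩ := exists_rat_btwn hc
    exact (((hx q).mpr hq1).trans hq2).le
  · apply le_of_forall_gt_imp_ge_of_dense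
    intro c hc
    obtain ⟨q, hq1, hq2⟩ := exists_rat_btwn hc
    exact (((hx q).mp hq1).trans hq2).le

theorem FP_int {m : Measure X} [IsProbabilityMeasure m] {f : X → ℝ} (hf : Measurable f) {C : ℝ}
    (h : ∀ x, |f x| ≤ C) : Integrable f m :=
  Integrable.of_bound hf.aestronglyMeasurable C (Filter.Eventually.of_forall fun x => by
    rw [Real.norm_eq_abs]; exact h x)

/-- real conditional expectation and the mean ergodic theorem -/
theorem FP_exists_b {k : X → ℝ} (hk : Measurable k) (h0 : ∀ x, 0 ≤ k x) (h1 : ∀ x, k x ≤ 1) :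
    ∃ b : X → ℝ, Measurable[S.invt.ms] b ∧ (∀ x, |b x| ≤ 1) ∧
      (∀ c : X → ℝ, Measurable[S.invt.ms] c → (∀ x, |c x| ≤ 1) →
        ∫ x, k x * c x ∂S.m = ∫ x, b x * c x ∂S.m) ∧
      (∀ (M : Mean (K F)), M.IsInv → ∀ q : X → ℝ, Measurable q → (∀ x, |q x| ≤ 1) →
        M.toFun (fun u => ∫ x, k (S.T u x) * q x ∂S.m) = ∫ x, b x * q x ∂S.m) := by
  have hBM : BM (fun x => (k x : ℂ)) := ⟨Complex.measurable_ofReal.comp hk, fun x => by
    rw [Complex.norm_real, Real.norm_eq_abs, abs_of_nonneg (h0 x)]; exact h1 x⟩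
  obtain ⟨h, hm, hn, hae⟩ := exists_bounded_condExp S.m (FP_invt_le S) hBM
  have hre : ∀ x, |(h x).re| ≤ 1 := fun x => (Complex.abs_re_le_norm _).trans (hn x)
  have key : ∀ q : X → ℝ, Measurable q → (∀ x, |q x| ≤ 1) →
      (∫ x, (S.m[fun x => (k x : ℂ) | S.invt.ms]) x * (q x : ℂ) ∂S.m).re =
        ∫ x, (h x).re * q x ∂S.m := by
    intro q hq hq1
    have e1 : ∫ x, (S.m[fun x => (k x : ℂ) | S.invt.ms]) x * (q x : ℂ) ∂S.m =
        ∫ x, h x * (q x : ℂ) ∂S.m := by
      apply integral_congr_ae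
      filter_upwards [hae] with x hx
      rw [hx]
    rw [e1]
    have hint : Integrable (fun x => h x * (q x : ℂ)) S.m := by
      apply Integrable.of_bound (C := 1)
      · exact ((hm.mono (FP_invt_le S) le_rfl).mul
          (Complex.measurable_ofReal.comp hq)).aestronglyMeasurable
      · apply Filter.Eventually.of_forall
        intro x
        rw [norm_mul, Complex.norm_real, Real.norm_eq_abs]
        calc ‖h x‖ * |q x| ≤ 1 * 1 := mul_le_mul (hn x) (hq1 x) (abs_nonneg _) zero_le_one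
          _ = 1 := one_mul 1
    have e2 := integral_re hint
    simp only [RCLike.re_to_complex] at e2
    rw [← e2]
    apply integral_congr_ae
    apply Filter.Eventually.of_forall
    intro x
    simp [Complex.mul_re]
  refine ⟨fun x => (h x).re, Complex.measurable_re.comp hm, hre, ?_, ?_⟩
  · intro c hc hc1
    have hc' : Measurable c := hc.mono (FP_invt_le S) le_rfl
    have h2 := integral_mul_of_meas S.m (FP_invt_le S) (f := fun x => (k x : ℂ))
      (c := fun x => (c x : ℂ)) (C := 1)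
      (Integrable.of_bound hBM.meas.aestronglyMeasurable 1 (Filter.Eventually.of_forall hBM.bound))
      (Complex.measurable_ofReal.comp hc) (fun x => by
        rw [Complex.norm_real, Real.norm_eq_abs]; exact hc1 x)
    rw [← key c hc' hc1, ← h2]
    have e : ∀ x, (k x : ℂ) * (c x : ℂ) = ((k x * c x : ℝ) : ℂ) := fun x => by push_cast; rfl
    simp only [e]
    rw [integral_complex_ofReal, Complex.ofReal_re]
  · intro M hM q hq hq1
    have hBq : BM (fun x => (q x : ℂ)) := ⟨Complex.measurable_ofReal.comp hq, fun x => by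
      rw [Complex.norm_real, Real.norm_eq_abs]; exact hq1 x⟩
    have h2 := mean_ergodic S M hM hBM hBq
    rw [← key q hq hq1, ← h2, Mean.re_cx]
    congr 1
    funext u
    have e : ∀ x, (k (S.T u x) : ℂ) * (q x : ℂ) = ((k (S.T u x) * q x : ℝ) : ℂ) :=
      fun x => by push_cast; rfl
    simp only [e]
    rw [integral_complex_ofReal, Complex.ofReal_re]

/-- the bound for the conditional expectation -/
theorem FP_b_le {k b : X → ℝ} (hk : Measurable k) (h0 : ∀ x, 0 ≤ k x) (h1 : ∀ x, k x ≤ 1)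
    (hb : ∀ B : Set X, MeasurableSet[S.invt.ms] B →
      ∫ x in B, k x ^ 2 ∂S.m ≤ S.m.real B / Real.sqrt 2)
    (hbm : Measurable[S.invt.ms] b) (hb1 : ∀ x, |b x| ≤ 1)
    (hbc : ∀ c : X → ℝ, Measurable[S.invt.ms] c → (∀ x, |c x| ≤ 1) →
        ∫ x, k x * c x ∂S.m = ∫ x, b x * c x ∂S.m) :
    ∀ᵐ x ∂S.m, b x ≤ 9 / 10 := by
  set B : Set X := b ⁻¹' Set.Ioi (9 / 10 : ℝ) with hB
  have hBi : MeasurableSet[S.invt.ms] B := hbm measurableSet_Ioi
  have hBm : MeasurableSet B := FP_invt_le S _ hBi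
  have hbm' : Measurable b := hbm.mono (FP_invt_le S) le_rfl
  have e1 : ∫ x in B, k x ∂S.m = ∫ x in B, b x ∂S.m := by
    have := hbc (B.indicator fun _ => 1) (measurable_const.indicator hBi) (fun x => by
      by_cases hx : x ∈ B <;> simp [hx])
    have e : ∀ f : X → ℝ, (fun x => f x * B.indicator (fun _ => (1 : ℝ)) x) = B.indicator f := by
      intro f
      funext x
      by_cases hx : x ∈ B <;> simp [hx]
    rw [e, e, integral_indicator hBm, integral_indicator hBm] at this
    exact this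
  have e2 : ∫ x in B, k x ∂S.m ≤ 9 / 10 * S.m.real B := by
    have h2 : ∫ x in B, k x ∂S.m ≤ ∫ x in B, (3 / 5 * k x ^ 2 + 5 / 12) ∂S.m := by
      apply setIntegral_mono (FP_int hk (C := 1) (fun x => by
        rw [abs_of_nonneg (h0 x)]; exact h1 x)).integrableOn
      · exact (FP_int (C := 2) (by fun_prop) (fun x => by
          have := h0 x
          have := h1 x
          rw [abs_of_nonneg (by positivity)]
          nlinarith)).integrableOn
      · intro x
        show k x ≤ 3 / 5 * k x ^ 2 + 5 / 12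
        nlinarith [sq_nonneg (k x - 5 / 6)]
    have h3 : ∫ x in B, (3 / 5 * k x ^ 2 + 5 / 12) ∂S.m =
        3 / 5 * ∫ x in B, k x ^ 2 ∂S.m + 5 / 12 * S.m.real B := by
      rw [integral_add, integral_const_mul]
      · simp [mul_comm]
      · exact (FP_int (C := 1) (by fun_prop) (fun x => by
          have := h0 x
          have := h1 x
          rw [abs_of_nonneg (by positivity)]
          nlinarith)).integrableOn
      · exact integrable_const _
    have h4 := hb B hBi
    have h5 : S.m.real B / Real.sqrt 2 ≤ 4 / 5 * S.m.real B := by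
      rw [div_le_iff₀ (by positivity)]
      have h6 : (5 : ℝ) / 4 ≤ Real.sqrt 2 := by
        apply Real.le_sqrt_of_sq_le
        norm_num
      have h7 : 0 ≤ S.m.real B := measureReal_nonneg
      nlinarith
    have h7 : 0 ≤ S.m.real B := measureReal_nonneg
    rw [h3] at h2
    nlinarith
  -- B is null
  have h3 : ∫ x in B, (b x - 9 / 10) ∂S.m ≤ 0 := by
    rw [integral_sub (FP_int hbm' hb1).integrableOn (integrable_const _), ← e1]
    simp only [integral_const, smul_eq_mul, measureReal_restrict_apply_univ]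
    linarith
  have h4 : ∀ᵐ x ∂(S.m.restrict B), b x - 9 / 10 = 0 := by
    have h5 : 0 ≤ᵐ[S.m.restrict B] fun x => b x - 9 / 10 := by
      filter_upwards [ae_restrict_mem hBm] with x hx
      have : (9 : ℝ) / 10 < b x := hx
      show (0 : ℝ) ≤ b x - 9 / 10
      linarith
    have h6 : ∫ x in B, (b x - 9 / 10) ∂S.m = 0 := le_antisymm h3 (integral_nonneg_of_ae h5)
    exact (integral_eq_zero_iff_of_nonneg_ae h5
      ((FP_int hbm' hb1).integrableOn.sub (integrable_const _))).mp h6
  have h5 := (ae_restrict_iff' hBm).mp h4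
  filter_upwards [h5] with x hx
  by_contra hlt
  have hlt' : (9 : ℝ) / 10 < b x := not_le.mp hlt
  have := hx hlt'
  linarith

/-- the deviation -/
theorem FP_cross (hF : RadClosed F) (M : Mean (K F)) (hM : M.IsInv) {k b : ℕ → X → ℝ}
    (hk : ∀ j, Measurable (k j)) (h0 : ∀ j x, 0 ≤ k j x) (h1 : ∀ j x, k j x ≤ 1)
    (hbm : ∀ j, Measurable[S.invt.ms] (b j)) (hb1 : ∀ j x, |b j x| ≤ 1)
    (hbc : ∀ j, ∀ c : X → ℝ, Measurable[S.invt.ms] c → (∀ x, |c x| ≤ 1) →
        ∫ x, k j x * c x ∂S.m = ∫ x, b j x * c x ∂S.m)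
    (hbe : ∀ j, ∀ (M : Mean (K F)), M.IsInv → ∀ q : X → ℝ, Measurable q → (∀ x, |q x| ≤ 1) →
        M.toFun (fun u => ∫ x, k j (S.T u x) * q x ∂S.m) = ∫ x, b j x * q x ∂S.m)
    {i j : ℕ} (hij : i < j) :
    M.toFun (fun u => ∫ x, (b i x - k i (S.T (u ^ i) x)) * (b j x - k j (S.T (u ^ j) x)) ∂S.m)
      = 0 := by
  have hbm' : ∀ j, Measurable (b j) := fun j => (hbm j).mono (FP_invt_le S) le_rfl
  have hkT : ∀ j u, Measurable (fun x => k j (S.T u x)) := fun j u =>
    (hk j).comp (S.T_mp u).measurable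
  have hkabs : ∀ j x, |k j x| ≤ 1 := fun j x => by rw [abs_of_nonneg (h0 j x)]; exact h1 j x
  have hprod : ∀ s t : ℝ, |s| ≤ 1 → |t| ≤ 1 → |s * t| ≤ 1 := fun s t hs ht => by
    rw [abs_mul]
    exact mul_le_one₀ hs (abs_nonneg _) ht
  -- the mixed terms
  have hmix : ∀ (p q : ℕ) (u : K F), ∫ x, b p x * k q (S.T u x) ∂S.m = ∫ x, b p x * b q x ∂S.m := by
    intro p q u
    have e1 : ∫ x, b p x * k q (S.T u x) ∂S.m = ∫ x, b p (S.T u x) * k q (S.T u x) ∂S.m := by
      apply integral_congr_ae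
      filter_upwards [FP_comp S (hbm p) u] with x hx
      rw [hx]
    rw [e1, integral_comp_T S u (fun x => b p x * k q x)
      ((hbm' p).mul (hk q)).aestronglyMeasurable]
    have e2 := hbc q (b p) (hbm p) (hb1 p)
    rw [show (fun x => b p x * k q x) = fun x => k q x * b p x from funext fun x => mul_comm _ _,
      e2]
    exact integral_congr_ae (Filter.Eventually.of_forall fun x => mul_comm _ _)
  have hkk : ∀ u : K F, ∫ x, k i (S.T (u ^ i) x) * k j (S.T (u ^ j) x) ∂S.m =
      ∫ x, k j (S.T (u ^ (j - i)) x) * k i x ∂S.m := by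
    intro u
    rw [← integral_comp_T S (u ^ i) (fun x => k j (S.T (u ^ (j - i)) x) * k i x)
      (((hkT j _).mul (hk i)).aestronglyMeasurable)]
    apply integral_congr_ae
    apply Filter.Eventually.of_forall
    intro x
    show k i (S.T (u ^ i) x) * k j (S.T (u ^ j) x) =
      k j (S.T (u ^ (j - i)) (S.T (u ^ i) x)) * k i (S.T (u ^ i) x)
    rw [← S.T_mul, ← pow_add, show j - i + i = j by omega, mul_comm]
  have hexp : ∀ u : K F,
      ∫ x, (b i x - k i (S.T (u ^ i) x)) * (b j x - k j (S.T (u ^ j) x)) ∂S.m =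
        (∫ x, k j (S.T (u ^ (j - i)) x) * k i x ∂S.m) - ∫ x, b i x * b j x ∂S.m := by
    intro u
    have e1 : ∀ x, (b i x - k i (S.T (u ^ i) x)) * (b j x - k j (S.T (u ^ j) x)) =
        (b i x * b j x - b i x * k j (S.T (u ^ j) x)) -
          (b j x * k i (S.T (u ^ i) x) - k i (S.T (u ^ i) x) * k j (S.T (u ^ j) x)) := by
      intro x; ring
    simp only [e1]
    have i1 : Integrable (fun x => b i x * b j x) S.m :=
      FP_int ((hbm' i).mul (hbm' j)) (fun x => hprod _ _ (hb1 i x) (hb1 j x))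
    have i2 : Integrable (fun x => b i x * k j (S.T (u ^ j) x)) S.m :=
      FP_int ((hbm' i).mul (hkT j _)) (fun x => hprod _ _ (hb1 i x) (hkabs j _))
    have i3 : Integrable (fun x => b j x * k i (S.T (u ^ i) x)) S.m :=
      FP_int ((hbm' j).mul (hkT i _)) (fun x => hprod _ _ (hb1 j x) (hkabs i _))
    have i4 : Integrable (fun x => k i (S.T (u ^ i) x) * k j (S.T (u ^ j) x)) S.m :=
      FP_int ((hkT i _).mul (hkT j _)) (fun x => hprod _ _ (hkabs i _) (hkabs j _))
    have i5 : Integrable (fun x => b i x * b j x - b i x * k j (S.T (u ^ j) x)) S.m := i1.sub i2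
    have i6 : Integrable (fun x => b j x * k i (S.T (u ^ i) x) -
      k i (S.T (u ^ i) x) * k j (S.T (u ^ j) x)) S.m := i3.sub i4
    rw [integral_sub i5 i6, integral_sub i1 i2, integral_sub i3 i4, hmix i j, hmix j i, hkk u]
    have e2 : ∫ x, b j x * b i x ∂S.m = ∫ x, b i x * b j x ∂S.m :=
      integral_congr_ae (Filter.Eventually.of_forall fun x => mul_comm _ _)
    rw [e2]
    ring
  simp only [hexp]
  have hbdd : Bdd (fun u : K F => ∫ x, k j (S.T (u ^ (j - i)) x) * k i x ∂S.m) := by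
    refine ⟨1, fun u => ?_⟩
    rw [← Real.norm_eq_abs]
    refine (norm_integral_le_of_norm_le_const (C := 1) (Filter.Eventually.of_forall fun x => ?_)).trans ?_
    · rw [Real.norm_eq_abs]
      exact hprod _ _ (hkabs j _) (hkabs i _)
    · simp
  rw [M.map_sub hbdd (Bdd.const _), M.map_const]
  have hpush := hM.push_pow (j - i) (fun u => K_divisible hF (by omega : 0 < j - i) u)
  have h2 := hbe j (M.push fun u => u ^ (j - i)) hpush (k i) (hk i) (hkabs i)
  have h3 : (M.push fun u => u ^ (j - i)).toFun (fun u => ∫ x, k j (S.T u x) * k i x ∂S.m) =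
      M.toFun (fun u => ∫ x, k j (S.T (u ^ (j - i)) x) * k i x ∂S.m) := rfl
  rw [← h3, h2]
  have h4 : ∫ x, b j x * k i x ∂S.m = ∫ x, b i x * b j x ∂S.m := by
    have := hbc i (b j) (hbm j) (hb1 j)
    rw [← this]
    exact integral_congr_ae (Filter.Eventually.of_forall fun x => mul_comm _ _)
  rw [h4, sub_self]

theorem FP_point {S D Sb n : ℝ} (hn : 0 < n) (hS : 0 ≤ S) (hSb : n / 10 ≤ Sb) (hD : D = S - Sb) :
    Real.exp (-S) ≤ 400 / n ^ 2 * D ^ 2 + Real.exp (-n / 20) := by
  by_cases h : n / 20 ≤ S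
  · have h1 : Real.exp (-S) ≤ Real.exp (-n / 20) := Real.exp_le_exp.mpr (by linarith)
    have h2 : 0 ≤ 400 / n ^ 2 * D ^ 2 := by positivity
    linarith
  · have h1 : D ≤ -(n / 20) := by linarith
    have h2 : n ^ 2 / 400 ≤ D ^ 2 := by nlinarith
    have h3 : 1 ≤ 400 / n ^ 2 * D ^ 2 := by
      rw [div_mul_eq_mul_div, le_div_iff₀ (by positivity)]
      linarith
    have h4 : Real.exp (-S) ≤ 1 := by
      rw [Real.exp_le_one_iff]; linarith
    have h5 : 0 < Real.exp (-n / 20) := Real.exp_pos _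
    linarith

end PB

/-- product bound: independence on average -/
theorem prod_bound [StandardBorelSpace X] (hF : RadClosed F) (S : RotSys F X) (n : ℕ) (hn : 0 < n)
    (M : Mean (K F)) (hM : M.IsInv) (k : ℕ → X → ℝ) (hk : ∀ j, Measurable (k j))
    (h0 : ∀ j x, 0 ≤ k j x) (h1 : ∀ j x, k j x ≤ 1)
    (hb : ∀ j, 1 ≤ j → j ≤ n → ∀ B : Set X, MeasurableSet[S.invt.ms] B →
      ∫ x in B, k j x ^ 2 ∂S.m ≤ S.m.real B / Real.sqrt 2) :
    M.toFun (fun u => ∫ x, ∏ j ∈ Finset.Icc 1 n, k j (S.T (u ^ j) x) ∂S.m) ≤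
      1600 / (n : ℝ) + Real.exp (- (n : ℝ) / 20) := by
  have hn' : (0 : ℝ) < n := by exact_mod_cast hn
  choose b hbm hb1 hbc hbe using fun j => FP_exists_b S (hk j) (h0 j) (h1 j)
  have hbm' : ∀ j, Measurable (b j) := fun j => (hbm j).mono (FP_invt_le S) le_rfl
  have hkT : ∀ j u, Measurable (fun x => k j (S.T u x)) := fun j u =>
    (hk j).comp (S.T_mp u).measurable
  have hble : ∀ᵐ x ∂S.m, ∀ j ∈ Finset.Icc 1 n, b j x ≤ 9 / 10 := by
    rw [Filter.eventually_all_finset]
    intro j hj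
    have hj' := Finset.mem_Icc.mp hj
    exact FP_b_le S (hk j) (h0 j) (h1 j) (hb j hj'.1 hj'.2) (hbm j) (hb1 j) (hbc j)
  set D : K F → X → ℝ := fun u x => ∑ j ∈ Finset.Icc 1 n, (b j x - k j (S.T (u ^ j) x)) with hD
  have hDm : ∀ u, Measurable (D u) := fun u =>
    Finset.measurable_sum _ fun j _ => (hbm' j).sub (hkT j _)
  have hDle : ∀ u x, |D u x| ≤ 2 * n := by
    intro u x
    calc |D u x| ≤ ∑ j ∈ Finset.Icc 1 n, |b j x - k j (S.T (u ^ j) x)| :=
          Finset.abs_sum_le_sum_abs _ _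
      _ ≤ ∑ j ∈ Finset.Icc 1 n, 2 := by
          apply Finset.sum_le_sum
          intro j _
          have := abs_le.mp (hb1 j x)
          have := h0 j (S.T (u ^ j) x)
          have := h1 j (S.T (u ^ j) x)
          rw [abs_le]
          constructor <;> linarith
      _ = 2 * n := by simp [mul_comm]
  have hint : ∀ u, ∫ x, ∏ j ∈ Finset.Icc 1 n, k j (S.T (u ^ j) x) ∂S.m ≤
      400 / (n : ℝ) ^ 2 * ∫ x, D u x ^ 2 ∂S.m + Real.exp (-(n : ℝ) / 20) := by
    intro u
    have hD2 : Integrable (fun x => D u x ^ 2) S.m :=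
      FP_int ((hDm u).pow_const 2) (C := (2 * n) ^ 2) (fun x => by
        rw [abs_of_nonneg (sq_nonneg _), ← sq_abs]
        exact pow_le_pow_left₀ (abs_nonneg _) (hDle u x) 2)
    have e1 : 400 / (n : ℝ) ^ 2 * ∫ x, D u x ^ 2 ∂S.m + Real.exp (-(n : ℝ) / 20) =
        ∫ x, (400 / (n : ℝ) ^ 2 * D u x ^ 2 + Real.exp (-(n : ℝ) / 20)) ∂S.m := by
      rw [integral_add (hD2.const_mul _) (integrable_const _), integral_const_mul]
      simp
    rw [e1]
    apply integral_mono_ae
    · apply FP_int (C := 1)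
      · exact Finset.measurable_prod _ fun j _ => hkT j _
      · intro x
        rw [Finset.abs_prod]
        apply Finset.prod_le_one
        · intro j _; exact abs_nonneg _
        · intro j _
          rw [abs_of_nonneg (h0 j _)]; exact h1 j _
    · exact (hD2.const_mul _).add (integrable_const _)
    · filter_upwards [hble] with x hx
      have h2 : ∏ j ∈ Finset.Icc 1 n, k j (S.T (u ^ j) x) ≤
          Real.exp (-∑ j ∈ Finset.Icc 1 n, (1 - k j (S.T (u ^ j) x))) := by
        rw [← Finset.sum_neg_distrib, Real.exp_sum]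
        apply Finset.prod_le_prod
        · intro j _; exact h0 j _
        · intro j _
          have := Real.add_one_le_exp (-(1 - k j (S.T (u ^ j) x)))
          linarith
      refine h2.trans (FP_point (Sb := ∑ j ∈ Finset.Icc 1 n, (1 - b j x)) hn' ?_ ?_ ?_)
      · apply Finset.sum_nonneg
        intro j _
        have := h1 j (S.T (u ^ j) x)
        linarith
      · calc (n : ℝ) / 10 = ∑ j ∈ Finset.Icc 1 n, (1 / 10 : ℝ) := by
              simp; ring
          _ ≤ _ := by
              apply Finset.sum_le_sum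
              intro j hj
              have := hx j hj
              linarith
      · rw [← Finset.sum_sub_distrib, hD]
        apply Finset.sum_congr rfl
        intro j _
        ring
  have hI : ∀ i j (u : K F), |∫ x, (b i x - k i (S.T (u ^ i) x)) *
      (b j x - k j (S.T (u ^ j) x)) ∂S.m| ≤ 4 := by
    intro i j u
    rw [← Real.norm_eq_abs]
    refine (norm_integral_le_of_norm_le_const (C := 4) (Filter.Eventually.of_forall fun x => ?_)).trans ?_
    · rw [Real.norm_eq_abs, abs_mul]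
      have hh : ∀ p, |b p x - k p (S.T (u ^ p) x)| ≤ 2 := fun p => by
        have := abs_le.mp (hb1 p x)
        have := h0 p (S.T (u ^ p) x)
        have := h1 p (S.T (u ^ p) x)
        rw [abs_le]
        constructor <;> linarith
      nlinarith [hh i, hh j, abs_nonneg (b i x - k i (S.T (u ^ i) x)),
        abs_nonneg (b j x - k j (S.T (u ^ j) x))]
    · simp
  have hsq : M.toFun (fun u => ∫ x, D u x ^ 2 ∂S.m) ≤ 4 * n := by
    have e1 : ∀ u, ∫ x, D u x ^ 2 ∂S.m = ∑ i ∈ Finset.Icc 1 n, ∑ j ∈ Finset.Icc 1 n,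
        ∫ x, (b i x - k i (S.T (u ^ i) x)) * (b j x - k j (S.T (u ^ j) x)) ∂S.m := by
      intro u
      have hii : ∀ i j, Integrable (fun x => (b i x - k i (S.T (u ^ i) x)) *
          (b j x - k j (S.T (u ^ j) x))) S.m := by
        intro i j
        apply FP_int (C := 4)
        · exact ((hbm' i).sub (hkT i _)).mul ((hbm' j).sub (hkT j _))
        · intro x
          rw [abs_mul]
          have hh : ∀ p, |b p x - k p (S.T (u ^ p) x)| ≤ 2 := fun p => by
            have := abs_le.mp (hb1 p x)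
            have := h0 p (S.T (u ^ p) x)
            have := h1 p (S.T (u ^ p) x)
            rw [abs_le]
            constructor <;> linarith
          nlinarith [hh i, hh j, abs_nonneg (b i x - k i (S.T (u ^ i) x)),
            abs_nonneg (b j x - k j (S.T (u ^ j) x))]
      have e2 : ∀ x, D u x ^ 2 = ∑ i ∈ Finset.Icc 1 n, ∑ j ∈ Finset.Icc 1 n,
          (b i x - k i (S.T (u ^ i) x)) * (b j x - k j (S.T (u ^ j) x)) := by
        intro x
        rw [hD, sq, Finset.sum_mul_sum]
      simp only [e2]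
      rw [integral_finsetSum _ fun i _ => integrable_finsetSum _ fun j _ => hii i j]
      apply Finset.sum_congr rfl
      intro i _
      rw [integral_finsetSum _ fun j _ => hii i j]
    simp only [e1]
    rw [M.map_sum _ _ fun i _ => ?_]
    · calc ∑ i ∈ Finset.Icc 1 n, M.toFun (fun u => ∑ j ∈ Finset.Icc 1 n,
            ∫ x, (b i x - k i (S.T (u ^ i) x)) * (b j x - k j (S.T (u ^ j) x)) ∂S.m)
          ≤ ∑ i ∈ Finset.Icc 1 n, (4 : ℝ) := by
            apply Finset.sum_le_sum
            intro i hi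
            rw [M.map_sum _ _ fun j _ => ⟨4, hI i j⟩]
            rw [Finset.sum_eq_single i]
            · exact (le_abs_self _).trans (M.abs_le (hI i i))
            · intro j _ hji
              rcases lt_or_gt_of_ne hji with h | h
              · have := FP_cross S hF M hM hk h0 h1 hbm hb1 hbc hbe h
                rw [← this]
                congr 1
                funext u
                exact integral_congr_ae (Filter.Eventually.of_forall fun x => mul_comm _ _)
              · exact FP_cross S hF M hM hk h0 h1 hbm hb1 hbc hbe h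
            · intro h; exact absurd hi h
        _ = 4 * n := by simp [mul_comm]
    · refine ⟨∑ j ∈ Finset.Icc 1 n, 4, fun u => ?_⟩
      exact (Finset.abs_sum_le_sum_abs _ _).trans (Finset.sum_le_sum fun j _ => hI i j u)
  have hDb : Bdd (fun u => ∫ x, D u x ^ 2 ∂S.m) := by
    refine ⟨(2 * n) ^ 2, fun u => ?_⟩
    rw [← Real.norm_eq_abs]
    refine (norm_integral_le_of_norm_le_const (C := (2 * n) ^ 2)
      (Filter.Eventually.of_forall fun x => ?_)).trans ?_
    · rw [Real.norm_eq_abs, abs_of_nonneg (sq_nonneg _), ← sq_abs]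
      exact pow_le_pow_left₀ (abs_nonneg _) (hDle u x) 2
    · simp
  have hPb : Bdd (fun u : K F => ∫ x, ∏ j ∈ Finset.Icc 1 n, k j (S.T (u ^ j) x) ∂S.m) := by
    refine ⟨1, fun u => ?_⟩
    rw [← Real.norm_eq_abs]
    refine (norm_integral_le_of_norm_le_const (C := 1)
      (Filter.Eventually.of_forall fun x => ?_)).trans ?_
    · rw [Real.norm_eq_abs, Finset.abs_prod]
      apply Finset.prod_le_one
      · intro j _; exact abs_nonneg _
      · intro j _
        rw [abs_of_nonneg (h0 j _)]; exact h1 j _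
    · simp
  have hcD : Bdd (fun u : K F => 400 / (n : ℝ) ^ 2 * ∫ x, D u x ^ 2 ∂S.m) :=
    (Bdd.const _).mul hDb
  calc M.toFun (fun u => ∫ x, ∏ j ∈ Finset.Icc 1 n, k j (S.T (u ^ j) x) ∂S.m)
      ≤ M.toFun (fun u => 400 / (n : ℝ) ^ 2 * ∫ x, D u x ^ 2 ∂S.m + Real.exp (-(n : ℝ) / 20)) :=
        M.mono hPb (hcD.add (Bdd.const _)) hint
    _ = 400 / (n : ℝ) ^ 2 * M.toFun (fun u => ∫ x, D u x ^ 2 ∂S.m) + Real.exp (-(n : ℝ) / 20) := by
        rw [M.map_add _ _ hcD (Bdd.const _), M.map_const, M.map_smul _ _ hDb]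
    _ ≤ 400 / (n : ℝ) ^ 2 * (4 * n) + Real.exp (-(n : ℝ) / 20) := by
        have : 0 ≤ 400 / (n : ℝ) ^ 2 := by positivity
        have := mul_le_mul_of_nonneg_left hsq this
        linarith
    _ = 1600 / (n : ℝ) + Real.exp (-(n : ℝ) / 20) := by
        congr 1
        field_simp
        ring

end Pool.Agent.RadPD
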