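import Pool.Agent.RadPD.Defs

set_option autoImplicit false

namespace Pool.Agent.RadPD

open MeasureTheory Filter
open scoped Topology symmDiff

/-! ## From almost everywhere to everywhere -/

/-- the vectors avoided by two measurable sets form a closed set -/
theorem GE_closed {A B : Set ℂ} (hB : NullMeasurableSet B volume) {D : Set ℂ} {w : ℂ}
    (hw : w ∈ closure D) (hD : ∀ u ∈ D, ∀ᵐ z : ℂ, ¬ (z ∈ A ∧ z + u ∈ B)) :
    ∀ᵐ z : ℂ, ¬ (z ∈ A ∧ z + w ∈ B) := by
  -- translations
  let T : ℂ → C(ℂ, ℂ) := fun v => ⟨fun z => z + v, by fun_prop⟩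
  have hT : Continuous T := by
    refine ContinuousMap.continuous_of_continuous_uncurry _ ?_
    change Continuous fun p : ℂ × ℂ => p.2 + p.1
    fun_prop
  have hTm : ∀ v, MeasurePreserving (T v) (volume : Measure ℂ) volume := fun v =>
    measurePreserving_add_right volume v
  have key : ∀ (n : ℕ), volume {z : ℂ | ‖z‖ ≤ n ∧ z ∈ A ∧ z + w ∈ B} = 0 := by
    intro n
    set E : Set ℂ := {z : ℂ | ‖z‖ ≤ n ∧ z ∈ A ∧ z + w ∈ B} with hE
    set s : Set ℂ := B ∩ Metric.closedBall 0 (n + ‖w‖) with hs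
    have hsm : NullMeasurableSet s volume :=
      hB.inter Metric.isClosed_closedBall.measurableSet.nullMeasurableSet
    have hsf : volume s ≠ ⊤ :=
      ((measure_mono Set.inter_subset_right).trans_lt measure_closedBall_lt_top).ne
    have lim : Filter.Tendsto (fun u => volume ((T u ⁻¹' s) ∆ (T w ⁻¹' s))) (𝓝[D] w) (𝓝 0) :=
      tendsto_measure_symmDiff_preimage_nhds_zero
        ((hT.tendsto w).mono_left nhdsWithin_le_nhds)
        (Filter.Eventually.of_forall hTm) (hTm w) hsm hsf
    have : (𝓝[D] w).NeBot := mem_closure_iff_nhdsWithin_neBot.1 hw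
    have hle : volume E ≤ 0 := by
      refine ge_of_tendsto lim ?_
      filter_upwards [self_mem_nhdsWithin] with u hu
      have hbad : volume {z : ℂ | ¬ ¬ (z ∈ A ∧ z + u ∈ B)} = 0 := ae_iff.1 (hD u hu)
      have hsub : E ⊆ {z : ℂ | ¬ ¬ (z ∈ A ∧ z + u ∈ B)} ∪ ((T u ⁻¹' s) ∆ (T w ⁻¹' s)) := by
        rintro z ⟨hz, h0, h1⟩
        have m1 : z ∈ T w ⁻¹' s := by
          refine ⟨h1, ?_⟩
          rw [Metric.mem_closedBall, dist_zero_right]
          exact (norm_add_le z w).trans (by linarith)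
        by_cases c1 : z ∈ T u ⁻¹' s
        · left
          have e1 : z + u ∈ B := c1.1
          simp only [Set.mem_ofPred_eq, not_not]
          exact ⟨h0, e1⟩
        · right; exact Or.inr ⟨m1, c1⟩
      refine (measure_mono hsub).trans ((measure_union_le _ _).trans ?_)
      rw [hbad, zero_add]
    exact le_antisymm hle bot_le
  rw [ae_iff]
  refine measure_mono_null (t := ⋃ (n : ℕ), {z : ℂ | ‖z‖ ≤ n ∧ z ∈ A ∧ z + w ∈ B}) ?_ ?_
  · intro z hz
    simp only [Set.mem_ofPred_eq, not_not] at hz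
    obtain ⟨n, hn⟩ := exists_nat_ge ‖z‖
    simp only [Set.mem_iUnion, Set.mem_ofPred_eq]
    exact ⟨n, hn, hz.1, hz.2⟩
  · rw [measure_iUnion_null_iff]
    exact key

/-- relative measure of a set in the ball of radius `r` around `z` -/
noncomputable def GErel (S : Set ℂ) (z : ℂ) (r : ℝ) : ENNReal :=
  volume (S ∩ Metric.closedBall z r) / volume (Metric.closedBall z r)

theorem GErel_mono {S T : Set ℂ} (h : S ⊆ T) (z : ℂ) (r : ℝ) : GErel S z r ≤ GErel T z r := by
  unfold GErel
  gcongr

theorem GErel_union (S T : Set ℂ) (z : ℂ) (r : ℝ) :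
    GErel (S ∪ T) z r ≤ GErel S z r + GErel T z r := by
  unfold GErel
  rw [← ENNReal.add_div, Set.union_inter_distrib_right]
  gcongr
  exact measure_union_le _ _

/-- the filter of the sets that have density one at `0` -/
noncomputable def GEfilter : Filter ℂ where
  sets := {S | Tendsto (fun r : ℝ => GErel Sᶜ 0 r) (𝓝[>] 0) (𝓝 0)}
  univ_sets := by
    simp [GErel]
  sets_of_superset := by
    intro S T hS hST
    refine tendsto_of_tendsto_of_tendsto_of_le_of_le tendsto_const_nhds hS
      (fun r => bot_le) (fun r => ?_)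
    exact GErel_mono (Set.compl_subset_compl.2 hST) _ _
  inter_sets := by
    intro S T hS hT
    have h := hS.add hT
    rw [add_zero] at h
    refine tendsto_of_tendsto_of_tendsto_of_le_of_le tendsto_const_nhds h
      (fun r => bot_le) (fun r => ?_)
    show GErel (S ∩ T)ᶜ 0 r ≤ _
    rw [Set.compl_inter]
    exact GErel_union _ _ _ _

theorem GEfilter_neBot : GEfilter.NeBot := by
  rw [Filter.neBot_iff]
  intro h
  have h1 : (∅ : Set ℂ) ∈ GEfilter := by rw [h]; exact Filter.mem_bot
  have h2 : Tendsto (fun r : ℝ => GErel (∅ : Set ℂ)ᶜ 0 r) (𝓝[>] 0) (𝓝 0) := h1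
  have h3 : Tendsto (fun r : ℝ => GErel (∅ : Set ℂ)ᶜ 0 r) (𝓝[>] 0) (𝓝 1) := by
    refine tendsto_const_nhds.congr' ?_
    filter_upwards [self_mem_nhdsWithin] with r hr
    unfold GErel
    rw [Set.compl_empty, Set.univ_inter, ENNReal.div_self]
    · exact (Metric.measure_closedBall_pos volume _ hr).ne'
    · exact measure_closedBall_lt_top.ne
  exact one_ne_zero (tendsto_nhds_unique h3 h2)

/-- an ultrafilter that contains the sets having density one at `0` -/
theorem exists_densityUltrafilter : ∃ U : Ultrafilter ℂ,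
    (∀ S : Set ℂ, (∀ᵐ t : ℂ, t ∈ S) → S ∈ U) ∧
    (∀ A : Set ℂ, NullMeasurableSet A volume → ∀ᵐ z : ℂ, z ∈ A → {t : ℂ | z + t ∈ A} ∈ U) := by
  have := GEfilter_neBot
  obtain ⟨U, hU⟩ := Ultrafilter.exists_le GEfilter
  refine ⟨U, ?_, ?_⟩
  · intro S hS
    apply hU
    show Tendsto (fun r : ℝ => GErel Sᶜ 0 r) (𝓝[>] 0) (𝓝 0)
    have h0 : ∀ r : ℝ, GErel Sᶜ 0 r = 0 := by
      intro r
      unfold GErel
      have h1 : volume (Sᶜ ∩ Metric.closedBall 0 r) = 0 :=
        measure_mono_null Set.inter_subset_left (ae_iff.1 hS)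
      rw [h1, ENNReal.zero_div]
    simp only [h0]
    exact tendsto_const_nhds
  · intro A hA
    obtain ⟨B, hBA, hB, hAB⟩ := hA.exists_measurable_superset_ae_eq
    have h1 := Besicovitch.ae_tendsto_measure_inter_div_of_measurableSet
      (volume : Measure ℂ) hB.compl
    have hnull : volume (B \ A) = 0 := by
      have h2 := ae_eq_set.1 hAB
      exact h2.1
    filter_upwards [h1] with z hz hzA
    apply hU
    show Tendsto (fun r : ℝ => GErel {t : ℂ | z + t ∈ A}ᶜ 0 r) (𝓝[>] 0) (𝓝 0)
    have h3 : (Bᶜ).indicator (1 : ℂ → ENNReal) z = 0 := by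
      apply Set.indicator_of_notMem
      intro h
      exact h (hBA hzA)
    rw [h3] at hz
    refine hz.congr fun r => ?_
    unfold GErel
    have e1 : volume (Metric.closedBall z r) = volume (Metric.closedBall (0 : ℂ) r) := by
      have h4 : Metric.closedBall (0 : ℂ) r = (fun t => z + t) ⁻¹' Metric.closedBall z r := by
        ext t; simp
      rw [h4, measure_preimage_add]
    have e2 : volume (Bᶜ ∩ Metric.closedBall z r) =
        volume ({t : ℂ | z + t ∈ A}ᶜ ∩ Metric.closedBall (0 : ℂ) r) := by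
      have h5 : {t : ℂ | z + t ∈ A}ᶜ ∩ Metric.closedBall (0 : ℂ) r =
          (fun t => z + t) ⁻¹' (Aᶜ ∩ Metric.closedBall z r) := by
        ext t; simp
      rw [h5, measure_preimage_add]
      apply le_antisymm
      · apply measure_mono
        intro t ht
        exact ⟨fun h => ht.1 (hBA h), ht.2⟩
      · have h6 : Aᶜ ∩ Metric.closedBall z r ⊆ (Bᶜ ∩ Metric.closedBall z r) ∪ (B \ A) := by
          intro t ht
          by_cases h7 : t ∈ B
          · exact Or.inr ⟨h7, ht.1⟩
          · exact Or.inl ⟨h7, ht.2⟩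
        refine (measure_mono h6).trans ((measure_union_le _ _).trans ?_)
        rw [hnull, add_zero]
    rw [e1, e2]

end Pool.Agent.RadPD
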