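import Pool.Agent.RadPD.GS

set_option autoImplicit false

namespace Pool.Agent.RadPD

open MeasureTheory ProbabilityTheory

/-! ## The relations between the continuous parts -/

section GP

variable {F : Subfield ℂ} {C : Type} [Fintype C] [MeasurableSpace C] [MeasurableSingletonClass C]

omit [Fintype C] [MeasurableSpace C] [MeasurableSingletonClass C] in
theorem GP_tau_add (z h : F) (ω : F → C) : tau (z + h) ω = tau h (tau z ω) := by
  funext w
  simp only [tau]
  congr 1
  ring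

omit [Fintype C] [MeasurableSpace C] [MeasurableSingletonClass C] in
theorem GP_tau_comm (z h : F) (ω : F → C) : tau z (tau h ω) = tau h (tau z ω) := by
  rw [← GP_tau_add, ← GP_tau_add, add_comm]

omit [Fintype C] [MeasurableSingletonClass C] in
/-- invariance of integrals -/
theorem GP_int_tau {P : Measure (F → C)} (hτ : ∀ z, MeasurePreserving (tau (C := C) z) P P)
    (z : F) {G : (F → C) → ℝ} (hG : Measurable G) : ∫ ω, G (tau z ω) ∂P = ∫ ω, G ω ∂P := by
  have h4 := integral_map (μ := P) (hτ z).measurable.aemeasurable (f := G) hG.aestronglyMeasurable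
  rw [(hτ z).map_eq] at h4
  exact h4.symm

theorem GP_cont_tau {P : Measure (F → C)} (hτ : ∀ z, MeasurePreserving (tau (C := C) z) P P)
    {x : (F → C) → ℝ} (hx : Measurable x)
    (hc : ∀ ε : ℝ, 0 < ε → ∃ r : ℝ, 0 < r ∧ ∀ z : F, ‖(z : ℂ)‖ < r →
      ∫ ω, (x (tau z ω) - x ω) ^ 2 ∂P ≤ ε) (w : F) :
    ∀ ε : ℝ, 0 < ε → ∃ r : ℝ, 0 < r ∧ ∀ z : F, ‖(z : ℂ)‖ < r →
      ∫ ω, (x (tau w (tau z ω)) - x (tau w ω)) ^ 2 ∂P ≤ ε := by
  intro ε hε
  obtain ⟨r, hr, h⟩ := hc ε hε
  refine ⟨r, hr, fun z hz => ?_⟩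
  have hm : Measurable (fun ω => (x (tau z ω) - x ω) ^ 2) :=
    ((hx.comp (hτ z).measurable).sub hx).pow_const 2
  have h1 := GP_int_tau hτ w hm
  have h2 : ∫ ω, (x (tau w (tau z ω)) - x (tau w ω)) ^ 2 ∂P =
      ∫ ω, (x (tau z (tau w ω)) - x (tau w ω)) ^ 2 ∂P := by
    refine integral_congr_ae (Filter.Eventually.of_forall fun ω => ?_)
    simp only
    rw [GP_tau_comm w z]
  rw [h2, h1]
  exact h z hz

/-- continuous part with values in `[0, 1]` -/
theorem exists_part01 (hF : RadClosed F) [Countable F] (P : Measure (F → C))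
    [IsProbabilityMeasure P] (hτ : ∀ z, MeasurePreserving (tau (C := C) z) P P)
    (hr : ∀ u, MeasurePreserving (rot (C := C) u) P P) (ρ : URep F (Lp ℂ 2 P))
    (hU : ∀ z (f : Lp ℂ 2 P), ρ.U z f =ᵐ[P] fun ω => f (tau z ω))
    (hR : ∀ u (f : Lp ℂ 2 P), ρ.R u f =ᵐ[P] fun ω => f (rot u ω))
    (s : C → ℝ) (hs0 : ∀ c, 0 ≤ s c) (hs1 : ∀ c, s c ≤ 1) :
    ∃ x : (F → C) → ℝ, (Part P s x ∧ ∀ ω, 0 ≤ x ω) ∧ ∃ v : Lp ℂ 2 P,
      (v =ᵐ[P] fun ω => ((s (ω 0) - x ω : ℝ) : ℂ)) ∧ (∀ u, ρ.R u v = v) ∧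
      ∀ w ∈ ρ.Hc, inner ℂ w v = 0 := by
  obtain ⟨x', hx', v, hv1, hv2, hv3⟩ := exists_part_rep hF P hτ hr ρ hU hR
    (fun c => 2 * s c - 1) (fun c => by
      rw [abs_le]; constructor <;> linarith [hs0 c, hs1 c])
  have hb := fun ω => abs_le.1 (hx'.bound ω)
  refine ⟨fun ω => (x' ω + 1) / 2, ⟨⟨(hx'.meas.add_const 1).div_const 2, ?_, ?_, ?_, ?_⟩, ?_⟩,
    (2 : ℂ)⁻¹ • v, ?_, ?_, ?_⟩
  · intro ω
    rw [abs_le]
    constructor <;> linarith [(hb ω).1, (hb ω).2]
  · intro ε hε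
    obtain ⟨r, hr, h⟩ := hx'.cont (4 * ε) (by positivity)
    refine ⟨r, hr, fun z hz => ?_⟩
    have h2 : ∫ ω, ((x' (tau z ω) + 1) / 2 - (x' ω + 1) / 2) ^ 2 ∂P
        = (1 / 4) * ∫ ω, (x' (tau z ω) - x' ω) ^ 2 ∂P := by
      rw [← integral_const_mul]
      refine integral_congr_ae (Filter.Eventually.of_forall fun ω => ?_)
      simp only
      ring
    rw [h2]
    linarith [h z hz]
  · intro g hg hb hc
    have h2 : ∫ ω, (s (ω 0) - (x' ω + 1) / 2) * g ω ∂P
        = (1 / 2) * ∫ ω, (2 * s (ω 0) - 1 - x' ω) * g ω ∂P := by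
      rw [← integral_const_mul]
      refine integral_congr_ae (Filter.Eventually.of_forall fun ω => ?_)
      simp only
      ring
    rw [h2, hx'.perp g hg hb hc, mul_zero]
  · intro z hz
    have h2 : ∫ ω, (s (tau z ω 0) - (x' (tau z ω) + 1) / 2) * (s (ω 0) - (x' ω + 1) / 2) ∂P
        = (1 / 4) * ∫ ω, (2 * s (tau z ω 0) - 1 - x' (tau z ω)) * (2 * s (ω 0) - 1 - x' ω) ∂P := by
      rw [← integral_const_mul]
      refine integral_congr_ae (Filter.Eventually.of_forall fun ω => ?_)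
      simp only
      ring
    rw [h2, hx'.orth z hz, mul_zero]
  · intro ω
    linarith [(hb ω).1]
  · filter_upwards [hv1, Lp.coeFn_smul (2 : ℂ)⁻¹ v] with ω h1 h2
    rw [h2, Pi.smul_apply, h1, smul_eq_mul]
    push_cast
    ring
  · intro u
    rw [map_smul, hv2]
  · intro w hw
    rw [inner_smul_right, hv3 w hw, mul_zero]

/-- **polarised Theorem A'**: the translates of two wild radial vectors are orthogonal -/
theorem GP_cross {H : Type*} [NormedAddCommGroup H] [InnerProductSpace ℂ H] [CompleteSpace H]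
    (hF : RadClosed F) [Countable F] (ρ : URep F H) {v w : H} (hv : ∀ u, ρ.R u v = v)
    (hw : ∀ u, ρ.R u w = w) (hv' : ∀ a ∈ ρ.Hc, inner ℂ a v = 0)
    (hw' : ∀ a ∈ ρ.Hc, inner ℂ a w = 0) {z : F} (hz : z ≠ 0) : inner ℂ v (ρ.U z w) = 0 := by
  have e1 := theoremA' hF ρ v hv hv' z hz
  have e2 := theoremA' hF ρ w hw hw' z hz
  have e3 := theoremA' hF ρ (v + w) (fun u => by rw [map_add, hv, hw])
    (fun a ha => by rw [inner_add_right, hv' a ha, hw' a ha, add_zero]) z hz
  have e4 := theoremA' hF ρ (v + Complex.I • w) (fun u => by rw [map_add, map_smul, hv, hw])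
    (fun a ha => by rw [inner_add_right, inner_smul_right, hv' a ha, hw' a ha, mul_zero,
      add_zero]) z hz
  rw [map_add, inner_add_left, inner_add_right, inner_add_right, e1, e2] at e3
  rw [map_add, map_smul, inner_add_left, inner_add_right, inner_add_right, inner_smul_left,
    inner_smul_left, inner_smul_right, inner_smul_right, e1, e2, Complex.conj_I] at e4
  have h5 : Complex.I * (inner ℂ v (ρ.U z w) - inner ℂ w (ρ.U z v)) = 0 := by
    linear_combination e4
  have h6 := (mul_eq_zero.1 h5).resolve_left Complex.I_ne_zero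
  linear_combination (1 / 2 : ℂ) * h6 + (1 / 2 : ℂ) * e3

omit [Fintype C] [MeasurableSingletonClass C] in
theorem GP_integrable {P : Measure (F → C)} [IsProbabilityMeasure P] {G : (F → C) → ℝ}
    (hG : Measurable G) {B : ℝ} (hB : ∀ ω, |G ω| ≤ B) : Integrable G P :=
  Integrable.of_bound hG.aestronglyMeasurable B (Filter.Eventually.of_forall fun ω => by
    rw [Real.norm_eq_abs]; exact hB ω)

/-- the continuous parts of the indicators add up to one -/
theorem Part.sum_eq_one [DecidableEq C] {P : Measure (F → C)} [IsProbabilityMeasure P]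
    (hτ : ∀ z, MeasurePreserving (tau (C := C) z) P P)
    {x : C → (F → C) → ℝ}
    (hx : ∀ c, Part P (fun a => if a = c then 1 else 0) (x c)) :
    ∀ᵐ ω ∂P, ∑ c, x c ω = 1 := by
  classical
  set N : ℝ := (Fintype.card C : ℝ) with hN
  have hN0 : 0 ≤ N := by positivity
  set S : (F → C) → ℝ := fun ω => 1 - ∑ c, x c ω with hS
  have hSm : Measurable S := measurable_const.sub
    (Finset.measurable_sum _ fun c _ => (hx c).meas)
  have hSb : ∀ ω, |S ω| ≤ N + 1 := by
    intro ω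
    have h1 : |∑ c, x c ω| ≤ N := by
      refine (Finset.abs_sum_le_sum_abs _ _).trans ?_
      refine (Finset.sum_le_sum fun c _ => (hx c).bound ω).trans ?_
      simp [hN]
    have h2 := abs_sub (1 : ℝ) (∑ c, x c ω)
    rw [abs_one] at h2
    simp only [hS]
    linarith
  have hSc : ∀ ε : ℝ, 0 < ε → ∃ r : ℝ, 0 < r ∧ ∀ z : F, ‖(z : ℂ)‖ < r →
      ∫ ω, (S (tau z ω) - S ω) ^ 2 ∂P ≤ ε := by
    intro ε hε
    have hη : 0 < ε / (N + 1) ^ 2 := by positivity
    choose r hr0 hr1 using fun c => (hx c).cont (ε / (N + 1) ^ 2) hη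
    obtain ⟨r0, hr00, hr01⟩ : ∃ r0 : ℝ, 0 < r0 ∧ ∀ c, r0 ≤ r c := by
      rcases isEmpty_or_nonempty C with hC | hC
      · exact ⟨1, one_pos, fun c => (hC.false c).elim⟩
      · obtain ⟨c0, hc0⟩ := Finite.exists_min r
        exact ⟨r c0, hr0 c0, hc0⟩
    refine ⟨r0, hr00, fun z hz => ?_⟩
    have hm : ∀ c, Measurable (fun ω => (x c (tau z ω) - x c ω) ^ 2) := fun c =>
      (((hx c).meas.comp (hτ z).measurable).sub (hx c).meas).pow_const 2
    have hbd : ∀ c ω, |(x c (tau z ω) - x c ω) ^ 2| ≤ 4 := by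
      intro c ω
      have h1 := abs_le.1 ((hx c).bound (tau z ω))
      have h2 := abs_le.1 ((hx c).bound ω)
      rw [abs_of_nonneg (sq_nonneg _)]
      nlinarith [h1.1, h1.2, h2.1, h2.2]
    have h1 : ∫ ω, (S (tau z ω) - S ω) ^ 2 ∂P ≤
        ∫ ω, N * ∑ c, (x c (tau z ω) - x c ω) ^ 2 ∂P := by
      refine integral_mono ?_ ?_ ?_
      · refine GP_integrable (B := (2 * (N + 1)) ^ 2)
          (((hSm.comp (hτ z).measurable).sub hSm).pow_const 2) fun ω => ?_
        have h1 := abs_le.1 (hSb (tau z ω))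
        have h2 := abs_le.1 (hSb ω)
        rw [abs_of_nonneg (sq_nonneg _)]
        apply sq_le_sq'
        · linarith [h1.1, h1.2, h2.1, h2.2]
        · linarith [h1.1, h1.2, h2.1, h2.2]
      · apply Integrable.const_mul
        exact integrable_finsetSum _ fun c _ => GP_integrable (hm c) (hbd c)
      · intro ω
        have h3 : S (tau z ω) - S ω = -∑ c, (x c (tau z ω) - x c ω) := by
          simp only [hS]
          rw [Finset.sum_sub_distrib]
          ring
        simp only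
        rw [h3, neg_sq]
        have h4 := sq_sum_le_card_mul_sum_sq (s := (Finset.univ : Finset C))
          (f := fun c => x c (tau z ω) - x c ω)
        simpa [hN] using h4
    refine h1.trans ?_
    rw [integral_const_mul, integral_finsetSum _ fun c _ => GP_integrable (hm c) (hbd c)]
    have h5 : ∑ c, ∫ ω, (x c (tau z ω) - x c ω) ^ 2 ∂P ≤ ∑ _c : C, ε / (N + 1) ^ 2 :=
      Finset.sum_le_sum fun c _ => hr1 c z (hz.trans_le (hr01 c))
    rw [Finset.sum_const, nsmul_eq_mul, Finset.card_univ] at h5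
    calc N * ∑ c, ∫ ω, (x c (tau z ω) - x c ω) ^ 2 ∂P ≤ N * (N * (ε / (N + 1) ^ 2)) := by
          exact mul_le_mul_of_nonneg_left h5 hN0
      _ = (N / (N + 1)) ^ 2 * ε := by field_simp
      _ ≤ 1 * ε := by
          apply mul_le_mul_of_nonneg_right _ hε.le
          apply pow_le_one₀ (by positivity)
          rw [div_le_one (by positivity)]
          linarith
      _ = ε := one_mul ε
  -- the normalised function
  set g : (F → C) → ℝ := fun ω => S ω / (N + 1) with hg
  have hgm : Measurable g := hSm.div_const _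
  have hgb : ∀ ω, |g ω| ≤ 1 := by
    intro ω
    simp only [hg]
    rw [abs_div, abs_of_pos (by positivity : (0 : ℝ) < N + 1), div_le_one (by positivity)]
    exact hSb ω
  have hgc : ∀ ε : ℝ, 0 < ε → ∃ r : ℝ, 0 < r ∧ ∀ z : F, ‖(z : ℂ)‖ < r →
      ∫ ω, (g (tau z ω) - g ω) ^ 2 ∂P ≤ ε := by
    intro ε hε
    obtain ⟨r, hr, h⟩ := hSc (ε * (N + 1) ^ 2) (by positivity)
    refine ⟨r, hr, fun z hz => ?_⟩
    have h2 : ∫ ω, (g (tau z ω) - g ω) ^ 2 ∂P =
        (1 / (N + 1) ^ 2) * ∫ ω, (S (tau z ω) - S ω) ^ 2 ∂P := by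
      rw [← integral_const_mul]
      refine integral_congr_ae (Filter.Eventually.of_forall fun ω => ?_)
      simp only [hg]
      field_simp
    rw [h2, one_div, inv_mul_le_iff₀ (by positivity)]
    linarith [h z hz]
  have hzero : ∀ c, ∫ ω, ((if ω 0 = c then (1 : ℝ) else 0) - x c ω) * g ω ∂P = 0 := fun c =>
    (hx c).perp g hgm hgb hgc
  have hsum : ∫ ω, ∑ c, ((if ω 0 = c then (1 : ℝ) else 0) - x c ω) * g ω ∂P = 0 := by
    rw [integral_finsetSum]
    · exact Finset.sum_eq_zero fun c _ => hzero c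
    · intro c _
      refine GP_integrable (B := 2) (((GS_meas (fun a => if a = c then (1 : ℝ) else 0)).sub
        (hx c).meas).mul hgm) fun ω => ?_
      rw [abs_mul]
      have h1 := (hx c).bound ω
      have h2 := hgb ω
      have h3 : |(if ω 0 = c then (1 : ℝ) else 0) - x c ω| ≤ 2 := by
        refine (abs_sub _ _).trans ?_
        have : |(if ω 0 = c then (1 : ℝ) else 0)| ≤ 1 := by split_ifs <;> simp
        linarith
      calc _ ≤ (2 : ℝ) * 1 := mul_le_mul h3 h2 (abs_nonneg _) (by norm_num)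
        _ = 2 := by norm_num
  have hsq : ∫ ω, S ω ^ 2 ∂P = 0 := by
    have h1 : ∀ ω : F → C, ∑ c, ((if ω 0 = c then (1 : ℝ) else 0) - x c ω) * g ω =
        (1 / (N + 1)) * S ω ^ 2 := by
      intro ω
      rw [← Finset.sum_mul, Finset.sum_sub_distrib]
      simp only [Finset.sum_ite_eq, Finset.mem_univ, if_true]
      show S ω * (S ω / (N + 1)) = _
      ring
    simp only [h1] at hsum
    rw [integral_const_mul] at hsum
    rcases mul_eq_zero.1 hsum with h2 | h2
    · exfalso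
      have : 0 < 1 / (N + 1) := by positivity
      exact this.ne' h2
    · exact h2
  have hae := (integral_eq_zero_iff_of_nonneg (fun ω => sq_nonneg (S ω))
    (GP_integrable (B := (N + 1) ^ 2) (hSm.pow_const 2) fun ω => by
      rw [abs_pow]
      exact pow_le_pow_left₀ (abs_nonneg _) (hSb ω) 2)).1 hsq
  filter_upwards [hae] with ω hω
  have h1 : S ω = 0 := by
    have h2 : S ω ^ 2 = 0 := hω
    exact pow_eq_zero_iff (two_ne_zero) |>.1 h2
  simp only [hS] at h1
  linarith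

/-- the continuous parts inherit an almost sure exclusion -/
theorem Part.pair_zero {P : Measure (F → C)} [IsProbabilityMeasure P]
    (hτ : ∀ z, MeasurePreserving (tau (C := C) z) P P) {s s' : C → ℝ} (hs : ∀ c, |s c| ≤ 1)
    (hs' : ∀ c, |s' c| ≤ 1) {x x' : (F → C) → ℝ} (hx : Part P s x) (hx' : Part P s' x')
    (hx0 : ∀ ω, 0 ≤ x ω) (hx0' : ∀ ω, 0 ≤ x' ω) {z : F}
    (horth : ∫ ω, (s (tau z ω 0) - x (tau z ω)) * (s' (ω 0) - x' ω) ∂P = 0)
    (h : ∀ᵐ ω ∂P, s (ω z) * s' (ω 0) = 0) : ∀ᵐ ω ∂P, x (tau z ω) * x' ω = 0 := by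
  have hsm := GS_meas (F := F) s
  have hsm' := GS_meas (F := F) s'
  have hτm : ∀ z : F, Measurable (tau (C := C) z) := fun z => (hτ z).measurable
  have hszm : Measurable (fun ω : F → C => s (tau z ω 0)) := hsm.comp (hτm z)
  have hxz : Measurable (fun ω : F → C => x (tau z ω)) := hx.meas.comp (hτm z)
  have bs : ∀ ω : F → C, |s (ω 0)| ≤ 1 := fun ω => hs _
  have bs' : ∀ ω : F → C, |s' (ω 0)| ≤ 1 := fun ω => hs' _
  have hmul : ∀ a b : ℝ, |a| ≤ 1 → |b| ≤ 1 → |a * b| ≤ 1 := fun a b ha hb => by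
    rw [abs_mul]
    exact mul_le_one₀ ha (abs_nonneg _) hb
  have i1 : Integrable (fun ω => s (tau z ω 0) * s' (ω 0)) P :=
    GP_integrable (hszm.mul hsm') fun ω => hmul _ _ (bs _) (bs' _)
  have i2 : Integrable (fun ω => s (tau z ω 0) * x' ω) P :=
    GP_integrable (hszm.mul hx'.meas) fun ω => hmul _ _ (bs _) (hx'.bound _)
  have i3 : Integrable (fun ω => x (tau z ω) * s' (ω 0)) P :=
    GP_integrable (hxz.mul hsm') fun ω => hmul _ _ (hx.bound _) (bs' _)
  have i4 : Integrable (fun ω => x (tau z ω) * x' ω) P :=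
    GP_integrable (hxz.mul hx'.meas) fun ω => hmul _ _ (hx.bound _) (hx'.bound _)
  have e0 : ∫ ω, s (tau z ω 0) * s' (ω 0) ∂P = 0 := by
    have : ∫ ω, s (tau z ω 0) * s' (ω 0) ∂P = ∫ _ω : F → C, (0 : ℝ) ∂P := by
      refine integral_congr_ae ?_
      filter_upwards [h] with ω hω
      simpa [tau] using hω
    rw [this, integral_zero]
  have e1 : ∫ ω, x (tau z ω) * s' (ω 0) ∂P = ∫ ω, x (tau z ω) * x' ω ∂P := by
    have h1 := hx'.perp (fun ω => x (tau z ω)) hxz (fun ω => hx.bound _)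
      (GP_cont_tau hτ hx.meas hx.cont z)
    have h2 : ∀ ω, (s' (ω 0) - x' ω) * x (tau z ω) = x (tau z ω) * s' (ω 0) - x (tau z ω) * x' ω :=
      fun ω => by ring
    simp only [h2] at h1
    rw [integral_sub i3 i4] at h1
    linarith
  have e2 : ∫ ω, s (tau z ω 0) * x' ω ∂P = ∫ ω, x (tau z ω) * x' ω ∂P := by
    have h1 := hx.perp (fun ω => x' (tau (-z) ω)) (hx'.meas.comp (hτm _)) (fun ω => hx'.bound _)
      (GP_cont_tau hτ hx'.meas hx'.cont (-z))
    have hm : Measurable (fun ω : F → C => (s (ω 0) - x ω) * x' (tau (-z) ω)) :=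
      (hsm.sub hx.meas).mul (hx'.meas.comp (hτm _))
    have h3 := GP_int_tau hτ z hm
    rw [h1] at h3
    have h4 : ∀ ω : F → C, tau (-z) (tau z ω) = ω := by
      intro ω
      rw [← GP_tau_add, add_neg_cancel]
      funext w
      simp [tau]
    have h2 : ∀ ω, (s (tau z ω 0) - x (tau z ω)) * x' (tau (-z) (tau z ω)) =
        s (tau z ω 0) * x' ω - x (tau z ω) * x' ω :=
      fun ω => by rw [h4]; ring
    simp only [h2] at h3
    rw [integral_sub i2 i4] at h3
    linarith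
  have e3 := horth
  have h2 : ∀ ω, (s (tau z ω 0) - x (tau z ω)) * (s' (ω 0) - x' ω) =
      (s (tau z ω 0) * s' (ω 0) - s (tau z ω 0) * x' ω) -
        (x (tau z ω) * s' (ω 0) - x (tau z ω) * x' ω) := fun ω => by ring
  simp only [h2] at e3
  have i12 : Integrable (fun ω => s (tau z ω 0) * s' (ω 0) - s (tau z ω 0) * x' ω) P := i1.sub i2
  have i34 : Integrable (fun ω => x (tau z ω) * s' (ω 0) - x (tau z ω) * x' ω) P := i3.sub i4
  rw [integral_sub i12 i34, integral_sub i1 i2, integral_sub i3 i4, e0, e1, e2] at e3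
  have e4 : ∫ ω, x (tau z ω) * x' ω ∂P = 0 := by linarith
  exact (integral_eq_zero_iff_of_nonneg (fun ω => mul_nonneg (hx0 _) (hx0' _)) i4).1 e4

end GP

end Pool.Agent.RadPD
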