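import Pool.Agent.RadPD.TD
import Pool.Agent.RadPD.FL

set_option autoImplicit false

namespace Pool.Agent.RadPD

open MeasureTheory ProbabilityTheory

section TR

variable {F : Subfield ℂ}

theorem t4_I_mem (hF : RadClosed F) : Complex.I ∈ F := by
  obtain ⟨w, hw, h⟩ := hF.root_mem 2 (by norm_num) (-1) (F.neg_mem F.one_mem)
  have h2 : (w - Complex.I) * (w + Complex.I) = 0 := by
    have h4 := Complex.I_sq
    linear_combination h - h4
  rcases mul_eq_zero.1 h2 with h3 | h3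
  · rw [← sub_eq_zero.1 h3]; exact hw
  · have h5 : Complex.I = -w := by linear_combination h3
    rw [h5]; exact F.neg_mem hw

/-- dyadic approximation in `F` -/
noncomputable def t4_dq (hI : Complex.I ∈ F) (n : ℕ) (z : ℂ) : F :=
  ((⌊(2 : ℝ) ^ n * z.re⌋ : F) + (⌊(2 : ℝ) ^ n * z.im⌋ : F) * ⟨Complex.I, hI⟩) / 2 ^ n

theorem t4_coe_dq (hI : Complex.I ∈ F) (n : ℕ) (z : ℂ) :
    ((t4_dq hI n z : F) : ℂ) =
      ((⌊(2 : ℝ) ^ n * z.re⌋ : ℂ) + (⌊(2 : ℝ) ^ n * z.im⌋ : ℂ) * Complex.I) / 2 ^ n := by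
  unfold t4_dq
  push_cast
  rfl

theorem t4_floor (n : ℕ) (x : ℝ) : |(⌊(2 : ℝ) ^ n * x⌋ : ℝ) / 2 ^ n - x| ≤ (1 / 2) ^ n := by
  have h2 : (0 : ℝ) < 2 ^ n := by positivity
  have h3 : (⌊(2 : ℝ) ^ n * x⌋ : ℝ) / 2 ^ n - x = ((⌊(2 : ℝ) ^ n * x⌋ : ℝ) - 2 ^ n * x) / 2 ^ n := by
    field_simp
  rw [h3, abs_div, abs_of_pos h2, one_div, inv_pow, div_le_iff₀ h2, inv_mul_cancel₀ h2.ne']
  rw [abs_le]
  constructor
  · have := Int.lt_floor_add_one ((2 : ℝ) ^ n * x); linarith
  · have := Int.floor_le ((2 : ℝ) ^ n * x); linarith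

theorem t4_dq_close (hI : Complex.I ∈ F) (n : ℕ) (z : ℂ) :
    ‖((t4_dq hI n z : F) : ℂ) - z‖ ≤ 2 * (1 / 2) ^ n := by
  have h1 := t4_floor n z.re
  have h2 := t4_floor n z.im
  have h3 : ((t4_dq hI n z : F) : ℂ) - z =
      (((⌊(2 : ℝ) ^ n * z.re⌋ : ℝ) / 2 ^ n - z.re : ℝ) : ℂ) +
        (((⌊(2 : ℝ) ^ n * z.im⌋ : ℝ) / 2 ^ n - z.im : ℝ) : ℂ) * Complex.I := by
    rw [t4_coe_dq]
    conv_lhs => rw [← Complex.re_add_im z]
    simp only [Complex.add_re, Complex.ofReal_re, Complex.mul_re, Complex.I_re, mul_zero,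
      Complex.ofReal_im, Complex.I_im, mul_one, sub_self, add_zero, Complex.add_im, Complex.mul_im,
      zero_add]
    push_cast
    ring
  rw [h3]
  refine (norm_add_le _ _).trans ?_
  rw [norm_mul, Complex.norm_I, mul_one, Complex.norm_real, Complex.norm_real, Real.norm_eq_abs,
    Real.norm_eq_abs]
  linarith

theorem t4_floor_meas (n : ℕ) : Measurable (fun z : ℂ => (⌊(2 : ℝ) ^ n * z.re⌋, ⌊(2 : ℝ) ^ n * z.im⌋)) := by
    apply Measurable.prodMk
    · exact (Complex.measurable_re.const_mul _).floor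
    · exact (Complex.measurable_im.const_mul _).floor

theorem t4_all_meas (f : ℤ × ℤ → F) : Measurable f := measurable_of_countable f

theorem t4_dq_meas (hI : Complex.I ∈ F) (n : ℕ) : Measurable (t4_dq hI n) := by
  have h3 : t4_dq hI n = (fun p : ℤ × ℤ => ((p.1 : F) + (p.2 : F) * ⟨Complex.I, hI⟩) / 2 ^ n) ∘
    (fun z : ℂ => (⌊(2 : ℝ) ^ n * z.re⌋, ⌊(2 : ℝ) ^ n * z.im⌋)) := by
    funext z
    simp only [t4_dq, Function.comp_apply]
  rw [h3]
  exact (t4_all_meas _).comp (t4_floor_meas n)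

/-- almost sure summability -/
theorem t4_summable {Ω : Type*} [MeasurableSpace Ω] (P : Measure Ω) [IsProbabilityMeasure P]
    (b : ℕ → Ω → ℝ) (hb : ∀ k, Measurable (b k)) (hB : ∀ k ω, |b k ω| ≤ 2)
    (h : ∀ k, ∫ ω, (b k ω) ^ 2 ∂P ≤ (1 / 4) ^ k) : ∀ᵐ ω ∂P, Summable (fun k => b k ω) := by
  have hint : ∀ k, Integrable (fun ω => (2 : ℝ) ^ k * (b k ω) ^ 2) P := by
    intro k
    apply Integrable.const_mul
    refine Integrable.of_bound ((hb k).pow_const 2).aestronglyMeasurable 4 ?_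
    refine Filter.Eventually.of_forall fun ω => ?_
    rw [Real.norm_eq_abs, abs_pow]
    have h1 := hB k ω
    have h2 := abs_nonneg (b k ω)
    nlinarith
  have h1 : ∫⁻ ω, ∑' k, ENNReal.ofReal ((2 : ℝ) ^ k * (b k ω) ^ 2) ∂P ≠ ⊤ := by
    rw [lintegral_tsum (fun k => (((hb k).pow_const 2).const_mul _).ennreal_ofReal.aemeasurable)]
    have h2 : ∀ k, ∫⁻ ω, ENNReal.ofReal ((2 : ℝ) ^ k * (b k ω) ^ 2) ∂P ≤
        ENNReal.ofReal ((1 / 2) ^ k) := by
      intro k
      rw [← ofReal_integral_eq_lintegral_ofReal (hint k)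
        (Filter.Eventually.of_forall fun ω => by positivity)]
      apply ENNReal.ofReal_le_ofReal
      rw [integral_const_mul]
      calc (2 : ℝ) ^ k * ∫ ω, (b k ω) ^ 2 ∂P ≤ 2 ^ k * (1 / 4) ^ k := by
            apply mul_le_mul_of_nonneg_left (h k) (by positivity)
        _ = (1 / 2) ^ k := by rw [← mul_pow]; norm_num
    refine ne_top_of_le_ne_top ?_ (ENNReal.tsum_le_tsum h2)
    rw [← ENNReal.ofReal_tsum_of_nonneg (fun k => by positivity)
      (summable_geometric_of_lt_one (by norm_num) (by norm_num))]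
    exact ENNReal.ofReal_ne_top
  have h3 : ∀ᵐ ω ∂P, ∑' k, ENNReal.ofReal ((2 : ℝ) ^ k * (b k ω) ^ 2) < ⊤ := by
    refine ae_lt_top' ?_ h1
    exact (Measurable.tsum (fun k =>
      (((hb k).pow_const 2).const_mul _).ennreal_ofReal)).aemeasurable
  filter_upwards [h3] with ω hω
  have h4 : Summable (fun k => (2 : ℝ) ^ k * (b k ω) ^ 2) := by
    have h5 := ENNReal.summable_toReal hω.ne
    refine h5.congr fun k => ?_
    rw [ENNReal.toReal_ofReal (by positivity)]
  have h6 : Summable (fun k : ℕ => ((1 : ℝ) / 2) ^ k) :=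
    summable_geometric_of_lt_one (by norm_num) (by norm_num)
  refine Summable.of_norm_bounded (h4.add h6) fun k => ?_
  rw [Real.norm_eq_abs]
  have h7 : (0 : ℝ) < 2 ^ k := by positivity
  have h8 : ((1 : ℝ) / 2) ^ k = 1 / 2 ^ k := by rw [div_pow, one_pow]
  have h9 : 0 ≤ (2 : ℝ) ^ k * (|b k ω| - 1 / 2 ^ k) ^ 2 := by positivity
  have h10 : (2 : ℝ) ^ k * (|b k ω| - 1 / 2 ^ k) ^ 2 =
      2 ^ k * (b k ω) ^ 2 - 2 * |b k ω| + 1 / 2 ^ k := by
    rw [← sq_abs (b k ω)]
    field_simp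
    ring
  rw [h8]
  have h11 : 0 ≤ |b k ω| := abs_nonneg _
  have h12 : 0 ≤ 2 ^ k * (b k ω) ^ 2 := by positivity
  have h13 : (0 : ℝ) ≤ 1 / 2 ^ k := by positivity
  nlinarith

theorem t4_tau_add (z h : F) (ω : F → Bool) : tau (z + h) ω = tau h (tau z ω) := by
  funext w
  simp only [tau]
  congr 1
  ring

theorem Split.t4_dist (D : Split F) {ε r : ℝ}
    (h : ∀ z : F, ‖(z : ℂ)‖ < r → ∫ ω, (D.x (tau z ω) - D.x ω) ^ 2 ∂D.P ≤ ε) (z w : F)
    (hzw : ‖(w : ℂ) - (z : ℂ)‖ < r) :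
    ∫ ω, (D.x (tau w ω) - D.x (tau z ω)) ^ 2 ∂D.P ≤ ε := by
  have h1 := h (w - z) (by push_cast; exact hzw)
  have h2 : ∀ ω, (D.x (tau w ω) - D.x (tau z ω)) ^ 2 =
      (fun ω' => (D.x (tau (w - z) ω') - D.x ω') ^ 2) (tau z ω) := by
    intro ω
    have h3 : tau w ω = tau (w - z) (tau z ω) := by
      rw [← t4_tau_add]
      congr 1
      ring
    simp only [h3]
  calc ∫ ω, (D.x (tau w ω) - D.x (tau z ω)) ^ 2 ∂D.P
      = ∫ ω, (fun ω' => (D.x (tau (w - z) ω') - D.x ω') ^ 2) (tau z ω) ∂D.P := by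
        apply integral_congr_ae
        exact Filter.Eventually.of_forall h2
    _ = ∫ ω', (D.x (tau (w - z) ω') - D.x ω') ^ 2 ∂D.P := by
        have hm : Measurable (fun ω' => (D.x (tau (w - z) ω') - D.x ω') ^ 2) :=
          ((D.x_meas.comp (D.tau_mp (w - z)).measurable).sub D.x_meas).pow_const 2
        have h4 := integral_map (μ := D.P) (D.tau_mp z).measurable.aemeasurable
          (f := fun ω' => (D.x (tau (w - z) ω') - D.x ω') ^ 2) hm.aestronglyMeasurable
        rw [(D.tau_mp z).map_eq] at h4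
        exact h4.symm
    _ ≤ ε := h1

/-- Module T4: measurable realisation.  `pat i j`, `j = 0, 1, 2`: countably many patterns. -/
theorem Split.realise (hF : RadClosed F) [Countable F] (D : Split F) {ι : Type} [Countable ι]
    (pat : ι → Fin 3 → F)
    (h : ∀ (i : ι) (z : F), ∀ᵐ ω ∂D.P,
      D.x (tau (z + pat i 0) ω) * D.x (tau (z + pat i 1) ω) +
      D.x (tau (z + pat i 1) ω) * D.x (tau (z + pat i 2) ω) +
      D.x (tau (z + pat i 2) ω) * D.x (tau (z + pat i 0) ω) + 1 = 0) :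
    ∃ g : ℂ → ℝ, Measurable g ∧ (∀ z, |g z| ≤ 1) ∧ ∀ i : ι, ∀ᵐ z : ℂ,
      g (z + pat i 0) * g (z + pat i 1) + g (z + pat i 1) * g (z + pat i 2) +
      g (z + pat i 2) * g (z + pat i 0) + 1 = 0 := by
  have := D.prob
  have hI := t4_I_mem hF
  have hX : ∀ z : F, Measurable (fun ω => D.x (tau z ω)) := fun z =>
    D.x_meas.comp (D.tau_mp z).measurable
  -- choice of the approximations
  have hr : ∀ k : ℕ, ∃ r : ℝ, 0 < r ∧ ∀ z : F, ‖(z : ℂ)‖ < r →
      ∫ ω, (D.x (tau z ω) - D.x ω) ^ 2 ∂D.P ≤ (1 / 4) ^ k := fun k =>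
    D.x_cont _ (by positivity)
  choose r hr0 hr1 using hr
  have hm : ∀ k : ℕ, ∃ m : ℕ, 4 * ((1 : ℝ) / 2) ^ m < r k := by
    intro k
    obtain ⟨m, hm⟩ := exists_pow_lt_of_lt_one (show (0 : ℝ) < r k / 4 by have := hr0 k; positivity)
      (show (1 : ℝ) / 2 < 1 by norm_num)
    exact ⟨m, by linarith⟩
  choose m hm using hm
  set N : ℕ → ℕ := fun k => ∑ j ∈ Finset.range (k + 1), m j with hN
  have hN1 : ∀ k, m k ≤ N k := fun k =>
    Finset.single_le_sum (f := m) (fun _ _ => Nat.zero_le _)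
      (Finset.mem_range.2 (Nat.lt_succ_self k))
  have hN2 : ∀ k, N k ≤ N (k + 1) := fun k => by
    simp only [hN]
    rw [Finset.sum_range_succ _ (k + 1)]
    exact Nat.le_add_right _ _
  have hpow : ∀ a b : ℕ, a ≤ b → ((1 : ℝ) / 2) ^ b ≤ (1 / 2) ^ a := fun a b hab =>
    pow_le_pow_of_le_one (by norm_num) (by norm_num) hab
  set p : ℕ → ℂ → F := fun k z => t4_dq hI (N k) z with hp
  have hpc : ∀ k z, ‖((p k z : F) : ℂ) - z‖ ≤ 2 * (1 / 2) ^ (N k) := fun k z =>
    t4_dq_close hI _ z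
  -- consecutive approximations
  have hcons : ∀ z : ℂ, ∀ᵐ ω ∂D.P,
      Summable (fun k => D.x (tau (p (k + 1) z) ω) - D.x (tau (p k z) ω)) := by
    intro z
    apply t4_summable
    · intro k
      exact (hX _).sub (hX _)
    · intro k ω
      refine (abs_sub _ _).trans ?_
      have h1 := D.x_bound (tau (p (k + 1) z) ω)
      have h2 := D.x_bound (tau (p k z) ω)
      linarith
    · intro k
      apply D.t4_dist (hr1 k)
      have h1 := hpc k z
      have h2 := hpc (k + 1) z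
      have h3 := hpow _ _ (hN1 k)
      have h4 := hpow _ _ (hN2 k)
      have h5 := hm k
      calc ‖((p (k + 1) z : F) : ℂ) - ((p k z : F) : ℂ)‖
          = ‖(((p (k + 1) z : F) : ℂ) - z) - (((p k z : F) : ℂ) - z)‖ := by congr 1; ring
        _ ≤ ‖((p (k + 1) z : F) : ℂ) - z‖ + ‖((p k z : F) : ℂ) - z‖ := norm_sub_le _ _
        _ < r k := by linarith
  -- translated approximations
  have htrans : ∀ (z : ℂ) (a : F), ∀ᵐ ω ∂D.P,
      Filter.Tendsto (fun k => D.x (tau (p k (z + a)) ω) - D.x (tau (p k z + a) ω)) Filter.atTop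
        (nhds 0) := by
    intro z a
    have h1 : ∀ᵐ ω ∂D.P, Summable (fun k => D.x (tau (p k (z + a)) ω) - D.x (tau (p k z + a) ω)) := by
      apply t4_summable
      · intro k
        exact (hX _).sub (hX _)
      · intro k ω
        refine (abs_sub _ _).trans ?_
        have h1 := D.x_bound (tau (p k (z + a)) ω)
        have h2 := D.x_bound (tau (p k z + a) ω)
        linarith
      · intro k
        apply D.t4_dist (hr1 k)
        have h1 := hpc k z
        have h2 := hpc k (z + a)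
        have h3 := hpow _ _ (hN1 k)
        have h5 := hm k
        calc ‖((p k (z + a) : F) : ℂ) - ((p k z + a : F) : ℂ)‖
            = ‖(((p k (z + a) : F) : ℂ) - (z + a)) - (((p k z : F) : ℂ) - z)‖ := by
              congr 1
              push_cast
              ring
          _ ≤ ‖((p k (z + a) : F) : ℂ) - (z + a)‖ + ‖((p k z : F) : ℂ) - z‖ := norm_sub_le _ _
          _ < r k := by linarith
    filter_upwards [h1] with ω hω
    exact hω.tendsto_atTop_zero
  -- the realisation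
  set G : ℂ × (F → Bool) → ℝ := fun q =>
    max (-1) (min 1 (Filter.limsup (fun k => D.x (tau (p k q.1) q.2)) Filter.atTop)) with hG
  have hGm : Measurable G := by
    apply Measurable.max measurable_const
    apply Measurable.min measurable_const
    apply Measurable.limsup
    intro k
    have h1 : Measurable (fun q : F × (F → Bool) => D.x (tau q.1 q.2)) :=
      measurable_from_prod_countable_right hX
    exact h1.comp (((t4_dq_meas hI (N k)).comp measurable_fst).prodMk measurable_snd)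
  have hGb : ∀ q, |G q| ≤ 1 := by
    intro q
    rw [abs_le]
    exact ⟨le_max_left _ _, max_le (by norm_num) (min_le_left _ _)⟩
  have hconv : ∀ z : ℂ, ∀ᵐ ω ∂D.P, Filter.Tendsto (fun k => D.x (tau (p k z) ω)) Filter.atTop
      (nhds (G (z, ω))) := by
    intro z
    filter_upwards [hcons z] with ω hω
    have h1 : ∃ l, Filter.Tendsto (fun k => D.x (tau (p k z) ω)) Filter.atTop (nhds l) := by
      have h2 := (hω.hasSum.tendsto_sum_nat).const_add (D.x (tau (p 0 z) ω))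
      refine ⟨_, h2.congr fun k => ?_⟩
      rw [Finset.sum_range_sub (fun k => D.x (tau (p k z) ω)) k]
      ring
    obtain ⟨l, hl⟩ := h1
    have h3 : |l| ≤ 1 := by
      refine le_of_tendsto hl.abs (Filter.Eventually.of_forall fun k => ?_)
      exact D.x_bound _
    have h4 : G (z, ω) = l := by
      simp only [hG]
      rw [hl.limsup_eq, min_eq_right (abs_le.1 h3).2, max_eq_right (abs_le.1 h3).1]
    rw [h4]
    exact hl
  have hae : ∀ (i : ι) (z : ℂ), ∀ᵐ ω ∂D.P,
      G (z + pat i 0, ω) * G (z + pat i 1, ω) + G (z + pat i 1, ω) * G (z + pat i 2, ω) +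
      G (z + pat i 2, ω) * G (z + pat i 0, ω) + 1 = 0 := by
    intro i z
    have h0 : ∀ᵐ ω ∂D.P, ∀ k, D.x (tau (p k z + pat i 0) ω) * D.x (tau (p k z + pat i 1) ω) +
      D.x (tau (p k z + pat i 1) ω) * D.x (tau (p k z + pat i 2) ω) +
      D.x (tau (p k z + pat i 2) ω) * D.x (tau (p k z + pat i 0) ω) + 1 = 0 :=
      ae_all_iff.2 fun k => h i (p k z)
    filter_upwards [h0, htrans z (pat i 0), htrans z (pat i 1), htrans z (pat i 2),
      hconv (z + pat i 0), hconv (z + pat i 1), hconv (z + pat i 2)] with ω hω t0 t1 t2 c0 c1 c2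
    have e0 := c0.sub t0
    have e1 := c1.sub t1
    have e2 := c2.sub t2
    simp only [sub_sub_cancel, sub_zero] at e0 e1 e2
    have h5 := (((e0.mul e1).add (e1.mul e2)).add (e2.mul e0)).add_const 1
    have h6 := h5.congr hω
    exact tendsto_nhds_unique h6 tendsto_const_nhds
  -- Fubini
  have hmeas : ∀ i : ι, MeasurableSet {q : ℂ × (F → Bool) |
      G (q.1 + pat i 0, q.2) * G (q.1 + pat i 1, q.2) +
      G (q.1 + pat i 1, q.2) * G (q.1 + pat i 2, q.2) +
      G (q.1 + pat i 2, q.2) * G (q.1 + pat i 0, q.2) + 1 = 0} := by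
    intro i
    have h1 : ∀ a : F, Measurable (fun q : ℂ × (F → Bool) => G (q.1 + a, q.2)) := fun a =>
      hGm.comp ((measurable_fst.add_const _).prodMk measurable_snd)
    exact measurableSet_eq_fun (((((h1 _).mul (h1 _)).add ((h1 _).mul (h1 _))).add
      ((h1 _).mul (h1 _))).add_const _) measurable_const
  have hfub : ∀ i : ι, ∀ᵐ ω ∂D.P, ∀ᵐ z : ℂ,
      G (z + pat i 0, ω) * G (z + pat i 1, ω) + G (z + pat i 1, ω) * G (z + pat i 2, ω) +
      G (z + pat i 2, ω) * G (z + pat i 0, ω) + 1 = 0 := by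
    intro i
    rw [← Measure.ae_ae_comm (μ := (volume : Measure ℂ)) (ν := D.P) (hmeas i)]
    exact Filter.Eventually.of_forall fun z => hae i z
  obtain ⟨ω, hω⟩ := (ae_all_iff.2 hfub).exists
  exact ⟨fun z => G (z, ω), hGm.comp (measurable_id.prodMk measurable_const), fun z => hGb _, hω⟩

end TR

end Pool.Agent.RadPD
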