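import Pool.Agent.RadPD.GP
import Pool.Agent.RadPD.T4

set_option autoImplicit false

namespace Pool.Agent.RadPD

open MeasureTheory ProbabilityTheory

/-! ## Measurable realisation of finitely many continuous parts -/

section GR

variable {F : Subfield ℂ} {C : Type} [Fintype C] [MeasurableSpace C] [MeasurableSingletonClass C]

theorem GR_dist {P : Measure (F → C)} (hτ : ∀ z, MeasurePreserving (tau (C := C) z) P P)
    {x : (F → C) → ℝ} (hx : Measurable x) {ε r : ℝ}
    (h : ∀ z : F, ‖(z : ℂ)‖ < r → ∫ ω, (x (tau z ω) - x ω) ^ 2 ∂P ≤ ε) (z w : F)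
    (hzw : ‖(w : ℂ) - (z : ℂ)‖ < r) :
    ∫ ω, (x (tau w ω) - x (tau z ω)) ^ 2 ∂P ≤ ε := by
  have h1 := h (w - z) (by push_cast; exact hzw)
  have hm : Measurable (fun ω' => (x (tau (w - z) ω') - x ω') ^ 2) :=
    ((hx.comp (hτ (w - z)).measurable).sub hx).pow_const 2
  have h4 := GP_int_tau hτ z hm
  have h2 : ∀ ω : F → C, tau (w - z) (tau z ω) = tau w ω := by
    intro ω
    rw [← GP_tau_add]
    congr 1
    ring
  simp only [h2] at h4
  rw [h4]
  exact h1

/-- Measurable realisation: the functions `g c` satisfy almost everywhere all the relations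
between two points that hold almost surely for the variables `x c`. -/
theorem exists_realisation (hF : RadClosed F) [Countable F] {P : Measure (F → C)}
    [IsProbabilityMeasure P] (hτ : ∀ z, MeasurePreserving (tau (C := C) z) P P)
    {κ : Type} [Finite κ] (x : κ → (F → C) → ℝ) (hxm : ∀ c, Measurable (x c))
    (hxb : ∀ c ω, |x c ω| ≤ 1)
    (hxc : ∀ c, ∀ ε : ℝ, 0 < ε → ∃ r : ℝ, 0 < r ∧ ∀ z : F, ‖(z : ℂ)‖ < r →
      ∫ ω, (x c (tau z ω) - x c ω) ^ 2 ∂P ≤ ε)
    {ι : Type} [Countable ι] (pat : ι → F) (Φ : ι → (κ → ℝ) → (κ → ℝ) → ℝ)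
    (hΦ : ∀ i, Continuous fun p : (κ → ℝ) × (κ → ℝ) => Φ i p.1 p.2)
    (h : ∀ (i : ι) (z : F), ∀ᵐ ω ∂P,
      Φ i (fun c => x c (tau z ω)) (fun c => x c (tau (z + pat i) ω)) = 0) :
    ∃ g : κ → ℂ → ℝ, (∀ c, Measurable (g c)) ∧ (∀ c z, |g c z| ≤ 1) ∧ ∀ i : ι, ∀ᵐ z : ℂ,
      Φ i (fun c => g c z) (fun c => g c (z + pat i)) = 0 := by
  classical
  have _ := Fintype.ofFinite κ
  have hI := t4_I_mem hF
  have hX : ∀ c (z : F), Measurable (fun ω => x c (tau z ω)) := fun c z =>
    (hxm c).comp (hτ z).measurable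
  -- choice of the approximations
  have hr : ∀ k : ℕ, ∃ r : ℝ, 0 < r ∧ ∀ c, ∀ z : F, ‖(z : ℂ)‖ < r →
      ∫ ω, (x c (tau z ω) - x c ω) ^ 2 ∂P ≤ (1 / 4) ^ k := by
    intro k
    choose r hr0 hr1 using fun c => hxc c ((1 / 4) ^ k) (by positivity)
    rcases isEmpty_or_nonempty κ with hC | hC
    · exact ⟨1, one_pos, fun c => (hC.false c).elim⟩
    · obtain ⟨c0, hc0⟩ := Finite.exists_min r
      exact ⟨r c0, hr0 c0, fun c z hz => hr1 c z (hz.trans_le (hc0 c))⟩
  choose r hr0 hr1 using hr
  have hm : ∀ k : ℕ, ∃ m : ℕ, 4 * ((1 : ℝ) / 2) ^ m < r k := by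
    intro k
    obtain ⟨m, hm⟩ := exists_pow_lt_of_lt_one (show (0 : ℝ) < r k / 4 by have := hr0 k; positivity)
      (show (1 : ℝ) / 2 < 1 by norm_num)
    exact ⟨m, by linarith⟩
  choose m hm using hm
  set N : ℕ → ℕ := fun k => ∑ j ∈ Finset.range (k + 1), m j with hN
  have hN1 : ∀ k, m k ≤ N k := fun k =>
    Finset.single_le_sum (f := m) (fun _ _ => Nat.zero_le _)
      (Finset.mem_range.2 (Nat.lt_succ_self k))
  have hN2 : ∀ k, N k ≤ N (k + 1) := fun k => by
    simp only [hN]
    rw [Finset.sum_range_succ _ (k + 1)]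
    exact Nat.le_add_right _ _
  have hpow : ∀ a b : ℕ, a ≤ b → ((1 : ℝ) / 2) ^ b ≤ (1 / 2) ^ a := fun a b hab =>
    pow_le_pow_of_le_one (by norm_num) (by norm_num) hab
  set p : ℕ → ℂ → F := fun k z => t4_dq hI (N k) z with hp
  have hpc : ∀ k z, ‖((p k z : F) : ℂ) - z‖ ≤ 2 * (1 / 2) ^ (N k) := fun k z =>
    t4_dq_close hI _ z
  -- consecutive approximations
  have hcons : ∀ (c : κ) (z : ℂ), ∀ᵐ ω ∂P,
      Summable (fun k => x c (tau (p (k + 1) z) ω) - x c (tau (p k z) ω)) := by
    intro c z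
    apply t4_summable
    · intro k
      exact (hX _ _).sub (hX _ _)
    · intro k ω
      refine (abs_sub _ _).trans ?_
      have h1 := hxb c (tau (p (k + 1) z) ω)
      have h2 := hxb c (tau (p k z) ω)
      linarith
    · intro k
      apply GR_dist hτ (hxm c) (hr1 k c)
      have h1 := hpc k z
      have h2 := hpc (k + 1) z
      have h3 := hpow _ _ (hN1 k)
      have h4 := hpow _ _ (hN2 k)
      have h5 := hm k
      calc ‖((p (k + 1) z : F) : ℂ) - ((p k z : F) : ℂ)‖
          = ‖(((p (k + 1) z : F) : ℂ) - z) - (((p k z : F) : ℂ) - z)‖ := by congr 1; ring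
        _ ≤ ‖((p (k + 1) z : F) : ℂ) - z‖ + ‖((p k z : F) : ℂ) - z‖ := norm_sub_le _ _
        _ < r k := by linarith
  -- translated approximations
  have htrans : ∀ (c : κ) (z : ℂ) (a : F), ∀ᵐ ω ∂P,
      Filter.Tendsto (fun k => x c (tau (p k (z + a)) ω) - x c (tau (p k z + a) ω)) Filter.atTop
        (nhds 0) := by
    intro c z a
    have h1 : ∀ᵐ ω ∂P, Summable (fun k => x c (tau (p k (z + a)) ω) - x c (tau (p k z + a) ω)) := by
      apply t4_summable
      · intro k
        exact (hX _ _).sub (hX _ _)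
      · intro k ω
        refine (abs_sub _ _).trans ?_
        have h1 := hxb c (tau (p k (z + a)) ω)
        have h2 := hxb c (tau (p k z + a) ω)
        linarith
      · intro k
        apply GR_dist hτ (hxm c) (hr1 k c)
        have h1 := hpc k z
        have h2 := hpc k (z + a)
        have h3 := hpow _ _ (hN1 k)
        have h5 := hm k
        calc ‖((p k (z + a) : F) : ℂ) - ((p k z + a : F) : ℂ)‖
            = ‖(((p k (z + a) : F) : ℂ) - (z + a)) - (((p k z : F) : ℂ) - z)‖ := by
              congr 1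
              push_cast
              ring
          _ ≤ ‖((p k (z + a) : F) : ℂ) - (z + a)‖ + ‖((p k z : F) : ℂ) - z‖ := norm_sub_le _ _
          _ < r k := by linarith
    filter_upwards [h1] with ω hω
    exact hω.tendsto_atTop_zero
  -- the realisation
  set G : κ → ℂ × (F → C) → ℝ := fun c q =>
    max (-1) (min 1 (Filter.limsup (fun k => x c (tau (p k q.1) q.2)) Filter.atTop)) with hG
  have hGm : ∀ c, Measurable (G c) := by
    intro c
    apply Measurable.max measurable_const
    apply Measurable.min measurable_const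
    apply Measurable.limsup
    intro k
    have h1 : Measurable (fun q : F × (F → C) => x c (tau q.1 q.2)) :=
      measurable_from_prod_countable_right (hX c)
    exact h1.comp (((t4_dq_meas hI (N k)).comp measurable_fst).prodMk measurable_snd)
  have hGb : ∀ c q, |G c q| ≤ 1 := by
    intro c q
    rw [abs_le]
    exact ⟨le_max_left _ _, max_le (by norm_num) (min_le_left _ _)⟩
  have hconv : ∀ (c : κ) (z : ℂ), ∀ᵐ ω ∂P, Filter.Tendsto (fun k => x c (tau (p k z) ω))
      Filter.atTop (nhds (G c (z, ω))) := by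
    intro c z
    filter_upwards [hcons c z] with ω hω
    have h1 : ∃ l, Filter.Tendsto (fun k => x c (tau (p k z) ω)) Filter.atTop (nhds l) := by
      have h2 := (hω.hasSum.tendsto_sum_nat).const_add (x c (tau (p 0 z) ω))
      refine ⟨_, h2.congr fun k => ?_⟩
      rw [Finset.sum_range_sub (fun k => x c (tau (p k z) ω)) k]
      ring
    obtain ⟨l, hl⟩ := h1
    have h3 : |l| ≤ 1 := by
      refine le_of_tendsto hl.abs (Filter.Eventually.of_forall fun k => ?_)
      exact hxb c _
    have h4 : G c (z, ω) = l := by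
      simp only [hG]
      rw [hl.limsup_eq, min_eq_right (abs_le.1 h3).2, max_eq_right (abs_le.1 h3).1]
    rw [h4]
    exact hl
  have hae : ∀ (i : ι) (z : ℂ), ∀ᵐ ω ∂P,
      Φ i (fun c => G c (z, ω)) (fun c => G c (z + pat i, ω)) = 0 := by
    intro i z
    have h0 : ∀ᵐ ω ∂P, ∀ k, Φ i (fun c => x c (tau (p k z) ω))
        (fun c => x c (tau (p k z + pat i) ω)) = 0 :=
      ae_all_iff.2 fun k => h i (p k z)
    have hc1 : ∀ᵐ ω ∂P, ∀ c, Filter.Tendsto (fun k => x c (tau (p k z) ω))
      Filter.atTop (nhds (G c (z, ω))) := ae_all_iff.2 fun c => hconv c z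
    have hc2 : ∀ᵐ ω ∂P, ∀ c, Filter.Tendsto (fun k => x c (tau (p k (z + pat i)) ω))
      Filter.atTop (nhds (G c (z + pat i, ω))) := ae_all_iff.2 fun c => hconv c (z + pat i)
    have hc3 : ∀ᵐ ω ∂P, ∀ c, Filter.Tendsto (fun k => x c (tau (p k (z + pat i)) ω) -
        x c (tau (p k z + pat i) ω)) Filter.atTop (nhds 0) :=
      ae_all_iff.2 fun c => htrans c z (pat i)
    filter_upwards [h0, hc1, hc2, hc3] with ω hω c1 c2 c3
    have e2 : ∀ c, Filter.Tendsto (fun k => x c (tau (p k z + pat i) ω)) Filter.atTop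
        (nhds (G c (z + pat i, ω))) := by
      intro c
      have := (c2 c).sub (c3 c)
      simpa only [sub_sub_cancel, sub_zero] using this
    have h5 : Filter.Tendsto (fun k => Φ i (fun c => x c (tau (p k z) ω))
        (fun c => x c (tau (p k z + pat i) ω))) Filter.atTop
        (nhds (Φ i (fun c => G c (z, ω)) (fun c => G c (z + pat i, ω)))) := by
      have h6 := ((hΦ i).tendsto ((fun c => G c (z, ω)), (fun c => G c (z + pat i, ω))))
      exact h6.comp ((tendsto_pi_nhds.2 c1).prodMk_nhds (tendsto_pi_nhds.2 e2))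
    have h6 := h5.congr hω
    exact tendsto_nhds_unique h6 tendsto_const_nhds
  -- Fubini
  have hmeas : ∀ i : ι, MeasurableSet {q : ℂ × (F → C) |
      Φ i (fun c => G c (q.1, q.2)) (fun c => G c (q.1 + pat i, q.2)) = 0} := by
    intro i
    have h1 : ∀ (c : κ) (a : F), Measurable (fun q : ℂ × (F → C) => G c (q.1 + a, q.2)) :=
      fun c a => (hGm c).comp ((measurable_fst.add_const _).prodMk measurable_snd)
    have h2 : Measurable (fun q : ℂ × (F → C) => ((fun c => G c (q.1, q.2)),
        (fun c => G c (q.1 + pat i, q.2)))) :=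
      (measurable_pi_iff.2 fun c => (hGm c).comp (measurable_fst.prodMk measurable_snd)).prodMk
        (measurable_pi_iff.2 fun c => h1 c _)
    exact measurableSet_eq_fun ((hΦ i).measurable.comp h2) measurable_const
  have hfub : ∀ i : ι, ∀ᵐ ω ∂P, ∀ᵐ z : ℂ,
      Φ i (fun c => G c (z, ω)) (fun c => G c (z + pat i, ω)) = 0 := by
    intro i
    rw [← Measure.ae_ae_comm (μ := (volume : Measure ℂ)) (ν := P) (hmeas i)]
    exact Filter.Eventually.of_forall fun z => hae i z
  obtain ⟨ω, hω⟩ := (ae_all_iff.2 hfub).exists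
  exact ⟨fun c z => G c (z, ω), fun c => (hGm c).comp (measurable_id.prodMk measurable_const),
    fun c z => hGb _ _, hω⟩

end GR

end Pool.Agent.RadPD
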