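import Pool.Agent.RadPD.T1

set_option autoImplicit false

namespace Pool.Agent.RadPD

open MeasureTheory ProbabilityTheory

/-! ## The continuous part of a random colouring with finitely many colours -/

section GS

variable {F : Subfield ℂ} {C : Type} [Fintype C] [MeasurableSpace C] [MeasurableSingletonClass C]

/-- `x` is the translation continuous part of the random variable `s (ω 0)` -/
structure Part (P : Measure (F → C)) (s : C → ℝ) (x : (F → C) → ℝ) : Prop where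
  meas : Measurable x
  bound : ∀ ω, |x ω| ≤ 1
  cont : ∀ ε : ℝ, 0 < ε → ∃ r : ℝ, 0 < r ∧ ∀ z : F, ‖(z : ℂ)‖ < r →
    ∫ ω, (x (tau z ω) - x ω) ^ 2 ∂P ≤ ε
  perp : ∀ g : (F → C) → ℝ, Measurable g → (∀ ω, |g ω| ≤ 1) →
    (∀ ε : ℝ, 0 < ε → ∃ r : ℝ, 0 < r ∧ ∀ z : F, ‖(z : ℂ)‖ < r →
      ∫ ω, (g (tau z ω) - g ω) ^ 2 ∂P ≤ ε) →
    ∫ ω, (s (ω 0) - x ω) * g ω ∂P = 0
  orth : ∀ z : F, z ≠ 0 → ∫ ω, (s (tau z ω 0) - x (tau z ω)) * (s (ω 0) - x ω) ∂P = 0

theorem GS_meas (s : C → ℝ) : Measurable (fun ω : F → C => s (ω 0)) := by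
  haveI : DiscreteMeasurableSpace C := ⟨fun t => (Set.toFinite t).measurableSet⟩
  exact (measurable_of_finite s).comp (measurable_pi_apply 0)

/-- existence of the continuous part, for a given representation; `v` is the wild part -/
theorem exists_part_rep (hF : RadClosed F) [Countable F] (P : Measure (F → C))
    [IsProbabilityMeasure P] (hτ : ∀ z, MeasurePreserving (tau (C := C) z) P P)
    (hr : ∀ u, MeasurePreserving (rot (C := C) u) P P) (ρ : URep F (Lp ℂ 2 P))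
    (hU : ∀ z (f : Lp ℂ 2 P), ρ.U z f =ᵐ[P] fun ω => f (tau z ω))
    (hR : ∀ u (f : Lp ℂ 2 P), ρ.R u f =ᵐ[P] fun ω => f (rot u ω))
    (s : C → ℝ) (hs : ∀ c, |s c| ≤ 1) :
    ∃ x : (F → C) → ℝ, Part P s x ∧ ∃ v : Lp ℂ 2 P,
      (v =ᵐ[P] fun ω => ((s (ω 0) - x ω : ℝ) : ℂ)) ∧ (∀ u, ρ.R u v = v) ∧
      ∀ w ∈ ρ.Hc, inner ℂ w v = 0 := by
  classical
  have hsgm : Measurable (fun ω : F → C => s (ω 0)) := GS_meas s
  have hsgb : ∀ ω : F → C, |s (ω 0)| ≤ 1 := fun ω => hs _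
  set v : Lp ℂ 2 P := T1cls P (fun ω : F → C => s (ω 0)) hsgm hsgb with hv
  have hvc : v =ᵐ[P] fun ω => (s (ω 0) : ℂ) := T1cls_coe P _ hsgm hsgb
  have hUc : ∀ (z : F) (f : Lp ℂ 2 P) (f' : (F → C) → ℂ), f =ᵐ[P] f' →
      ρ.U z f =ᵐ[P] fun ω => f' (tau z ω) := fun z f f' h =>
    (hU z f).trans ((hτ z).quasiMeasurePreserving.ae_eq_comp h)
  have hRc : ∀ (u : K F) (f : Lp ℂ 2 P) (f' : (F → C) → ℂ), f =ᵐ[P] f' →
      ρ.R u f =ᵐ[P] fun ω => f' (rot u ω) := fun u f f' h =>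
    (hR u f).trans ((hr u).quasiMeasurePreserving.ae_eq_comp h)
  have hsgrot : ∀ (u : K F) (ω : F → C), s (rot u ω 0) = s (ω 0) := fun u ω => by
    unfold rot
    rw [mul_zero]
  have hRv : ∀ u, ρ.R u v = v := fun u => by
    refine Lp.ext ?_
    refine (hRc u v _ hvc).trans (Filter.EventuallyEq.trans ?_ hvc.symm)
    refine Filter.Eventually.of_forall fun ω => ?_
    show ((s (rot u ω 0) : ℝ) : ℂ) = _
    rw [hsgrot]
  obtain ⟨w, v', hvw, hwHc, hperp, hRw, hRv'⟩ := ρ.exists_decomp hRv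
  -- the truncated function
  have hwm : Measurable (w : (F → C) → ℂ) := (Lp.stronglyMeasurable w).measurable
  set x : (F → C) → ℝ := fun ω => T1tr (w ω) with hx
  have hxm : Measurable x := T1tr_meas.comp hwm
  have hxb : ∀ ω, |x ω| ≤ 1 := fun ω => T1tr_bound _
  set w' : Lp ℂ 2 P := T1cls P x hxm hxb with hw'
  have hw'c : w' =ᵐ[P] fun ω => (x ω : ℂ) := T1cls_coe P x hxm hxb
  have hw'Hc : w' ∈ ρ.Hc := by
    rw [URep.mem_Hc] at hwHc ⊢
    intro ε hε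
    obtain ⟨r, hr0, hr1⟩ := hwHc ε hε
    refine ⟨r, hr0, fun z hz => le_trans ?_ (hr1 z hz)⟩
    refine Lp.norm_le_norm_of_ae_le ?_
    filter_upwards [hUc z w' _ hw'c, hw'c, hUc z w _ (Filter.EventuallyEq.refl _ _),
      Lp.coeFn_sub (ρ.U z w') w', Lp.coeFn_sub (ρ.U z w) w] with ω h1 h2 h3 h4 h5
    rw [h4, h5, Pi.sub_apply, Pi.sub_apply, h1, h2, h3, ← Complex.ofReal_sub, Complex.norm_real,
      Real.norm_eq_abs]
    exact T1tr_lip _ _
  have hdist : ‖v - w'‖ ≤ ‖v - w‖ := by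
    refine Lp.norm_le_norm_of_ae_le ?_
    filter_upwards [hvc, hw'c, Lp.coeFn_sub v w', Lp.coeFn_sub v w] with ω h1 h2 h4 h5
    rw [h4, h5, Pi.sub_apply, Pi.sub_apply, h1, h2, ← Complex.ofReal_sub, Complex.norm_real,
      Real.norm_eq_abs]
    have := T1tr_lip (s (ω 0) : ℂ) (w ω)
    rwa [T1tr_real _ (hsgb ω)] at this
  have hww : w = w' := by
    have h1 : v - w' = v' + (w - w') := by
      rw [hvw]
      abel
    have h2 : v - w = v' := by
      rw [hvw]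
      abel
    have h3 : inner ℂ (w - w') v' = 0 := hperp _ (ρ.Hc.sub_mem hwHc hw'Hc)
    have h4 : inner ℂ v' (w - w') = 0 := inner_eq_zero_symm.1 h3
    have h5 := norm_add_sq (𝕜 := ℂ) v' (w - w')
    rw [h4] at h5
    rw [h1, h2] at hdist
    have h6 : ‖v' + (w - w')‖ ^ 2 ≤ ‖v'‖ ^ 2 := by
      have := norm_nonneg (v' + (w - w'))
      nlinarith
    have h7 : ‖w - w'‖ ^ 2 ≤ 0 := by
      rw [h5] at h6
      simp only [map_zero, mul_zero, add_zero] at h6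
      linarith
    have h8 : ‖w - w'‖ = 0 := by
      have := norm_nonneg (w - w')
      nlinarith
    exact sub_eq_zero.1 (norm_eq_zero.1 h8)
  have hwc : w =ᵐ[P] fun ω => (x ω : ℂ) := by
    rw [hww]
    exact hw'c
  have hv'c : v' =ᵐ[P] fun ω => ((s (ω 0) - x ω : ℝ) : ℂ) := by
    have h2 : v' = v - w := by
      rw [hvw]
      abel
    rw [h2]
    filter_upwards [hvc, hwc, Lp.coeFn_sub v w] with ω h1 h3 h4
    rw [h4, Pi.sub_apply, h1, h3, Complex.ofReal_sub]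
  refine ⟨x, ⟨hxm, hxb, ?_, ?_, ?_⟩, v', hv'c, hRv', hperp⟩
  · intro ε hε
    obtain ⟨r, hr0, hr1⟩ := hwHc (Real.sqrt ε) (Real.sqrt_pos.2 hε)
    refine ⟨r, hr0, fun z hz => ?_⟩
    have h1 := T1norm_sub_sq P _ _ _ _ (hUc z w _ hwc) hwc
    have h2 : ∫ ω, (x (tau z ω) - x ω) ^ 2 ∂P = ‖ρ.U z w - w‖ ^ 2 := by
      rw [h1]
      refine integral_congr_ae (Filter.Eventually.of_forall fun ω => ?_)
      show (x (tau z ω) - x ω) ^ 2 = ‖((x (tau z ω) : ℝ) : ℂ) - ((x ω : ℝ) : ℂ)‖ ^ 2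
      rw [← Complex.ofReal_sub, Complex.norm_real, Real.norm_eq_abs, sq_abs]
    rw [h2]
    have h3 := hr1 z hz
    calc ‖ρ.U z w - w‖ ^ 2 ≤ (Real.sqrt ε) ^ 2 := by
          exact pow_le_pow_left₀ (norm_nonneg _) h3 2
      _ = ε := Real.sq_sqrt hε.le
  · intro g hg hb hc
    have hgc := T1cls_coe P g hg hb
    have hgH : T1cls P g hg hb ∈ ρ.Hc := by
      rw [URep.mem_Hc]
      intro ε hε
      obtain ⟨r, hr0, hr1⟩ := hc (ε ^ 2) (by positivity)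
      refine ⟨r, hr0, fun z hz => ?_⟩
      have h1 := T1norm_sub_sq P _ _ _ _ (hUc z _ _ hgc) hgc
      have h2 : ∫ ω, (g (tau z ω) - g ω) ^ 2 ∂P
          = ‖ρ.U z (T1cls P g hg hb) - T1cls P g hg hb‖ ^ 2 := by
        rw [h1]
        refine integral_congr_ae (Filter.Eventually.of_forall fun ω => ?_)
        show (g (tau z ω) - g ω) ^ 2 = ‖((g (tau z ω) : ℝ) : ℂ) - ((g ω : ℝ) : ℂ)‖ ^ 2
        rw [← Complex.ofReal_sub, Complex.norm_real, Real.norm_eq_abs, sq_abs]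
      have h3 := hr1 z hz
      rw [h2] at h3
      exact le_of_sq_le_sq h3 hε.le
    have h1 := hperp _ hgH
    rw [T1inner] at h1
    have h2 : ∫ ω, v' ω * (starRingEnd ℂ) (T1cls P g hg hb ω) ∂P
        = ∫ ω, (((s (ω 0) - x ω) * g ω : ℝ) : ℂ) ∂P := by
      refine integral_congr_ae ?_
      filter_upwards [hv'c, hgc] with ω h3 h4
      rw [h3, h4, Complex.conj_ofReal, Complex.ofReal_mul]
    rw [h2] at h1
    have h4 : ∫ ω, (((s (ω 0) - x ω) * g ω : ℝ) : ℂ) ∂P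
        = ((∫ ω, (s (ω 0) - x ω) * g ω ∂P : ℝ) : ℂ) := integral_ofReal
    rw [h4] at h1
    exact_mod_cast h1
  · intro z hz
    have h1 := theoremA' hF ρ v' hRv' hperp z hz
    rw [T1inner] at h1
    have h2 : ∫ ω, (ρ.U z v') ω * (starRingEnd ℂ) (v' ω) ∂P
        = ∫ ω, (((s (tau z ω 0) - x (tau z ω)) * (s (ω 0) - x ω) : ℝ) : ℂ) ∂P := by
      refine integral_congr_ae ?_
      filter_upwards [hv'c, hUc z v' _ hv'c] with ω h3 h4
      rw [h3, h4, Complex.conj_ofReal, Complex.ofReal_mul]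
    rw [h2] at h1
    have h4 : ∫ ω, (((s (tau z ω 0) - x (tau z ω)) * (s (ω 0) - x ω) : ℝ) : ℂ) ∂P
        = ((∫ ω, (s (tau z ω 0) - x (tau z ω)) * (s (ω 0) - x ω) ∂P : ℝ) : ℂ) := integral_ofReal
    rw [h4] at h1
    exact_mod_cast h1

end GS

end Pool.Agent.RadPD
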