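import Pool.Agent.RadPD.Defs

set_option autoImplicit false

namespace Pool.Agent.RadPD

open MeasureTheory ProbabilityTheory

/-! ## Module RC: countable radically closed fields -/

theorem exists_radClosed (A : Set ℝ) (hA : A.Countable) :
    ∃ F : Subfield ℂ, RadClosed F ∧ Countable F ∧ ∀ a ∈ A, (a : ℂ) ∈ F := by
  classical
  set S : Set ℂ := (fun a : ℝ => (a : ℂ)) '' A with hS
  let E : Subfield ℂ := Subfield.closure S
  have hEc : Countable E := by
    rw [← Cardinal.mk_le_aleph0_iff]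
    refine (Subfield.cardinalMk_closure_le_max S).trans ?_
    rw [max_le_iff]
    exact ⟨Cardinal.mk_le_aleph0_iff.2 (hA.image _).to_subtype, le_rfl⟩
  have hreal : ∀ x ∈ E, (starRingEnd ℂ) x = x := by
    intro x hx
    induction hx using Subfield.closure_induction with
    | mem x hx =>
      obtain ⟨a, _, rfl⟩ := hx
      exact Complex.conj_ofReal a
    | one => exact map_one _
    | add x y _ _ h1 h2 => rw [map_add, h1, h2]
    | neg x _ h1 => rw [map_neg, h1]
    | inv x _ h1 => rw [map_inv₀, h1]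
    | mul x y _ _ h1 h2 => rw [map_mul, h1, h2]
  let c : ℂ →ₐ[E] ℂ :=
    { toRingHom := starRingEnd ℂ
      commutes' := fun r => hreal r r.2 }
  refine ⟨(algebraicClosure E ℂ).toSubfield, ⟨?_, ?_⟩, ?_, ?_⟩
  · intro z hz
    have hz' : IsAlgebraic E z := (mem_algebraicClosure_iff (F := E) (E := ℂ)).1 hz
    exact (mem_algebraicClosure_iff (F := E) (E := ℂ)).2 (hz'.algHom c)
  · intro n hn z hz
    have hz' : IsAlgebraic E z := (mem_algebraicClosure_iff (F := E) (E := ℂ)).1 hz
    obtain ⟨w, hw⟩ := IsAlgClosed.exists_pow_nat_eq z hn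
    refine ⟨w, (mem_algebraicClosure_iff (F := E) (E := ℂ)).2 ?_, hw⟩
    exact IsAlgebraic.of_pow hn (by rw [hw]; exact hz')
  · have h1 : Cardinal.mk (algebraicClosure E ℂ) ≤ Cardinal.aleph0 := by
      refine (Algebra.IsAlgebraic.cardinalMk_le_max E (algebraicClosure E ℂ)).trans ?_
      rw [max_le_iff]
      exact ⟨Cardinal.mk_le_aleph0_iff.2 hEc, le_rfl⟩
    exact Cardinal.mk_le_aleph0_iff.1 h1
  · intro a ha
    refine (mem_algebraicClosure_iff (F := E) (E := ℂ)).2 ?_
    have hmem : (a : ℂ) ∈ E := Subfield.subset_closure ⟨a, ha, rfl⟩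
    exact isAlgebraic_algebraMap (⟨(a : ℂ), hmem⟩ : E)

end Pool.Agent.RadPD
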