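import Pool.Agent.RadPD.AV
import Pool.Agent.RadPD.FL
import Pool.Agent.MeasTri.Main

set_option autoImplicit false

namespace Pool.Agent.RadPD

open MeasureTheory ProbabilityTheory

open Pool.Agent.MeasTri

section TR

variable {F : Subfield ℂ}

open scoped Topology symmDiff in
/-- the good directions form a closed set -/
lemma t5_closed {f : ℂ → Bool} (hf : ∀ t : Bool, NullMeasurableSet {z | f z = t} volume)
    {D : Set ℂ} {w : ℂ} (hw : w ∈ closure D)
    (hD : ∀ u ∈ D, ∀ᵐ z : ℂ, ¬ (f z = f (z + u) ∧ f (z + u) = f (z + zt * u))) :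
    ∀ᵐ z : ℂ, ¬ (f z = f (z + w) ∧ f (z + w) = f (z + zt * w)) := by
  -- translations
  let T : ℂ → C(ℂ, ℂ) := fun v => ⟨fun z => z + v, by fun_prop⟩
  have hT : Continuous T := by
    refine ContinuousMap.continuous_of_continuous_uncurry _ ?_
    change Continuous fun p : ℂ × ℂ => p.2 + p.1
    fun_prop
  have hTm : ∀ v, MeasurePreserving (T v) (volume : Measure ℂ) volume := fun v =>
    measurePreserving_add_right volume v
  have key : ∀ (t : Bool) (n : ℕ), volume {z : ℂ | ‖z‖ ≤ n ∧ f z = t ∧ f (z + w) = t ∧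
      f (z + zt * w) = t} = 0 := by
    intro t n
    set B : Set ℂ := {z : ℂ | ‖z‖ ≤ n ∧ f z = t ∧ f (z + w) = t ∧ f (z + zt * w) = t} with hB
    set s : Set ℂ := {z | f z = t} ∩ Metric.closedBall 0 (n + ‖w‖) with hs
    have hsm : NullMeasurableSet s volume :=
      (hf t).inter Metric.isClosed_closedBall.measurableSet.nullMeasurableSet
    have hsf : volume s ≠ ⊤ :=
      ((measure_mono Set.inter_subset_right).trans_lt measure_closedBall_lt_top).ne
    have lim1 : Filter.Tendsto (fun u => volume ((T u ⁻¹' s) ∆ (T w ⁻¹' s))) (𝓝[D] w) (𝓝 0) :=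
      tendsto_measure_symmDiff_preimage_nhds_zero
        ((hT.tendsto w).mono_left nhdsWithin_le_nhds)
        (Filter.Eventually.of_forall hTm) (hTm w) hsm hsf
    have lim2 : Filter.Tendsto (fun u => volume ((T (zt * u) ⁻¹' s) ∆ (T (zt * w) ⁻¹' s)))
        (𝓝[D] w) (𝓝 0) :=
      tendsto_measure_symmDiff_preimage_nhds_zero (f := fun u => T (zt * u))
        (((hT.comp (continuous_const.mul continuous_id)).tendsto w).mono_left nhdsWithin_le_nhds)
        (Filter.Eventually.of_forall fun v => hTm _) (hTm _) hsm hsf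
    have lim := lim1.add lim2
    rw [add_zero] at lim
    have : (𝓝[D] w).NeBot := mem_closure_iff_nhdsWithin_neBot.1 hw
    have hle : volume B ≤ 0 := by
      refine ge_of_tendsto lim ?_
      filter_upwards [self_mem_nhdsWithin] with u hu
      have hbad : volume {z : ℂ | ¬ ¬ (f z = f (z + u) ∧ f (z + u) = f (z + zt * u))} = 0 :=
        ae_iff.1 (hD u hu)
      have hsub : B ⊆ {z : ℂ | ¬ ¬ (f z = f (z + u) ∧ f (z + u) = f (z + zt * u))} ∪
          (((T u ⁻¹' s) ∆ (T w ⁻¹' s)) ∪ ((T (zt * u) ⁻¹' s) ∆ (T (zt * w) ⁻¹' s))) := by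
        rintro z ⟨hz, h0, h1, h2⟩
        have m1 : z ∈ T w ⁻¹' s := by
          refine ⟨h1, ?_⟩
          rw [Metric.mem_closedBall, dist_zero_right]
          exact (norm_add_le z w).trans (by linarith)
        have m2 : z ∈ T (zt * w) ⁻¹' s := by
          refine ⟨h2, ?_⟩
          rw [Metric.mem_closedBall, dist_zero_right]
          refine (norm_add_le z (zt * w)).trans ?_
          rw [norm_mul, norm_zt, one_mul]; linarith
        by_cases c1 : z ∈ T u ⁻¹' s
        · by_cases c2 : z ∈ T (zt * u) ⁻¹' s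
          · left
            have e1 : f (z + u) = t := c1.1
            have e2 : f (z + zt * u) = t := c2.1
            simp only [Set.mem_ofPred_eq, not_not]
            rw [h0, e1, e2]; exact ⟨rfl, rfl⟩
          · right; right; exact Or.inr ⟨m2, c2⟩
        · right; left; exact Or.inr ⟨m1, c1⟩
      refine (measure_mono hsub).trans ((measure_union_le _ _).trans ?_)
      rw [hbad, zero_add]
      exact measure_union_le _ _
    exact le_antisymm hle bot_le
  rw [ae_iff]
  refine measure_mono_null (t := ⋃ (t : Bool) (n : ℕ), {z : ℂ | ‖z‖ ≤ n ∧ f z = t ∧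
    f (z + w) = t ∧ f (z + zt * w) = t}) ?_ ?_
  · intro z hz
    simp only [Set.mem_ofPred_eq, not_not] at hz
    obtain ⟨n, hn⟩ := exists_nat_ge ‖z‖
    simp only [Set.mem_iUnion, Set.mem_ofPred_eq]
    exact ⟨f z, n, hn, rfl, hz.1.symm, (hz.1.trans hz.2).symm⟩
  · rw [measure_iUnion_null_iff]
    intro t
    rw [measure_iUnion_null_iff]
    exact key t

/-- the unit circle of `F` is dense in the unit circle -/
lemma t5_dense (hF : RadClosed F) {w : ℂ} (hw : ‖w‖ = 1) {ε : ℝ} (hε : 0 < ε) :
    ∃ u : K F, ‖w - ((u : Circle) : ℂ)‖ < ε := by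
  have hπ := Real.pi_pos
  obtain ⟨u, hu, hu1⟩ : ∃ u : K F, ‖((u : Circle) : ℂ) - 1‖ < 2 * ε / Real.pi ∧ u ≠ 1 := by
    have := (infinite_near_one hF (r := 2 * ε / Real.pi) (by positivity)).sdiff
      (Set.finite_singleton (1 : K F))
    obtain ⟨u, hu, hu'⟩ := this.nonempty
    exact ⟨u, hu, hu'⟩
  have nu : ‖((u : Circle) : ℂ)‖ = 1 := Circle.norm_coe _
  set φ : ℝ := Complex.arg ((u : Circle) : ℂ) with hφ
  have hφe : ((u : Circle) : ℂ) = Complex.exp (φ * Complex.I) := by
    have := Complex.norm_mul_exp_arg_mul_I ((u : Circle) : ℂ)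
    rw [nu, Complex.ofReal_one, one_mul] at this
    exact this.symm
  have hφ0 : φ ≠ 0 := by
    intro h0
    apply hu1
    apply Subtype.ext
    apply Circle.ext
    rw [hφe, h0]; simp
  have hφs : |φ| < ε := by
    have h1 := Complex.angle_le_mul_norm_sub nu (norm_one (α := ℂ))
    rw [Complex.angle_one_right (by intro h0; rw [h0, norm_zero] at nu; norm_num at nu)] at h1
    refine h1.trans_lt ?_
    calc Real.pi / 2 * ‖((u : Circle) : ℂ) - 1‖ < Real.pi / 2 * (2 * ε / Real.pi) := by gcongr
      _ = ε := by field_simp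
  set θ : ℝ := Complex.arg w with hθ
  have hθe : w = Complex.exp (θ * Complex.I) := by
    have := Complex.norm_mul_exp_arg_mul_I w
    rw [hw, Complex.ofReal_one, one_mul] at this
    exact this.symm
  set k : ℤ := ⌊θ / φ⌋ with hk
  refine ⟨u ^ k, ?_⟩
  have e1 : (((u ^ k : K F) : Circle) : ℂ) = Complex.exp ((k * φ : ℝ) * Complex.I) := by
    rw [Subgroup.coe_zpow, Circle.coe_zpow, hφe, ← Complex.exp_int_mul]
    congr 1; push_cast; ring
  rw [e1, hθe]
  have e2 : Complex.exp (θ * Complex.I) - Complex.exp ((k * φ : ℝ) * Complex.I)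
      = Complex.exp ((k * φ : ℝ) * Complex.I) *
        (Complex.exp (Complex.I * (θ - k * φ : ℝ)) - 1) := by
    rw [mul_sub, ← Complex.exp_add, mul_one]
    congr 2; push_cast; ring
  rw [e2, norm_mul, Complex.norm_exp_ofReal_mul_I, one_mul]
  refine Real.norm_exp_I_mul_ofReal_sub_one_le.trans_lt ?_
  rw [Real.norm_eq_abs]
  have h1 : θ - k * φ = (θ / φ - k) * φ := by field_simp
  rw [h1, abs_mul]
  have h2 : |θ / φ - k| ≤ 1 := by
    rw [abs_le]
    constructor
    · have := Int.floor_le (θ / φ); linarith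
    · have := (Int.lt_floor_add_one (θ / φ)).le; linarith
  calc |θ / φ - k| * |φ| ≤ 1 * |φ| := by gcongr
    _ < ε := by rw [one_mul]; exact hφs

/-- Module T5: from countably many directions to all directions -/
theorem avoidAE_of_dense (hF : RadClosed F) {f : ℂ → Bool}
    (hf : MeasurableSet {z | f z = true}) {a : ℝ} (ha : 0 < a)
    (h : ∀ u : K F, ∀ᵐ z : ℂ, ¬ (f z = f (z + a * ((u : Circle) : ℂ)) ∧
      f (z + a * ((u : Circle) : ℂ)) = f (z + a * (zt * ((u : Circle) : ℂ))))) :
    AvoidAE f a a a := by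
  have hf' : ∀ t : Bool, NullMeasurableSet {z | f z = t} volume := by
    intro t
    cases t
    · have : {z | f z = false} = {z | f z = true}ᶜ := by
        ext z; simp
      rw [this]; exact hf.compl.nullMeasurableSet
    · exact hf.nullMeasurableSet
  -- all directions
  have main : ∀ U : ℂ, ‖U‖ = a → ∀ᵐ z : ℂ, ¬ (f z = f (z + U) ∧ f (z + U) = f (z + zt * U)) := by
    intro U hU
    refine t5_closed hf' (D := {v : ℂ | ∃ u : K F, v = a * ((u : Circle) : ℂ)}) ?_ ?_
    · rw [Metric.mem_closure_iff]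
      intro ε hε
      have hn : ‖U / a‖ = 1 := by
        rw [norm_div, hU, Complex.norm_real, Real.norm_of_nonneg ha.le, div_self ha.ne']
      obtain ⟨u, hu⟩ := t5_dense hF hn (ε := ε / a) (by positivity)
      refine ⟨a * ((u : Circle) : ℂ), ⟨u, rfl⟩, ?_⟩
      have ha' : (a : ℂ) ≠ 0 := by exact_mod_cast ha.ne'
      have e : U - a * ((u : Circle) : ℂ) = a * (U / a - ((u : Circle) : ℂ)) := by
        field_simp
      rw [dist_eq_norm, e, norm_mul, Complex.norm_real, Real.norm_of_nonneg ha.le]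
      calc a * ‖U / a - ((u : Circle) : ℂ)‖ < a * (ε / a) := by gcongr
        _ = ε := by field_simp
    · rintro v ⟨u, rfl⟩
      have e : zt * (a * ((u : Circle) : ℂ)) = a * (zt * ((u : Circle) : ℂ)) := by ring
      rw [e]
      exact h u
  intro P Q R h1 h2 h3
  have tr : ∀ U : ℂ, ‖U‖ = a →
      ∀ᵐ z : ℂ, ¬ (f (P + z) = f (P + z + U) ∧ f (P + z + U) = f (P + z + zt * U)) :=
    fun U hU => (measurePreserving_add_left (volume : Measure ℂ) P).quasiMeasurePreserving.ae
      (main U hU)
  rcases eq_shape (U := Q - P) (V := R - P) (by rw [norm_sub_rev, h1, norm_sub_rev, h3])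
    (by rw [show Q - P - (R - P) = Q - R by ring, h2, norm_sub_rev, h1]) with hh | hh
  · filter_upwards [tr (Q - P) (by rw [norm_sub_rev, h1])] with z hz hz'
    apply hz
    rw [← hh, show P + z + (Q - P) = Q + z by ring, show P + z + (R - P) = R + z by ring]
    exact hz'
  · filter_upwards [tr (R - P) (by rw [norm_sub_rev, h3])] with z hz hz'
    apply hz
    rw [← hh, show P + z + (Q - P) = Q + z by ring, show P + z + (R - P) = R + z by ring]
    exact ⟨hz'.1.trans hz'.2, hz'.2.symm⟩

end TR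

end Pool.Agent.RadPD
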