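import Pool.Agent.RadPD.GR
import Pool.Agent.RadPD.GE
import Pool.Agent.RadPD.RC
import Pool.Agent.RadPD.T5

set_option autoImplicit false

namespace Pool.Agent.RadPD

open MeasureTheory ProbabilityTheory

/-! ## Transference: arbitrary covers and measurable covers of the plane -/

section GT

/-- vectors of the countable field with lengths in a dense set of distances -/
theorem GT_dense {F : Subfield ℂ} (hF : RadClosed F) {D D' : Set ℝ} (hD : ∀ d ∈ D, 0 < d)
    (hD'D : D' ⊆ D) (hDD' : D ⊆ closure D') (hmem : ∀ d ∈ D', (d : ℂ) ∈ F) {h : ℂ}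
    (hh : ‖h‖ ∈ D) : h ∈ closure {u : ℂ | u ∈ F ∧ ‖u‖ ∈ D'} := by
  rw [Metric.mem_closure_iff]
  intro ε hε
  have hpos : 0 < ‖h‖ := hD _ hh
  obtain ⟨d, hd, hd1⟩ := Metric.mem_closure_iff.1 (hDD' hh) (ε / 2) (by positivity)
  have hd0 : 0 < d := hD _ (hD'D hd)
  have hw : ‖h / (‖h‖ : ℂ)‖ = 1 := by
    rw [norm_div, Complex.norm_real, norm_norm, div_self hpos.ne']
  obtain ⟨u, hu⟩ := t5_dense hF hw (ε := ε / (2 * d)) (by positivity)
  refine ⟨(d : ℂ) * ((u : Circle) : ℂ), ⟨F.mul_mem (hmem d hd) u.2, ?_⟩, ?_⟩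
  · rw [norm_mul, Complex.norm_real, Circle.norm_coe, mul_one, Real.norm_of_nonneg hd0.le]
    exact hd
  · have h1 : h = (‖h‖ : ℂ) * (h / (‖h‖ : ℂ)) := by
      rw [mul_div_cancel₀]
      exact_mod_cast hpos.ne'
    rw [dist_eq_norm]
    have h2 : h - (d : ℂ) * ((u : Circle) : ℂ) =
        ((‖h‖ : ℂ) - (d : ℂ)) * (h / (‖h‖ : ℂ)) +
          (d : ℂ) * (h / (‖h‖ : ℂ) - ((u : Circle) : ℂ)) := by
      conv_lhs => rw [h1]
      ring
    rw [h2]
    refine (norm_add_le _ _).trans_lt ?_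
    rw [norm_mul, norm_mul, hw, mul_one, ← Complex.ofReal_sub, Complex.norm_real,
      Complex.norm_real, Real.norm_of_nonneg hd0.le]
    have h3 : ‖‖h‖ - d‖ < ε / 2 := by
      rw [← dist_eq_norm]
      exact hd1
    have h4 : d * ‖h / (‖h‖ : ℂ) - ((u : Circle) : ℂ)‖ < ε / 2 := by
      calc d * ‖h / (‖h‖ : ℂ) - ((u : Circle) : ℂ)‖ < d * (ε / (2 * d)) :=
            mul_lt_mul_of_pos_left hu hd0
        _ = ε / 2 := by field_simp
    linarith

/-- **Transference theorem.** If the plane has a colouring with `k` colours such that no point of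
colour `i` is at a distance in `D i j` from a point of colour `j`, then it has such a colouring with
Lebesgue measurable colour classes. -/
theorem transference {k : ℕ} (D : Fin k → Fin k → Set ℝ) (hD : ∀ i j, ∀ d ∈ D i j, 0 < d)
    (χ : ℂ → Fin k) (hχ : ∀ z w, ‖z - w‖ ∉ D (χ z) (χ w)) :
    ∃ f : ℂ → Fin k, (∀ c, NullMeasurableSet (f ⁻¹' {c}) volume) ∧
      ∀ z w, ‖z - w‖ ∉ D (f z) (f w) := by
  classical
  -- countable dense sets of distances
  choose D' hD'D hD'c hDD' using fun i j =>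
    (TopologicalSpace.IsSeparable.of_separableSpace (D i j)).exists_countable_dense_subset
  obtain ⟨F, hF, hc, hmem⟩ := exists_radClosed (⋃ i, ⋃ j, D' i j)
    (Set.countable_iUnion fun i => Set.countable_iUnion (hD'c i))
  have hmem' : ∀ i j, ∀ d ∈ D' i j, (d : ℂ) ∈ F := fun i j d hd =>
    hmem d (Set.mem_iUnion.2 ⟨i, Set.mem_iUnion.2 ⟨j, hd⟩⟩)
  obtain ⟨P, hP, hτ, hr, hpat⟩ := exists_colMeasure (C := Fin k) hF (fun z : F => χ (z : ℂ))
  obtain ⟨ρ, hU, hR⟩ := exists_urep (C := Fin k) P hτ hr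
  choose x hx v hv1 hv2 hv3 using fun c : Fin k => exists_part01 hF P hτ hr ρ hU hR
    (fun a => if a = c then (1 : ℝ) else 0) (fun a => by split_ifs <;> norm_num)
    (fun a => by split_ifs <;> norm_num)
  have hsum := Part.sum_eq_one hτ (fun c => (hx c).1)
  -- the translates of the wild parts are orthogonal
  have horth : ∀ (i j : Fin k) (p : F), p ≠ 0 →
      ∫ ω, ((if tau p ω 0 = i then (1 : ℝ) else 0) - x i (tau p ω)) *
        ((if ω 0 = j then (1 : ℝ) else 0) - x j ω) ∂P = 0 := by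
    intro i j p hp
    have h1 := GP_cross hF ρ (hv2 j) (hv2 i) (hv3 j) (hv3 i) hp
    rw [T1inner] at h1
    have h2 : ∫ ω, (ρ.U p (v i)) ω * (starRingEnd ℂ) (v j ω) ∂P
        = ∫ ω, ((((if tau p ω 0 = i then (1 : ℝ) else 0) - x i (tau p ω)) *
        ((if ω 0 = j then (1 : ℝ) else 0) - x j ω) : ℝ) : ℂ) ∂P := by
      refine integral_congr_ae ?_
      have h3 := (hU p (v i)).trans ((hτ p).quasiMeasurePreserving.ae_eq_comp (hv1 i))
      filter_upwards [hv1 j, h3] with ω h4 h5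
      rw [h4, h5, Function.comp_apply, Complex.conj_ofReal, Complex.ofReal_mul]
    rw [h2] at h1
    have h4 := integral_ofReal (μ := P) (𝕜 := ℂ)
      (f := fun ω => ((if tau p ω 0 = i then (1 : ℝ) else 0) - x i (tau p ω)) *
        ((if ω 0 = j then (1 : ℝ) else 0) - x j ω))
    have h5 := h4.symm.trans h1
    exact Complex.ofReal_injective (h5.trans Complex.ofReal_zero.symm)
  -- the exclusion
  have hpair : ∀ (i j : Fin k) (p : F), ‖(p : ℂ)‖ ∈ D' i j →
      ∀ᵐ ω ∂P, x i (tau p ω) * x j ω = 0 := by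
    intro i j p hp
    have hp0 : p ≠ 0 := by
      rintro rfl
      have := hD i j _ (hD'D i j hp)
      simp at this
    refine Part.pair_zero hτ (fun a => ?_) (fun a => ?_) (hx i).1 (hx j).1 (hx i).2 (hx j).2
      (horth i j p hp0) ?_
    · split_ifs <;> simp
    · split_ifs <;> simp
    · have h1 := hpat 2 ![p, 0] (fun v => ¬ (v 0 = i ∧ v 1 = j)) ?_
      · filter_upwards [h1] with ω hω
        simp only [Matrix.cons_val_zero, Matrix.cons_val_one] at hω
        by_cases h2 : ω p = i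
        · have h3 : ¬ ω 0 = j := fun h3 => hω ⟨h2, h3⟩
          rw [if_neg h3, mul_zero]
        · rw [if_neg h2, zero_mul]
      · rintro z u ⟨h1, h2⟩
        simp only [Matrix.cons_val_zero, Matrix.cons_val_one] at h1 h2
        have h3 := hχ ((z + cK F u * p : F) : ℂ) ((z + cK F u * 0 : F) : ℂ)
        rw [h1, h2] at h3
        apply h3
        have h5 : ((z + cK F u * p : F) : ℂ) - ((z + cK F u * 0 : F) : ℂ) =
            ((cK F u : F) : ℂ) * (p : ℂ) := by
          push_cast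
          ring
        rw [h5, norm_mul, norm_cK, one_mul]
        exact hD'D i j hp
  -- realisation
  let ι : Type := Unit ⊕ {p : (Fin k × Fin k) × F // ‖(p.2 : ℂ)‖ ∈ D' p.1.1 p.1.2}
  let pat : ι → F := fun i => Sum.elim (fun _ => 0) (fun p => p.1.2) i
  let Φ : ι → (Fin k → ℝ) → (Fin k → ℝ) → ℝ := fun i => Sum.elim (fun _ v _ => ∑ c, v c - 1)
    (fun p v w => w p.1.1.1 * v p.1.1.2) i
  obtain ⟨g, hgm, hgb, hg⟩ := exists_realisation hF hτ x (fun c => (hx c).1.meas)
    (fun c => (hx c).1.bound) (fun c => (hx c).1.cont) pat Φ (by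
      rintro (i | i)
      · show Continuous fun p : (Fin k → ℝ) × (Fin k → ℝ) => ∑ c, p.1 c - 1
        fun_prop
      · show Continuous fun p : (Fin k → ℝ) × (Fin k → ℝ) => p.2 i.1.1.1 * p.1 i.1.1.2
        fun_prop) (by
      rintro (i | ⟨⟨⟨i, j⟩, p⟩, hp⟩) z
      · have h1 := (hτ z).quasiMeasurePreserving.ae hsum
        filter_upwards [h1] with ω hω
        show ∑ c, x c (tau z ω) - 1 = 0
        rw [hω, sub_self]
      · have h1 := (hτ z).quasiMeasurePreserving.ae (hpair i j p hp)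
        filter_upwards [h1] with ω hω
        show x i (tau (z + p) ω) * x j (tau z ω) = 0
        rw [GP_tau_add]
        exact hω)
  -- the measurable sets
  let A1 : Fin k → Set ℂ := fun c => {z | g c z ≠ 0}
  have hA1m : ∀ c, MeasurableSet (A1 c) := fun c =>
    ((hgm c) (measurableSet_singleton 0)).compl
  have hA1cov : ∀ᵐ z : ℂ, ∃ c, z ∈ A1 c := by
    filter_upwards [hg (Sum.inl ())] with z hz
    have h1 : ∑ c, g c z - 1 = 0 := hz
    by_contra h2
    push Not at h2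
    have h3 : ∑ c, g c z = 0 := Finset.sum_eq_zero fun c _ => by
      have := h2 c
      simpa [A1] using this
    rw [h3] at h1
    norm_num at h1
  have hA1av : ∀ i j, ∀ u ∈ {u : ℂ | u ∈ F ∧ ‖u‖ ∈ D' i j}, ∀ᵐ z : ℂ,
      ¬ (z ∈ A1 j ∧ z + u ∈ A1 i) := by
    rintro i j u ⟨hu, hu'⟩
    filter_upwards [hg (Sum.inr ⟨((i, j), ⟨u, hu⟩), hu'⟩)] with z hz
    have h1 : g i (z + u) * g j z = 0 := hz
    rintro ⟨h2, h3⟩
    exact mul_ne_zero h3 h2 h1
  have hA1all : ∀ i j, ∀ h : ℂ, ‖h‖ ∈ D i j → ∀ᵐ z : ℂ, ¬ (z ∈ A1 j ∧ z + h ∈ A1 i) := by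
    intro i j h hh
    exact GE_closed (hA1m i).nullMeasurableSet
      (GT_dense hF (hD i j) (hD'D i j) (hDD' i j) (hmem' i j) hh) (hA1av i j)
  -- the ultrafilter
  obtain ⟨U, hU1, hU2⟩ := exists_densityUltrafilter
  have hshift : ∀ (z : ℂ) (Q : ℂ → Prop), (∀ᵐ t : ℂ, Q t) → ∀ᵐ t : ℂ, Q (z + t) := by
    intro z Q hQ
    exact (measurePreserving_add_left volume z).quasiMeasurePreserving.ae hQ
  let B : Fin k → Set ℂ := fun c => {z | {t : ℂ | z + t ∈ A1 c} ∈ U}
  have hBm : ∀ c, NullMeasurableSet (B c) volume := by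
    intro c
    refine NullMeasurableSet.congr (hA1m c).nullMeasurableSet ?_
    have h1 := hU2 (A1 c) (hA1m c).nullMeasurableSet
    have h2 := hU2 (A1 c)ᶜ (hA1m c).compl.nullMeasurableSet
    filter_upwards [h1, h2] with z hz1 hz2
    apply propext
    constructor
    · intro hz
      exact hz1 hz
    · intro hz
      by_contra h3
      have h4 := hz2 h3
      have h5 : {t : ℂ | z + t ∈ A1 c} ∈ U := hz
      have h6 := U.inter_sets h5 h4
      have h7 : {t : ℂ | z + t ∈ A1 c} ∩ {t : ℂ | z + t ∈ (A1 c)ᶜ} = ∅ := by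
        ext t; simp
      rw [h7] at h6
      exact U.empty_notMem h6
  have hBcov : ∀ z, {c | z ∈ B c}.Nonempty := by
    intro z
    have h1 := hU1 {t : ℂ | ∃ c, z + t ∈ A1 c} (hshift z _ hA1cov)
    have h2 : {t : ℂ | ∃ c, z + t ∈ A1 c} = ⋃ c ∈ (Set.univ : Set (Fin k)),
        {t : ℂ | z + t ∈ A1 c} := by
      ext t; simp
    rw [h2, Ultrafilter.finite_biUnion_mem_iff Set.finite_univ] at h1
    obtain ⟨c, _, hc⟩ := h1
    exact ⟨c, hc⟩
  have hBav : ∀ i j, ∀ z ∈ B i, ∀ w ∈ B j, ‖z - w‖ ∉ D i j := by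
    intro i j z hz w hw hzw
    have h1 := hA1all i j (z - w) hzw
    have h2 := hU1 _ (hshift w _ h1)
    have h3 := U.inter_sets (U.inter_sets hz hw) h2
    apply U.empty_notMem
    refine Filter.mem_of_superset h3 ?_
    rintro t ⟨⟨h4, h5⟩, h6⟩
    apply h6
    refine ⟨h5, ?_⟩
    have h7 : w + t + (z - w) = z + t := by ring
    rw [h7]
    exact h4
  -- the colouring
  let f : ℂ → Fin k := fun z => (wellFounded_lt (α := Fin k)).min {c | z ∈ B c} (hBcov z)
  have hf1 : ∀ z, z ∈ B (f z) := fun z => WellFounded.min_mem _ _ (hBcov z)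
  have hfmin : ∀ z c, z ∈ B c → ¬ c < f z := fun z c hz =>
    (wellFounded_lt (α := Fin k)).not_lt_min {c | z ∈ B c} hz
  refine ⟨f, ?_, fun z w => hBav _ _ z (hf1 z) w (hf1 w)⟩
  intro c
  have h1 : f ⁻¹' {c} = B c \ ⋃ c' ∈ Set.Iio c, B c' := by
    ext z
    simp only [Set.mem_preimage, Set.mem_singleton_iff, Set.mem_sdiff, Set.mem_iUnion,
      Set.mem_Iio, exists_prop, not_exists, not_and]
    constructor
    · rintro rfl
      refine ⟨hf1 z, fun c' hc' hz => ?_⟩
      exact hfmin z c' hz hc'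
    · rintro ⟨h2, h3⟩
      by_contra h4
      rcases lt_or_gt_of_ne h4 with h5 | h5
      · exact h3 _ h5 (hf1 z)
      · exact hfmin z c h2 h5
  rw [h1]
  refine (hBm c).diff ?_
  exact NullMeasurableSet.biUnion (Set.to_countable _) fun c' _ => hBm c'

end GT

end Pool.Agent.RadPD
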