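import Pool.Agent.RadPD.PL
import Pool.Agent.RadPD.PA
import Pool.Agent.RadPD.FM

set_option autoImplicit false

namespace Pool.Agent.RadPD

open MeasureTheory ProbabilityTheory

variable {F : Subfield ℂ} {X : Type*} [mX : MeasurableSpace X]

/-! ## Module HL: Lemma 4 -/

section HLaux

variable {Z : Type*} [mZ : MeasurableSpace Z]

theorem HL_memLp {μ : Measure Z} [IsProbabilityMeasure μ] {f : Z → ℂ} {C : ℝ} (hf : Measurable f)
    (hC : ∀ z, ‖f z‖ ≤ C) : MemLp f 2 μ :=
  MemLp.of_bound hf.aestronglyMeasurable C (Filter.Eventually.of_forall hC)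

theorem HL_int {μ : Measure Z} [IsProbabilityMeasure μ] {f : Z → ℂ} {C : ℝ} (hf : Measurable f)
    (hC : ∀ z, ‖f z‖ ≤ C) : Integrable f μ :=
  Integrable.of_bound hf.aestronglyMeasurable C (Filter.Eventually.of_forall hC)

theorem HL_intR {μ : Measure Z} [IsProbabilityMeasure μ] {f : Z → ℝ} {C : ℝ} (hf : Measurable f)
    (hC : ∀ z, |f z| ≤ C) : Integrable f μ :=
  Integrable.of_bound hf.aestronglyMeasurable C (Filter.Eventually.of_forall hC)

/-- a bounded function whose `L²` norm vanishes -/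
theorem HL_ae_zero {μ : Measure Z} [IsProbabilityMeasure μ] {f : Z → ℂ} {C : ℝ}
    (hf : Measurable f) (hC : ∀ z, ‖f z‖ ≤ C) (h : ∫ z, f z * (starRingEnd ℂ) (f z) ∂μ = 0) :
    f =ᵐ[μ] 0 := by
  have h1 : ∫ z, ‖f z‖ ^ 2 ∂μ = 0 := by
    have h2 : ∫ z, f z * (starRingEnd ℂ) (f z) ∂μ = ((∫ z, ‖f z‖ ^ 2 ∂μ : ℝ) : ℂ) := by
      rw [← integral_complex_ofReal]
      refine integral_congr_ae (Filter.Eventually.of_forall fun z => ?_)
      simp only [Complex.mul_conj, Complex.normSq_eq_norm_sq]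
    rw [h2] at h
    exact_mod_cast h
  have hi : Integrable (fun z => ‖f z‖ ^ 2) μ := by
    refine HL_intR (C := C ^ 2) (hf.norm.pow_const 2) fun z => ?_
    rw [abs_of_nonneg (by positivity)]
    exact pow_le_pow_left₀ (norm_nonneg _) (hC z) 2
  have h3 := (integral_eq_zero_iff_of_nonneg (fun z => by positivity) hi).1 h1
  filter_upwards [h3] with z hz
  simpa using hz

/-- equality almost everywhere tested on bounded functions -/
theorem HL_ae_eq {μ : Measure Z} [IsProbabilityMeasure μ] {f g : Z → ℂ} {C : ℝ}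
    (hf : Measurable f) (hg : Measurable g) (hC : ∀ z, ‖f z‖ ≤ C) (hD : ∀ z, ‖g z‖ ≤ C)
    (h : ∀ b : Z → ℂ, Measurable b → (∀ z, ‖b z‖ ≤ C + C) →
      ∫ z, f z * b z ∂μ = ∫ z, g z * b z ∂μ) : f =ᵐ[μ] g := by
  have hbd : ∀ z, ‖f z - g z‖ ≤ C + C := fun z =>
    (norm_sub_le _ _).trans (add_le_add (hC z) (hD z))
  have hb : Measurable (fun z => (starRingEnd ℂ) (f z - g z)) :=
    (Complex.continuous_conj.measurable).comp (hf.sub hg)
  have hbb : ∀ z, ‖(starRingEnd ℂ) (f z - g z)‖ ≤ C + C := fun z => by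
    rw [RCLike.norm_conj]; exact hbd z
  have h1 := h _ hb hbb
  have h2 : (fun z => f z - g z) =ᵐ[μ] 0 := by
    refine HL_ae_zero (hf.sub hg) hbd ?_
    have h3 : (fun z => (f z - g z) * (starRingEnd ℂ) (f z - g z)) = fun z =>
        f z * (starRingEnd ℂ) (f z - g z) - g z * (starRingEnd ℂ) (f z - g z) := by
      funext z; ring
    have hCC : ∀ z, 0 ≤ C := fun z => (norm_nonneg _).trans (hC z)
    rw [h3, integral_sub, h1, sub_self]
    · exact HL_int (C := C * (C + C)) (hf.mul hb) fun z => by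
        rw [norm_mul]
        exact mul_le_mul (hC z) (hbb z) (norm_nonneg _) (hCC z)
    · exact HL_int (C := C * (C + C)) (hg.mul hb) fun z => by
        rw [norm_mul]
        exact mul_le_mul (hD z) (hbb z) (norm_nonneg _) (hCC z)
  filter_upwards [h2] with z hz
  exact sub_eq_zero.1 hz

/-- Jensen -/
theorem HL_jensen {μ : Measure Z} [IsProbabilityMeasure μ] {h : Z → ℝ} {C : ℝ}
    (hm : Measurable h) (hC : ∀ z, |h z| ≤ C) : (∫ z, h z ∂μ) ^ 2 ≤ ∫ z, h z ^ 2 ∂μ := by
  set c := ∫ z, h z ∂μ with hc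
  have hi : Integrable h μ := HL_intR hm hC
  have hi2 : Integrable (fun z => h z ^ 2) μ := by
    refine HL_intR (C := C ^ 2) (hm.pow_const 2) fun z => ?_
    rw [abs_pow]
    exact pow_le_pow_left₀ (abs_nonneg _) (hC z) 2
  have h0 : 0 ≤ ∫ z, (h z - c) ^ 2 ∂μ := integral_nonneg fun z => by positivity
  have h1 : ∫ z, (h z - c) ^ 2 ∂μ = ∫ z, h z ^ 2 ∂μ - 2 * c * c + c ^ 2 := by
    have h2 : (fun z => (h z - c) ^ 2) = fun z => (h z ^ 2 - (2 * c) * h z) + c ^ 2 := by
      funext z; ring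
    have hi3 : Integrable (fun z => h z ^ 2 - (2 * c) * h z) μ := hi2.sub (hi.const_mul _)
    rw [h2, integral_add hi3 (integrable_const _),
      integral_sub hi2 (hi.const_mul _), integral_const_mul]
    simp [hc]
  nlinarith

theorem HL_pair_le {μ : Measure Z} [IsProbabilityMeasure μ] {f g : Z → ℂ} {C D : ℝ}
    (hC : ∀ z, ‖f z‖ ≤ C) (hD : ∀ z, ‖g z‖ ≤ D) : ‖∫ z, f z * g z ∂μ‖ ≤ C * D := by
  have h := norm_integral_le_of_norm_le_const (μ := μ) (f := fun z => f z * g z) (C := C * D)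
    (Filter.Eventually.of_forall fun z => by
      rw [norm_mul]
      exact mul_le_mul (hC z) (hD z) (norm_nonneg _) ((norm_nonneg _).trans (hC z)))
  simpa using h

/-- the weak mean along an invariant mean is invariant -/
theorem HL_inv (P : RotSys F Z) (M : Mean (K F)) (hM : M.IsInv) {φ H : Z → ℂ} (hφ : BM φ)
    (hH : BM H) (hmean : ∀ G : Z → ℂ, MemLp G 2 P.m →
      ∫ z, H z * G z ∂P.m = M.cx (fun v => ∫ z, φ (P.T v z) * G z ∂P.m)) (u : K F) :
    (fun z => H (P.T u z)) =ᵐ[P.m] H := by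
  have hT : ∀ v, Measurable (P.T v) := fun v => (P.T_mp v).measurable
  refine HL_ae_eq (C := 1) (hH.meas.comp (hT u)) hH.meas (fun z => hH.bound _) hH.bound ?_
  intro b hb hbb
  have h1 : ∫ z, H (P.T u z) * b z ∂P.m = ∫ z, H z * b (P.T u⁻¹ z) ∂P.m := by
    rw [← integral_comp_T P u (fun z => H z * b (P.T u⁻¹ z))
      ((hH.meas.mul (hb.comp (hT _))).aestronglyMeasurable)]
    refine integral_congr_ae (Filter.Eventually.of_forall fun z => ?_)
    show _ = H (P.T u z) * b (P.T u⁻¹ (P.T u z))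
    rw [← P.T_mul, inv_mul_cancel, P.T_one]
  have hb' : MemLp (fun z => b (P.T u⁻¹ z)) 2 P.m := HL_memLp (hb.comp (hT _)) (fun z => hbb _)
  rw [h1, hmean _ hb', hmean _ (HL_memLp hb hbb)]
  have h2 : ∀ v, ∫ z, φ (P.T v z) * b (P.T u⁻¹ z) ∂P.m =
      (fun w => ∫ z, φ (P.T w z) * b z ∂P.m) (u * v) := by
    intro v
    show _ = ∫ z, φ (P.T (u * v) z) * b z ∂P.m
    rw [← integral_comp_T P u (fun z => φ (P.T v z) * b (P.T u⁻¹ z))
      (((hφ.meas.comp (hT _)).mul (hb.comp (hT _))).aestronglyMeasurable)]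
    refine integral_congr_ae (Filter.Eventually.of_forall fun z => ?_)
    show φ (P.T v (P.T u z)) * b (P.T u⁻¹ (P.T u z)) = _
    rw [← P.T_mul, ← P.T_mul, inv_mul_cancel, P.T_one, mul_comm v u]
  rw [show (fun v => ∫ z, φ (P.T v z) * b (P.T u⁻¹ z) ∂P.m) =
    fun v => (fun w => ∫ z, φ (P.T w z) * b z ∂P.m) (u * v) from funext h2]
  exact hM.cx u (C := 1 * (1 + 1)) fun v => HL_pair_le (fun z => hφ.bound _) hbb

/-- the square norm of the weak mean -/
theorem HL_sq (P : RotSys F Z) (M : Mean (K F)) (hM : M.IsInv) {φ H : Z → ℂ} (hφ : BM φ)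
    (hH : BM H) (hmean : ∀ G : Z → ℂ, MemLp G 2 P.m →
      ∫ z, H z * G z ∂P.m = M.cx (fun v => ∫ z, φ (P.T v z) * G z ∂P.m)) :
    ∫ z, H z * (starRingEnd ℂ) (H z) ∂P.m = ∫ z, φ z * (starRingEnd ℂ) (H z) ∂P.m := by
  have hT : ∀ v, Measurable (P.T v) := fun v => (P.T_mp v).measurable
  have hc : Measurable (fun z => (starRingEnd ℂ) (H z)) :=
    (Complex.continuous_conj.measurable).comp hH.meas
  have hcb : ∀ z, ‖(starRingEnd ℂ) (H z)‖ ≤ 1 := fun z => by
    rw [RCLike.norm_conj]; exact hH.bound z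
  rw [hmean _ (HL_memLp hc hcb)]
  have h : ∀ v, ∫ z, φ (P.T v z) * (starRingEnd ℂ) (H z) ∂P.m =
      ∫ z, φ z * (starRingEnd ℂ) (H z) ∂P.m := by
    intro v
    rw [← integral_comp_T P v (fun z => φ z * (starRingEnd ℂ) (H z))
      ((hφ.meas.mul hc).aestronglyMeasurable)]
    refine integral_congr_ae ?_
    filter_upwards [HL_inv P M hM hφ hH hmean v] with z hz
    rw [hz]
  rw [show (fun v => ∫ z, φ (P.T v z) * (starRingEnd ℂ) (H z) ∂P.m) =
    fun _ => ∫ z, φ z * (starRingEnd ℂ) (H z) ∂P.m from funext h, M.cx_const]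

/-- norm of an `L²` class -/
theorem HL_norm_toLp {μ : Measure Z} {f : Z → ℂ} (hf : MemLp f 2 μ) :
    ‖hf.toLp f‖ ^ 2 = ∫ z, ‖f z‖ ^ 2 ∂μ := by
  have h1 : inner ℂ (hf.toLp f) (hf.toLp f) = ((‖hf.toLp f‖ ^ 2 : ℝ) : ℂ) := by
    rw [inner_self_eq_norm_sq_to_K]; push_cast; rfl
  have h2 : inner ℂ (hf.toLp f) (hf.toLp f) = ((∫ z, ‖f z‖ ^ 2 ∂μ : ℝ) : ℂ) := by
    rw [L2.inner_def, ← integral_complex_ofReal]
    refine integral_congr_ae ?_
    filter_upwards [hf.coeFn_toLp] with z hz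
    rw [hz, inner_self_eq_norm_sq_to_K]; push_cast; rfl
  rw [h1] at h2
  exact_mod_cast h2

/-- the weak mean is in the closed span -/
theorem HL_span (P : RotSys F Z) (M : Mean (K F)) {φ H : Z → ℂ} (hφ : BM φ)
    (hH : BM H) (hmean : ∀ G : Z → ℂ, MemLp G 2 P.m →
      ∫ z, H z * G z ∂P.m = M.cx (fun v => ∫ z, φ (P.T v z) * G z ∂P.m)) {ε : ℝ} (hε : 0 < ε) :
    ∃ (n : ℕ) (v : Fin n → K F) (α : Fin n → ℂ),
      ∫ z, ‖H z - ∑ r, α r * φ (P.T (v r) z)‖ ^ 2 ∂P.m ≤ ε ^ 2 := by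
  have hT : ∀ v, Measurable (P.T v) := fun v => (P.T_mp v).measurable
  have hφm : ∀ v, MemLp (fun z => φ (P.T v z)) 2 P.m := fun v =>
    HL_memLp (C := 1) (hφ.meas.comp (hT v)) (fun z => hφ.bound _)
  have hHm : MemLp H 2 P.m := HL_memLp hH.meas hH.bound
  set Φ : K F → Lp ℂ 2 P.m := fun v => (hφm v).toLp _ with hΦ
  set h : Lp ℂ 2 P.m := hHm.toLp H with hh
  have hmem : h ∈ (Submodule.span ℂ (Set.range Φ)).topologicalClosure := by
    rw [← Submodule.orthogonal_orthogonal_eq_closure, Submodule.mem_orthogonal]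
    intro w hw
    rw [Submodule.mem_orthogonal] at hw
    have hw' : ∀ v, ∫ z, φ (P.T v z) * (starRingEnd ℂ) (w z) ∂P.m = 0 := by
      intro v
      have h1 := hw (Φ v) (Submodule.subset_span ⟨v, rfl⟩)
      have h2 : inner ℂ w (Φ v) = 0 := inner_eq_zero_symm.1 h1
      rw [L2.inner_def] at h2
      rw [← h2]
      refine integral_congr_ae ?_
      filter_upwards [(hφm v).coeFn_toLp] with z hz
      rw [RCLike.inner_apply, hΦ]
      simp only
      rw [hz]
    have hwm : MemLp (fun z => (starRingEnd ℂ) (w z)) 2 P.m := (Lp.memLp w).star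
    have h3 := hmean _ hwm
    rw [L2.inner_def]
    have h4 : ∫ z, inner ℂ (w z) (h z) ∂P.m = ∫ z, H z * (starRingEnd ℂ) (w z) ∂P.m := by
      refine integral_congr_ae ?_
      filter_upwards [hHm.coeFn_toLp] with z hz
      rw [RCLike.inner_apply, hh, hz]
    rw [h4, h3, show (fun v => ∫ z, φ (P.T v z) * (starRingEnd ℂ) (w z) ∂P.m) = fun _ => 0 from
      funext hw', M.cx_const]
  rw [← SetLike.mem_coe, Submodule.topologicalClosure_coe, Metric.mem_closure_iff] at hmem
  obtain ⟨s, hs, hd⟩ := hmem ε hε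
  rw [SetLike.mem_coe, Finsupp.mem_span_range_iff_exists_finsupp] at hs
  obtain ⟨c, hc⟩ := hs
  let e := c.support.equivFin
  refine ⟨c.support.card, fun r => (e.symm r : K F), fun r => c (e.symm r : K F), ?_⟩
  have hsum : ∀ z, ∑ r, c (e.symm r : K F) * φ (P.T (e.symm r : K F) z) =
      ∑ v ∈ c.support, c v * φ (P.T v z) := by
    intro z
    rw [Equiv.sum_comp e.symm (fun v : c.support => c (v : K F) * φ (P.T (v : K F) z)),
      Finset.sum_coe_sort c.support (fun v => c v * φ (P.T v z))]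
  have hdm : MemLp (fun z => H z - ∑ v ∈ c.support, c v * φ (P.T v z)) 2 P.m := by
    refine hHm.sub ?_
    exact memLp_finsetSum _ fun v _ => (hφm v).const_mul (c v)
  have hkey : h - s = hdm.toLp _ := by
    have h5 : hdm.toLp _ = h - (memLp_finsetSum c.support
        (fun v _ => (hφm v).const_mul (c v))).toLp _ := MemLp.toLp_sub _ _
    have h6 : ∀ (t : Finset (K F)), (memLp_finsetSum t
        (fun v _ => (hφm v).const_mul (c v))).toLp _ = ∑ v ∈ t, c v • Φ v := by
      intro t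
      classical
      induction t using Finset.induction_on with
      | empty =>
        apply Lp.ext
        refine (MemLp.coeFn_toLp _).trans ?_
        simp only [Finset.sum_empty]
        exact (Lp.coeFn_zero ..).symm
      | insert a t ha ih =>
        rw [Finset.sum_insert ha, ← ih]
        apply Lp.ext
        refine (MemLp.coeFn_toLp _).trans ?_
        filter_upwards [Lp.coeFn_add (c a • Φ a) ((memLp_finsetSum t
          (fun v _ => (hφm v).const_mul (c v))).toLp _), Lp.coeFn_smul (c a) (Φ a),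
          (hφm a).coeFn_toLp, (memLp_finsetSum t
          (fun v _ => (hφm v).const_mul (c v))).coeFn_toLp] with z h1 h2 h3 h4
        rw [h1]
        simp only [Pi.add_apply]
        rw [h2, h4]
        simp only [Pi.smul_apply, smul_eq_mul]
        rw [Finset.sum_insert ha]
        congr 1
        rw [hΦ]
        simp only
        rw [h3]
    rw [h5, h6, ← hc]
    rfl
  have hfin : ∫ z, ‖H z - ∑ r, c (e.symm r : K F) * φ (P.T (e.symm r : K F) z)‖ ^ 2 ∂P.m =
      ‖h - s‖ ^ 2 := by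
    rw [hkey, HL_norm_toLp]
    refine integral_congr_ae (Filter.Eventually.of_forall fun z => ?_)
    simp only
    rw [hsum]
  rw [hfin]
  rw [dist_eq_norm] at hd
  exact pow_le_pow_left₀ (norm_nonneg _) hd.le 2

theorem HL_conj_meas {f : Z → ℂ} (hf : Measurable f) :
    Measurable (fun z => (starRingEnd ℂ) (f z)) :=
  (Complex.continuous_conj.measurable).comp hf

end HLaux

section HLpair

variable {S : RotSys F X} {W : SA X}

theorem HL_kernel_meas (D : PairData S W) {q : X × X → ℂ} (hq : Measurable q) :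
    Measurable (fun x => ∫ y, q (x, y) ∂D.κ x) := by
  have := D.markov
  exact (hq.stronglyMeasurable.integral_kernel_prod_right' (κ := D.κ)).measurable

theorem HL_kernel_measR (D : PairData S W) {q : X × X → ℝ} (hq : Measurable q) :
    Measurable (fun x => ∫ y, q (x, y) ∂D.κ x) := by
  have := D.markov
  exact (hq.stronglyMeasurable.integral_kernel_prod_right' (κ := D.κ)).measurable

theorem HL_kernel_bound (D : PairData S W) {q : X × X → ℂ} {C : ℝ} (hC : ∀ p, ‖q p‖ ≤ C) (x : X) :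
    ‖∫ y, q (x, y) ∂D.κ x‖ ≤ C := by
  have := D.markov
  have h := norm_integral_le_of_norm_le_const (μ := D.κ x) (f := fun y => q (x, y)) (C := C)
    (Filter.Eventually.of_forall fun y => hC _)
  simpa using h

/-- integration of a product over the pair measure -/
theorem HL_fubini (D : PairData S W) {q : X × X → ℂ} {b : X → ℂ} {C C' : ℝ} (hq : Measurable q)
    (hC : ∀ p, ‖q p‖ ≤ C) (hb : Measurable b) (hC' : ∀ x, ‖b x‖ ≤ C') :
    ∫ x, (∫ y, q (x, y) ∂D.κ x) * b x ∂S.m = ∫ p, q p * b p.1 ∂D.P.m := by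
  have := D.markov
  rw [D.integral_eq (f := fun p => q p * b p.1)]
  · refine integral_congr_ae (Filter.Eventually.of_forall fun x => ?_)
    simp only
    rw [integral_mul_const]
  · exact HL_int (C := C * C') (hq.mul (hb.comp measurable_fst)) fun p => by
      rw [norm_mul]
      exact mul_le_mul (hC p) (hC' _) (norm_nonneg _) ((norm_nonneg _).trans (hC p))

/-- the function `g_0` of the proof is conditionally almost periodic -/
theorem HL_cap (hW : S.InvAlg W) (D : PairData S W) (M : Mean (K F)) (hM : M.IsInv) {f : X → ℂ}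
    (hf : BM f) {H : X × X → ℂ} (hH : BM H) (hmean : ∀ G : X × X → ℂ, MemLp G 2 D.P.m →
      ∫ z, H z * G z ∂D.P.m = M.cx (fun v => ∫ z, (fun p : X × X =>
        f p.1 * (starRingEnd ℂ) (f p.2)) (D.P.T v z) * G z ∂D.P.m)) :
    S.CAP W (fun x => ∫ y, (starRingEnd ℂ) (f y) * (starRingEnd ℂ) (H (x, y)) ∂D.κ x) := by
  have := D.markov
  have hT : ∀ v, Measurable (S.T v) := fun v => (S.T_mp v).measurable
  have hφ : BM (fun p : X × X => f p.1 * (starRingEnd ℂ) (f p.2)) := by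
    refine ⟨(hf.meas.comp measurable_fst).mul (HL_conj_meas (hf.meas.comp measurable_snd)),
      fun p => ?_⟩
    rw [norm_mul, RCLike.norm_conj]
    exact mul_le_one₀ (hf.bound _) (norm_nonneg _) (hf.bound _)
  have hinv := HL_inv D.P M hM hφ hH hmean
  -- the functions `g_u`
  have hqm : ∀ u : K F, Measurable (fun p : X × X =>
      (starRingEnd ℂ) (f (S.T u p.2)) * (starRingEnd ℂ) (H p)) := fun u =>
    (HL_conj_meas (hf.meas.comp ((hT u).comp measurable_snd))).mul (HL_conj_meas hH.meas)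
  have hqb : ∀ (u : K F) (p : X × X),
      ‖(starRingEnd ℂ) (f (S.T u p.2)) * (starRingEnd ℂ) (H p)‖ ≤ 1 := fun u p => by
    rw [norm_mul, RCLike.norm_conj, RCLike.norm_conj]
    exact mul_le_one₀ (hf.bound _) (norm_nonneg _) (hH.bound _)
  have hqm0 : Measurable (fun p : X × X =>
      (starRingEnd ℂ) (f p.2) * (starRingEnd ℂ) (H p)) :=
    (HL_conj_meas (hf.meas.comp measurable_snd)).mul (HL_conj_meas hH.meas)
  have hqb0 : ∀ (p : X × X),
      ‖(starRingEnd ℂ) (f p.2) * (starRingEnd ℂ) (H p)‖ ≤ 1 := fun p => by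
    rw [norm_mul, RCLike.norm_conj, RCLike.norm_conj]
    exact mul_le_one₀ (hf.bound _) (norm_nonneg _) (hH.bound _)
  have hg0m := HL_kernel_meas D hqm0
  have hgu : ∀ u : K F, (fun x => (fun x => ∫ y, (starRingEnd ℂ) (f y) *
      (starRingEnd ℂ) (H (x, y)) ∂D.κ x) (S.T u x)) =ᵐ[S.m]
      fun x => ∫ y, (starRingEnd ℂ) (f (S.T u y)) * (starRingEnd ℂ) (H (x, y)) ∂D.κ x := by
    intro u
    refine HL_ae_eq (C := 1) (hg0m.comp (hT u)) (HL_kernel_meas D (hqm u))
      (fun x => HL_kernel_bound D hqb0 _) (fun x => HL_kernel_bound D (hqb u) _) ?_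
    intro b hb hbb
    have e1 : ∫ x, (fun x => ∫ y, (starRingEnd ℂ) (f y) *
        (starRingEnd ℂ) (H (x, y)) ∂D.κ x) (S.T u x) * b x ∂S.m =
        ∫ x, (∫ y, (starRingEnd ℂ) (f y) * (starRingEnd ℂ) (H (x, y)) ∂D.κ x) *
          b (S.T u⁻¹ x) ∂S.m := by
      rw [← integral_comp_T S u (fun x => (∫ y, (starRingEnd ℂ) (f y) *
        (starRingEnd ℂ) (H (x, y)) ∂D.κ x) * b (S.T u⁻¹ x))
        ((hg0m.mul (hb.comp (hT _))).aestronglyMeasurable)]
      refine integral_congr_ae (Filter.Eventually.of_forall fun z => ?_)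
      simp only
      rw [← S.T_mul, inv_mul_cancel, S.T_one]
    have hbu : Measurable (fun x => b (S.T u⁻¹ x)) := hb.comp (hT _)
    rw [e1, HL_fubini D hqm0 hqb0 hbu (fun x => hbb _), HL_fubini D (hqm u) (hqb u) hb hbb]
    rw [← integral_comp_T D.P u (fun p : X × X => (starRingEnd ℂ) (f p.2) *
      (starRingEnd ℂ) (H p) * b (S.T u⁻¹ p.1))
      ((hqm0.mul (hbu.comp measurable_fst)).aestronglyMeasurable)]
    refine integral_congr_ae ?_
    filter_upwards [hinv u] with p hp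
    rw [hp, D.P_T]
    simp only
    rw [← S.T_mul, inv_mul_cancel, S.T_one]
  intro δ hδ
  obtain ⟨n, v, α, hα⟩ := HL_span D.P M hφ hH hmean hδ
  have hCr : ∀ r : Fin n, ‖α r‖ ≤ 1 + ∑ r, ‖α r‖ := fun r => by
    have := Finset.single_le_sum (f := fun r => ‖α r‖) (fun i _ => norm_nonneg _)
      (Finset.mem_univ r)
    linarith
  have hC0 : (1 : ℝ) ≤ 1 + ∑ r, ‖α r‖ := by
    have : 0 ≤ ∑ r, ‖α r‖ := Finset.sum_nonneg fun i _ => norm_nonneg _
    linarith
  refine ⟨n, fun r x => (starRingEnd ℂ) (α r) * (starRingEnd ℂ) (f (S.T (v r) x)),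
    1 + ∑ r, ‖α r‖, by linarith, fun r => measurable_const.mul
      (HL_conj_meas (hf.meas.comp (hT _))), fun r x => ?_, fun u => ?_⟩
  · rw [norm_mul, RCLike.norm_conj, RCLike.norm_conj]
    calc ‖α r‖ * ‖f (S.T (v r) x)‖ ≤ ‖α r‖ * 1 :=
          mul_le_mul_of_nonneg_left (hf.bound _) (norm_nonneg _)
      _ ≤ _ := by rw [mul_one]; exact hCr r
  · have hfr : ∀ r : Fin n, BM (fun x => f (S.T (v r) x) * (starRingEnd ℂ) (f (S.T u x))) := by
      intro r
      refine ⟨(hf.meas.comp (hT _)).mul (HL_conj_meas (hf.meas.comp (hT _))), fun x => ?_⟩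
      rw [norm_mul, RCLike.norm_conj]
      exact mul_le_one₀ (hf.bound _) (norm_nonneg _) (hf.bound _)
    choose c hcm hcb hce using fun r => exists_bounded_condExp S.m hW.le (hfr r)
    refine ⟨c, hcm, fun r x => (hcb r x).trans hC0, ?_⟩
    set E : X × X → ℂ := fun p => H p - ∑ r, α r * ((fun p : X × X =>
        f p.1 * (starRingEnd ℂ) (f p.2)) (D.P.T (v r) p)) with hE
    have hEm : Measurable E := by
      refine hH.meas.sub (Finset.measurable_sum _ fun r _ => measurable_const.mul ?_)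
      exact hφ.meas.comp (D.P.T_mp (v r)).measurable
    have hEb : ∀ p, ‖E p‖ ≤ 1 + ∑ r, ‖α r‖ := by
      intro p
      refine (norm_sub_le _ _).trans (add_le_add (hH.bound p) ?_)
      refine (norm_sum_le _ _).trans (Finset.sum_le_sum fun r _ => ?_)
      rw [norm_mul]
      calc ‖α r‖ * _ ≤ ‖α r‖ * 1 := mul_le_mul_of_nonneg_left (hφ.bound _) (norm_nonneg _)
        _ = ‖α r‖ := mul_one _
    have hκ : ∀ r : Fin n, (fun x => ∫ y, f (S.T (v r) y) * (starRingEnd ℂ) (f (S.T u y))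
        ∂D.κ x) =ᵐ[S.m] c r := fun r => (D.κ_spec _ (hfr r)).trans (hce r)
    have hall : ∀ᵐ x ∂S.m, ∀ r : Fin n, ∫ y, f (S.T (v r) y) * (starRingEnd ℂ) (f (S.T u y))
        ∂D.κ x = c r x := ae_all_iff.2 hκ
    have hpt : ∀ᵐ x ∂S.m, ‖(fun x => ∫ y, (starRingEnd ℂ) (f y) *
        (starRingEnd ℂ) (H (x, y)) ∂D.κ x) (S.T u x) - ∑ r, (starRingEnd ℂ) (α r) *
        (starRingEnd ℂ) (f (S.T (v r) x)) * c r x‖ ^ 2 ≤ ∫ y, ‖E (x, y)‖ ^ 2 ∂D.κ x := by
      filter_upwards [hgu u, hall] with x hx1 hx2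
      rw [hx1]
      have hint : ∀ r : Fin n, Integrable (fun y => f (S.T (v r) y) *
          (starRingEnd ℂ) (f (S.T u y))) (D.κ x) := fun r => HL_int (hfr r).meas (hfr r).bound
      have heq : ∫ y, (starRingEnd ℂ) (f (S.T u y)) * (starRingEnd ℂ) (H (x, y)) ∂D.κ x -
          ∑ r, (starRingEnd ℂ) (α r) * (starRingEnd ℂ) (f (S.T (v r) x)) * c r x =
          ∫ y, (starRingEnd ℂ) (f (S.T u y)) * (starRingEnd ℂ) (E (x, y)) ∂D.κ x := by
        have h1 : (fun y => (starRingEnd ℂ) (f (S.T u y)) * (starRingEnd ℂ) (E (x, y))) =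
            fun y => (starRingEnd ℂ) (f (S.T u y)) * (starRingEnd ℂ) (H (x, y)) -
              ∑ r, ((starRingEnd ℂ) (α r) * (starRingEnd ℂ) (f (S.T (v r) x))) *
                (f (S.T (v r) y) * (starRingEnd ℂ) (f (S.T u y))) := by
          funext y
          simp only [hE, map_sub, map_sum, map_mul, Complex.conj_conj, D.P_T, mul_sub,
            Finset.mul_sum]
          congr 1
          refine Finset.sum_congr rfl fun r _ => ?_
          ring
        have h2 : Integrable (fun y => (starRingEnd ℂ) (f (S.T u y)) *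
            (starRingEnd ℂ) (H (x, y))) (D.κ x) :=
          HL_int ((hqm u).comp measurable_prodMk_left) (fun y => hqb u (x, y))
        have h3 : ∀ r ∈ (Finset.univ : Finset (Fin n)), Integrable (fun y =>
            ((starRingEnd ℂ) (α r) * (starRingEnd ℂ) (f (S.T (v r) x))) *
                (f (S.T (v r) y) * (starRingEnd ℂ) (f (S.T u y)))) (D.κ x) :=
          fun r _ => (hint r).const_mul _
        rw [h1, integral_sub h2 (integrable_finsetSum _ h3), integral_finsetSum _ h3]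
        congr 1
        refine Finset.sum_congr rfl fun r _ => ?_
        rw [integral_const_mul, hx2 r]
      rw [heq]
      have hn : ‖∫ y, (starRingEnd ℂ) (f (S.T u y)) * (starRingEnd ℂ) (E (x, y)) ∂D.κ x‖ ≤
          ∫ y, ‖E (x, y)‖ ∂D.κ x := by
        refine (norm_integral_le_integral_norm _).trans ?_
        refine integral_mono_of_nonneg (Filter.Eventually.of_forall fun y => norm_nonneg _)
          ?_ (Filter.Eventually.of_forall fun y => ?_)
        · exact HL_intR (C := 1 + ∑ r, ‖α r‖) ((hEm.comp measurable_prodMk_left).norm)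
            fun y => by rw [abs_of_nonneg (norm_nonneg _)]; exact hEb _
        · simp only
          rw [norm_mul, RCLike.norm_conj, RCLike.norm_conj]
          calc ‖f (S.T u y)‖ * ‖E (x, y)‖ ≤ 1 * ‖E (x, y)‖ :=
                mul_le_mul_of_nonneg_right (hf.bound _) (norm_nonneg _)
            _ = _ := one_mul _
      calc _ ≤ (∫ y, ‖E (x, y)‖ ∂D.κ x) ^ 2 := pow_le_pow_left₀ (norm_nonneg _) hn 2
        _ ≤ _ := HL_jensen (C := 1 + ∑ r, ‖α r‖) ((hEm.comp measurable_prodMk_left).norm)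
            fun y => by rw [abs_of_nonneg (norm_nonneg _)]; exact hEb _
    have hE2m : Measurable (fun p => ‖E p‖ ^ 2) := hEm.norm.pow_const 2
    have hE2b : ∀ p, |‖E p‖ ^ 2| ≤ (1 + ∑ r, ‖α r‖) ^ 2 := fun p => by
      rw [abs_of_nonneg (by positivity)]
      exact pow_le_pow_left₀ (norm_nonneg _) (hEb p) 2
    have hk2 : ∀ x, |∫ y, ‖E (x, y)‖ ^ 2 ∂D.κ x| ≤ (1 + ∑ r, ‖α r‖) ^ 2 := by
      intro x
      have h := norm_integral_le_of_norm_le_const (μ := D.κ x) (f := fun y => ‖E (x, y)‖ ^ 2)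
        (C := (1 + ∑ r, ‖α r‖) ^ 2) (Filter.Eventually.of_forall fun y => hE2b _)
      simpa using h
    calc _ ≤ ∫ x, ∫ y, ‖E (x, y)‖ ^ 2 ∂D.κ x ∂S.m := by
          refine integral_mono_of_nonneg (Filter.Eventually.of_forall fun x => by positivity)
            (HL_intR (HL_kernel_measR D hE2m) hk2) hpt
      _ = ∫ p, ‖E p‖ ^ 2 ∂D.P.m := (D.integral_eq (HL_intR hE2m hE2b)).symm
      _ ≤ δ ^ 2 := hα

end HLpair

/-- Lemma 4 (H-lemma) -/
theorem hlemma [StandardBorelSpace X] (hF : RadClosed F) (S : RotSys F X) {W : SA X}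
    (hW : S.InvAlg W) (M : Mean (K F)) (hM : M.IsInv) {f g : X → ℂ} (hf : BM f) (hg : BM g)
    (h0 : S.m[f | (S.plus W).ms] =ᵐ[S.m] 0) :
    M.toFun (fun v => ∫ x, ‖(S.m[fun x => f (S.T v x) * g x | W.ms]) x‖ ^ 2 ∂S.m) = 0 := by
  obtain ⟨D⟩ := exists_pairData S hW
  have := D.markov
  have hT : ∀ v, Measurable (S.T v) := fun v => (S.T_mp v).measurable
  have hφ : BM (fun p : X × X => f p.1 * (starRingEnd ℂ) (f p.2)) := by
    refine ⟨(hf.meas.comp measurable_fst).mul (HL_conj_meas (hf.meas.comp measurable_snd)),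
      fun p => ?_⟩
    rw [norm_mul, RCLike.norm_conj]
    exact mul_le_one₀ (hf.bound _) (norm_nonneg _) (hf.bound _)
  obtain ⟨H, hH, hmean⟩ := exists_fmean M D.P.m (fun v z => (fun p : X × X =>
    f p.1 * (starRingEnd ℂ) (f p.2)) (D.P.T v z))
    (fun v => ⟨hφ.meas.comp (D.P.T_mp v).measurable, fun z => hφ.bound _⟩)
  have hcap := HL_cap hW D M hM hf hH hmean
  have hqm0 : Measurable (fun p : X × X =>
      (starRingEnd ℂ) (f p.2) * (starRingEnd ℂ) (H p)) :=
    (HL_conj_meas (hf.meas.comp measurable_snd)).mul (HL_conj_meas hH.meas)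
  have hqb0 : ∀ (p : X × X),
      ‖(starRingEnd ℂ) (f p.2) * (starRingEnd ℂ) (H p)‖ ≤ 1 := fun p => by
    rw [norm_mul, RCLike.norm_conj, RCLike.norm_conj]
    exact mul_le_one₀ (hf.bound _) (norm_nonneg _) (hH.bound _)
  have hg0 : BM (fun x => ∫ y, (starRingEnd ℂ) (f y) * (starRingEnd ℂ) (H (x, y)) ∂D.κ x) :=
    ⟨HL_kernel_meas D hqm0, fun x => HL_kernel_bound D hqb0 x⟩
  have hmeas := meas_plus_of_cap S hW hg0 hcap
  have hz : ∫ x, f x * (∫ y, (starRingEnd ℂ) (f y) * (starRingEnd ℂ) (H (x, y)) ∂D.κ x) ∂S.m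
      = 0 := by
    rw [integral_mul_of_meas S.m (plus_invAlg S hW).le (HL_int hf.meas hf.bound) hmeas
      (C := 1) hg0.bound]
    have h1 : (fun x => (S.m[f | (S.plus W).ms]) x *
        ∫ y, (starRingEnd ℂ) (f y) * (starRingEnd ℂ) (H (x, y)) ∂D.κ x) =ᵐ[S.m] fun _ => 0 := by
      filter_upwards [h0] with x hx
      rw [hx]
      simp
    rw [integral_congr_ae h1]
    simp
  have hH0 : H =ᵐ[D.P.m] 0 := by
    refine HL_ae_zero hH.meas hH.bound ?_
    rw [HL_sq D.P M hM hφ hH hmean, ← hz]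
    have h1 := HL_fubini D (S := S) hqm0 hqb0 hf.meas hf.bound
    calc ∫ z, (fun p : X × X => f p.1 * (starRingEnd ℂ) (f p.2)) z *
          (starRingEnd ℂ) (H z) ∂D.P.m
        = ∫ p, ((starRingEnd ℂ) (f p.2) * (starRingEnd ℂ) (H p)) * f p.1 ∂D.P.m := by
          refine integral_congr_ae (Filter.Eventually.of_forall fun p => ?_)
          simp only
          ring
      _ = _ := h1.symm
      _ = _ := by
          refine integral_congr_ae (Filter.Eventually.of_forall fun p => ?_)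
          simp only
          ring
  -- conclusion
  have hψm : Measurable (fun p : X × X => g p.1 * (starRingEnd ℂ) (g p.2)) :=
    (hg.meas.comp measurable_fst).mul (HL_conj_meas (hg.meas.comp measurable_snd))
  have hψb : ∀ p : X × X, ‖g p.1 * (starRingEnd ℂ) (g p.2)‖ ≤ 1 := fun p => by
    rw [norm_mul, RCLike.norm_conj]
    exact mul_le_one₀ (hg.bound _) (norm_nonneg _) (hg.bound _)
  have hmain := hmean _ (HL_memLp hψm hψb)
  have hl : ∫ z, H z * (g z.1 * (starRingEnd ℂ) (g z.2)) ∂D.P.m = 0 := by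
    have h1 : (fun z => H z * (g z.1 * (starRingEnd ℂ) (g z.2))) =ᵐ[D.P.m] fun _ => 0 := by
      filter_upwards [hH0] with z hz
      rw [hz]
      simp
    rw [integral_congr_ae h1]
    simp
  rw [hl] at hmain
  have hv : ∀ v : K F, ∫ z, (fun p : X × X => f p.1 * (starRingEnd ℂ) (f p.2)) (D.P.T v z) *
      (g z.1 * (starRingEnd ℂ) (g z.2)) ∂D.P.m =
      ((∫ x, ‖(S.m[fun x => f (S.T v x) * g x | W.ms]) x‖ ^ 2 ∂S.m : ℝ) : ℂ) := by
    intro v
    have hfg : BM (fun x => f (S.T v x) * g x) := by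
      refine ⟨(hf.meas.comp (hT v)).mul hg.meas, fun x => ?_⟩
      rw [norm_mul]
      exact mul_le_one₀ (hf.bound _) (norm_nonneg _) (hg.bound _)
    rw [← D.integral_sq hW.le hfg]
    refine integral_congr_ae (Filter.Eventually.of_forall fun z => ?_)
    simp only [D.P_T, map_mul]
    ring
  rw [show (fun v => ∫ z, (fun p : X × X => f p.1 * (starRingEnd ℂ) (f p.2)) (D.P.T v z) *
      (g z.1 * (starRingEnd ℂ) (g z.2)) ∂D.P.m) = fun v =>
      ((∫ x, ‖(S.m[fun x => f (S.T v x) * g x | W.ms]) x‖ ^ 2 ∂S.m : ℝ) : ℂ) from funext hv,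
    M.cx_ofReal] at hmain
  exact_mod_cast hmain.symm

end Pool.Agent.RadPD
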