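import Pool.Agent.RadPD.MB
import Pool.Agent.RadPD.FL
import Pool.Agent.RadPD.FM

set_option autoImplicit false

namespace Pool.Agent.RadPD

open MeasureTheory ProbabilityTheory

variable {F : Subfield ℂ} {X : Type*} [mX : MeasurableSpace X]

/-! ## Module L1: Lemma 1 (local means vanish under condition (D)) -/

private theorem L1_memLp (m : Measure X) [IsProbabilityMeasure m] {f : X → ℂ} (hf : Measurable f)
    {C : ℝ} (h : ∀ x, ‖f x‖ ≤ C) : MemLp f 2 m :=
  MemLp.of_bound hf.aestronglyMeasurable C (Filter.Eventually.of_forall h)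

private theorem L1_integrable (m : Measure X) [IsProbabilityMeasure m] {f : X → ℂ}
    (hf : Measurable f) {C : ℝ} (h : ∀ x, ‖f x‖ ≤ C) : Integrable f m :=
  (L1_memLp m hf h).integrable (by norm_num)

private theorem L1_integrable_real (m : Measure X) [IsProbabilityMeasure m] {f : X → ℝ}
    (hf : Measurable f) {C : ℝ} (h : ∀ x, |f x| ≤ C) : Integrable f m :=
  (MemLp.of_bound (p := 2) hf.aestronglyMeasurable C (Filter.Eventually.of_forall h)).integrable
    (by norm_num)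

private theorem L1_norm_sub_one (S : RotSys F X) (z : F) (x : X) : ‖S.e z x - 1‖ ≤ 2 := by
  refine (norm_sub_le _ _).trans ?_
  rw [S.e_norm, norm_one]
  norm_num

private theorem L1_bound (S : RotSys F X) (s : F0 F) (M : Mean (F0 F))
    (hM : IsLocMean F s M) (k : ℕ) (w : F) (V : X → ℂ) (hV : BM V)
    (hVm : ∀ g : X → ℂ, MemLp g 2 S.m →
      ∫ x, V x * g x ∂S.m = M.cx (fun t => ∫ x, S.e ((k : F) * cR F t * w) x * g x ∂S.m))
    (τ : F0 F) (hτ : |(τ : ℝ)| ≤ s) :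
    ∫ x, ‖S.e ((k : F) * cR F τ * w) x - 1‖ ^ 2 * ‖V x‖ ^ 2 ∂S.m ≤
      4 * |(τ : ℝ)| / s * 2 := by
  obtain ⟨E, hE⟩ : ∃ E : X → ℂ, E = S.e ((k : F) * cR F τ * w) := ⟨_, rfl⟩
  have hEm : Measurable E := hE ▸ S.e_meas _
  have hE2 : ∀ x, ‖E x - 1‖ ≤ 2 := fun x => hE ▸ L1_norm_sub_one S _ x
  obtain ⟨h, hh⟩ : ∃ h : X → ℂ, h = fun x => (E x - 1) * V x := ⟨_, rfl⟩
  have hhm : Measurable h := hh ▸ (hEm.sub_const 1).mul hV.meas
  have hh2 : ∀ x, ‖h x‖ ≤ 2 := by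
    intro x
    rw [hh]
    simp only [norm_mul]
    calc ‖E x - 1‖ * ‖V x‖ ≤ 2 * 1 :=
          mul_le_mul (hE2 x) (hV.bound x) (norm_nonneg _) (by norm_num)
      _ = 2 := by norm_num
  have hcm : Measurable (fun x => (starRingEnd ℂ) (h x)) :=
    Complex.continuous_conj.measurable.comp hhm
  have hc2 : ∀ x, ‖(starRingEnd ℂ) (h x)‖ ≤ 2 := fun x => by
    rw [RCLike.norm_conj]; exact hh2 x
  obtain ⟨φ, hφ⟩ : ∃ φ : F0 F → ℂ, φ = fun t =>
      ∫ x, S.e ((k : F) * cR F t * w) x * (starRingEnd ℂ) (h x) ∂S.m := ⟨_, rfl⟩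
  have hint : ∀ t : F0 F, Integrable
      (fun x => S.e ((k : F) * cR F t * w) x * (starRingEnd ℂ) (h x)) S.m := fun t =>
    L1_integrable S.m ((S.e_meas _).mul hcm) (C := 2) fun x => by
      rw [norm_mul, S.e_norm, one_mul]; exact hc2 x
  have hφ2 : ∀ t, ‖φ t‖ ≤ 2 := by
    intro t
    rw [hφ]
    have h1 := norm_integral_le_of_norm_le_const (μ := S.m)
      (f := fun x => S.e ((k : F) * cR F t * w) x * (starRingEnd ℂ) (h x)) (C := 2)
      (Filter.Eventually.of_forall fun x => by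
        rw [norm_mul, S.e_norm, one_mul]; exact hc2 x)
    simpa using h1
  -- the main identity
  have key := hVm (fun x => (E x - 1) * (starRingEnd ℂ) (h x))
    (L1_memLp S.m ((hEm.sub_const 1).mul hcm) (C := 2 * 2) fun x => by
      rw [norm_mul]
      exact mul_le_mul (hE2 x) (hc2 x) (norm_nonneg _) (by norm_num))
  have hlhs : ∫ x, V x * ((E x - 1) * (starRingEnd ℂ) (h x)) ∂S.m =
      ((∫ x, ‖E x - 1‖ ^ 2 * ‖V x‖ ^ 2 ∂S.m : ℝ) : ℂ) := by
    have h0 : ((∫ x, ‖E x - 1‖ ^ 2 * ‖V x‖ ^ 2 ∂S.m : ℝ) : ℂ) =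
        ∫ x, ((‖E x - 1‖ ^ 2 * ‖V x‖ ^ 2 : ℝ) : ℂ) ∂S.m := (integral_ofReal (𝕜 := ℂ)).symm
    rw [h0]
    refine integral_congr_ae (Filter.Eventually.of_forall fun x => ?_)
    have h1 : V x * ((E x - 1) * (starRingEnd ℂ) (h x)) = h x * (starRingEnd ℂ) (h x) := by
      rw [hh]; ring
    simp only []
    rw [h1, Complex.mul_conj, Complex.normSq_eq_norm_sq, hh]
    simp only [norm_mul]
    push_cast
    ring
  have hrhs : (fun t => ∫ x, S.e ((k : F) * cR F t * w) x *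
      ((E x - 1) * (starRingEnd ℂ) (h x)) ∂S.m) = fun t => φ (t + τ) - φ t := by
    funext t
    rw [hφ]
    simp only []
    rw [← integral_sub (hint (t + τ)) (hint t)]
    refine integral_congr_ae (Filter.Eventually.of_forall fun x => ?_)
    have h1 : (k : F) * cR F (t + τ) * w = (k : F) * cR F t * w + (k : F) * cR F τ * w := by
      rw [cR_add]; ring
    simp only []
    rw [h1, S.e_add, ← hE]
    ring
  rw [hlhs, hrhs] at key
  have hre := congrArg Complex.re key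
  rw [Complex.ofReal_re, Mean.re_cx] at hre
  have hb1 : ∀ t, |(φ t).re| ≤ 2 := fun t => (Complex.abs_re_le_norm _).trans (hφ2 t)
  have hbdd : Bdd (fun t => (φ t).re) := ⟨2, hb1⟩
  have hbdd' : Bdd (fun t => (φ (t + τ)).re) := ⟨2, fun t => hb1 _⟩
  have h3 : M.toFun (fun t => (φ (t + τ) - φ t).re) =
      M.toFun (fun t => (φ (t + τ)).re) - M.toFun (fun t => (φ t).re) := by
    rw [← Mean.map_sub M hbdd' hbdd]
    rfl
  rw [h3] at hre
  have h4 := hM.inv (fun t => (φ t).re) 2 hb1 τ hτ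
  rw [← hE, hre]
  exact (le_abs_self _).trans h4

/-- Lemma 1. -/
theorem locMean_integral_eq_zero (hF : RadClosed F) (S : RotSys F X) (hD : S.CondD) (s : F0 F)
    (hs : 0 < (s : ℝ)) (M : Mean (F0 F)) (hM : IsLocMean F s M) (k : ℕ) (hk : 0 < k) (w : F)
    (hw : w ≠ 0) (g : X → ℂ) (hg : MemLp g 2 S.m) :
    M.cx (fun t => ∫ x, S.e ((k : F) * cR F t * w) x * g x ∂S.m) = 0 := by
  obtain ⟨V, hV, hVm⟩ := exists_fmean M S.m (fun t => S.e ((k : F) * cR F t * w))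
    (fun t => ⟨S.e_meas _, fun x => (S.e_norm _ x).le⟩)
  have hB := L1_bound S s M hM k w V hV hVm
  -- transport to the other directions
  have htr : ∀ (u : K F) (τ : F0 F), |(τ : ℝ)| ≤ s →
      ∫ x, ‖S.e ((k : F) * cR F τ * (cK F u * w)) x - 1‖ ^ 2 * ‖V (S.T u x)‖ ^ 2 ∂S.m ≤
        4 * |(τ : ℝ)| / s * 2 := by
    intro u τ hτ
    refine le_of_eq_of_le ?_ (hB τ hτ)
    have hmeas : Measurable (fun x => ‖S.e ((k : F) * cR F τ * w) x - 1‖ ^ 2 * ‖V x‖ ^ 2) :=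
      ((((S.e_meas _).sub_const 1).norm).pow_const 2).mul (hV.meas.norm.pow_const 2)
    have h1 := integral_map (μ := S.m) (φ := S.T u) (S.T_mp u).measurable.aemeasurable
      (f := fun x => ‖S.e ((k : F) * cR F τ * w) x - 1‖ ^ 2 * ‖V x‖ ^ 2)
      hmeas.aestronglyMeasurable
    rw [(S.T_mp u).map_eq] at h1
    rw [h1]
    refine integral_congr_ae (Filter.Eventually.of_forall fun x => ?_)
    simp only []
    rw [S.e_rot]
    have h2 : cK F u * ((k : F) * cR F τ * w) = (k : F) * cR F τ * (cK F u * w) := by ring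
    rw [h2]
  have hVu : ∀ u : K F, Measurable (fun x => ‖V (S.T u x)‖ ^ 2) := fun u =>
    ((hV.meas.comp (S.T_mp u).measurable).norm).pow_const 2
  have hV1 : ∀ (u : K F) x, ‖V (S.T u x)‖ ^ 2 ≤ 1 := fun u x =>
    pow_le_one₀ (norm_nonneg _) (hV.bound _)
  -- products of two directions vanish
  have hprod : ∀ u v : K F, (((v : Circle) : ℂ) / ((u : Circle) : ℂ)).im ≠ 0 →
      ∀ᵐ x ∂S.m, ‖V (S.T u x)‖ ^ 2 * ‖V (S.T v x)‖ ^ 2 = 0 := by
    intro u v huv
    obtain ⟨C, hC, hco⟩ := exists_coords hF huv hw hk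
    refine hD (fun x => ‖V (S.T u x)‖ ^ 2 * ‖V (S.T v x)‖ ^ 2) ((hVu u).mul (hVu v))
      (fun x => by positivity) (fun x => ?_) ?_
    · exact mul_le_one₀ (hV1 u x) (by positivity) (hV1 v x)
    · intro ε hε
      refine ⟨min (s / C) (ε * s / (32 * C)), by positivity, fun z hz => ?_⟩
      obtain ⟨σ, τ, hσ, hτ, hz'⟩ := hco z
      have hz1 : C * ‖(z : ℂ)‖ ≤ s := by
        have := (hz.trans_le (min_le_left _ _)).le
        rw [le_div_iff₀ hC] at this
        linarith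
      have hz2 : 32 * (C * ‖(z : ℂ)‖) ≤ ε * s := by
        have := (hz.trans_le (min_le_right _ _)).le
        rw [le_div_iff₀ (by positivity)] at this
        linarith
      have hI1 := htr u σ (hσ.trans hz1)
      have hI2 := htr v τ (hτ.trans hz1)
      have hpt : ∀ x, ‖S.e z x - 1‖ ^ 2 * (‖V (S.T u x)‖ ^ 2 * ‖V (S.T v x)‖ ^ 2) ≤
          2 * (‖S.e ((k : F) * cR F σ * (cK F u * w)) x - 1‖ ^ 2 * ‖V (S.T u x)‖ ^ 2) +
          2 * (‖S.e ((k : F) * cR F τ * (cK F v * w)) x - 1‖ ^ 2 * ‖V (S.T v x)‖ ^ 2) := by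
        intro x
        obtain ⟨a, ha⟩ : ∃ a, a = S.e ((k : F) * cR F σ * (cK F u * w)) x := ⟨_, rfl⟩
        obtain ⟨b, hb⟩ : ∃ b, b = S.e ((k : F) * cR F τ * (cK F v * w)) x := ⟨_, rfl⟩
        have hab : S.e z x = a * b := by rw [hz', S.e_add, ha, hb]
        have hb1 : ‖b‖ = 1 := by rw [hb]; exact S.e_norm _ _
        rw [hab, ← ha, ← hb]
        have h1 : ‖a * b - 1‖ ≤ ‖a - 1‖ + ‖b - 1‖ := by
          have : a * b - 1 = (a - 1) * b + (b - 1) := by ring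
          rw [this]
          refine (norm_add_le _ _).trans ?_
          rw [norm_mul, hb1, mul_one]
        have h2 : ‖a * b - 1‖ ^ 2 ≤ 2 * ‖a - 1‖ ^ 2 + 2 * ‖b - 1‖ ^ 2 := by
          have h3 := pow_le_pow_left₀ (norm_nonneg _) h1 2
          nlinarith [sq_nonneg (‖a - 1‖ - ‖b - 1‖)]
        have p1 := hV1 u x
        have p2 := hV1 v x
        have q1 : 0 ≤ ‖V (S.T u x)‖ ^ 2 := by positivity
        have q2 : 0 ≤ ‖V (S.T v x)‖ ^ 2 := by positivity
        have r1 : 0 ≤ ‖a - 1‖ ^ 2 := by positivity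
        have r2 : 0 ≤ ‖b - 1‖ ^ 2 := by positivity
        calc ‖a * b - 1‖ ^ 2 * (‖V (S.T u x)‖ ^ 2 * ‖V (S.T v x)‖ ^ 2)
            ≤ (2 * ‖a - 1‖ ^ 2 + 2 * ‖b - 1‖ ^ 2) *
              (‖V (S.T u x)‖ ^ 2 * ‖V (S.T v x)‖ ^ 2) :=
              mul_le_mul_of_nonneg_right h2 (by positivity)
          _ = 2 * (‖a - 1‖ ^ 2 * ‖V (S.T u x)‖ ^ 2) * ‖V (S.T v x)‖ ^ 2 +
              2 * (‖b - 1‖ ^ 2 * ‖V (S.T v x)‖ ^ 2) * ‖V (S.T u x)‖ ^ 2 := by ring
          _ ≤ 2 * (‖a - 1‖ ^ 2 * ‖V (S.T u x)‖ ^ 2) * 1 +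
              2 * (‖b - 1‖ ^ 2 * ‖V (S.T v x)‖ ^ 2) * 1 := by
              gcongr
          _ = _ := by ring
      have hint : ∀ (ζ : F) (u : K F),
          Integrable (fun x => ‖S.e ζ x - 1‖ ^ 2 * ‖V (S.T u x)‖ ^ 2) S.m := by
        intro ζ u
        refine L1_integrable_real S.m (((((S.e_meas _).sub_const 1).norm).pow_const 2).mul (hVu u))
          (C := 4) fun x => ?_
        rw [abs_of_nonneg (by positivity)]
        have h1 := L1_norm_sub_one S ζ x
        have h2 : ‖S.e ζ x - 1‖ ^ 2 ≤ 4 := by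
          have := pow_le_pow_left₀ (norm_nonneg _) h1 2
          linarith
        calc ‖S.e ζ x - 1‖ ^ 2 * ‖V (S.T u x)‖ ^ 2 ≤ 4 * 1 :=
              mul_le_mul h2 (hV1 u x) (by positivity) (by norm_num)
          _ = 4 := by norm_num
      calc ∫ x, ‖S.e z x - 1‖ ^ 2 * (‖V (S.T u x)‖ ^ 2 * ‖V (S.T v x)‖ ^ 2) ∂S.m
          ≤ ∫ x, (2 * (‖S.e ((k : F) * cR F σ * (cK F u * w)) x - 1‖ ^ 2 *
              ‖V (S.T u x)‖ ^ 2) +
            2 * (‖S.e ((k : F) * cR F τ * (cK F v * w)) x - 1‖ ^ 2 *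
              ‖V (S.T v x)‖ ^ 2)) ∂S.m := by
            refine integral_mono_of_nonneg (Filter.Eventually.of_forall fun x => by positivity)
              (((hint _ u).const_mul 2).add ((hint _ v).const_mul 2))
              (Filter.Eventually.of_forall hpt)
        _ = 2 * (∫ x, ‖S.e ((k : F) * cR F σ * (cK F u * w)) x - 1‖ ^ 2 *
              ‖V (S.T u x)‖ ^ 2 ∂S.m) +
            2 * (∫ x, ‖S.e ((k : F) * cR F τ * (cK F v * w)) x - 1‖ ^ 2 *
              ‖V (S.T v x)‖ ^ 2 ∂S.m) := by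
            rw [integral_add ((hint _ u).const_mul 2) ((hint _ v).const_mul 2),
              integral_const_mul, integral_const_mul]
        _ ≤ 2 * (4 * |(σ : ℝ)| / s * 2) + 2 * (4 * |(τ : ℝ)| / s * 2) := by
            gcongr
        _ ≤ 2 * (4 * (C * ‖(z : ℂ)‖) / s * 2) + 2 * (4 * (C * ‖(z : ℂ)‖) / s * 2) := by
            gcongr
        _ = 32 * (C * ‖(z : ℂ)‖) / s := by ring
        _ ≤ ε := by
            rw [div_le_iff₀ hs]; exact hz2
  -- the integral of `‖V‖ ^ 2` is zero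
  have hN : ∀ N : ℕ, (N : ℝ) * ∫ x, ‖V x‖ ^ 2 ∂S.m ≤ 1 := by
    intro N
    obtain ⟨f, hf⟩ := exists_nonparallel hF N
    have hint : ∀ u : K F, Integrable (fun x => ‖V (S.T u x)‖ ^ 2) S.m := fun u =>
      L1_integrable_real S.m (hVu u) (C := 1) fun x => by
        rw [abs_of_nonneg (by positivity)]; exact hV1 u x
    have heq : ∀ u : K F, ∫ x, ‖V (S.T u x)‖ ^ 2 ∂S.m = ∫ x, ‖V x‖ ^ 2 ∂S.m := by
      intro u
      have h1 := integral_map (μ := S.m) (φ := S.T u) (S.T_mp u).measurable.aemeasurable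
        (f := fun x => ‖V x‖ ^ 2) (hV.meas.norm.pow_const 2).aestronglyMeasurable
      rw [(S.T_mp u).map_eq] at h1
      exact h1.symm
    have h2 : (N : ℝ) * ∫ x, ‖V x‖ ^ 2 ∂S.m = ∫ x, ∑ i : Fin N, ‖V (S.T (f i) x)‖ ^ 2 ∂S.m := by
      rw [integral_finsetSum _ fun i _ => hint (f i)]
      simp only [heq]
      rw [Finset.sum_const, Finset.card_univ, Fintype.card_fin, nsmul_eq_mul]
    rw [h2]
    have hae : ∀ᵐ x ∂S.m, ∀ i j : Fin N, i ≠ j →
        ‖V (S.T (f i) x)‖ ^ 2 * ‖V (S.T (f j) x)‖ ^ 2 = 0 := by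
      rw [ae_all_iff]; intro i
      rw [ae_all_iff]; intro j
      by_cases hij : i = j
      · exact Filter.Eventually.of_forall fun x h => absurd hij h
      · filter_upwards [hprod (f i) (f j) (hf i j hij)] with x hx _ using hx
    have hle : ∀ᵐ x ∂S.m, ∑ i : Fin N, ‖V (S.T (f i) x)‖ ^ 2 ≤ 1 := by
      filter_upwards [hae] with x hx
      by_cases hex : ∃ i : Fin N, ‖V (S.T (f i) x)‖ ^ 2 ≠ 0
      · obtain ⟨i, hi⟩ := hex
        rw [Finset.sum_eq_single i]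
        · exact hV1 _ _
        · intro j _ hji
          exact (mul_eq_zero.mp (hx i j (Ne.symm hji))).resolve_left hi
        · intro h; exact absurd (Finset.mem_univ _) h
      · push Not at hex
        rw [Finset.sum_eq_zero fun i _ => hex i]
        exact zero_le_one
    calc ∫ x, ∑ i : Fin N, ‖V (S.T (f i) x)‖ ^ 2 ∂S.m ≤ ∫ _, (1 : ℝ) ∂S.m :=
          integral_mono_ae (integrable_finsetSum _ fun i _ => hint (f i)) (integrable_const _) hle
      _ = 1 := by simp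
  have hI0 : ∫ x, ‖V x‖ ^ 2 ∂S.m = 0 := by
    have h0 : 0 ≤ ∫ x, ‖V x‖ ^ 2 ∂S.m := integral_nonneg fun x => by positivity
    by_contra hne
    have hpos : 0 < ∫ x, ‖V x‖ ^ 2 ∂S.m := lt_of_le_of_ne h0 (Ne.symm hne)
    obtain ⟨N, hN'⟩ := exists_nat_gt (1 / ∫ x, ‖V x‖ ^ 2 ∂S.m)
    rw [div_lt_iff₀ hpos] at hN'
    exact absurd (hN N) (not_le.mpr hN')
  have hV0 : ∀ᵐ x ∂S.m, V x = 0 := by
    have hint : Integrable (fun x => ‖V x‖ ^ 2) S.m :=
      L1_integrable_real S.m (hV.meas.norm.pow_const 2) (C := 1) fun x => by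
        rw [abs_of_nonneg (by positivity)]; exact pow_le_one₀ (norm_nonneg _) (hV.bound _)
    have h1 := (integral_eq_zero_iff_of_nonneg (fun x => by positivity) hint).mp hI0
    filter_upwards [h1] with x hx
    simpa using hx
  rw [← hVm g hg]
  have : ∫ x, V x * g x ∂S.m = ∫ _, (0 : ℂ) ∂S.m := by
    refine integral_congr_ae ?_
    filter_upwards [hV0] with x hx
    rw [hx, zero_mul]
  rw [this, integral_zero]

end Pool.Agent.RadPD
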