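import Pool.Agent.RadPD.Defs

set_option autoImplicit false

namespace Pool.Agent.RadPD

open MeasureTheory ProbabilityTheory

/-! ## Module MB: basic facts on means -/

section MB

variable {ι : Type*} (M : Mean ι)

theorem Bdd.add {f g : ι → ℝ} (hf : Bdd f) (hg : Bdd g) : Bdd (fun i => f i + g i) := by
  obtain ⟨C, hC⟩ := hf
  obtain ⟨D, hD⟩ := hg
  exact ⟨C + D, fun i => (abs_add_le _ _).trans (add_le_add (hC i) (hD i))⟩

theorem Bdd.mul {f g : ι → ℝ} (hf : Bdd f) (hg : Bdd g) : Bdd (fun i => f i * g i) := by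
  obtain ⟨C, hC⟩ := hf
  obtain ⟨D, hD⟩ := hg
  refine ⟨C * D, fun i => ?_⟩
  rw [abs_mul]
  exact mul_le_mul (hC i) (hD i) (abs_nonneg _) ((abs_nonneg _).trans (hC i))

theorem Bdd.const (c : ℝ) : Bdd (fun _ : ι => c) := ⟨|c|, fun _ => le_rfl⟩

theorem Bdd.of_norm {f : ι → ℂ} {C : ℝ} (h : ∀ i, ‖f i‖ ≤ C) :
    Bdd (fun i => (f i).re) ∧ Bdd (fun i => (f i).im) ∧ Bdd (fun i => ‖f i‖) :=
  ⟨⟨C, fun i => (Complex.abs_re_le_norm _).trans (h i)⟩,
    ⟨C, fun i => (Complex.abs_im_le_norm _).trans (h i)⟩,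
    ⟨C, fun i => by rw [abs_of_nonneg (norm_nonneg _)]; exact h i⟩⟩

private theorem MB_bdd_smul {f : ι → ℝ} (c : ℝ) (hf : Bdd f) : Bdd (fun i => c * f i) :=
  Bdd.mul (Bdd.const c) hf

private theorem MB_bdd_neg {f : ι → ℝ} (hf : Bdd f) : Bdd (fun i => - f i) := by
  obtain ⟨C, hC⟩ := hf
  exact ⟨C, fun i => by rw [abs_neg]; exact hC i⟩

private theorem MB_bdd_sum {κ : Type*} (s : Finset κ) (f : κ → ι → ℝ) (hf : ∀ k ∈ s, Bdd (f k)) :
    Bdd (fun i => ∑ k ∈ s, f k i) := by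
  classical
  induction s using Finset.induction_on with
  | empty => simpa using (Bdd.const (0 : ℝ) : Bdd (fun _ : ι => (0 : ℝ)))
  | insert a s ha ih =>
    have h1 := Bdd.add (hf a (Finset.mem_insert_self _ _))
      (ih (fun k hk => hf k (Finset.mem_insert_of_mem hk)))
    simpa only [Finset.sum_insert ha] using h1

theorem Mean.map_const (c : ℝ) : M.toFun (fun _ => c) = c := by
  have h := M.map_smul c (fun _ => 1) (Bdd.const 1)
  rw [M.map_one] at h
  simpa using h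

theorem Mean.map_neg {f : ι → ℝ} (hf : Bdd f) : M.toFun (fun i => - f i) = - M.toFun f := by
  have h := M.map_smul (-1) f hf
  simpa using h

theorem Mean.map_sub {f g : ι → ℝ} (hf : Bdd f) (hg : Bdd g) :
    M.toFun (fun i => f i - g i) = M.toFun f - M.toFun g := by
  have h := M.map_add f (fun i => - g i) hf (MB_bdd_neg hg)
  rw [M.map_neg hg] at h
  simpa only [sub_eq_add_neg] using h

theorem Mean.mono {f g : ι → ℝ} (hf : Bdd f) (hg : Bdd g) (h : ∀ i, f i ≤ g i) :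
    M.toFun f ≤ M.toFun g := by
  have h1 : 0 ≤ M.toFun (fun i => g i - f i) := by
    refine M.nonneg _ ?_ (fun i => sub_nonneg.2 (h i))
    simpa only [sub_eq_add_neg] using Bdd.add hg (MB_bdd_neg hf)
  rw [M.map_sub hg hf] at h1
  linarith

theorem Mean.abs_le {f : ι → ℝ} {C : ℝ} (h : ∀ i, |f i| ≤ C) : |M.toFun f| ≤ C := by
  have hf : Bdd f := ⟨C, h⟩
  rw [_root_.abs_le]
  constructor
  · have := M.mono (Bdd.const (-C)) hf (fun i => (_root_.abs_le.1 (h i)).1)
    rwa [M.map_const] at this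
  · have := M.mono hf (Bdd.const C) (fun i => (_root_.abs_le.1 (h i)).2)
    rwa [M.map_const] at this

theorem Mean.map_sum {κ : Type*} (s : Finset κ) (f : κ → ι → ℝ) (hf : ∀ k ∈ s, Bdd (f k)) :
    M.toFun (fun i => ∑ k ∈ s, f k i) = ∑ k ∈ s, M.toFun (f k) := by
  classical
  induction s using Finset.induction_on with
  | empty => simpa using M.map_const 0
  | insert a s ha ih =>
    simp only [Finset.sum_insert ha]
    rw [M.map_add _ _ (hf a (Finset.mem_insert_self _ _))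
      (MB_bdd_sum s f (fun k hk => hf k (Finset.mem_insert_of_mem hk))),
      ih (fun k hk => hf k (Finset.mem_insert_of_mem hk))]

theorem Mean.sq_le {f : ι → ℝ} (hf : Bdd f) :
    (M.toFun f) ^ 2 ≤ M.toFun (fun i => f i ^ 2) := by
  obtain ⟨a, ha⟩ : ∃ a, a = M.toFun f := ⟨_, rfl⟩
  have hf2 : Bdd (fun i => f i ^ 2) := by
    simpa only [pow_two] using Bdd.mul hf hf
  have h1 : 0 ≤ M.toFun (fun i => (f i ^ 2 + (-(2 * a)) * f i) + a ^ 2) := by
    refine M.nonneg _ (Bdd.add (Bdd.add hf2 (MB_bdd_smul _ hf)) (Bdd.const _)) (fun i => ?_)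
    have : f i ^ 2 + (-(2 * a)) * f i + a ^ 2 = (f i - a) ^ 2 := by ring
    rw [this]
    positivity
  rw [M.map_add _ _ (Bdd.add hf2 (MB_bdd_smul _ hf)) (Bdd.const _),
    M.map_add _ _ hf2 (MB_bdd_smul _ hf), M.map_smul _ _ hf, M.map_const, ← ha] at h1
  rw [← ha]
  nlinarith

/-- a nonnegative function of mean zero has arbitrarily small values -/
theorem Mean.exists_le {f : ι → ℝ} (hf : Bdd f) {c ε : ℝ} (h : M.toFun f ≤ c) (hε : 0 < ε) :
    ∃ i, f i ≤ c + ε := by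
  by_contra hcon
  push Not at hcon
  have h1 := M.mono (Bdd.const (c + ε)) hf (fun i => (hcon i).le)
  rw [M.map_const] at h1
  linarith

theorem Mean.cx_add {f g : ι → ℂ} {C D : ℝ} (hf : ∀ i, ‖f i‖ ≤ C) (hg : ∀ i, ‖g i‖ ≤ D) :
    M.cx (fun i => f i + g i) = M.cx f + M.cx g := by
  obtain ⟨hf1, hf2, _⟩ := Bdd.of_norm hf
  obtain ⟨hg1, hg2, _⟩ := Bdd.of_norm hg
  apply Complex.ext
  · simp only [Mean.cx, Complex.add_re]
    exact M.map_add _ _ hf1 hg1
  · simp only [Mean.cx, Complex.add_im]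
    exact M.map_add _ _ hf2 hg2

theorem Mean.cx_sub {f g : ι → ℂ} {C D : ℝ} (hf : ∀ i, ‖f i‖ ≤ C) (hg : ∀ i, ‖g i‖ ≤ D) :
    M.cx (fun i => f i - g i) = M.cx f - M.cx g := by
  obtain ⟨hf1, hf2, _⟩ := Bdd.of_norm hf
  obtain ⟨hg1, hg2, _⟩ := Bdd.of_norm hg
  apply Complex.ext
  · simp only [Mean.cx, Complex.sub_re]
    exact M.map_sub hf1 hg1
  · simp only [Mean.cx, Complex.sub_im]
    exact M.map_sub hf2 hg2

theorem Mean.cx_smul (c : ℂ) {f : ι → ℂ} {C : ℝ} (hf : ∀ i, ‖f i‖ ≤ C) :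
    M.cx (fun i => c * f i) = c * M.cx f := by
  obtain ⟨hf1, hf2, _⟩ := Bdd.of_norm hf
  apply Complex.ext
  · simp only [Mean.cx, Complex.mul_re]
    rw [M.map_sub (MB_bdd_smul _ hf1) (MB_bdd_smul _ hf2), M.map_smul _ _ hf1,
      M.map_smul _ _ hf2]
  · simp only [Mean.cx, Complex.mul_im]
    rw [M.map_add _ _ (MB_bdd_smul _ hf2) (MB_bdd_smul _ hf1), M.map_smul _ _ hf1,
      M.map_smul _ _ hf2]

theorem Mean.cx_const (c : ℂ) : M.cx (fun _ => c) = c := by
  apply Complex.ext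
  · exact M.map_const _
  · exact M.map_const _

theorem Mean.cx_ofReal (f : ι → ℝ) : M.cx (fun i => (f i : ℂ)) = (M.toFun f : ℂ) := by
  apply Complex.ext
  · simp only [Mean.cx, Complex.ofReal_re]
  · simp only [Mean.cx, Complex.ofReal_im]
    exact M.map_const 0

theorem Mean.cx_conj {f : ι → ℂ} {C : ℝ} (hf : ∀ i, ‖f i‖ ≤ C) :
    M.cx (fun i => (starRingEnd ℂ) (f i)) = (starRingEnd ℂ) (M.cx f) := by
  obtain ⟨hf1, hf2, _⟩ := Bdd.of_norm hf
  apply Complex.ext
  · simp only [Mean.cx, Complex.conj_re]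
  · simp only [Mean.cx, Complex.conj_im]
    exact M.map_neg hf2

theorem Mean.cx_sum {κ : Type*} (s : Finset κ) (f : κ → ι → ℂ) {C : ℝ}
    (hf : ∀ k ∈ s, ∀ i, ‖f k i‖ ≤ C) :
    M.cx (fun i => ∑ k ∈ s, f k i) = ∑ k ∈ s, M.cx (f k) := by
  apply Complex.ext
  · simp only [Mean.cx, Complex.re_sum]
    exact M.map_sum s (fun k i => (f k i).re) (fun k hk => (Bdd.of_norm (hf k hk)).1)
  · simp only [Mean.cx, Complex.im_sum]
    exact M.map_sum s (fun k i => (f k i).im) (fun k hk => (Bdd.of_norm (hf k hk)).2.1)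

theorem Mean.re_cx (f : ι → ℂ) : (M.cx f).re = M.toFun (fun i => (f i).re) := rfl

theorem Mean.norm_cx_le_mean {f : ι → ℂ} {C : ℝ} (hf : ∀ i, ‖f i‖ ≤ C) :
    ‖M.cx f‖ ≤ M.toFun (fun i => ‖f i‖) := by
  obtain ⟨hf1, hf2, hf3⟩ := Bdd.of_norm hf
  rcases eq_or_ne (M.cx f) 0 with h0 | h0
  · rw [h0, norm_zero]
    exact M.nonneg _ hf3 (fun i => norm_nonneg _)
  · obtain ⟨z, hz⟩ : ∃ z, z = M.cx f := ⟨_, rfl⟩
    rw [← hz] at h0 ⊢
    have hn : (‖z‖ : ℂ) ≠ 0 := by
      rw [Ne, Complex.ofReal_eq_zero, norm_eq_zero]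
      exact h0
    obtain ⟨u, hu⟩ : ∃ u : ℂ, u = (starRingEnd ℂ) z / (‖z‖ : ℂ) := ⟨_, rfl⟩
    have hu1 : ‖u‖ = 1 := by
      rw [hu, norm_div, RCLike.norm_conj, Complex.norm_real, norm_norm, div_self]
      exact norm_ne_zero_iff.2 h0
    have huz : u * z = (‖z‖ : ℂ) := by
      rw [hu, div_mul_eq_mul_div, div_eq_iff hn, mul_comm, Complex.mul_conj,
        Complex.normSq_eq_norm_sq]
      push_cast
      ring
    have h1 : M.cx (fun i => u * f i) = (‖z‖ : ℂ) := by
      rw [M.cx_smul u hf, ← hz, huz]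
    have h2 : M.toFun (fun i => (u * f i).re) = ‖z‖ := by
      have := congrArg Complex.re h1
      rwa [M.re_cx, Complex.ofReal_re] at this
    rw [← h2]
    have h3 : ∀ i, ‖u * f i‖ ≤ C := fun i => by rw [norm_mul, hu1, one_mul]; exact hf i
    refine M.mono (Bdd.of_norm h3).1 hf3 (fun i => ?_)
    refine (Complex.re_le_norm _).trans ?_
    rw [norm_mul, hu1, one_mul]

theorem Mean.norm_cx_le {f : ι → ℂ} {C : ℝ} (hf : ∀ i, ‖f i‖ ≤ C) : ‖M.cx f‖ ≤ C := by
  refine (M.norm_cx_le_mean hf).trans ?_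
  have h := M.mono (Bdd.of_norm hf).2.2 (Bdd.const C) hf
  rwa [M.map_const] at h

end MB

section MBinv

variable {G : Type*}

theorem Mean.IsInv.cx [Group G] {M : Mean G} (hM : M.IsInv) (g : G) {f : G → ℂ} {C : ℝ}
    (hf : ∀ i, ‖f i‖ ≤ C) : M.cx (fun x => f (g * x)) = M.cx f := by
  obtain ⟨hf1, hf2, _⟩ := Bdd.of_norm hf
  apply Complex.ext
  · exact hM g (fun x => (f x).re) hf1
  · exact hM g (fun x => (f x).im) hf2

/-- an invariant mean on an infinite group kills functions of finite support -/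
theorem Mean.IsInv.finite_support [Group G] [Infinite G] {M : Mean G} (hM : M.IsInv)
    {f : G → ℝ} (hf : Bdd f) (hs : (Function.support f).Finite) : M.toFun f = 0 := by
  classical
  -- the indicator functions of points
  obtain ⟨p, hp⟩ : ∃ p : G → G → ℝ, p = fun a x => if x = a then 1 else 0 := ⟨_, rfl⟩
  have hpb : ∀ a, Bdd (p a) := fun a => by
    refine ⟨1, fun x => ?_⟩
    rw [hp]
    dsimp only
    split_ifs <;> norm_num
  have hpe : ∀ a, M.toFun (p a) = M.toFun (p 1) := by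
    intro a
    have h := hM a⁻¹ (p 1) (hpb 1)
    rw [← h]
    congr 1
    funext x
    rw [hp]
    dsimp only
    by_cases hx : x = a
    · rw [if_pos hx, if_pos (by rw [hx, inv_mul_cancel])]
    · rw [if_neg hx, if_neg (fun h' => hx (by rw [inv_mul_eq_one] at h'; exact h'.symm))]
  have hp0 : M.toFun (p 1) = 0 := by
    have hnn : 0 ≤ M.toFun (p 1) := by
      refine M.nonneg _ (hpb 1) (fun x => ?_)
      rw [hp]
      dsimp only
      split_ifs <;> norm_num
    have hle : ∀ n : ℕ, (n : ℝ) * M.toFun (p 1) ≤ 1 := by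
      intro n
      obtain ⟨s, hs⟩ := Infinite.exists_subset_card_eq G n
      have h1 : M.toFun (fun x => ∑ a ∈ s, p a x) = (n : ℝ) * M.toFun (p 1) := by
        rw [M.map_sum s p (fun a _ => hpb a), Finset.sum_congr rfl (fun a _ => hpe a),
          Finset.sum_const, hs, nsmul_eq_mul]
      rw [← h1, ← M.map_one]
      refine M.mono (MB_bdd_sum s p (fun a _ => hpb a)) (Bdd.const 1) (fun x => ?_)
      rw [hp]
      dsimp only
      rw [Finset.sum_ite_eq]
      split_ifs <;> norm_num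
    by_contra hne
    have hpos : 0 < M.toFun (p 1) := lt_of_le_of_ne hnn (Ne.symm hne)
    obtain ⟨n, hn⟩ := exists_nat_gt (1 / M.toFun (p 1))
    have := hle n
    rw [div_lt_iff₀ hpos] at hn
    linarith
  have hfe : f = fun x => ∑ a ∈ hs.toFinset, f a * p a x := by
    funext x
    rw [hp]
    dsimp only
    simp only [mul_ite, mul_one, mul_zero]
    rw [Finset.sum_ite_eq]
    split_ifs with h
    · rfl
    · rw [Set.Finite.mem_toFinset, Function.mem_support, not_not] at h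
      exact h
  rw [hfe, M.map_sum _ _ (fun a _ => MB_bdd_smul _ (hpb a))]
  refine Finset.sum_eq_zero (fun a _ => ?_)
  rw [M.map_smul _ _ (hpb a), hpe a, hp0, mul_zero]

/-- the mean `f ↦ M_u f (u ^ n)` is invariant on a divisible commutative group -/
theorem Mean.IsInv.push_pow [CommGroup G] {M : Mean G} (hM : M.IsInv) (n : ℕ)
    (hdiv : ∀ u : G, ∃ v : G, v ^ n = u) : (M.push (fun u => u ^ n)).IsInv := by
  intro g f hf
  obtain ⟨v, rfl⟩ := hdiv g
  have h := hM v (fun u => f (u ^ n)) (hf.imp fun _ h _ => h _)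
  change M.toFun (fun u => f (v ^ n * u ^ n)) = M.toFun (fun u => f (u ^ n))
  rw [← h]
  congr 1
  funext u
  rw [mul_pow]

/-- the mean `f ↦ M_u f (u⁻¹)` is invariant on a commutative group -/
theorem Mean.IsInv.push_inv [CommGroup G] {M : Mean G} (hM : M.IsInv) :
    (M.push (fun u => u⁻¹)).IsInv := by
  intro g f hf
  have h := hM g⁻¹ (fun u => f (u⁻¹)) (hf.imp fun _ h _ => h _)
  change M.toFun (fun u => f (g * u⁻¹)) = M.toFun (fun u => f (u⁻¹))
  rw [← h]
  congr 1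
  funext u
  rw [mul_inv, inv_inv]

end MBinv

end Pool.Agent.RadPD
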