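import Pool.Agent.RadPD.CF
import Pool.Agent.RadPD.CE

set_option autoImplicit false

namespace Pool.Agent.RadPD

open MeasureTheory ProbabilityTheory

variable {F : Subfield ℂ} {X : Type*} [mX : MeasurableSpace X]

/-! ## Module PL: the σ-algebra `W⁺` -/

/-- the isometric extension of `W` in `X` -/
def RotSys.plus (S : RotSys F X) (W : SA X) : SA X where
  ms := MeasurableSpace.generateFrom
    {A | MeasurableSet A ∧ S.CAP W (A.indicator (fun _ => (1 : ℂ)))}

section PLaux

variable (S : RotSys F X) {W : SA X}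

theorem PL_meas_T (u : K F) : Measurable (S.T u) := (S.T_mp u).measurable

theorem PL_memLp {f : X → ℂ} (hf : Measurable f) {C : ℝ} (hC : ∀ x, ‖f x‖ ≤ C) (u : K F) :
    MemLp (fun x => f (S.T u x)) 2 S.m :=
  MemLp.of_bound (hf.comp (PL_meas_T S u)).aestronglyMeasurable C
    (Filter.Eventually.of_forall fun _ => hC _)

theorem PL_cap_const (c : ℂ) : S.CAP W (fun _ => c) :=
  CF.of_meas (C := ‖c‖) (fun _ => measurable_const) (fun _ _ => le_rfl)

theorem PL_cap_add (hW : S.InvAlg W) {f g : X → ℂ} (hf : Measurable f) (hg : Measurable g)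
    {C D : ℝ} (hC : ∀ x, ‖f x‖ ≤ C) (hD : ∀ x, ‖g x‖ ≤ D) (h1 : S.CAP W f) (h2 : S.CAP W g) :
    S.CAP W (fun x => f x + g x) :=
  CF.add hW.le h1 h2 (PL_memLp S hf hC) (PL_memLp S hg hD)

theorem PL_cap_smul (hW : S.InvAlg W) {f : X → ℂ} (hf : Measurable f)
    {C : ℝ} (hC : ∀ x, ‖f x‖ ≤ C) (h1 : S.CAP W f) (c : ℂ) :
    S.CAP W (fun x => c * f x) :=
  CF.smul hW.le h1 (PL_memLp S hf hC) c

theorem PL_cap_mul (hW : S.InvAlg W) {f g : X → ℂ} (hf : Measurable f) (hg : Measurable g)
    {C D : ℝ} (hC : ∀ x, ‖f x‖ ≤ C) (hD : ∀ x, ‖g x‖ ≤ D) (h1 : S.CAP W f) (h2 : S.CAP W g) :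
    S.CAP W (fun x => f x * g x) :=
  CF.mul hW.le h1 h2 (fun u => hf.comp (PL_meas_T S u)) (fun u => hg.comp (PL_meas_T S u))
    (C := max C D) (fun _ _ => (hC _).trans (le_max_left _ _))
    (fun _ _ => (hD _).trans (le_max_right _ _))

theorem PL_cap_conj {f : X → ℂ} (h1 : S.CAP W f) :
    S.CAP W (fun x => (starRingEnd ℂ) (f x)) := CF.conj h1

theorem PL_cap_approx (hW : S.InvAlg W) {f : X → ℂ} (hf : Measurable f) {C : ℝ}
    (hC : ∀ x, ‖f x‖ ≤ C)
    (h : ∀ ε : ℝ, 0 < ε → ∃ g : X → ℂ, Measurable g ∧ (∃ D : ℝ, ∀ x, ‖g x‖ ≤ D) ∧ S.CAP W g ∧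
      ∫ x, ‖f x - g x‖ ^ 2 ∂S.m ≤ ε ^ 2) : S.CAP W f := by
  refine CF.of_approx hW.le (PL_memLp S hf hC) fun ε hε => ?_
  obtain ⟨g, hg, ⟨D, hD⟩, hcap, hint⟩ := h ε hε
  refine ⟨fun u x => g (S.T u x), PL_memLp S hg hD, hcap, fun u => ?_⟩
  have := integral_comp_T S u (fun x => ‖f x - g x‖ ^ 2)
    ((hf.sub hg).norm.pow_const 2).aestronglyMeasurable
  rw [this]
  exact hint

/-- limits of sequences of bounded CAP functions -/
theorem PL_cap_lim (hW : S.InvAlg W) {f : X → ℂ} (hf : Measurable f) {C : ℝ}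
    (hC : ∀ x, ‖f x‖ ≤ C) (g : ℕ → X → ℂ) (hg : ∀ n, Measurable (g n)) {D : ℝ}
    (hD : ∀ n x, ‖g n x‖ ≤ D) (hcap : ∀ n, S.CAP W (g n))
    (hlim : ∀ x, Filter.Tendsto (fun n => g n x) Filter.atTop (nhds (f x))) : S.CAP W f := by
  refine PL_cap_approx S hW hf hC fun ε hε => ?_
  have hlim2 : Filter.Tendsto (fun n => ∫ x, ‖f x - g n x‖ ^ 2 ∂S.m) Filter.atTop
      (nhds (∫ _, (0 : ℝ) ∂S.m)) := by
    refine tendsto_integral_of_dominated_convergence (fun _ => (C + D) ^ 2)
      (fun n => ((hf.sub (hg n)).norm.pow_const 2).aestronglyMeasurable)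
      (integrable_const _) (fun n => Filter.Eventually.of_forall fun x => ?_)
      (Filter.Eventually.of_forall fun x => ?_)
    · rw [Real.norm_of_nonneg (by positivity)]
      have h1 : ‖f x - g n x‖ ≤ C + D := (norm_sub_le _ _).trans (add_le_add (hC x) (hD n x))
      exact pow_le_pow_left₀ (norm_nonneg _) h1 2
    · have h1 : Filter.Tendsto (fun n => f x - g n x) Filter.atTop (nhds 0) := by
        have := (tendsto_const_nhds (x := f x)).sub (hlim x)
        simpa using this
      have h2 := (h1.norm).pow 2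
      simpa using h2
  rw [integral_zero] at hlim2
  have h3 : ∀ᶠ n in Filter.atTop, ∫ x, ‖f x - g n x‖ ^ 2 ∂S.m < ε ^ 2 :=
    hlim2.eventually_lt_const (by positivity)
  obtain ⟨n, hn⟩ := h3.exists
  exact ⟨g n, hg n, ⟨D, hD n⟩, hcap n, hn.le⟩

omit mX in
theorem PL_ind_bound (A : Set X) (x : X) : ‖A.indicator (fun _ => (1 : ℂ)) x‖ ≤ 1 := by
  by_cases h : x ∈ A
  · rw [Set.indicator_of_mem h]; simp
  · rw [Set.indicator_of_notMem h]; simp

theorem PL_ind_meas {A : Set X} (hA : MeasurableSet A) :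
    Measurable (A.indicator (fun _ => (1 : ℂ))) := measurable_const.indicator hA

theorem PL_union (hW : S.InvAlg W) {A B : Set X} (hA : MeasurableSet A) (hB : MeasurableSet B)
    (h1 : S.CAP W (A.indicator (fun _ => (1 : ℂ)))) (h2 : S.CAP W (B.indicator (fun _ => (1 : ℂ)))) :
    S.CAP W ((A ∪ B).indicator (fun _ => (1 : ℂ))) := by
  have e : (A ∪ B).indicator (fun _ => (1 : ℂ)) = fun x =>
      (A.indicator (fun _ => (1 : ℂ)) x + B.indicator (fun _ => (1 : ℂ)) x) +
        (-1) * (A.indicator (fun _ => (1 : ℂ)) x * B.indicator (fun _ => (1 : ℂ)) x) := by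
    funext x
    by_cases hxA : x ∈ A <;> by_cases hxB : x ∈ B <;>
      simp [Set.indicator, hxA, hxB]
  rw [e]
  have mA := PL_ind_meas hA
  have mB := PL_ind_meas hB
  have hmul := PL_cap_mul S hW mA mB (PL_ind_bound A) (PL_ind_bound B) h1 h2
  have bmul : ∀ x, ‖A.indicator (fun _ => (1 : ℂ)) x * B.indicator (fun _ => (1 : ℂ)) x‖ ≤ 1 := by
    intro x
    rw [norm_mul]
    exact mul_le_one₀ (PL_ind_bound A x) (norm_nonneg _) (PL_ind_bound B x)
  have hs := PL_cap_smul S hW (mA.mul mB) bmul hmul (-1)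
  have ha := PL_cap_add S hW mA mB (PL_ind_bound A) (PL_ind_bound B) h1 h2
  refine PL_cap_add S hW (mA.add mB) ((mA.mul mB).const_mul (-1)) (C := 2) (D := 1) ?_ ?_ ha hs
  · intro x
    refine (norm_add_le _ _).trans ?_
    have := PL_ind_bound A x
    have := PL_ind_bound B x
    linarith
  · intro x
    show ‖(-1 : ℂ) * (A.indicator (fun _ => (1 : ℂ)) x * B.indicator (fun _ => (1 : ℂ)) x)‖ ≤ 1
    rw [norm_mul, norm_neg, norm_one, one_mul]
    exact bmul x

theorem PL_compl (hW : S.InvAlg W) {A : Set X} (hA : MeasurableSet A)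
    (h1 : S.CAP W (A.indicator (fun _ => (1 : ℂ)))) :
    S.CAP W (Aᶜ.indicator (fun _ => (1 : ℂ))) := by
  have e : Aᶜ.indicator (fun _ => (1 : ℂ)) = fun x =>
      (1 : ℂ) + (-1) * A.indicator (fun _ => (1 : ℂ)) x := by
    funext x
    by_cases hxA : x ∈ A <;> simp [Set.indicator, hxA]
  rw [e]
  have mA := PL_ind_meas hA
  refine PL_cap_add S hW measurable_const (mA.const_mul (-1)) (C := 1) (D := 1) ?_ ?_
    (PL_cap_const S 1) (PL_cap_smul S hW mA (PL_ind_bound A) h1 (-1))
  · intro x; simp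
  · intro x
    show ‖(-1 : ℂ) * A.indicator (fun _ => (1 : ℂ)) x‖ ≤ 1
    rw [norm_mul, norm_neg, norm_one, one_mul]
    exact PL_ind_bound A x

/-- the generating class is a σ-algebra -/
@[reducible] def PL_ms (hW : S.InvAlg W) : MeasurableSpace X where
  MeasurableSet' A := MeasurableSet A ∧ S.CAP W (A.indicator (fun _ => (1 : ℂ)))
  measurableSet_empty := by
    refine ⟨MeasurableSet.empty, ?_⟩
    have e : (∅ : Set X).indicator (fun _ => (1 : ℂ)) = fun _ => (0 : ℂ) := by
      funext x; simp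
    rw [e]
    exact PL_cap_const S 0
  measurableSet_compl A h := ⟨h.1.compl, PL_compl S hW h.1 h.2⟩
  measurableSet_iUnion A h := by
    refine ⟨MeasurableSet.iUnion fun i => (h i).1, ?_⟩
    have hacc : ∀ n, MeasurableSet (Set.accumulate A n) ∧
        S.CAP W ((Set.accumulate A n).indicator (fun _ => (1 : ℂ))) := by
      intro n
      induction n with
      | zero =>
        have : Set.accumulate A 0 = A 0 := Set.accumulate_zero_nat A
        rw [this]; exact h 0
      | succ n ih =>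
        rw [Set.accumulate_succ]
        exact ⟨ih.1.union (h (n + 1)).1, PL_union S hW ih.1 (h (n + 1)).1 ih.2 (h (n + 1)).2⟩
    refine PL_cap_lim S hW (PL_ind_meas (MeasurableSet.iUnion fun i => (h i).1)) (PL_ind_bound _)
      (fun n => (Set.accumulate A n).indicator (fun _ => (1 : ℂ)))
      (fun n => PL_ind_meas (hacc n).1) (D := 1) (fun n x => PL_ind_bound _ x)
      (fun n => (hacc n).2) (fun x => ?_)
    by_cases hx : x ∈ ⋃ i, A i
    · obtain ⟨i, hi⟩ := Set.mem_iUnion.1 hx
      refine tendsto_const_nhds.congr' ?_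
      filter_upwards [Filter.eventually_ge_atTop i] with n hn
      have h2 : x ∈ Set.accumulate A n := Set.mem_biUnion (show i ≤ n from hn) hi
      show (⋃ i, A i).indicator (fun _ => (1 : ℂ)) x = (Set.accumulate A n).indicator (fun _ => (1 : ℂ)) x
      rw [Set.indicator_of_mem hx, Set.indicator_of_mem h2]
    · refine tendsto_const_nhds.congr' (Filter.Eventually.of_forall fun n => ?_)
      have h2 : x ∉ Set.accumulate A n := fun h3 => hx (Set.accumulate_subset_iUnion n h3)
      show (⋃ i, A i).indicator (fun _ => (1 : ℂ)) x = (Set.accumulate A n).indicator (fun _ => (1 : ℂ)) x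
      rw [Set.indicator_of_notMem hx, Set.indicator_of_notMem h2]

end PLaux

theorem measurableSet_plus_iff (S : RotSys F X) {W : SA X} (hW : S.InvAlg W) (A : Set X) :
    MeasurableSet[(S.plus W).ms] A ↔
      (MeasurableSet A ∧ S.CAP W (A.indicator (fun _ => (1 : ℂ)))) := by
  constructor
  · intro h
    have h1 : (S.plus W).ms ≤ PL_ms S hW := MeasurableSpace.generateFrom_le fun B hB => hB
    exact h1 A h
  · intro h
    exact MeasurableSpace.measurableSet_generateFrom h

theorem plus_invAlg (S : RotSys F X) {W : SA X} (hW : S.InvAlg W) : S.InvAlg (S.plus W) where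
  le A hA := ((measurableSet_plus_iff S hW A).1 hA).1
  inv u A hA := by
    rw [measurableSet_plus_iff S hW] at hA ⊢
    refine ⟨(PL_meas_T S u) hA.1, ?_⟩
    have h1 := CF.comp_index (V := K F) hA.2 (fun v => u * v)
    have e : (fun v : K F => (fun x => A.indicator (fun _ => (1 : ℂ)) (S.T (u * v) x))) =
        (fun v : K F => (fun x => (S.T u ⁻¹' A).indicator (fun _ => (1 : ℂ)) (S.T v x))) := by
      funext v x
      rw [S.T_mul]
      rfl
    unfold RotSys.CAP
    rw [← e]
    exact h1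

theorem le_plus (S : RotSys F X) {W : SA X} (hW : S.InvAlg W) : W.ms ≤ (S.plus W).ms := by
  intro A hA
  rw [measurableSet_plus_iff S hW]
  refine ⟨hW.le A hA, ?_⟩
  refine CF.of_meas (C := 1) (fun u => ?_) (fun u x => PL_ind_bound A _)
  have e : (fun x => A.indicator (fun _ => (1 : ℂ)) (S.T u x)) =
      (S.T u ⁻¹' A).indicator (fun _ => (1 : ℂ)) := by
    funext x; rfl
  rw [e]
  exact (@measurable_const _ _ _ W.ms (1 : ℂ)).indicator (hW.inv u A hA)

theorem PL_simple (S : RotSys F X) {W : SA X} (hW : S.InvAlg W)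
    (g : @SimpleFunc X (S.plus W).ms ℂ) :
    S.CAP W (fun x => g x) ∧ Measurable (fun x => g x) ∧ ∃ C : ℝ, ∀ x, ‖g x‖ ≤ C := by
  refine @SimpleFunc.induction X ℂ (S.plus W).ms _
    (fun g => S.CAP W (fun x => g x) ∧ Measurable (fun x => g x) ∧ ∃ C : ℝ, ∀ x, ‖g x‖ ≤ C)
    ?_ ?_ g
  · intro c s hs
    have h1 := (measurableSet_plus_iff S hW s).1 hs
    have e : (fun x => (@SimpleFunc.piecewise X ℂ (S.plus W).ms s hs
        (@SimpleFunc.const X ℂ (S.plus W).ms c) (@SimpleFunc.const X ℂ (S.plus W).ms 0)) x) =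
        fun x => c * s.indicator (fun _ => (1 : ℂ)) x := by
      classical
      funext x
      by_cases hx : x ∈ s
      · rw [Set.indicator_of_mem hx, mul_one]
        simp [hx]
      · rw [Set.indicator_of_notMem hx, mul_zero]
        simp [hx]
    refine ⟨?_, ?_, ‖c‖, ?_⟩
    · rw [e]
      exact PL_cap_smul S hW (PL_ind_meas h1.1) (PL_ind_bound s) h1.2 c
    · rw [e]
      exact (PL_ind_meas h1.1).const_mul c
    · intro x
      have e' := congrFun e x
      rw [e', norm_mul]
      exact mul_le_of_le_one_right (norm_nonneg _) (PL_ind_bound s x)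
  · rintro f g _ ⟨hf1, hf2, C, hC⟩ ⟨hg1, hg2, D, hD⟩
    refine ⟨PL_cap_add S hW hf2 hg2 hC hD hf1 hg1, hf2.add hg2, C + D, fun x => ?_⟩
    exact (norm_add_le _ _).trans (add_le_add (hC x) (hD x))

/-- bounded `W⁺`-measurable functions are CAP over `W` -/
theorem cap_of_meas_plus (S : RotSys F X) {W : SA X} (hW : S.InvAlg W) {f : X → ℂ}
    (hf : Measurable[(S.plus W).ms] f) (hb : ∀ x, ‖f x‖ ≤ 1) : S.CAP W f := by
  have hsm : StronglyMeasurable[(S.plus W).ms] f := hf.stronglyMeasurable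
  have hfm : Measurable f := hf.mono (plus_invAlg S hW).le le_rfl
  refine PL_cap_lim S hW hfm hb (fun n x => hsm.approxBounded 1 n x)
    (fun n => (PL_simple S hW (hsm.approxBounded 1 n)).2.1) (D := 1)
    (fun n x => hsm.norm_approxBounded_le zero_le_one n x)
    (fun n => (PL_simple S hW (hsm.approxBounded 1 n)).1)
    (fun x => hsm.tendsto_approxBounded_of_norm_le (hb x))

section level

variable (S : RotSys F X) {W : SA X}

theorem PL_cap_pow (hW : S.InvAlg W) {h : X → ℝ} (hm : Measurable h) (hb : ∀ x, |h x| ≤ 1)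
    (hc : S.CAP W (fun x => (h x : ℂ))) (n : ℕ) : S.CAP W (fun x => ((h x ^ n : ℝ) : ℂ)) := by
  induction n with
  | zero =>
    have e : (fun x => ((h x ^ 0 : ℝ) : ℂ)) = fun _ => (1 : ℂ) := by funext x; simp
    rw [e]; exact PL_cap_const S 1
  | succ n ih =>
    have e : (fun x => ((h x ^ (n + 1) : ℝ) : ℂ)) = fun x => ((h x ^ n : ℝ) : ℂ) * (h x : ℂ) := by
      funext x; rw [pow_succ]; push_cast; rfl
    rw [e]
    refine PL_cap_mul S hW (Complex.measurable_ofReal.comp (hm.pow_const n))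
      (Complex.measurable_ofReal.comp hm) (C := 1) (D := 1) ?_ ?_ ih hc
    · intro x
      rw [Complex.norm_real, Real.norm_eq_abs, abs_pow]
      exact pow_le_one₀ (abs_nonneg _) (hb x)
    · intro x
      rw [Complex.norm_real, Real.norm_eq_abs]
      exact hb x

theorem PL_cap_poly (hW : S.InvAlg W) {h : X → ℝ} (hm : Measurable h) (hb : ∀ x, |h x| ≤ 1)
    (hc : S.CAP W (fun x => (h x : ℂ))) (p : Polynomial ℝ) :
    S.CAP W (fun x => ((p.eval (h x) : ℝ) : ℂ)) ∧ Measurable (fun x => p.eval (h x)) ∧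
      ∃ C : ℝ, ∀ x, |p.eval (h x)| ≤ C := by
  induction p using Polynomial.induction_on' with
  | add p q ihp ihq =>
    obtain ⟨p1, p2, C, hC⟩ := ihp
    obtain ⟨q1, q2, D, hD⟩ := ihq
    refine ⟨?_, ?_, C + D, fun x => ?_⟩
    · have e : (fun x => (((p + q).eval (h x) : ℝ) : ℂ)) =
          fun x => ((p.eval (h x) : ℝ) : ℂ) + ((q.eval (h x) : ℝ) : ℂ) := by
        funext x; rw [Polynomial.eval_add]; push_cast; rfl
      rw [e]
      refine PL_cap_add S hW (Complex.measurable_ofReal.comp p2)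
        (Complex.measurable_ofReal.comp q2) (C := C) (D := D) ?_ ?_ p1 q1
      · intro x; rw [Complex.norm_real, Real.norm_eq_abs]; exact hC x
      · intro x; rw [Complex.norm_real, Real.norm_eq_abs]; exact hD x
    · simp only [Polynomial.eval_add]; exact p2.add q2
    · rw [Polynomial.eval_add]
      exact (abs_add_le _ _).trans (add_le_add (hC x) (hD x))
  | monomial n a =>
    refine ⟨?_, ?_, |a|, fun x => ?_⟩
    · have e : (fun x => (((Polynomial.monomial n a).eval (h x) : ℝ) : ℂ)) =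
          fun x => (a : ℂ) * ((h x ^ n : ℝ) : ℂ) := by
        funext x; rw [Polynomial.eval_monomial]; push_cast; rfl
      rw [e]
      refine PL_cap_smul S hW (Complex.measurable_ofReal.comp (hm.pow_const n)) (C := 1) ?_
        (PL_cap_pow S hW hm hb hc n) _
      intro x
      show ‖((h x ^ n : ℝ) : ℂ)‖ ≤ 1
      rw [Complex.norm_real, Real.norm_eq_abs, abs_pow]
      exact pow_le_one₀ (abs_nonneg _) (hb x)
    · simp only [Polynomial.eval_monomial]; exact (hm.pow_const n).const_mul a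
    · rw [Polynomial.eval_monomial, abs_mul, abs_pow]
      exact mul_le_of_le_one_right (abs_nonneg _) (pow_le_one₀ (abs_nonneg _) (hb x))

theorem PL_cap_cont (hW : S.InvAlg W) {h : X → ℝ} (hm : Measurable h) (hb : ∀ x, |h x| ≤ 1)
    (hc : S.CAP W (fun x => (h x : ℂ))) {φ : ℝ → ℝ} (hφ : Continuous φ) (hφ1 : ∀ t, |φ t| ≤ 1) :
    S.CAP W (fun x => ((φ (h x) : ℝ) : ℂ)) := by
  refine PL_cap_approx S hW (Complex.measurable_ofReal.comp (hφ.measurable.comp hm)) (C := 1) ?_ ?_
  · intro x; rw [Complex.norm_real, Real.norm_eq_abs]; exact hφ1 _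
  · intro ε hε
    obtain ⟨p, hp⟩ := exists_polynomial_near_of_continuousOn (-1) 1 φ hφ.continuousOn ε hε
    obtain ⟨h1, h2, C, hC⟩ := PL_cap_poly S hW hm hb hc p
    refine ⟨fun x => ((p.eval (h x) : ℝ) : ℂ), Complex.measurable_ofReal.comp h2, ⟨C, ?_⟩, h1, ?_⟩
    · intro x; rw [Complex.norm_real, Real.norm_eq_abs]; exact hC x
    · have hle : ∀ x, ‖((φ (h x) : ℝ) : ℂ) - ((p.eval (h x) : ℝ) : ℂ)‖ ^ 2 ≤ ε ^ 2 := by
        intro x
        have hx := hp (h x) (abs_le.1 (hb x))
        rw [← Complex.ofReal_sub, Complex.norm_real, Real.norm_eq_abs, abs_sub_comm]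
        exact pow_le_pow_left₀ (abs_nonneg _) hx.le 2
      calc ∫ x, ‖((φ (h x) : ℝ) : ℂ) - ((p.eval (h x) : ℝ) : ℂ)‖ ^ 2 ∂S.m
          ≤ ∫ _, ε ^ 2 ∂S.m := by
            refine integral_mono_of_nonneg (Filter.Eventually.of_forall fun x => by positivity)
              (integrable_const _) (Filter.Eventually.of_forall hle)
        _ = ε ^ 2 := by simp

theorem PL_level (hW : S.InvAlg W) {h : X → ℝ} (hm : Measurable h) (hb : ∀ x, |h x| ≤ 1)
    (hc : S.CAP W (fun x => (h x : ℂ))) (c : ℝ) :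
    MeasurableSet[(S.plus W).ms] (h ⁻¹' Set.Ioi c) := by
  rw [measurableSet_plus_iff S hW]
  have hmeas : MeasurableSet (h ⁻¹' Set.Ioi c) := hm measurableSet_Ioi
  refine ⟨hmeas, ?_⟩
  set φ : ℕ → ℝ → ℝ := fun n t => min 1 (n * max (t - c) 0) with hφ
  have hφc : ∀ n, Continuous (φ n) := fun n => by
    simp only [hφ]; fun_prop
  have hφb : ∀ n t, |φ n t| ≤ 1 := by
    intro n t
    have h0 : 0 ≤ φ n t := le_min zero_le_one (mul_nonneg (Nat.cast_nonneg _) (le_max_right _ _))
    rw [abs_of_nonneg h0]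
    exact min_le_left _ _
  refine PL_cap_lim S hW (PL_ind_meas hmeas) (PL_ind_bound _)
    (fun n x => ((φ n (h x) : ℝ) : ℂ))
    (fun n => Complex.measurable_ofReal.comp ((hφc n).measurable.comp hm)) (D := 1) ?_
    (fun n => PL_cap_cont S hW hm hb hc (hφc n) (hφb n)) ?_
  · intro n x; rw [Complex.norm_real, Real.norm_eq_abs]; exact hφb n _
  · intro x
    by_cases hx : c < h x
    · have hx' : x ∈ h ⁻¹' Set.Ioi c := hx
      rw [Set.indicator_of_mem hx']
      refine tendsto_const_nhds.congr' ?_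
      obtain ⟨N, hN⟩ := exists_nat_ge (1 / (h x - c))
      filter_upwards [Filter.eventually_ge_atTop N] with n hn
      have hpos : 0 < h x - c := sub_pos.2 hx
      have h1 : (1 : ℝ) ≤ n * max (h x - c) 0 := by
        rw [max_eq_left hpos.le]
        have h2 : 1 / (h x - c) ≤ n := hN.trans (by exact_mod_cast hn)
        rwa [div_le_iff₀ hpos] at h2
      show (1 : ℂ) = ((min 1 (n * max (h x - c) 0) : ℝ) : ℂ)
      rw [min_eq_left h1, Complex.ofReal_one]
    · have hx' : x ∉ h ⁻¹' Set.Ioi c := hx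
      rw [Set.indicator_of_notMem hx']
      refine tendsto_const_nhds.congr' (Filter.Eventually.of_forall fun n => ?_)
      show (0 : ℂ) = ((min 1 (n * max (h x - c) 0) : ℝ) : ℂ)
      rw [max_eq_right (by linarith [not_lt.1 hx]), mul_zero, min_eq_right zero_le_one,
        Complex.ofReal_zero]

end level

/-- bounded measurable CAP functions are `W⁺`-measurable -/
theorem meas_plus_of_cap (S : RotSys F X) {W : SA X} (hW : S.InvAlg W) {f : X → ℂ}
    (hf : BM f) (hc : S.CAP W f) : Measurable[(S.plus W).ms] f := by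
  have hconj : S.CAP W (fun x => (starRingEnd ℂ) (f x)) := PL_cap_conj S hc
  have hcm : Measurable (fun x => (starRingEnd ℂ) (f x)) :=
    Complex.continuous_conj.measurable.comp hf.meas
  have hcb : ∀ x, ‖(starRingEnd ℂ) (f x)‖ ≤ 1 := fun x => by
    rw [RCLike.norm_conj]; exact hf.bound x
  have hre : S.CAP W (fun x => (((f x).re : ℝ) : ℂ)) := by
    have e : (fun x => (((f x).re : ℝ) : ℂ)) =
        fun x => (1 / 2 : ℂ) * (f x + (starRingEnd ℂ) (f x)) := by
      funext x
      rw [Complex.add_conj]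
      push_cast
      ring
    rw [e]
    refine PL_cap_smul S hW (hf.meas.add hcm) (C := 2) (fun x => ?_)
      (PL_cap_add S hW hf.meas hcm hf.bound hcb hc hconj) _
    refine (norm_add_le _ _).trans ?_
    have := hf.bound x
    have := hcb x
    linarith
  have him : S.CAP W (fun x => (((f x).im : ℝ) : ℂ)) := by
    have e : (fun x => (((f x).im : ℝ) : ℂ)) =
        fun x => (-Complex.I / 2 : ℂ) * (f x + (-1) * (starRingEnd ℂ) (f x)) := by
      funext x
      have h1 : f x + (-1) * (starRingEnd ℂ) (f x) = ((2 * (f x).im : ℝ) : ℂ) * Complex.I := by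
        rw [neg_one_mul, ← sub_eq_add_neg, Complex.sub_conj]
      rw [h1]
      push_cast
      linear_combination ((f x).im : ℂ) * Complex.I_mul_I
    rw [e]
    have hm1 : Measurable (fun x => (-1 : ℂ) * (starRingEnd ℂ) (f x)) := hcm.const_mul (-1)
    have hb1 : ∀ x, ‖(-1 : ℂ) * (starRingEnd ℂ) (f x)‖ ≤ 1 := fun x => by
      rw [norm_mul, norm_neg, norm_one, one_mul]; exact hcb x
    refine PL_cap_smul S hW (hf.meas.add hm1) (C := 2) (fun x => ?_)
      (PL_cap_add S hW hf.meas hm1 hf.bound hb1 hc (PL_cap_smul S hW hcm hcb hconj (-1))) _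
    refine (norm_add_le _ _).trans ?_
    have := hf.bound x
    have := hb1 x
    linarith
  have mre : Measurable fun x => (f x).re := Complex.measurable_re.comp hf.meas
  have mim : Measurable fun x => (f x).im := Complex.measurable_im.comp hf.meas
  have bre : ∀ x, |(f x).re| ≤ 1 := fun x => (Complex.abs_re_le_norm _).trans (hf.bound x)
  have bim : ∀ x, |(f x).im| ≤ 1 := fun x => (Complex.abs_im_le_norm _).trans (hf.bound x)
  refine @measurable_of_re_im X ℂ _ (S.plus W).ms f ?_ ?_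
  · exact @measurable_of_Ioi ℝ X _ _ _ (S.plus W).ms _ _ _ _ (fun c => PL_level S hW mre bre hre c)
  · exact @measurable_of_Ioi ℝ X _ _ _ (S.plus W).ms _ _ _ _ (fun c => PL_level S hW mim bim him c)

end Pool.Agent.RadPD
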