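import Pool.Agent.RadPD.UR

set_option autoImplicit false

namespace Pool.Agent.RadPD

open MeasureTheory ProbabilityTheory

section URep

variable {F : Subfield ℂ} {H : Type*} [NormedAddCommGroup H] [InnerProductSpace ℂ H]

/-! ### Module SP: spectral measures -/

/-- trigonometric polynomials -/
noncomputable def trig {F : Subfield ℂ} {X : Type*} [MeasurableSpace X] (S : RotSys F X)
    (p : F →₀ ℂ) (x : X) : ℂ := p.sum (fun z c => c * S.e z x)

/-! #### trigonometric polynomials and vectors -/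

theorem SP_trig_eq {X : Type*} [MeasurableSpace X] (S : RotSys F X) (p : F →₀ ℂ) (x : X) :
    trig S p x = Finsupp.linearCombination ℂ (fun z => S.e z x) p := by
  rw [Finsupp.linearCombination_apply]
  rfl

theorem SP_trig_sub {X : Type*} [MeasurableSpace X] (S : RotSys F X) (p q : F →₀ ℂ) (x : X) :
    trig S (p - q) x = trig S p x - trig S q x := by
  simp only [SP_trig_eq, map_sub]

/-- the vector of a trigonometric polynomial -/
noncomputable def SP_vec (ρ : URep F H) (v : H) : (F →₀ ℂ) →ₗ[ℂ] H :=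
  Finsupp.linearCombination ℂ fun z => ρ.U z v

theorem SP_trig_shift {X : Type*} [MeasurableSpace X] (S : RotSys F X) (z : F) (p : F →₀ ℂ)
    (x : X) : trig S (p.mapDomain (z + ·)) x = S.e z x * trig S p x := by
  rw [SP_trig_eq, SP_trig_eq, Finsupp.linearCombination_mapDomain,
    Finsupp.linearCombination_apply, Finsupp.linearCombination_apply, Finsupp.sum, Finsupp.sum,
    Finset.mul_sum]
  refine Finset.sum_congr rfl fun w _ => ?_
  simp only [Function.comp, S.e_add, smul_eq_mul]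
  ring

theorem SP_vec_shift (ρ : URep F H) (v : H) (z : F) (p : F →₀ ℂ) :
    SP_vec ρ v (p.mapDomain (z + ·)) = ρ.U z (SP_vec ρ v p) := by
  unfold SP_vec
  rw [Finsupp.linearCombination_mapDomain, Finsupp.linearCombination_apply,
    Finsupp.linearCombination_apply, Finsupp.sum, Finsupp.sum, map_sum]
  refine Finset.sum_congr rfl fun w _ => ?_
  rw [map_smul, ← ρ.U_add]
  rfl

theorem SP_measurable_trig {X : Type*} [MeasurableSpace X] (S : RotSys F X) (p : F →₀ ℂ) :
    Measurable (trig S p) := by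
  unfold trig Finsupp.sum
  exact Finset.measurable_fun_sum _ fun z _ => (S.e_meas z).const_mul _

theorem SP_norm_trig_le {X : Type*} [MeasurableSpace X] (S : RotSys F X) (p : F →₀ ℂ) (x : X) :
    ‖trig S p x‖ ≤ ∑ z ∈ p.support, ‖p z‖ := by
  unfold trig Finsupp.sum
  refine (norm_sum_le _ _).trans (Finset.sum_le_sum fun z _ => ?_)
  rw [norm_mul, S.e_norm, mul_one]

theorem SP_e_zero {X : Type*} [MeasurableSpace X] (S : RotSys F X) (x : X) : S.e 0 x = 1 := by
  have h := S.e_add 0 0 x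
  rw [add_zero] at h
  have h1 : S.e 0 x ≠ 0 := by
    intro h2
    have := S.e_norm 0 x
    rw [h2, norm_zero] at this
    exact zero_ne_one this
  exact (mul_eq_left₀ h1).1 h.symm

theorem SP_conj_e {X : Type*} [MeasurableSpace X] (S : RotSys F X) (z w : F) (x : X) :
    (starRingEnd ℂ) (S.e z x) * S.e w x = S.e (w - z) x := by
  have h1 : S.e (w - z) x * S.e z x = S.e w x := by
    rw [← S.e_add, sub_add_cancel]
  have h2 : (starRingEnd ℂ) (S.e z x) * S.e z x = 1 := by
    rw [mul_comm, Complex.mul_conj, Complex.normSq_eq_norm_sq, S.e_norm]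
    simp
  rw [← h1, mul_comm (S.e (w - z) x), ← mul_assoc, h2, one_mul]

theorem SP_inner_U (ρ : URep F H) (v : H) (z w : F) :
    inner ℂ (ρ.U z v) (ρ.U w v) = inner ℂ v (ρ.U (w - z) v) := by
  have h : ρ.U w v = ρ.U z (ρ.U (w - z) v) := by
    rw [← ρ.U_add, add_sub_cancel]
  rw [h, LinearIsometry.inner_map_map]

theorem SP_integrable_bdd {X : Type*} [MeasurableSpace X] (m : Measure X) [IsProbabilityMeasure m]
    {E : Type*} [NormedAddCommGroup E] [MeasurableSpace E] [BorelSpace E]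
    [SecondCountableTopology E] {f : X → E} (hf : Measurable f) {C : ℝ} (hC : ∀ x, ‖f x‖ ≤ C) :
    Integrable f m :=
  Integrable.of_bound hf.aestronglyMeasurable C (Filter.Eventually.of_forall hC)

/-- the norm identity -/
theorem SP_norm_sq (ρ : URep F H) (v : H) {X : Type*} [MeasurableSpace X] (S : RotSys F X)
    (h1 : ∀ z, ∫ x, S.e z x ∂S.m = inner ℂ v (ρ.U z v)) (p : F →₀ ℂ) :
    ‖SP_vec ρ v p‖ ^ 2 = ∫ x, ‖trig S p x‖ ^ 2 ∂S.m := by
  have hL : ((‖SP_vec ρ v p‖ ^ 2 : ℝ) : ℂ) = ∑ z ∈ p.support, ∑ w ∈ p.support,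
      (starRingEnd ℂ) (p z) * p w * inner ℂ v (ρ.U (w - z) v) := by
    have h2 : ((‖SP_vec ρ v p‖ ^ 2 : ℝ) : ℂ) = inner ℂ (SP_vec ρ v p) (SP_vec ρ v p) := by
      push_cast
      exact (inner_self_eq_norm_sq_to_K (𝕜 := ℂ) (SP_vec ρ v p)).symm
    rw [h2]
    unfold SP_vec
    rw [Finsupp.linearCombination_apply, Finsupp.sum, sum_inner]
    refine Finset.sum_congr rfl fun z _ => ?_
    rw [inner_sum]
    refine Finset.sum_congr rfl fun w _ => ?_
    rw [inner_smul_left, inner_smul_right, SP_inner_U]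
    ring
  have hR : ((∫ x, ‖trig S p x‖ ^ 2 ∂S.m : ℝ) : ℂ) = ∑ z ∈ p.support, ∑ w ∈ p.support,
      (starRingEnd ℂ) (p z) * p w * inner ℂ v (ρ.U (w - z) v) := by
    rw [← integral_complex_ofReal]
    have h3 : ∀ x, ((‖trig S p x‖ ^ 2 : ℝ) : ℂ) = ∑ z ∈ p.support, ∑ w ∈ p.support,
        (starRingEnd ℂ) (p z) * p w * S.e (w - z) x := by
      intro x
      have h4 : ((‖trig S p x‖ ^ 2 : ℝ) : ℂ) = (starRingEnd ℂ) (trig S p x) * trig S p x := by
        rw [mul_comm, Complex.mul_conj, Complex.normSq_eq_norm_sq]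
      rw [h4]
      unfold trig Finsupp.sum
      rw [map_sum, Finset.sum_mul_sum]
      refine Finset.sum_congr rfl fun z _ => Finset.sum_congr rfl fun w _ => ?_
      rw [map_mul, ← SP_conj_e]
      ring
    have hint : ∀ z w : F, Integrable (fun x => (starRingEnd ℂ) (p z) * p w * S.e (w - z) x) S.m := by
      intro z w
      refine SP_integrable_bdd S.m ((S.e_meas _).const_mul _)
        (C := ‖(starRingEnd ℂ) (p z) * p w‖) fun x => ?_
      rw [norm_mul, S.e_norm, mul_one]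
    simp only [h3]
    rw [integral_finsetSum _ fun z _ => integrable_finsetSum _ fun w _ => hint z w]
    refine Finset.sum_congr rfl fun z _ => ?_
    rw [integral_finsetSum _ fun w _ => hint z w]
    refine Finset.sum_congr rfl fun w _ => ?_
    rw [integral_const_mul, h1]
  exact_mod_cast hL.trans hR.symm

theorem SP_sq_add_le (a b : ℂ) : ‖a + b‖ ^ 2 ≤ 2 * ‖a‖ ^ 2 + 2 * ‖b‖ ^ 2 := by
  have h := norm_add_le a b
  nlinarith [norm_nonneg (a + b), norm_nonneg a, norm_nonneg b, sq_nonneg (‖a‖ - ‖b‖)]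

/-! #### the space of characters -/

/-- the characters of `F` -/
def SP_X (F : Subfield ℂ) : Set (F → ℂ) :=
  {ξ | (∀ z, ‖ξ z‖ = 1) ∧ ∀ z w, ξ (z + w) = ξ z * ξ w}

theorem SP_isClosed_X : IsClosed (SP_X F) := by
  have h : SP_X F = (⋂ z : F, {ξ : F → ℂ | ‖ξ z‖ = 1}) ∩
      ⋂ z : F, ⋂ w : F, {ξ : F → ℂ | ξ (z + w) = ξ z * ξ w} := by
    ext ξ
    simp only [SP_X, Set.mem_inter_iff, Set.mem_iInter, Set.mem_ofPred_eq]
  rw [h]
  refine IsClosed.inter (isClosed_iInter fun z => ?_)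
    (isClosed_iInter fun z => isClosed_iInter fun w => ?_)
  · exact isClosed_eq (continuous_apply z).norm continuous_const
  · exact isClosed_eq (continuous_apply _) ((continuous_apply z).mul (continuous_apply w))

theorem SP_isCompact_X : IsCompact (SP_X F) := by
  refine (isCompact_univ_pi fun _ : F => isCompact_closedBall (0 : ℂ) 1).of_isClosed_subset
    SP_isClosed_X fun ξ hξ z _ => ?_
  rw [mem_closedBall_zero_iff]
  exact (hξ.1 z).le

instance SP_compactSpace : CompactSpace (SP_X F) := isCompact_iff_compactSpace.1 SP_isCompact_X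

/-- evaluation characters -/
noncomputable def SP_e (z : F) : C(SP_X F, ℂ) :=
  ⟨fun ξ => ξ.1 z, (continuous_apply z).comp continuous_subtype_val⟩

theorem SP_e_apply (z : F) (ξ : SP_X F) : SP_e z ξ = ξ.1 z := rfl

/-! #### the operators -/

/-- the operators of the representation -/
noncomputable def SP_U (ρ : URep F H) (z : F) : H →L[ℂ] H := (ρ.U z).toContinuousLinearMap

theorem SP_U_apply (ρ : URep F H) (z : F) (v : H) : SP_U ρ z v = ρ.U z v := rfl

theorem SP_U_mul (ρ : URep F H) (z w : F) : SP_U ρ z * SP_U ρ w = SP_U ρ (z + w) := by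
  ext v
  change ρ.U z (ρ.U w v) = ρ.U (z + w) v
  rw [ρ.U_add]

theorem SP_U_zero (ρ : URep F H) : SP_U ρ 0 = 1 := by
  ext v
  exact ρ.U_zero v

theorem SP_U_comm (ρ : URep F H) (z w : F) : SP_U ρ z * SP_U ρ w = SP_U ρ w * SP_U ρ z := by
  rw [SP_U_mul, SP_U_mul, add_comm]

section SPaux

variable [CompleteSpace H]

theorem SP_U_star (ρ : URep F H) (z : F) : star (SP_U ρ z) = SP_U ρ (-z) := by
  rw [ContinuousLinearMap.star_eq_adjoint]
  symm
  rw [ContinuousLinearMap.eq_adjoint_iff]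
  intro x y
  rw [SP_U_apply, SP_U_apply, ← (ρ.U z).inner_map_map (ρ.U (-z) x) y, ← ρ.U_add, add_neg_cancel,
    ρ.U_zero]

/-- the commutative algebra generated by the operators -/
noncomputable def SP_alg (ρ : URep F H) : StarSubalgebra ℂ (H →L[ℂ] H) :=
  (StarAlgebra.adjoin ℂ (Set.range (SP_U ρ))).topologicalClosure

theorem SP_isClosed_alg (ρ : URep F H) : IsClosed (SP_alg ρ : Set (H →L[ℂ] H)) :=
  StarSubalgebra.isClosed_topologicalClosure _

theorem SP_mem_alg (ρ : URep F H) (z : F) : SP_U ρ z ∈ SP_alg ρ :=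
  StarSubalgebra.le_topologicalClosure _ (StarAlgebra.subset_adjoin ℂ _ ⟨z, rfl⟩)

theorem SP_alg_comm (ρ : URep F H) (a b : SP_alg ρ) : a * b = b * a := by
  have h := StarAlgebra.isMulCommutative_adjoin ℂ (s := Set.range (SP_U ρ))
    (by
      rintro _ ⟨z, rfl⟩ _ ⟨w, rfl⟩
      exact SP_U_comm ρ z w)
    (by
      rintro _ ⟨z, rfl⟩ _ ⟨w, rfl⟩
      rw [SP_U_star]
      exact SP_U_comm ρ z (-w))
  exact (StarSubalgebra.commRingTopologicalClosure _ h.is_comm.comm).mul_comm a b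

noncomputable instance SP_inst (ρ : URep F H) : CommCStarAlgebra (SP_alg ρ) :=
  { StarSubalgebra.cstarAlgebra (SP_alg ρ) (h_closed := SP_isClosed_alg ρ) with
    mul_comm := SP_alg_comm ρ }

theorem SP_exists_hom (ρ : URep F H) :
    ∃ Ψ : C(SP_X F, ℂ) →⋆ₐ[ℂ] (H →L[ℂ] H), ∀ z, Ψ (SP_e z) = SP_U ρ z := by
  set A := SP_alg ρ with hA
  let a : F → A := fun z => ⟨SP_U ρ z, SP_mem_alg ρ z⟩
  have ha_mul : ∀ z w, a z * a w = a (z + w) := fun z w => Subtype.ext (SP_U_mul ρ z w)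
  have ha_zero : a 0 = 1 := Subtype.ext (SP_U_zero ρ)
  have ha_star : ∀ z, star (a z) = a (-z) := fun z => Subtype.ext (SP_U_star ρ z)
  have hmem : ∀ χ : WeakDual.characterSpace ℂ A,
      (fun z => WeakDual.gelfandTransform ℂ A (a z) χ) ∈ SP_X F := by
    intro χ
    have hadd : ∀ z w, WeakDual.gelfandTransform ℂ A (a (z + w)) χ =
        WeakDual.gelfandTransform ℂ A (a z) χ * WeakDual.gelfandTransform ℂ A (a w) χ := by
      intro z w
      rw [← ha_mul, map_mul]
      rfl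
    refine ⟨fun z => ?_, hadd⟩
    have h1 : WeakDual.gelfandTransform ℂ A (a (-z)) χ =
        (starRingEnd ℂ) (WeakDual.gelfandTransform ℂ A (a z) χ) := by
      rw [← ha_star, gelfandTransform_map_star]
      rfl
    have h2 := hadd z (-z)
    rw [add_neg_cancel, ha_zero, map_one, h1, Complex.mul_conj, Complex.normSq_eq_norm_sq] at h2
    have h3 : ((‖WeakDual.gelfandTransform ℂ A (a z) χ‖ ^ 2 : ℝ) : ℂ) = ((1 : ℝ) : ℂ) := by
      rw [← h2]
      simp
    have h4 : ‖WeakDual.gelfandTransform ℂ A (a z) χ‖ ^ 2 = 1 := Complex.ofReal_injective h3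
    exact (pow_eq_one_iff_of_nonneg (norm_nonneg _) two_ne_zero).1 h4
  let π : C(WeakDual.characterSpace ℂ A, SP_X F) :=
    ⟨fun χ => ⟨fun z => WeakDual.gelfandTransform ℂ A (a z) χ, hmem χ⟩,
      Continuous.subtype_mk (continuous_pi fun z =>
        (WeakDual.gelfandTransform ℂ A (a z)).continuous) _⟩
  refine ⟨(SP_alg ρ).subtype.comp (((gelfandStarTransform A).symm :
    C(WeakDual.characterSpace ℂ A, ℂ) →⋆ₐ[ℂ] A).comp (π.compStarAlgHom' ℂ ℂ)), fun z => ?_⟩
  have h1 : (π.compStarAlgHom' ℂ ℂ) (SP_e z) = gelfandStarTransform A (a z) := by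
    ext χ
    rfl
  change (((gelfandStarTransform A).symm ((π.compStarAlgHom' ℂ ℂ) (SP_e z)) : A) : H →L[ℂ] H) = _
  rw [h1, (gelfandStarTransform A).symm_apply_apply]


/-! #### the measure -/

/-- the complex function of a real function -/
noncomputable def SP_cx {Y : Type*} [TopologicalSpace Y] (f : C(Y, ℝ)) : C(Y, ℂ) :=
  ⟨fun y => (f y : ℂ), Complex.continuous_ofReal.comp f.continuous⟩

theorem SP_cx_add {Y : Type*} [TopologicalSpace Y] (f g : C(Y, ℝ)) :
    SP_cx (f + g) = SP_cx f + SP_cx g := by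
  ext y
  simp [SP_cx]

theorem SP_cx_smul {Y : Type*} [TopologicalSpace Y] (c : ℝ) (f : C(Y, ℝ)) :
    SP_cx (c • f) = (c : ℂ) • SP_cx f := by
  ext y
  simp [SP_cx]

theorem SP_cx_star {Y : Type*} [TopologicalSpace Y] (f : C(Y, ℝ)) : star (SP_cx f) = SP_cx f := by
  ext y
  simp [SP_cx]

/-- the state attached to a vector is real on real functions -/
theorem SP_state_im (Ψ : C(SP_X F, ℂ) →⋆ₐ[ℂ] (H →L[ℂ] H)) (v : H) (f : C(SP_X F, ℝ)) :
    (inner ℂ v (Ψ (SP_cx f) v)).im = 0 := by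
  have h1 : star (Ψ (SP_cx f)) = Ψ (SP_cx f) := by rw [← map_star, SP_cx_star]
  rw [ContinuousLinearMap.star_eq_adjoint] at h1
  have h2 : (starRingEnd ℂ) (inner ℂ v (Ψ (SP_cx f) v)) = inner ℂ v (Ψ (SP_cx f) v) := by
    rw [inner_conj_symm]
    conv_lhs => rw [← h1]
    rw [ContinuousLinearMap.adjoint_inner_left]
  exact Complex.conj_eq_iff_im.1 h2

theorem SP_state_nonneg (Ψ : C(SP_X F, ℂ) →⋆ₐ[ℂ] (H →L[ℂ] H)) (v : H) (f : C(SP_X F, ℝ))
    (hf : ∀ x, 0 ≤ f x) : 0 ≤ (inner ℂ v (Ψ (SP_cx f) v)).re := by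
  let g : C(SP_X F, ℝ) := ⟨fun x => Real.sqrt (f x), Real.continuous_sqrt.comp f.continuous⟩
  have h1 : SP_cx f = star (SP_cx g) * SP_cx g := by
    rw [SP_cx_star]
    ext x
    change ((f x : ℝ) : ℂ) = ((Real.sqrt (f x) : ℝ) : ℂ) * ((Real.sqrt (f x) : ℝ) : ℂ)
    rw [← Complex.ofReal_mul, Real.mul_self_sqrt (hf x)]
  rw [h1, map_mul, map_star, ContinuousLinearMap.star_eq_adjoint]
  change 0 ≤ (inner ℂ v ((ContinuousLinearMap.adjoint (Ψ (SP_cx g))) (Ψ (SP_cx g) v))).re
  rw [ContinuousLinearMap.adjoint_inner_right]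
  exact inner_self_nonneg (𝕜 := ℂ)

theorem SP_exists_measure [Countable F] (ρ : URep F H) (v : H) (hv1 : ‖v‖ = 1) :
    ∃ m : Measure (SP_X F), IsProbabilityMeasure m ∧
      ∀ z, ∫ ξ : SP_X F, ξ.1 z ∂m = inner ℂ v (ρ.U z v) := by
  obtain ⟨Ψ, hΨ⟩ := SP_exists_hom ρ
  let L : C(SP_X F, ℝ) →ₗ[ℝ] ℝ :=
    { toFun := fun f => (inner ℂ v (Ψ (SP_cx f) v)).re
      map_add' := fun f g => by
        rw [SP_cx_add, map_add, add_apply, inner_add_right, Complex.add_re]
      map_smul' := fun c f => by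
        rw [SP_cx_smul, map_smul, smul_apply, inner_smul_right,
          Complex.re_ofReal_mul]
        rfl }
  let Λ : CompactlySupportedContinuousMap (SP_X F) ℝ →ₚ[ℝ] ℝ :=
    PositiveLinearMap.mk₀
      { toFun := fun f => L f.toContinuousMap
        map_add' := fun f g => L.map_add _ _
        map_smul' := fun c f => L.map_smul _ _ }
      (fun f hf => SP_state_nonneg Ψ v f.toContinuousMap fun x => hf x)
  let m : Measure (SP_X F) := RealRMK.rieszMeasure Λ
  have hm : ∀ f : C(SP_X F, ℝ), ∫ x, f x ∂m = (inner ℂ v (Ψ (SP_cx f) v)).re := by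
    intro f
    exact RealRMK.integral_rieszMeasure Λ (CompactlySupportedContinuousMap.continuousMapEquiv f)
  have h1 : SP_cx (1 : C(SP_X F, ℝ)) = 1 := by
    ext x
    simp [SP_cx]
  have hm1 : m.real Set.univ = 1 := by
    have h2 := hm 1
    rw [h1, map_one] at h2
    simp only [ContinuousMap.one_apply, integral_const, smul_eq_mul, mul_one] at h2
    rw [h2]
    change (inner ℂ v v).re = 1
    rw [inner_self_eq_norm_sq_to_K, hv1]
    simp
  have hprob : IsProbabilityMeasure m := by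
    refine ⟨?_⟩
    rw [measureReal_def] at hm1
    exact (ENNReal.toReal_eq_one_iff _).1 hm1
  refine ⟨m, hprob, fun z => ?_⟩
  let fr : C(SP_X F, ℝ) := ⟨fun ξ => (ξ.1 z).re, Complex.continuous_re.comp (SP_e z).continuous⟩
  let fi : C(SP_X F, ℝ) := ⟨fun ξ => (ξ.1 z).im, Complex.continuous_im.comp (SP_e z).continuous⟩
  have h2 : SP_e z = SP_cx fr + Complex.I • SP_cx fi := by
    ext ξ
    change ξ.1 z = ((ξ.1 z).re : ℂ) + Complex.I * ((ξ.1 z).im : ℂ)
    rw [mul_comm]
    exact (Complex.re_add_im _).symm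
  have hint : Integrable (fun ξ : SP_X F => ξ.1 z) m :=
    Integrable.of_bound (SP_e z).continuous.aestronglyMeasurable 1
      (Filter.Eventually.of_forall fun ξ => (ξ.2.1 z).le)
  have h3 : inner ℂ v (ρ.U z v) = inner ℂ v (Ψ (SP_cx fr) v) +
      Complex.I * inner ℂ v (Ψ (SP_cx fi) v) := by
    rw [← SP_U_apply, ← hΨ, h2, map_add, map_smul, add_apply,
      smul_apply, inner_add_right, inner_smul_right]
  have h4 : ∀ f : C(SP_X F, ℝ), inner ℂ v (Ψ (SP_cx f) v) = ((∫ x, f x ∂m : ℝ) : ℂ) := by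
    intro f
    rw [hm]
    apply Complex.ext
    · simp
    · rw [SP_state_im]
      simp
  rw [h3, h4, h4, mul_comm]
  have h5 := integral_re_add_im hint
  rw [← h5]
  rfl


end SPaux

/-! #### density of trigonometric polynomials -/

theorem SP_x_zero (ξ : SP_X F) : ξ.1 0 = 1 := by
  have h := ξ.2.2 0 0
  rw [add_zero] at h
  have h1 : ξ.1 0 ≠ 0 := by
    intro h2
    have := ξ.2.1 0
    rw [h2, norm_zero] at this
    exact zero_ne_one this
  exact (mul_eq_left₀ h1).1 h.symm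

theorem SP_x_neg (ξ : SP_X F) (z : F) : ξ.1 (-z) = (starRingEnd ℂ) (ξ.1 z) := by
  have h1 : ξ.1 (-z) * ξ.1 z = 1 := by
    rw [← ξ.2.2, neg_add_cancel, SP_x_zero]
  have h2 : (starRingEnd ℂ) (ξ.1 z) * ξ.1 z = 1 := by
    rw [mul_comm, Complex.mul_conj, Complex.normSq_eq_norm_sq, ξ.2.1]
    simp
  have h3 : ξ.1 z ≠ 0 := by
    intro h4
    rw [h4, mul_zero] at h1
    exact zero_ne_one h1
  exact mul_right_cancel₀ h3 (h1.trans h2.symm)

/-- trigonometric polynomials on the space of characters -/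
noncomputable def SP_lc (p : F →₀ ℂ) (ξ : SP_X F) : ℂ :=
  Finsupp.linearCombination ℂ (fun z => ξ.1 z) p

theorem SP_lc_single (z : F) (c : ℂ) (ξ : SP_X F) :
    SP_lc (Finsupp.single z c) ξ = c * ξ.1 z := by
  unfold SP_lc
  rw [Finsupp.linearCombination_single, smul_eq_mul]

theorem SP_lc_add (p q : F →₀ ℂ) (ξ : SP_X F) : SP_lc (p + q) ξ = SP_lc p ξ + SP_lc q ξ := by
  unfold SP_lc
  rw [map_add]

theorem SP_lc_zero (ξ : SP_X F) : SP_lc (0 : F →₀ ℂ) ξ = 0 := by
  unfold SP_lc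
  rw [map_zero]

theorem SP_lc_mul (p q : F →₀ ℂ) : ∃ r : F →₀ ℂ, ∀ ξ, SP_lc p ξ * SP_lc q ξ = SP_lc r ξ := by
  induction p using Finsupp.induction_linear with
  | zero => exact ⟨0, fun ξ => by rw [SP_lc_zero, zero_mul]⟩
  | add p p' h h' =>
    obtain ⟨r, hr⟩ := h
    obtain ⟨r', hr'⟩ := h'
    exact ⟨r + r', fun ξ => by rw [SP_lc_add, SP_lc_add, add_mul, hr, hr']⟩
  | single z c =>
    refine ⟨c • q.mapDomain (z + ·), fun ξ => ?_⟩
    rw [SP_lc_single]
    unfold SP_lc
    rw [map_smul, Finsupp.linearCombination_mapDomain, Finsupp.linearCombination_apply,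
      Finsupp.linearCombination_apply, Finsupp.sum, Finsupp.sum, Finset.mul_sum, Finset.smul_sum]
    refine Finset.sum_congr rfl fun w _ => ?_
    simp only [Function.comp, ξ.2.2, smul_eq_mul]
    ring

theorem SP_lc_star (p : F →₀ ℂ) : ∃ r : F →₀ ℂ, ∀ ξ, (starRingEnd ℂ) (SP_lc p ξ) = SP_lc r ξ := by
  induction p using Finsupp.induction_linear with
  | zero => exact ⟨0, fun ξ => by rw [SP_lc_zero, map_zero]⟩
  | add p p' h h' =>
    obtain ⟨r, hr⟩ := h
    obtain ⟨r', hr'⟩ := h'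
    exact ⟨r + r', fun ξ => by rw [SP_lc_add, SP_lc_add, map_add, hr, hr']⟩
  | single z c =>
    refine ⟨Finsupp.single (-z) ((starRingEnd ℂ) c), fun ξ => ?_⟩
    rw [SP_lc_single, SP_lc_single, map_mul, SP_x_neg]

theorem SP_dense (f : C(SP_X F, ℂ)) {δ : ℝ} (hδ : 0 < δ) :
    ∃ p : F →₀ ℂ, ∀ ξ, ‖f ξ - SP_lc p ξ‖ ≤ δ := by
  set A : StarSubalgebra ℂ C(SP_X F, ℂ) := StarAlgebra.adjoin ℂ (Set.range SP_e) with hA
  have hsep : A.SeparatesPoints := by
    intro x y hxy
    have h1 : ∃ z, x.1 z ≠ y.1 z := by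
      by_contra h
      push Not at h
      exact hxy (Subtype.ext (funext h))
    obtain ⟨z, hz⟩ := h1
    exact ⟨SP_e z, ⟨SP_e z, StarAlgebra.subset_adjoin ℂ _ ⟨z, rfl⟩, rfl⟩, hz⟩
  have htop := ContinuousMap.starSubalgebra_topologicalClosure_eq_top_of_separatesPoints A hsep
  have hf : f ∈ A.topologicalClosure := by
    rw [htop]
    trivial
  have hf' : f ∈ closure (A : Set C(SP_X F, ℂ)) := hf
  obtain ⟨g, hg, hfg⟩ := Metric.mem_closure_iff.1 hf' δ hδ
  have hP : ∀ g ∈ A, ∃ p : F →₀ ℂ, ∀ ξ, g ξ = SP_lc p ξ := by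
    intro g hg
    refine StarAlgebra.adjoin_induction (R := ℂ) (s := Set.range SP_e)
      (p := fun g _ => ∃ p : F →₀ ℂ, ∀ ξ, g ξ = SP_lc p ξ) ?_ ?_ ?_ ?_ ?_ hg
    · rintro _ ⟨z, rfl⟩
      exact ⟨Finsupp.single z 1, fun ξ => by rw [SP_lc_single, one_mul]; rfl⟩
    · intro c
      exact ⟨Finsupp.single 0 c, fun ξ => by rw [SP_lc_single, SP_x_zero, mul_one]; rfl⟩
    · rintro x y _ _ ⟨p, hp⟩ ⟨q, hq⟩
      exact ⟨p + q, fun ξ => by rw [SP_lc_add, ContinuousMap.add_apply, hp, hq]⟩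
    · rintro x y _ _ ⟨p, hp⟩ ⟨q, hq⟩
      obtain ⟨r, hr⟩ := SP_lc_mul p q
      exact ⟨r, fun ξ => by rw [ContinuousMap.mul_apply, hp, hq, hr]⟩
    · rintro x _ ⟨p, hp⟩
      obtain ⟨r, hr⟩ := SP_lc_star p
      exact ⟨r, fun ξ => by rw [ContinuousMap.star_apply, hp, ← hr]; rfl⟩
  obtain ⟨p, hp⟩ := hP g hg
  refine ⟨p, fun ξ => ?_⟩
  rw [← hp ξ, ← dist_eq_norm]
  exact (ContinuousMap.dist_apply_le_dist ξ).trans hfg.le

theorem SP_integral_lc [Countable F] (m : Measure (SP_X F)) [IsProbabilityMeasure m] (p : F →₀ ℂ) :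
    ∫ ξ, SP_lc p ξ ∂m = p.sum fun z c => c * ∫ ξ : SP_X F, ξ.1 z ∂m := by
  unfold SP_lc
  simp only [Finsupp.linearCombination_apply, Finsupp.sum, smul_eq_mul]
  rw [integral_finsetSum]
  · refine Finset.sum_congr rfl fun z _ => ?_
    rw [integral_const_mul]
  · intro z _
    refine (Integrable.of_bound (SP_e z).continuous.aestronglyMeasurable 1
      (Filter.Eventually.of_forall fun ξ => ?_)).const_mul _
    exact (ξ.2.1 z).le

/-- a probability measure on the space of characters is determined by its Fourier coefficients -/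
theorem SP_ext [Countable F] (m m' : Measure (SP_X F)) [IsProbabilityMeasure m]
    [IsProbabilityMeasure m']
    (h : ∀ z, ∫ ξ : SP_X F, ξ.1 z ∂m = ∫ ξ : SP_X F, ξ.1 z ∂m') : m = m' := by
  refine ext_of_forall_integral_eq_of_IsFiniteMeasure fun f => ?_
  have key : ∀ δ : ℝ, 0 < δ → ‖((∫ x, f x ∂m : ℝ) : ℂ) - ((∫ x, f x ∂m' : ℝ) : ℂ)‖ ≤ 2 * δ := by
    intro δ hδ
    obtain ⟨p, hp⟩ := SP_dense (SP_cx (f : C(SP_X F, ℝ))) hδ
    have hlcc : Continuous fun ξ : SP_X F => SP_lc p ξ := by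
      unfold SP_lc
      simp only [Finsupp.linearCombination_apply, Finsupp.sum, smul_eq_mul]
      exact continuous_finsetSum _ fun z _ => continuous_const.mul (SP_e z).continuous
    have h1 : ∀ (ν : Measure (SP_X F)) [IsProbabilityMeasure ν],
        ‖((∫ x, f x ∂ν : ℝ) : ℂ) - ∫ ξ, SP_lc p ξ ∂ν‖ ≤ δ := by
      intro ν _
      have hi1 : Integrable (fun x => ((f x : ℝ) : ℂ)) ν := (f.integrable ν).ofReal
      have hi2 : Integrable (fun ξ : SP_X F => SP_lc p ξ) ν := by
        refine Integrable.of_bound hlcc.aestronglyMeasurable (‖f‖ + δ)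
          (Filter.Eventually.of_forall fun ξ => ?_)
        have h2 := hp ξ
        have h3 : ‖SP_lc p ξ‖ ≤ ‖SP_cx (f : C(SP_X F, ℝ)) ξ‖ +
            ‖SP_cx (f : C(SP_X F, ℝ)) ξ - SP_lc p ξ‖ := norm_le_norm_add_norm_sub _ _
        have h4 : ‖SP_cx (f : C(SP_X F, ℝ)) ξ‖ ≤ ‖f‖ := by
          change ‖((f ξ : ℝ) : ℂ)‖ ≤ ‖f‖
          rw [Complex.norm_real]
          exact f.norm_coe_le_norm ξ
        linarith
      rw [← integral_complex_ofReal, ← integral_sub hi1 hi2]
      have h5 := norm_integral_le_of_norm_le_const (μ := ν) (C := δ)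
        (Filter.Eventually.of_forall fun ξ => hp ξ)
      rw [probReal_univ, mul_one] at h5
      exact h5
    have h2 := h1 m
    have h3 := h1 m'
    have h4 : ∫ ξ, SP_lc p ξ ∂m = ∫ ξ, SP_lc p ξ ∂m' := by
      rw [SP_integral_lc, SP_integral_lc]
      simp only [h]
    rw [h4] at h2
    rw [norm_sub_rev] at h3
    have h5 := norm_add_le (((∫ x, f x ∂m : ℝ) : ℂ) - ∫ ξ, SP_lc p ξ ∂m')
      ((∫ ξ, SP_lc p ξ ∂m') - ((∫ x, f x ∂m' : ℝ) : ℂ))
    rw [sub_add_sub_cancel] at h5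
    linarith
  have h0 : ‖((∫ x, f x ∂m : ℝ) : ℂ) - ((∫ x, f x ∂m' : ℝ) : ℂ)‖ ≤ 0 := by
    refine le_of_forall_pos_le_add fun ε hε => ?_
    have := key (ε / 2) (by positivity)
    linarith
  have h1 := norm_le_zero_iff.1 h0
  exact_mod_cast sub_eq_zero.1 h1

/-! #### the rotation system -/

/-- the action of the unit circle on characters -/
noncomputable def SP_T (u : K F) (ξ : SP_X F) : SP_X F :=
  ⟨fun z => ξ.1 (cK F u * z), fun z => ξ.2.1 _, fun z w => by
    simp only [mul_add]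
    exact ξ.2.2 _ _⟩

theorem SP_continuous_T (u : K F) : Continuous (SP_T u : SP_X F → SP_X F) :=
  Continuous.subtype_mk (continuous_pi fun z => (SP_e (cK F u * z)).continuous) _

/-- spectral measure of a rotation invariant unit vector -/
theorem exists_spectral [Countable F] [CompleteSpace H] (ρ : URep F H) (v : H) (hv1 : ‖v‖ = 1)
    (hv : ∀ u, ρ.R u v = v) :
    ∃ (X : Type) (_ : MeasurableSpace X) (_ : StandardBorelSpace X) (S : RotSys F X),
      (∀ z, ∫ x, S.e z x ∂S.m = inner ℂ v (ρ.U z v)) ∧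
      (∀ G : X → ℂ, BM G → ∀ ε : ℝ, 0 < ε → ∃ p : F →₀ ℂ,
        ∫ x, ‖G x - trig S p x‖ ^ 2 ∂S.m ≤ ε) := by
  obtain ⟨m, hm, hmz⟩ := SP_exists_measure ρ v hv1
  have hmeas : ∀ z : F, Measurable fun ξ : SP_X F => ξ.1 z := fun z =>
    (SP_e z).continuous.measurable
  have hcK : ∀ u w : K F, cK F (u * w) = cK F u * cK F w := fun u w => Subtype.ext rfl
  have hcK1 : cK F 1 = 1 := Subtype.ext rfl
  have hT : ∀ u, MeasurePreserving (SP_T u : SP_X F → SP_X F) m m := by
    intro u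
    have hTm : Measurable (SP_T u : SP_X F → SP_X F) := (SP_continuous_T u).measurable
    refine ⟨hTm, ?_⟩
    have : IsProbabilityMeasure (m.map (SP_T u)) :=
      Measure.isProbabilityMeasure_map hTm.aemeasurable
    refine SP_ext _ _ fun z => ?_
    have h1 : ∫ ξ, SP_e z ξ ∂(m.map (SP_T u)) = ∫ ξ, SP_e z (SP_T u ξ) ∂m :=
      integral_map hTm.aemeasurable (SP_e z).continuous.aestronglyMeasurable
    have h2 : ∫ ξ, SP_e z (SP_T u ξ) ∂m = ∫ ξ : SP_X F, ξ.1 (cK F u * z) ∂m := rfl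
    rw [hmz, ← (ρ.R u).inner_map_map v (ρ.U z v), ρ.R_U, hv, ← hmz, ← h2, ← h1]
    rfl
  let S : RotSys F (SP_X F) :=
    { m := m
      T := SP_T
      e := fun z ξ => ξ.1 z
      prob := hm
      T_mp := hT
      T_one := fun ξ => by
        apply Subtype.ext
        funext z
        change ξ.1 (cK F 1 * z) = ξ.1 z
        rw [hcK1, one_mul]
      T_mul := fun u w ξ => by
        apply Subtype.ext
        funext z
        change ξ.1 (cK F (u * w) * z) = ξ.1 (cK F w * (cK F u * z))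
        rw [hcK, ← mul_assoc, mul_comm (cK F w)]
      e_meas := hmeas
      e_norm := fun z ξ => ξ.2.1 z
      e_add := fun z w ξ => ξ.2.2 z w
      e_rot := fun u z ξ => rfl }
  refine ⟨SP_X F, inferInstance, SP_isClosed_X.measurableSet.standardBorel, S, hmz, ?_⟩
  intro G hG ε hε
  have hGL : MemLp G (ENNReal.ofReal 2) m :=
    MemLp.of_bound hG.meas.aestronglyMeasurable 1 (Filter.Eventually.of_forall hG.bound)
  obtain ⟨g, hg, -⟩ := hGL.exists_boundedContinuous_integral_rpow_sub_le two_pos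
    (show (0 : ℝ) < ε / 4 by positivity)
  obtain ⟨p, hp⟩ := SP_dense (g : C(SP_X F, ℂ)) (show (0 : ℝ) < Real.sqrt (ε / 4) by positivity)
  refine ⟨p, ?_⟩
  have htr : ∀ ξ, trig S p ξ = SP_lc p ξ := fun ξ => SP_trig_eq S p ξ
  have hp' : ∀ ξ, ‖g ξ - SP_lc p ξ‖ ^ 2 ≤ ε / 4 := by
    intro ξ
    have h1 : ‖g ξ - SP_lc p ξ‖ ≤ Real.sqrt (ε / 4) := hp ξ
    calc ‖g ξ - SP_lc p ξ‖ ^ 2 ≤ Real.sqrt (ε / 4) ^ 2 := pow_le_pow_left₀ (norm_nonneg _) h1 2
      _ = ε / 4 := Real.sq_sqrt (by positivity)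
  have hg' : ∫ x, ‖G x - g x‖ ^ 2 ∂m ≤ ε / 4 := by
    have h1 : ∀ x, ‖G x - g x‖ ^ (2 : ℝ) = ‖G x - g x‖ ^ 2 := fun x => Real.rpow_two _
    simp only [h1] at hg
    exact hg
  have hi1 : Integrable (fun x => ‖G x - g x‖ ^ 2) m := by
    refine SP_integrable_bdd m ((hG.meas.sub g.continuous.measurable).norm.pow_const 2)
      (C := (1 + ‖g‖) ^ 2) fun x => ?_
    rw [Real.norm_eq_abs, abs_of_nonneg (by positivity)]
    exact pow_le_pow_left₀ (norm_nonneg _)
      ((norm_sub_le _ _).trans (add_le_add (hG.bound x) (g.norm_coe_le_norm x))) 2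
  have htm : Measurable (trig S p) := SP_measurable_trig S p
  have hi2 : Integrable (fun x => ‖G x - trig S p x‖ ^ 2) m := by
    refine SP_integrable_bdd m ((hG.meas.sub htm).norm.pow_const 2)
      (C := (1 + ∑ z ∈ p.support, ‖p z‖) ^ 2) fun x => ?_
    rw [Real.norm_eq_abs, abs_of_nonneg (by positivity)]
    exact pow_le_pow_left₀ (norm_nonneg _)
      ((norm_sub_le _ _).trans (add_le_add (hG.bound x) (SP_norm_trig_le S p x))) 2
  change ∫ x, ‖G x - trig S p x‖ ^ 2 ∂m ≤ ε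
  have h3 : ∫ x, ‖G x - trig S p x‖ ^ 2 ∂m ≤ ∫ x, (2 * ‖G x - g x‖ ^ 2 + 2 * (ε / 4)) ∂m := by
    refine integral_mono hi2 ((hi1.const_mul 2).add (integrable_const _)) fun x => ?_
    have h4 := SP_sq_add_le (G x - g x) (g x - SP_lc p x)
    rw [sub_add_sub_cancel] at h4
    simp only [htr]
    have h5 := hp' x
    linarith
  refine h3.trans ?_
  rw [integral_add (hi1.const_mul 2) (integrable_const _), integral_const_mul, integral_const,
    probReal_univ, one_smul]
  linarith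

/-- condition (D) for the spectral measure of a vector orthogonal to all continuous vectors -/
theorem spectral_condD [Countable F] [CompleteSpace H] (ρ : URep F H) (v : H) (hv1 : ‖v‖ = 1)
    (hperp : ∀ w ∈ ρ.Hc, inner ℂ w v = 0) {X : Type} [MeasurableSpace X] (S : RotSys F X)
    (h1 : ∀ z, ∫ x, S.e z x ∂S.m = inner ℂ v (ρ.U z v))
    (h2 : ∀ G : X → ℂ, BM G → ∀ ε : ℝ, 0 < ε → ∃ p : F →₀ ℂ,
        ∫ x, ‖G x - trig S p x‖ ^ 2 ∂S.m ≤ ε) : S.CondD := by
  intro G hG h0 hG1 hD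
  set Gc : X → ℂ := fun x => (G x : ℂ) with hGc
  have hGcB : BM Gc := by
    refine ⟨Complex.measurable_ofReal.comp hG, fun x => ?_⟩
    simp only [hGc, Complex.norm_real, Real.norm_eq_abs, abs_of_nonneg (h0 x)]
    exact hG1 x
  have hsq : ∀ (f g : X → ℂ), Measurable f → Measurable g → ∀ {C D : ℝ}, (∀ x, ‖f x‖ ≤ C) →
      (∀ x, ‖g x‖ ≤ D) → ∫ x, ‖f x + g x‖ ^ 2 ∂S.m ≤
        2 * ∫ x, ‖f x‖ ^ 2 ∂S.m + 2 * ∫ x, ‖g x‖ ^ 2 ∂S.m := by
    intro f g hf hg C D hC hD'
    have hif : Integrable (fun x => ‖f x‖ ^ 2) S.m :=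
      SP_integrable_bdd S.m (hf.norm.pow_const 2) (C := C ^ 2) fun x => by
        rw [Real.norm_eq_abs, abs_of_nonneg (by positivity)]
        exact pow_le_pow_left₀ (norm_nonneg _) (hC x) 2
    have hig : Integrable (fun x => ‖g x‖ ^ 2) S.m :=
      SP_integrable_bdd S.m (hg.norm.pow_const 2) (C := D ^ 2) fun x => by
        rw [Real.norm_eq_abs, abs_of_nonneg (by positivity)]
        exact pow_le_pow_left₀ (norm_nonneg _) (hD' x) 2
    have hifg : Integrable (fun x => ‖f x + g x‖ ^ 2) S.m :=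
      SP_integrable_bdd S.m ((hf.add hg).norm.pow_const 2) (C := (C + D) ^ 2) fun x => by
        rw [Real.norm_eq_abs, abs_of_nonneg (by positivity)]
        exact pow_le_pow_left₀ (norm_nonneg _)
          ((norm_add_le _ _).trans (add_le_add (hC x) (hD' x))) 2
    rw [← integral_const_mul, ← integral_const_mul, ← integral_add (hif.const_mul 2)
      (hig.const_mul 2)]
    exact integral_mono hifg ((hif.const_mul 2).add (hig.const_mul 2)) fun x => SP_sq_add_le _ _
  -- approximation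
  have happ : ∀ n : ℕ, ∃ p : F →₀ ℂ, ∫ x, ‖Gc x - trig S p x‖ ^ 2 ∂S.m ≤ 1 / ((n : ℝ) + 1) :=
    fun n => h2 Gc hGcB _ (by positivity)
  choose p hp using happ
  have hpB : ∀ n, ∃ C : ℝ, ∀ x, ‖trig S (p n) x‖ ≤ C := fun n => ⟨_, SP_norm_trig_le S (p n)⟩
  have hdiff : ∀ n k, ‖SP_vec ρ v (p n) - SP_vec ρ v (p k)‖ ^ 2 ≤
      2 * (1 / ((n : ℝ) + 1)) + 2 * (1 / ((k : ℝ) + 1)) := by
    intro n k
    obtain ⟨C, hC⟩ := hpB n
    obtain ⟨D, hD'⟩ := hpB k
    rw [← map_sub, SP_norm_sq ρ v S h1]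
    have h3 := hsq (fun x => trig S (p n) x - Gc x) (fun x => Gc x - trig S (p k) x)
      ((SP_measurable_trig S _).sub hGcB.meas) (hGcB.meas.sub (SP_measurable_trig S _))
      (C := C + 1) (D := 1 + D)
      (fun x => (norm_sub_le _ _).trans (add_le_add (hC x) (hGcB.bound x)))
      (fun x => (norm_sub_le _ _).trans (add_le_add (hGcB.bound x) (hD' x)))
    have h4 : ∀ x, trig S (p n - p k) x = trig S (p n) x - Gc x + (Gc x - trig S (p k) x) := by
      intro x
      rw [SP_trig_sub]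
      ring
    simp only [h4]
    refine h3.trans ?_
    have h5 := hp n
    have h6 := hp k
    have h7 : ∫ x, ‖trig S (p n) x - Gc x‖ ^ 2 ∂S.m = ∫ x, ‖Gc x - trig S (p n) x‖ ^ 2 ∂S.m := by
      simp only [norm_sub_rev]
    rw [h7]
    linarith
  have hcau : CauchySeq fun n => SP_vec ρ v (p n) := by
    rw [Metric.cauchySeq_iff']
    intro ε hε
    obtain ⟨N, hN⟩ := exists_nat_gt (4 / ε ^ 2)
    refine ⟨N, fun n hn => ?_⟩
    rw [dist_eq_norm]
    have h3 := hdiff n N
    have hN0 : (0 : ℝ) < (N : ℝ) + 1 := by positivity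
    have h4 : 1 / ((n : ℝ) + 1) ≤ 1 / ((N : ℝ) + 1) := by
      apply one_div_le_one_div_of_le hN0
      have : (N : ℝ) ≤ n := by exact_mod_cast hn
      linarith
    have h5 : 1 / ((N : ℝ) + 1) < ε ^ 2 / 4 := by
      rw [div_lt_div_iff₀ hN0 (by norm_num), one_mul]
      have h6 : 4 / ε ^ 2 < (N : ℝ) + 1 := by linarith
      rw [div_lt_iff₀ (by positivity)] at h6
      linarith
    have h6 : ‖SP_vec ρ v (p n) - SP_vec ρ v (p N)‖ ^ 2 < ε ^ 2 := by linarith
    exact lt_of_pow_lt_pow_left₀ 2 hε.le h6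
  obtain ⟨w, hw⟩ := cauchySeq_tendsto_of_complete hcau
  -- the limit is a continuous vector
  have hwc : w ∈ ρ.Hc := by
    rw [URep.mem_Hc]
    intro ε hε
    obtain ⟨r, hr, hr1⟩ := hD (ε ^ 2 / 32) (by positivity)
    refine ⟨r, hr, fun z hz => ?_⟩
    have h3 := hr1 z hz
    have hsm : Filter.Tendsto (fun n : ℕ => 1 / ((n : ℝ) + 1)) Filter.atTop (nhds 0) :=
      tendsto_one_div_add_atTop_nhds_zero_nat
    have hev1 : ∀ᶠ n : ℕ in Filter.atTop, 1 / ((n : ℝ) + 1) < ε ^ 2 / 128 :=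
      hsm.eventually (gt_mem_nhds (by positivity))
    have hev2 : ∀ᶠ n : ℕ in Filter.atTop, ‖SP_vec ρ v (p n) - w‖ < ε / 4 := by
      have h4 := (tendsto_iff_norm_sub_tendsto_zero.1 hw).eventually
        (gt_mem_nhds (show (0 : ℝ) < ε / 4 by positivity))
      exact h4
    obtain ⟨n, hn1, hn2⟩ := (hev1.and hev2).exists
    obtain ⟨C, hC⟩ := hpB n
    have h4 : ‖ρ.U z (SP_vec ρ v (p n)) - SP_vec ρ v (p n)‖ ^ 2 ≤ ε ^ 2 / 8 := by
      rw [← SP_vec_shift, ← map_sub, SP_norm_sq ρ v S h1]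
      have h5 : ∀ x, trig S (Finsupp.mapDomain (z + ·) (p n) - p n) x =
          (S.e z x - 1) * Gc x + (S.e z x - 1) * (trig S (p n) x - Gc x) := by
        intro x
        rw [SP_trig_sub, SP_trig_shift]
        ring
      have he : ∀ x, ‖S.e z x - 1‖ ≤ 2 := fun x => by
        refine (norm_sub_le _ _).trans ?_
        rw [S.e_norm, norm_one]
        norm_num
      simp only [h5]
      refine (hsq (fun x => (S.e z x - 1) * Gc x) (fun x => (S.e z x - 1) * (trig S (p n) x - Gc x))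
        (((S.e_meas z).sub measurable_const).mul hGcB.meas)
        (((S.e_meas z).sub measurable_const).mul ((SP_measurable_trig S _).sub hGcB.meas))
        (C := 2 * 1) (D := 2 * (C + 1)) (fun x => ?_) (fun x => ?_)).trans ?_
      · rw [norm_mul]
        exact mul_le_mul (he x) (hGcB.bound x) (norm_nonneg _) (by norm_num)
      · rw [norm_mul]
        exact mul_le_mul (he x) ((norm_sub_le _ _).trans (add_le_add (hC x) (hGcB.bound x)))
          (norm_nonneg _) (by norm_num)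
      · have h6 : ∫ x, ‖(S.e z x - 1) * Gc x‖ ^ 2 ∂S.m ≤ ∫ x, ‖S.e z x - 1‖ ^ 2 * G x ∂S.m := by
          refine integral_mono ?_ ?_ fun x => ?_
          · refine SP_integrable_bdd S.m ((((S.e_meas z).sub measurable_const).mul
              hGcB.meas).norm.pow_const 2) (C := (2 * 1) ^ 2) fun x => ?_
            rw [Real.norm_eq_abs, abs_of_nonneg (by positivity), norm_mul]
            exact pow_le_pow_left₀ (by positivity)
              (mul_le_mul (he x) (hGcB.bound x) (norm_nonneg _) (by norm_num)) 2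
          · refine SP_integrable_bdd S.m ((((S.e_meas z).sub measurable_const).norm.pow_const 2).mul
              hG) (C := 2 ^ 2 * 1) fun x => ?_
            rw [Real.norm_eq_abs, abs_of_nonneg (mul_nonneg (by positivity) (h0 x))]
            exact mul_le_mul (pow_le_pow_left₀ (norm_nonneg _) (he x) 2) (hG1 x) (h0 x)
              (by norm_num)
          · simp only [norm_mul, mul_pow]
            refine mul_le_mul_of_nonneg_left ?_ (by positivity)
            simp only [hGc, Complex.norm_real, Real.norm_eq_abs, abs_of_nonneg (h0 x)]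
            have := h0 x
            have := hG1 x
            nlinarith
        have h7 : ∫ x, ‖(S.e z x - 1) * (trig S (p n) x - Gc x)‖ ^ 2 ∂S.m ≤
            4 * ∫ x, ‖Gc x - trig S (p n) x‖ ^ 2 ∂S.m := by
          have hbd : ∀ x, ‖Gc x - trig S (p n) x‖ ≤ 1 + C := fun x =>
            (norm_sub_le _ _).trans (add_le_add (hGcB.bound x) (hC x))
          rw [← integral_const_mul]
          refine integral_mono ?_ ?_ fun x => ?_
          · refine SP_integrable_bdd S.m ((((S.e_meas z).sub measurable_const).mul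
              ((SP_measurable_trig S _).sub hGcB.meas)).norm.pow_const 2)
              (C := (2 * (1 + C)) ^ 2) fun x => ?_
            rw [Real.norm_eq_abs, abs_of_nonneg (by positivity), norm_mul]
            refine pow_le_pow_left₀ (by positivity) (mul_le_mul (he x) ?_ (norm_nonneg _)
              (by norm_num)) 2
            rw [norm_sub_rev]
            exact hbd x
          · refine (SP_integrable_bdd S.m ((hGcB.meas.sub
              (SP_measurable_trig S _)).norm.pow_const 2) (C := (1 + C) ^ 2) fun x => ?_).const_mul 4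
            rw [Real.norm_eq_abs, abs_of_nonneg (by positivity)]
            exact pow_le_pow_left₀ (norm_nonneg _) (hbd x) 2
          · simp only [norm_mul, mul_pow]
            rw [norm_sub_rev (Gc x)]
            refine mul_le_mul_of_nonneg_right ?_ (by positivity)
            have := he x
            nlinarith [norm_nonneg (S.e z x - 1)]
        have h8 := hp n
        linarith
    have h5 : ‖ρ.U z (SP_vec ρ v (p n)) - SP_vec ρ v (p n)‖ ≤ ε / 2 := by
      have h6 : ‖ρ.U z (SP_vec ρ v (p n)) - SP_vec ρ v (p n)‖ ^ 2 ≤ (ε / 2) ^ 2 := by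
        refine h4.trans ?_
        nlinarith
      exact le_of_sq_le_sq h6 (by positivity)
    have h6 : ρ.U z w - w = (ρ.U z w - ρ.U z (SP_vec ρ v (p n))) +
        (ρ.U z (SP_vec ρ v (p n)) - SP_vec ρ v (p n)) + (SP_vec ρ v (p n) - w) := by
      abel
    rw [h6]
    refine (norm_add_le _ _).trans ?_
    refine (add_le_add_left (norm_add_le _ _) _).trans ?_
    have h7 : ‖ρ.U z w - ρ.U z (SP_vec ρ v (p n))‖ = ‖SP_vec ρ v (p n) - w‖ := by
      rw [← map_sub, LinearIsometry.norm_map, norm_sub_rev]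
    rw [h7]
    linarith
  -- hence it vanishes
  have hperp' : ∀ q : F →₀ ℂ, inner ℂ w (SP_vec ρ v q) = 0 := by
    intro q
    unfold SP_vec
    rw [Finsupp.linearCombination_apply, Finsupp.sum, inner_sum]
    refine Finset.sum_eq_zero fun z _ => ?_
    rw [inner_smul_right, ρ.U_perp hperp z w hwc, mul_zero]
  have hw0 : w = 0 := by
    have h3 : Filter.Tendsto (fun n => inner ℂ w (SP_vec ρ v (p n))) Filter.atTop
        (nhds (inner ℂ w w)) := (Filter.Tendsto.inner tendsto_const_nhds hw)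
    simp only [hperp'] at h3
    have h4 := tendsto_nhds_unique tendsto_const_nhds h3
    exact inner_self_eq_zero.1 h4.symm
  have hGi : Integrable (fun x => ‖Gc x‖ ^ 2) S.m :=
    SP_integrable_bdd S.m (hGcB.meas.norm.pow_const 2) (C := 1) fun x => by
      rw [Real.norm_eq_abs, abs_of_nonneg (by positivity)]
      exact pow_le_one₀ (norm_nonneg _) (hGcB.bound x)
  have hG0 : ∫ x, ‖Gc x‖ ^ 2 ∂S.m ≤ 0 := by
    have h3 : ∀ n : ℕ, ∫ x, ‖Gc x‖ ^ 2 ∂S.m ≤ 2 * (1 / ((n : ℝ) + 1)) +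
        2 * ‖SP_vec ρ v (p n)‖ ^ 2 := by
      intro n
      obtain ⟨C, hC⟩ := hpB n
      have h4 := hsq (fun x => Gc x - trig S (p n) x) (trig S (p n))
        (hGcB.meas.sub (SP_measurable_trig S _)) (SP_measurable_trig S _)
        (C := 1 + C) (D := C)
        (fun x => (norm_sub_le _ _).trans (add_le_add (hGcB.bound x) (hC x))) hC
      simp only [sub_add_cancel] at h4
      rw [SP_norm_sq ρ v S h1]
      have h5 := hp n
      linarith
    have h4 : Filter.Tendsto (fun n : ℕ => 2 * (1 / ((n : ℝ) + 1)) +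
        2 * ‖SP_vec ρ v (p n)‖ ^ 2) Filter.atTop (nhds (2 * 0 + 2 * ‖w‖ ^ 2)) :=
      (tendsto_one_div_add_atTop_nhds_zero_nat.const_mul 2).add ((hw.norm.pow 2).const_mul 2)
    have h5 := ge_of_tendsto' h4 h3
    rw [hw0] at h5
    simpa using h5
  have hG2 : (fun x => ‖Gc x‖ ^ 2) =ᵐ[S.m] 0 :=
    (integral_eq_zero_iff_of_nonneg (fun x => by positivity) hGi).1
      (le_antisymm hG0 (integral_nonneg fun x => by positivity))
  filter_upwards [hG2] with x hx
  have h3 : ‖Gc x‖ = 0 := by simpa using hx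
  have h4 : ((G x : ℝ) : ℂ) = 0 := norm_eq_zero.1 h3
  exact_mod_cast h4

end URep

end Pool.Agent.RadPD
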