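import Pool.Agent.RadPD.CH
import Pool.Agent.RadPD.FP

set_option autoImplicit false

namespace Pool.Agent.RadPD

open MeasureTheory ProbabilityTheory

variable {F : Subfield ℂ} {X : Type*} [mX : MeasurableSpace X]

/-! ## Module TA: Theorem A -/

section aux

variable (S : RotSys F X)

theorem TA_e_zero (x : X) : S.e 0 x = 1 := by
  have h := S.e_add 0 0 x
  rw [add_zero] at h
  have hne : S.e 0 x ≠ 0 := by
    intro h0
    have := S.e_norm 0 x
    rw [h0, norm_zero] at this
    norm_num at this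
  field_simp at h
  exact h.symm

theorem TA_e_neg (z : F) (x : X) : S.e (-z) x = (starRingEnd ℂ) (S.e z x) := by
  have h := S.e_add z (-z) x
  rw [add_neg_cancel, TA_e_zero] at h
  have hn := S.e_norm z x
  have hmul : S.e z x * (starRingEnd ℂ) (S.e z x) = 1 := by
    rw [Complex.mul_conj, Complex.normSq_eq_norm_sq, hn]; norm_num
  have hne : S.e z x ≠ 0 := by
    intro h0
    rw [h0, norm_zero] at hn
    norm_num at hn
  have : S.e z x * S.e (-z) x = S.e z x * (starRingEnd ℂ) (S.e z x) := by rw [← h, hmul]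
  exact mul_left_cancel₀ hne this

theorem TA_e_sum {ι : Type*} (s : Finset ι) (f : ι → F) (x : X) :
    S.e (∑ i ∈ s, f i) x = ∏ i ∈ s, S.e (f i) x := by
  classical
  induction s using Finset.induction_on with
  | empty => simp [TA_e_zero]
  | insert a s ha ih => rw [Finset.sum_insert ha, Finset.prod_insert ha, S.e_add, ih]

theorem TA_bm_e (z : F) : BM (S.e z) := ⟨S.e_meas z, fun x => (S.e_norm z x).le⟩

theorem TA_bm_mul {f g : X → ℂ} (hf : BM f) (hg : BM g) : BM (fun x => f x * g x) :=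
  ⟨hf.meas.mul hg.meas, fun x => by
    rw [norm_mul]
    exact mul_le_one₀ (hf.bound x) (norm_nonneg _) (hg.bound x)⟩

theorem TA_bm_integrable {f : X → ℂ} (hf : BM f) (m : Measure X) [IsProbabilityMeasure m] :
    Integrable f m :=
  Integrable.of_bound hf.meas.aestronglyMeasurable 1 (Filter.Eventually.of_forall hf.bound)

theorem TA_bm_memLp {f : X → ℂ} (hf : BM f) (m : Measure X) [IsProbabilityMeasure m] :
    MemLp f 2 m :=
  MemLp.of_bound hf.meas.aestronglyMeasurable 1 (Filter.Eventually.of_forall hf.bound)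

/-- invariant functions -/
theorem TA_inv_comp {g : X → ℂ} (hg : Measurable[S.invt.ms] g) (v : K F) :
    (fun x => g (S.T v x)) =ᵐ[S.m] g := by
  have hB := TopologicalSpace.isBasis_countableBasis ℂ
  have hc := TopologicalSpace.countable_countableBasis ℂ
  have h1 : ∀ B ∈ TopologicalSpace.countableBasis ℂ,
      ∀ᵐ x ∂S.m, (g (S.T v x) ∈ B ↔ g x ∈ B) := by
    intro B hBm
    have hmeas : MeasurableSet[S.invt.ms] (g ⁻¹' B) := hg (hB.isOpen hBm).measurableSet
    have := hmeas.2 v
    filter_upwards [this] with x hx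
    exact (eq_iff_iff.1 hx)
  have h2 : ∀ᵐ x ∂S.m, ∀ B ∈ TopologicalSpace.countableBasis ℂ, (g (S.T v x) ∈ B ↔ g x ∈ B) :=
    (ae_ball_iff hc).2 h1
  filter_upwards [h2] with x hx
  by_contra hne
  obtain ⟨B, hBm, hgB, hsub⟩ := hB.exists_subset_of_mem_open
    (show g x ∈ ({g (S.T v x)}ᶜ : Set ℂ) from fun h => hne (Set.mem_singleton_iff.1 h).symm)
    isOpen_compl_singleton
  exact hsub ((hx B hBm).2 hgB) rfl

/-- testing against an invariant function only sees the norm of the frequency -/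
theorem TA_rot_test {g : X → ℂ} (hg : Measurable[S.invt.ms] g) (v : K F) (z : F) :
    ∫ x, g x * S.e (cK F v * z) x ∂S.m = ∫ x, g x * S.e z x ∂S.m := by
  have hle := (invt_invAlg S).le
  have h1 : ∫ x, g (S.T v x) * S.e z (S.T v x) ∂S.m = ∫ x, g x * S.e z x ∂S.m :=
    integral_comp_T S v (fun x => g x * S.e z x)
      ((hg.mono hle le_rfl).mul (S.e_meas z)).aestronglyMeasurable
  rw [← h1]
  refine integral_congr_ae ?_
  filter_upwards [TA_inv_comp S hg v] with x hx
  rw [hx, S.e_rot]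

end aux

/-- bound for the mean of the flipped polynomial -/
theorem TA_flip_bound [StandardBorelSpace X] (hF : RadClosed F) (S : RotSys F X) (hD : S.CondD)
    (M : Mean (K F)) (hM : M.IsInv) {n : ℕ} (hn : 0 < n) (β : ℕ → F) (hβ : ∀ j ≤ n, β j ≠ 0)
    {g : X → ℂ} (hg : BM g) :
    ‖M.cx (fun u => ∫ x, g x * S.e (∑ j ∈ Finset.range (n + 1), β j * cK F (u ^ j)) x ∂S.m)‖ ≤
      1600 / (n : ℝ) + Real.exp (- (n : ℝ) / 20) := by
  classical
  have hY := tower_invAlg S n
  -- the functions
  let f : ℕ → X → ℂ := fun j => if j = 0 then fun x => g x * S.e (β 0) x else S.e (β j)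
  have hf : ∀ j, BM (f j) := by
    intro j
    by_cases hj : j = 0
    · simp only [f, hj, if_true]; exact TA_bm_mul hg (TA_bm_e S _)
    · simp only [f, hj, if_false]; exact TA_bm_e S _
  have e1 : ∀ (u : K F) (x : X), g x * S.e (∑ j ∈ Finset.range (n + 1), β j * cK F (u ^ j)) x =
      ∏ j ∈ Finset.range (n + 1), f j (S.T (u ^ j) x) := by
    intro u x
    rw [TA_e_sum, Finset.prod_range_succ', Finset.prod_range_succ']
    have e2 : ∀ j, S.e (β j * cK F (u ^ j)) x = S.e (β j) (S.T (u ^ j) x) := by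
      intro j; rw [S.e_rot, mul_comm]
    simp only [e2]
    have e3 : ∀ j, f (j + 1) (S.T (u ^ (j + 1)) x) = S.e (β (j + 1)) (S.T (u ^ (j + 1)) x) := by
      intro j; simp [f]
    simp only [e3]
    have e4 : f 0 (S.T (u ^ 0) x) = g x * S.e (β 0) (S.T (u ^ 0) x) := by
      simp only [f, if_true, pow_zero, S.T_one]
    rw [e4]
    ring
  simp only [e1]
  rw [charfac hF S n M hM f hf]
  -- bounded versions
  have hex : ∀ j, ∃ h : X → ℂ, Measurable[(S.tower n).ms] h ∧ (∀ x, ‖h x‖ ≤ 1) ∧
      S.m[f j | (S.tower n).ms] =ᵐ[S.m] h := fun j => exists_bounded_condExp S.m hY.le (hf j)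
  choose h hh1 hh2 hh3 using hex
  have hae : ∀ (u : K F), ∀ᵐ x ∂S.m, ∀ j, (S.m[f j | (S.tower n).ms]) (S.T (u ^ j) x) =
      h j (S.T (u ^ j) x) := by
    intro u
    rw [ae_all_iff]
    intro j
    exact ae_comp_T S (u ^ j) (hh3 j)
  have hcongr : ∀ u : K F, ∫ x, ∏ j ∈ Finset.range (n + 1),
      (S.m[f j | (S.tower n).ms]) (S.T (u ^ j) x) ∂S.m =
      ∫ x, ∏ j ∈ Finset.range (n + 1), h j (S.T (u ^ j) x) ∂S.m := by
    intro u
    refine integral_congr_ae ?_
    filter_upwards [hae u] with x hx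
    exact Finset.prod_congr rfl fun j _ => hx j
  simp only [hcongr]
  have hmeas : ∀ j, Measurable (h j) := fun j => (hh1 j).mono hY.le le_rfl
  have hTm : ∀ u, Measurable (S.T u) := fun u => (S.T_mp u).measurable
  let k : ℕ → X → ℝ := fun j x => ‖h j x‖
  have hprodle : ∀ u : K F, ‖∫ x, ∏ j ∈ Finset.range (n + 1), h j (S.T (u ^ j) x) ∂S.m‖ ≤
      ∫ x, ∏ j ∈ Finset.Icc 1 n, k j (S.T (u ^ j) x) ∂S.m := by
    intro u
    refine (norm_integral_le_integral_norm _).trans ?_
    refine integral_mono_of_nonneg (Filter.Eventually.of_forall fun x => norm_nonneg _) ?_ ?_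
    · refine Integrable.of_bound (C := 1) ?_ (Filter.Eventually.of_forall fun x => ?_)
      · exact (Finset.measurable_prod _ fun j _ =>
          ((hmeas j).comp (hTm _)).norm).aestronglyMeasurable
      · rw [Real.norm_of_nonneg (Finset.prod_nonneg fun j _ => norm_nonneg _)]
        exact Finset.prod_le_one (fun j _ => norm_nonneg _) (fun j _ => hh2 j _)
    · refine Filter.Eventually.of_forall fun x => ?_
      simp only [norm_prod]
      rw [Finset.prod_range_succ' ]
      have : ∏ j ∈ Finset.range n, ‖h (j + 1) (S.T (u ^ (j + 1)) x)‖ =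
          ∏ j ∈ Finset.Icc 1 n, k j (S.T (u ^ j) x) := by
        rw [Finset.range_eq_Ico, Finset.prod_Ico_add' (fun j => ‖h j (S.T (u ^ j) x)‖) 0 n 1]
        rfl
      rw [this]
      exact mul_le_of_le_one_right (Finset.prod_nonneg fun j _ => norm_nonneg _) (hh2 0 _)
  have hb1 : ∀ u : K F, ‖∫ x, ∏ j ∈ Finset.range (n + 1), h j (S.T (u ^ j) x) ∂S.m‖ ≤ 1 := by
    intro u
    refine (norm_integral_le_of_norm_le_const (C := 1) (Filter.Eventually.of_forall fun x => ?_)).trans
      (by simp)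
    rw [norm_prod]
    exact Finset.prod_le_one (fun j _ => norm_nonneg _) (fun j _ => hh2 j _)
  have hb2 : ∀ u : K F, |∫ x, ∏ j ∈ Finset.Icc 1 n, k j (S.T (u ^ j) x) ∂S.m| ≤ 1 := by
    intro u
    rw [← Real.norm_eq_abs]
    refine (norm_integral_le_of_norm_le_const (C := 1) (Filter.Eventually.of_forall fun x => ?_)).trans
      (by simp)
    rw [Real.norm_of_nonneg (Finset.prod_nonneg fun j _ => norm_nonneg _)]
    exact Finset.prod_le_one (fun j _ => norm_nonneg _) (fun j _ => hh2 j _)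
  refine (M.norm_cx_le_mean hb1).trans ?_
  refine (M.mono (Bdd.of_norm hb1).2.2 ⟨1, hb2⟩ hprodle).trans ?_
  refine prod_bound hF S n hn M hM k (fun j => (hmeas j).norm) (fun j x => norm_nonneg _)
    (fun j x => hh2 j x) ?_
  intro j hj1 hjn B hB
  have hBY : MeasurableSet[(S.tower n).ms] B := invt_le_tower S n B hB
  have hnb := null_bound hF S hY (tower_null hF S hD n) B hBY hB (β j) (hβ j hjn)
  refine le_trans (le_of_eq ?_) hnb
  refine integral_congr_ae ?_
  refine ae_restrict_of_ae ?_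
  have hfj : f j = S.e (β j) := by
    simp only [f]
    rw [if_neg (by omega)]
  have := hh3 j
  rw [hfj] at this
  filter_upwards [this] with x hx
  rw [hx]

/-- the product of the conditional expectations at different frequencies vanishes -/
theorem TA_product_zero [StandardBorelSpace X] (hF : RadClosed F) (S : RotSys F X) (hD : S.CondD)
    {A B : F0 F} (hA : 0 < (A : ℝ)) (hB : 0 < (B : ℝ)) (hAB : A ≠ B) :
    ∀ᵐ x ∂S.m, (S.m[S.e (cR F A) | S.invt.ms]) x * (S.m[S.e (cR F B) | S.invt.ms]) x = 0 := by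
  have hY := invt_invAlg S
  obtain ⟨M, hM⟩ := exists_invMean (K F)
  obtain ⟨p, hp1, hp2, hp3⟩ := exists_bounded_condExp S.m hY.le (TA_bm_e S (cR F A))
  obtain ⟨q, hq1, hq2, hq3⟩ := exists_bounded_condExp S.m hY.le (TA_bm_e S (-cR F B))
  -- `q` is the conjugate of the conditional expectation at `B`
  have hq4 : ∀ᵐ x ∂S.m, (S.m[S.e (cR F B) | S.invt.ms]) x = (starRingEnd ℂ) (q x) := by
    have h1 := condExp_conj S.m hY.le (TA_bm_integrable (TA_bm_e S (cR F B)) S.m)
    have h2 : (fun x => (starRingEnd ℂ) (S.e (cR F B) x)) = S.e (-cR F B) := by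
      ext x; rw [TA_e_neg]
    rw [h2] at h1
    filter_upwards [h1, hq3] with x hx1 hx2
    rw [← hx2, hx1, Complex.conj_conj]
  have hpm : Measurable p := hp1.mono hY.le le_rfl
  have hqm : Measurable q := hq1.mono hY.le le_rfl
  let g : X → ℂ := fun x => (starRingEnd ℂ) (p x * q x)
  have hgI : Measurable[S.invt.ms] g := by
    have hpq : Measurable[S.invt.ms] (fun x => p x * q x) := hp1.mul hq1
    exact (Complex.continuous_conj.measurable).comp hpq
  have hg : BM g := ⟨hgI.mono hY.le le_rfl, fun x => by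
    simp only [g, RCLike.norm_conj, norm_mul]
    exact mul_le_one₀ (hp2 x) (norm_nonneg _) (hq2 x)⟩
  -- the square integral as a mean
  have hsq : ∀ n : ℕ, 0 < n → ((∫ x, ‖p x * q x‖ ^ 2 ∂S.m : ℝ) : ℂ) =
      M.cx (fun u => ∫ x, g x * S.e (cR F A * cK F (u ^ n) - cR F B) x ∂S.m) := by
    intro n hn
    have hM' : (M.push (fun u : K F => u ^ n)).IsInv := hM.push_pow n (fun u => K_divisible hF hn u)
    have h1 := mean_ergodic S (M.push (fun u : K F => u ^ n)) hM' (TA_bm_e S (cR F A))
      (TA_bm_mul (TA_bm_e S (-cR F B)) hg)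
    have h2 : ∫ x, (S.m[S.e (cR F A) | S.invt.ms]) x * (S.e (-cR F B) x * g x) ∂S.m =
        ((∫ x, ‖p x * q x‖ ^ 2 ∂S.m : ℝ) : ℂ) := by
      have e1 : ∫ x, (S.m[S.e (cR F A) | S.invt.ms]) x * (S.e (-cR F B) x * g x) ∂S.m =
          ∫ x, S.e (-cR F B) x * (p x * g x) ∂S.m := by
        refine integral_congr_ae ?_
        filter_upwards [hp3] with x hx
        rw [hx]; ring
      have hpg : Measurable[S.invt.ms] (fun x => p x * g x) := hp1.mul hgI
      rw [e1, integral_mul_of_meas S.m hY.le (TA_bm_integrable (TA_bm_e S (-cR F B)) S.m) hpg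
        (C := 1) (fun x => by
          rw [norm_mul]; exact mul_le_one₀ (hp2 x) (norm_nonneg _) (hg.bound x))]
      rw [← integral_complex_ofReal]
      refine integral_congr_ae ?_
      filter_upwards [hq3] with x hx
      rw [hx]
      have : q x * (p x * g x) = (p x * q x) * (starRingEnd ℂ) (p x * q x) := by
        simp only [g]; ring
      rw [this, Complex.mul_conj, Complex.normSq_eq_norm_sq]
    rw [← h2, ← h1]
    have e3 : (M.push (fun u : K F => u ^ n)).cx
        (fun u => ∫ x, S.e (cR F A) (S.T u x) * (S.e (-cR F B) x * g x) ∂S.m) =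
        M.cx (fun u => ∫ x, S.e (cR F A) (S.T (u ^ n) x) * (S.e (-cR F B) x * g x) ∂S.m) := rfl
    rw [e3]
    congr 1
    ext u
    refine integral_congr_ae (Filter.Eventually.of_forall fun x => ?_)
    simp only
    rw [S.e_rot, sub_eq_add_neg, S.e_add, mul_comm (cR F A)]
    ring
  have hbound : ∀ n : ℕ, 0 < n → ∫ x, ‖p x * q x‖ ^ 2 ∂S.m ≤
      1600 / (n : ℝ) + Real.exp (- (n : ℝ) / 20) := by
    intro n hn
    obtain ⟨β, hβ, hflip⟩ := exists_flip hF hA hB hAB hn
    have h1 : M.cx (fun u => ∫ x, g x * S.e (cR F A * cK F (u ^ n) - cR F B) x ∂S.m) =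
        M.cx (fun u => ∫ x, g x *
          S.e (∑ j ∈ Finset.range (n + 1), β j * cK F (u ^ j)) x ∂S.m) := by
      congr 1
      ext u
      obtain ⟨v, hv⟩ := hflip u
      rw [← hv, TA_rot_test S hgI]
    have h2 := TA_flip_bound hF S hD M hM hn β hβ hg
    rw [← h1, ← hsq n hn, Complex.norm_real] at h2
    exact (le_abs_self _).trans h2
  have hzero : ∫ x, ‖p x * q x‖ ^ 2 ∂S.m ≤ 0 := by
    have hlim : Filter.Tendsto (fun n : ℕ => 1600 / (n : ℝ) + Real.exp (- (n : ℝ) / 20))
        Filter.atTop (nhds (0 + 0)) := by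
      refine Filter.Tendsto.add ?_ ?_
      · exact tendsto_const_div_atTop_nhds_zero_nat 1600
      · refine Real.tendsto_exp_atBot.comp ?_
        have : (fun n : ℕ => - (n : ℝ) / 20) = fun n : ℕ => (-(1 / 20 : ℝ)) * (n : ℝ) := by
          ext n; ring
        rw [this]
        exact Filter.Tendsto.const_mul_atTop_of_neg (by norm_num) tendsto_natCast_atTop_atTop
    rw [add_zero] at hlim
    refine ge_of_tendsto hlim ?_
    filter_upwards [Filter.eventually_gt_atTop 0] with n hn
    exact hbound n hn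
  have hint : Integrable (fun x => ‖p x * q x‖ ^ 2) S.m := by
    refine Integrable.of_bound (C := 1) ((hpm.mul hqm).norm.pow_const 2).aestronglyMeasurable
      (Filter.Eventually.of_forall fun x => ?_)
    rw [Real.norm_of_nonneg (by positivity), norm_mul]
    exact pow_le_one₀ (by positivity) (mul_le_one₀ (hp2 x) (norm_nonneg _) (hq2 x))
  have hz0 : ∫ x, ‖p x * q x‖ ^ 2 ∂S.m = 0 :=
    le_antisymm hzero (integral_nonneg fun x => by positivity)
  have hae := (integral_eq_zero_iff_of_nonneg (fun x => by positivity) hint).1 hz0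
  filter_upwards [hae, hp3, hq4] with x h1 h2 h3
  have h4 : ‖p x * q x‖ = 0 := by
    have : ‖p x * q x‖ ^ 2 = 0 := h1
    exact pow_eq_zero_iff (two_ne_zero) |>.1 this
  rw [norm_mul] at h4
  rw [h2, h3]
  rcases mul_eq_zero.1 h4 with h5 | h5
  · rw [norm_eq_zero.1 h5, zero_mul]
  · rw [norm_eq_zero.1 h5, map_zero, mul_zero]

/-- the conditional expectations vanish -/
theorem TA_condExp_zero [StandardBorelSpace X] (hF : RadClosed F) (S : RotSys F X) (hD : S.CondD)
    {A : F0 F} (hA : 0 < (A : ℝ)) :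
    ∀ᵐ x ∂S.m, (S.m[S.e (cR F A) | S.invt.ms]) x = 0 := by
  have hY := invt_invAlg S
  have : Infinite (K F) := K_infinite hF
  obtain ⟨M, hM⟩ := exists_invMean (K F)
  obtain ⟨p, hp1, hp2, hp3⟩ := exists_bounded_condExp S.m hY.le (TA_bm_e S (cR F A))
  have hpm : Measurable p := hp1.mono hY.le le_rfl
  have hp4 : S.m[S.e (-cR F A) | S.invt.ms] =ᵐ[S.m] fun x => (starRingEnd ℂ) (p x) := by
    have h1 := condExp_conj S.m hY.le (TA_bm_integrable (TA_bm_e S (cR F A)) S.m)
    have h2 : (fun x => (starRingEnd ℂ) (S.e (cR F A) x)) = S.e (-cR F A) := by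
      ext x; rw [TA_e_neg]
    rw [h2] at h1
    filter_upwards [h1, hp3] with x hx1 hx2
    rw [hx1, hx2]
  let g : X → ℂ := fun x => ((‖p x‖ ^ 2 : ℝ) : ℂ)
  have hgI : Measurable[S.invt.ms] g := by
    have hc : Continuous (fun z : ℂ => ((‖z‖ ^ 2 : ℝ) : ℂ)) := by fun_prop
    exact hc.measurable.comp hp1
  have hg1 : ∀ x, ‖g x‖ ≤ 1 := by
    intro x
    simp only [g, Complex.norm_real, Real.norm_eq_abs, abs_of_nonneg (sq_nonneg ‖p x‖)]
    exact pow_le_one₀ (norm_nonneg _) (hp2 x)
  have hg : BM g := ⟨hgI.mono hY.le le_rfl, hg1⟩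
  have h1 := mean_ergodic S M hM (TA_bm_e S (cR F A)) (TA_bm_mul (TA_bm_e S (-cR F A)) hg)
  have h2 : ∫ x, (S.m[S.e (cR F A) | S.invt.ms]) x * (S.e (-cR F A) x * g x) ∂S.m =
      ((∫ x, ‖p x‖ ^ 4 ∂S.m : ℝ) : ℂ) := by
    have e1 : ∫ x, (S.m[S.e (cR F A) | S.invt.ms]) x * (S.e (-cR F A) x * g x) ∂S.m =
        ∫ x, S.e (-cR F A) x * (p x * g x) ∂S.m := by
      refine integral_congr_ae ?_
      filter_upwards [hp3] with x hx
      rw [hx]; ring
    have hpg : Measurable[S.invt.ms] (fun x => p x * g x) := hp1.mul hgI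
    rw [e1, integral_mul_of_meas S.m hY.le (TA_bm_integrable (TA_bm_e S (-cR F A)) S.m) hpg
      (C := 1) (fun x => by
        rw [norm_mul]; exact mul_le_one₀ (hp2 x) (norm_nonneg _) (hg.bound x))]
    rw [← integral_complex_ofReal]
    refine integral_congr_ae ?_
    filter_upwards [hp4] with x hx
    rw [hx]
    have : (starRingEnd ℂ) (p x) * (p x * g x) = (p x * (starRingEnd ℂ) (p x)) * g x := by ring
    rw [this, Complex.mul_conj, Complex.normSq_eq_norm_sq]
    simp only [g]
    push_cast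
    ring
  have h3 : M.cx (fun u => ∫ x, S.e (cR F A) (S.T u x) * (S.e (-cR F A) x * g x) ∂S.m) = 0 := by
    -- each integral vanishes unless `‖u - 1‖ ∈ {0, 1}`
    have key : ∀ u : K F, ‖((u : Circle) : ℂ) - 1‖ ≠ 0 → ‖((u : Circle) : ℂ) - 1‖ ≠ 1 →
        ∫ x, S.e (cR F A) (S.T u x) * (S.e (-cR F A) x * g x) ∂S.m = 0 := by
      intro u hu0 hu1
      have e1 : ∫ x, S.e (cR F A) (S.T u x) * (S.e (-cR F A) x * g x) ∂S.m =
          ∫ x, g x * S.e (cK F u * cR F A - cR F A) x ∂S.m := by
        refine integral_congr_ae (Filter.Eventually.of_forall fun x => ?_)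
        simp only
        rw [S.e_rot, sub_eq_add_neg, S.e_add]
        ring
      obtain ⟨v, t, ht, hz⟩ := exists_polar hF (cK F u * cR F A - cR F A)
      have hnorm : (t : ℝ) = ‖((u : Circle) : ℂ) - 1‖ * (A : ℝ) := by
        rw [ht]
        have : ((cK F u * cR F A - cR F A : F) : ℂ) = (((u : Circle) : ℂ) - 1) * ((A : ℝ) : ℂ) := by
          push_cast
          rw [coe_cK, coe_cR]
          ring
        rw [this, norm_mul, Complex.norm_real, Real.norm_of_nonneg hA.le]
      have ht0 : 0 < (t : ℝ) := by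
        rw [hnorm]
        exact mul_pos (lt_of_le_of_ne (norm_nonneg _) (Ne.symm hu0)) hA
      have htA : A ≠ t := by
        intro h
        rw [← h] at hnorm
        have : ‖((u : Circle) : ℂ) - 1‖ = 1 := by
          have h5 : (1 : ℝ) * (A : ℝ) = ‖((u : Circle) : ℂ) - 1‖ * (A : ℝ) := by linarith
          exact (mul_right_cancel₀ hA.ne' h5).symm
        exact hu1 this
      rw [e1, hz, TA_rot_test S hgI]
      have e2 : ∫ x, g x * S.e (cR F t) x ∂S.m = ∫ x, S.e (cR F t) x * g x ∂S.m := by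
        congr 1; ext x; ring
      rw [e2, integral_mul_of_meas S.m hY.le (TA_bm_integrable (TA_bm_e S (cR F t)) S.m) hgI hg1]
      rw [← integral_zero X ℂ (μ := S.m)]
      refine integral_congr_ae ?_
      filter_upwards [TA_product_zero hF S hD hA ht0 htA, hp3] with x hx1 hx2
      rw [hx2] at hx1
      rcases mul_eq_zero.1 hx1 with h5 | h5
      · simp only [g, h5]; simp
      · rw [h5, zero_mul]
    have hfin : ({u : K F | ‖((u : Circle) : ℂ) - 1‖ = 0} ∪
        {u : K F | ‖((u : Circle) : ℂ) - 1‖ = 1}).Finite :=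
      (finite_norm_sub_one hF 0).union (finite_norm_sub_one hF 1)
    have hb : ∀ u : K F, ‖∫ x, S.e (cR F A) (S.T u x) * (S.e (-cR F A) x * g x) ∂S.m‖ ≤ 1 := by
      intro u
      refine (norm_integral_le_of_norm_le_const (C := 1)
        (Filter.Eventually.of_forall fun x => ?_)).trans (by simp)
      rw [norm_mul, norm_mul, S.e_norm, S.e_norm, one_mul, one_mul]
      exact hg1 x
    have hB := Bdd.of_norm hb
    have hz : ∀ u : K F, u ∉ ({u : K F | ‖((u : Circle) : ℂ) - 1‖ = 0} ∪
        {u : K F | ‖((u : Circle) : ℂ) - 1‖ = 1}) →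
        ∫ x, S.e (cR F A) (S.T u x) * (S.e (-cR F A) x * g x) ∂S.m = 0 := by
      intro u hu
      rw [Set.mem_union, not_or] at hu
      exact key u hu.1 hu.2
    refine Complex.ext ?_ ?_
    · refine hM.finite_support hB.1 (hfin.subset ?_)
      intro u hu
      by_contra hcon
      exact hu (by simp only [hz u hcon, Complex.zero_re])
    · refine hM.finite_support hB.2.1 (hfin.subset ?_)
      intro u hu
      by_contra hcon
      exact hu (by simp only [hz u hcon, Complex.zero_im])
  rw [h3, h2] at h1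
  have h4 : ∫ x, ‖p x‖ ^ 4 ∂S.m = 0 := by
    have := h1.symm
    exact_mod_cast this
  have hint : Integrable (fun x => ‖p x‖ ^ 4) S.m := by
    refine Integrable.of_bound (C := 1) (hpm.norm.pow_const 4).aestronglyMeasurable
      (Filter.Eventually.of_forall fun x => ?_)
    rw [Real.norm_of_nonneg (by positivity)]
    exact pow_le_one₀ (norm_nonneg _) (hp2 x)
  have hae := (integral_eq_zero_iff_of_nonneg (fun x => by positivity) hint).1 h4
  filter_upwards [hae, hp3] with x hx1 hx2
  have : ‖p x‖ ^ 4 = 0 := hx1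
  have h5 : ‖p x‖ = 0 := pow_eq_zero_iff (by norm_num) |>.1 this
  rw [hx2]
  exact norm_eq_zero.1 h5

/-- **Theorem A.** -/
theorem theoremA [StandardBorelSpace X] (hF : RadClosed F) (S : RotSys F X) (hD : S.CondD) (z : F)
    (hz : z ≠ 0) : ∫ x, S.e z x ∂S.m = 0 := by
  have hY := invt_invAlg S
  obtain ⟨v, t, ht, hzt⟩ := exists_polar hF z
  have ht0 : 0 < (t : ℝ) := by
    rw [ht]
    refine norm_pos_iff.2 ?_
    intro h
    exact hz (Subtype.ext h)
  have h1 : Measurable[S.invt.ms] (fun _ : X => (1 : ℂ)) := measurable_const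
  have h2 := TA_rot_test S h1 v (cR F t)
  simp only [one_mul] at h2
  rw [hzt, h2, ← integral_condExp hY.le]
  rw [← integral_zero X ℂ (μ := S.m)]
  exact integral_congr_ae (TA_condExp_zero hF S hD ht0)

end Pool.Agent.RadPD
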