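import Pool.Agent.RadPD.SP
import Pool.Agent.RadPD.TA

set_option autoImplicit false

namespace Pool.Agent.RadPD

open MeasureTheory ProbabilityTheory

section URep

variable {F : Subfield ℂ} {H : Type*} [NormedAddCommGroup H] [InnerProductSpace ℂ H]

/-- **Theorem A'.** -/
theorem theoremA' (hF : RadClosed F) [Countable F] [CompleteSpace H] (ρ : URep F H) (v : H)
    (hv : ∀ u, ρ.R u v = v) (hperp : ∀ w ∈ ρ.Hc, inner ℂ w v = 0) (z : F) (hz : z ≠ 0) :
    inner ℂ v (ρ.U z v) = 0 := by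
  by_cases h0 : v = 0
  · rw [h0, inner_zero_left]
  have hn : ‖v‖ ≠ 0 := norm_ne_zero_iff.2 h0
  set c : ℂ := ((‖v‖⁻¹ : ℝ) : ℂ) with hc
  have hc0 : c ≠ 0 := by
    rw [hc]
    exact_mod_cast inv_ne_zero hn
  have hv1 : ‖c • v‖ = 1 := by
    rw [norm_smul, hc, Complex.norm_real, norm_inv, norm_norm, inv_mul_cancel₀ hn]
  have hv' : ∀ u, ρ.R u (c • v) = c • v := fun u => by rw [map_smul, hv]
  have hperp' : ∀ w ∈ ρ.Hc, inner ℂ w (c • v) = 0 := fun w hw => by
    rw [inner_smul_right, hperp w hw, mul_zero]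
  obtain ⟨X, mX, hX, S, h1, h2⟩ := exists_spectral ρ (c • v) hv1 hv'
  have hD := spectral_condD ρ (c • v) hv1 hperp' S h1 h2
  have h3 := theoremA hF S hD z hz
  rw [h1, map_smul, inner_smul_left, inner_smul_right] at h3
  rcases mul_eq_zero.1 h3 with h4 | h4
  · exact absurd ((map_eq_zero _).1 h4) hc0
  · rcases mul_eq_zero.1 h4 with h5 | h5
    · exact absurd h5 hc0
    · exact h5

end URep

end Pool.Agent.RadPD
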