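import Pool.Agent.RadPD.TD
import Pool.Agent.RadPD.TB

set_option autoImplicit false

namespace Pool.Agent.RadPD

open MeasureTheory ProbabilityTheory

section TR

variable {F : Subfield ℂ}

/-- real part truncated to `[-1, 1]` -/
noncomputable def T1tr (c : ℂ) : ℝ := max (-1) (min 1 c.re)

theorem T1tr_meas : Measurable T1tr := by
  unfold T1tr
  exact measurable_const.max (measurable_const.min Complex.measurable_re)

theorem T1tr_bound (c : ℂ) : |T1tr c| ≤ 1 := by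
  unfold T1tr
  rw [abs_le]
  exact ⟨le_max_left _ _, max_le (by norm_num) (min_le_left _ _)⟩

theorem T1tr_lip (c d : ℂ) : |T1tr c - T1tr d| ≤ ‖c - d‖ := by
  have h : |c.re - d.re| ≤ ‖c - d‖ := by
    rw [← Complex.sub_re]
    exact Complex.abs_re_le_norm _
  refine le_trans ?_ h
  unfold T1tr
  rcases abs_cases (c.re - d.re) with h1 | h1 <;>
  rcases le_total (1 : ℝ) c.re with h2 | h2 <;> rcases le_total (1 : ℝ) d.re with h3 | h3 <;>
  rcases le_total (-1 : ℝ) c.re with h4 | h4 <;> rcases le_total (-1 : ℝ) d.re with h5 | h5 <;>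
  simp only [min_eq_left, min_eq_right, max_eq_left, max_eq_right, h2, h3, h4, h5,
    (by norm_num : (-1 : ℝ) ≤ 1)] <;>
  rw [abs_le] <;> constructor <;> linarith [h1.1, h1.2]

theorem T1tr_real (r : ℝ) (h : |r| ≤ 1) : T1tr (r : ℂ) = r := by
  unfold T1tr
  rw [abs_le] at h
  rw [Complex.ofReal_re, min_eq_right h.2, max_eq_right h.1]

section L2

variable {Ω : Type*} [MeasurableSpace Ω] (P : Measure Ω) [IsProbabilityMeasure P]

theorem T1memLp (g : Ω → ℝ) (hg : Measurable g) (hb : ∀ ω, |g ω| ≤ 1) :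
    MemLp (fun ω => (g ω : ℂ)) 2 P := by
  refine MemLp.of_bound (C := 1) ?_ ?_
  · exact (Complex.measurable_ofReal.comp hg).aestronglyMeasurable
  · refine Filter.Eventually.of_forall fun ω => ?_
    rw [Complex.norm_real, Real.norm_eq_abs]
    exact hb ω

/-- the class of a bounded real function in complex `L²` -/
noncomputable def T1cls (g : Ω → ℝ) (hg : Measurable g) (hb : ∀ ω, |g ω| ≤ 1) : Lp ℂ 2 P :=
  (T1memLp P g hg hb).toLp _

theorem T1cls_coe (g : Ω → ℝ) (hg : Measurable g) (hb : ∀ ω, |g ω| ≤ 1) :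
    T1cls P g hg hb =ᵐ[P] fun ω => (g ω : ℂ) := (T1memLp P g hg hb).coeFn_toLp

omit [IsProbabilityMeasure P] in
theorem T1inner (f g : Lp ℂ 2 P) : inner ℂ f g = ∫ ω, g ω * (starRingEnd ℂ) (f ω) ∂P := by
  rw [L2.inner_def]
  rfl

omit [IsProbabilityMeasure P] in
theorem T1norm_sq (f : Lp ℂ 2 P) : ‖f‖ ^ 2 = ∫ ω, ‖f ω‖ ^ 2 ∂P := by
  have h := @inner_self_eq_norm_sq_to_K ℂ (Lp ℂ 2 P) _ _ _ f
  rw [T1inner] at h
  have h2 : ∀ ω, f ω * (starRingEnd ℂ) (f ω) = ((‖f ω‖ ^ 2 : ℝ) : ℂ) := fun ω => by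
    rw [Complex.mul_conj, Complex.normSq_eq_norm_sq]
  simp only [h2] at h
  have h4 : ∫ ω, ((‖f ω‖ ^ 2 : ℝ) : ℂ) ∂P = ((∫ ω, ‖f ω‖ ^ 2 ∂P : ℝ) : ℂ) := integral_ofReal
  have h3 : ((∫ ω, ‖f ω‖ ^ 2 ∂P : ℝ) : ℂ) = ((‖f‖ ^ 2 : ℝ) : ℂ) := by
    rw [← h4, h]
    push_cast
    rfl
  exact (Complex.ofReal_injective h3).symm

omit [IsProbabilityMeasure P] in
/-- norm of a difference from representatives -/
theorem T1norm_sub_sq (f g : Lp ℂ 2 P) (f' g' : Ω → ℂ) (hf : f =ᵐ[P] f') (hg : g =ᵐ[P] g') :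
    ‖f - g‖ ^ 2 = ∫ ω, ‖f' ω - g' ω‖ ^ 2 ∂P := by
  rw [T1norm_sq]
  refine integral_congr_ae ?_
  filter_upwards [hf, hg, Lp.coeFn_sub f g] with ω h1 h2 h3
  rw [h3, Pi.sub_apply, h1, h2]

end L2

/-- Module T1: existence of the splitting -/
theorem exists_split (hF : RadClosed F) [Countable F] (P : Measure (F → Bool))
    [IsProbabilityMeasure P] (hτ : ∀ z, MeasurePreserving (tau (C := Bool) z) P P)
    (hr : ∀ u, MeasurePreserving (rot (C := Bool) u) P P) : ∃ D : Split F, D.P = P := by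
  classical
  obtain ⟨ρ, hU, hR⟩ := exists_urep (C := Bool) P hτ hr
  have hsgm : Measurable (sg (F := F)) := by
    unfold sg
    refine Measurable.ite ?_ measurable_const measurable_const
    have h0 : Measurable (fun ω : F → Bool => ω 0) := measurable_pi_apply 0
    exact h0 (measurableSet_singleton true)
  have hsgb : ∀ ω : F → Bool, |sg ω| ≤ 1 := fun ω => by
    unfold sg
    split_ifs <;> norm_num
  set v : Lp ℂ 2 P := T1cls P (sg (F := F)) hsgm hsgb with hv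
  have hvc : v =ᵐ[P] fun ω => (sg ω : ℂ) := T1cls_coe P _ hsgm hsgb
  have hUc : ∀ (z : F) (f : Lp ℂ 2 P) (f' : (F → Bool) → ℂ), f =ᵐ[P] f' →
      ρ.U z f =ᵐ[P] fun ω => f' (tau z ω) := fun z f f' h =>
    (hU z f).trans ((hτ z).quasiMeasurePreserving.ae_eq_comp h)
  have hRc : ∀ (u : K F) (f : Lp ℂ 2 P) (f' : (F → Bool) → ℂ), f =ᵐ[P] f' →
      ρ.R u f =ᵐ[P] fun ω => f' (rot u ω) := fun u f f' h =>
    (hR u f).trans ((hr u).quasiMeasurePreserving.ae_eq_comp h)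
  have hsgrot : ∀ (u : K F) (ω : F → Bool), sg (rot u ω) = sg ω := fun u ω => by
    unfold sg rot
    rw [mul_zero]
  have hRv : ∀ u, ρ.R u v = v := fun u => by
    refine Lp.ext ?_
    refine (hRc u v _ hvc).trans (Filter.EventuallyEq.trans ?_ hvc.symm)
    refine Filter.Eventually.of_forall fun ω => ?_
    show ((sg (rot u ω) : ℝ) : ℂ) = _
    rw [hsgrot]
  obtain ⟨w, v', hvw, hwHc, hperp, hRw, hRv'⟩ := ρ.exists_decomp hRv
  -- the truncated function
  have hwm : Measurable (w : (F → Bool) → ℂ) := (Lp.stronglyMeasurable w).measurable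
  set x : (F → Bool) → ℝ := fun ω => T1tr (w ω) with hx
  have hxm : Measurable x := T1tr_meas.comp hwm
  have hxb : ∀ ω, |x ω| ≤ 1 := fun ω => T1tr_bound _
  set w' : Lp ℂ 2 P := T1cls P x hxm hxb with hw'
  have hw'c : w' =ᵐ[P] fun ω => (x ω : ℂ) := T1cls_coe P x hxm hxb
  have hw'Hc : w' ∈ ρ.Hc := by
    rw [URep.mem_Hc] at hwHc ⊢
    intro ε hε
    obtain ⟨r, hr0, hr1⟩ := hwHc ε hε
    refine ⟨r, hr0, fun z hz => le_trans ?_ (hr1 z hz)⟩
    refine Lp.norm_le_norm_of_ae_le ?_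
    filter_upwards [hUc z w' _ hw'c, hw'c, hUc z w _ (Filter.EventuallyEq.refl _ _),
      Lp.coeFn_sub (ρ.U z w') w', Lp.coeFn_sub (ρ.U z w) w] with ω h1 h2 h3 h4 h5
    rw [h4, h5, Pi.sub_apply, Pi.sub_apply, h1, h2, h3, ← Complex.ofReal_sub, Complex.norm_real,
      Real.norm_eq_abs]
    exact T1tr_lip _ _
  have hdist : ‖v - w'‖ ≤ ‖v - w‖ := by
    refine Lp.norm_le_norm_of_ae_le ?_
    filter_upwards [hvc, hw'c, Lp.coeFn_sub v w', Lp.coeFn_sub v w] with ω h1 h2 h4 h5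
    rw [h4, h5, Pi.sub_apply, Pi.sub_apply, h1, h2, ← Complex.ofReal_sub, Complex.norm_real,
      Real.norm_eq_abs]
    have := T1tr_lip (sg ω : ℂ) (w ω)
    rwa [T1tr_real _ (hsgb ω)] at this
  have hww : w = w' := by
    have h1 : v - w' = v' + (w - w') := by
      rw [hvw]
      abel
    have h2 : v - w = v' := by
      rw [hvw]
      abel
    have h3 : inner ℂ (w - w') v' = 0 := hperp _ (ρ.Hc.sub_mem hwHc hw'Hc)
    have h4 : inner ℂ v' (w - w') = 0 := inner_eq_zero_symm.1 h3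
    have h5 := norm_add_sq (𝕜 := ℂ) v' (w - w')
    rw [h4] at h5
    rw [h1, h2] at hdist
    have h6 : ‖v' + (w - w')‖ ^ 2 ≤ ‖v'‖ ^ 2 := by
      have := norm_nonneg (v' + (w - w'))
      nlinarith
    have h7 : ‖w - w'‖ ^ 2 ≤ 0 := by
      rw [h5] at h6
      simp only [map_zero, mul_zero, add_zero] at h6
      linarith
    have h8 : ‖w - w'‖ = 0 := by
      have := norm_nonneg (w - w')
      nlinarith
    exact sub_eq_zero.1 (norm_eq_zero.1 h8)
  have hwc : w =ᵐ[P] fun ω => (x ω : ℂ) := by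
    rw [hww]
    exact hw'c
  have hv'c : v' =ᵐ[P] fun ω => ((sg ω - x ω : ℝ) : ℂ) := by
    have h2 : v' = v - w := by
      rw [hvw]
      abel
    rw [h2]
    filter_upwards [hvc, hwc, Lp.coeFn_sub v w] with ω h1 h3 h4
    rw [h4, Pi.sub_apply, h1, h3, Complex.ofReal_sub]
  refine ⟨{ P := P, prob := inferInstance, tau_mp := hτ, rot_mp := hr, x := x, x_meas := hxm,
            x_bound := hxb, x_cont := ?_, x_rot := ?_, y_perp := ?_, y_orth := ?_ }, rfl⟩
  · intro ε hε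
    obtain ⟨r, hr0, hr1⟩ := hwHc (Real.sqrt ε) (Real.sqrt_pos.2 hε)
    refine ⟨r, hr0, fun z hz => ?_⟩
    have h1 := T1norm_sub_sq P _ _ _ _ (hUc z w _ hwc) hwc
    have h2 : ∫ ω, (x (tau z ω) - x ω) ^ 2 ∂P = ‖ρ.U z w - w‖ ^ 2 := by
      rw [h1]
      refine integral_congr_ae (Filter.Eventually.of_forall fun ω => ?_)
      show (x (tau z ω) - x ω) ^ 2 = ‖((x (tau z ω) : ℝ) : ℂ) - ((x ω : ℝ) : ℂ)‖ ^ 2
      rw [← Complex.ofReal_sub, Complex.norm_real, Real.norm_eq_abs, sq_abs]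
    rw [h2]
    have h3 := hr1 z hz
    calc ‖ρ.U z w - w‖ ^ 2 ≤ (Real.sqrt ε) ^ 2 := by
          exact pow_le_pow_left₀ (norm_nonneg _) h3 2
      _ = ε := Real.sq_sqrt hε.le
  · intro u
    have h1 := hRc u w _ hwc
    rw [hRw u] at h1
    filter_upwards [h1, hwc] with ω h2 h3
    rw [h3] at h2
    exact (Complex.ofReal_injective h2).symm
  · intro g hg hb hc
    have hgc := T1cls_coe P g hg hb
    have hgH : T1cls P g hg hb ∈ ρ.Hc := by
      rw [URep.mem_Hc]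
      intro ε hε
      obtain ⟨r, hr0, hr1⟩ := hc (ε ^ 2) (by positivity)
      refine ⟨r, hr0, fun z hz => ?_⟩
      have h1 := T1norm_sub_sq P _ _ _ _ (hUc z _ _ hgc) hgc
      have h2 : ∫ ω, (g (tau z ω) - g ω) ^ 2 ∂P
          = ‖ρ.U z (T1cls P g hg hb) - T1cls P g hg hb‖ ^ 2 := by
        rw [h1]
        refine integral_congr_ae (Filter.Eventually.of_forall fun ω => ?_)
        show (g (tau z ω) - g ω) ^ 2 = ‖((g (tau z ω) : ℝ) : ℂ) - ((g ω : ℝ) : ℂ)‖ ^ 2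
        rw [← Complex.ofReal_sub, Complex.norm_real, Real.norm_eq_abs, sq_abs]
      have h3 := hr1 z hz
      rw [h2] at h3
      exact le_of_sq_le_sq h3 hε.le
    have h1 := hperp _ hgH
    rw [T1inner] at h1
    have h2 : ∫ ω, v' ω * (starRingEnd ℂ) (T1cls P g hg hb ω) ∂P
        = ∫ ω, (((sg ω - x ω) * g ω : ℝ) : ℂ) ∂P := by
      refine integral_congr_ae ?_
      filter_upwards [hv'c, hgc] with ω h3 h4
      rw [h3, h4, Complex.conj_ofReal, Complex.ofReal_mul]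
    rw [h2] at h1
    have h4 : ∫ ω, (((sg ω - x ω) * g ω : ℝ) : ℂ) ∂P
        = ((∫ ω, (sg ω - x ω) * g ω ∂P : ℝ) : ℂ) := integral_ofReal
    rw [h4] at h1
    exact_mod_cast h1
  · intro z hz
    have h1 := theoremA' hF ρ v' hRv' hperp z hz
    rw [T1inner] at h1
    have h2 : ∫ ω, (ρ.U z v') ω * (starRingEnd ℂ) (v' ω) ∂P
        = ∫ ω, (((sg (tau z ω) - x (tau z ω)) * (sg ω - x ω) : ℝ) : ℂ) ∂P := by
      refine integral_congr_ae ?_
      filter_upwards [hv'c, hUc z v' _ hv'c] with ω h3 h4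
      rw [h3, h4, Complex.conj_ofReal, Complex.ofReal_mul]
    rw [h2] at h1
    have h4 : ∫ ω, (((sg (tau z ω) - x (tau z ω)) * (sg ω - x ω) : ℝ) : ℂ) ∂P
        = ((∫ ω, (sg (tau z ω) - x (tau z ω)) * (sg ω - x ω) ∂P : ℝ) : ℂ) := integral_ofReal
    rw [h4] at h1
    exact_mod_cast h1

end TR

end Pool.Agent.RadPD
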