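import Pool.Agent.RadPD.TD
import Pool.Agent.RadPD.FL

set_option autoImplicit false

namespace Pool.Agent.RadPD

open MeasureTheory ProbabilityTheory

section TR

variable {F : Subfield ℂ}

theorem T2_measurable_sg : Measurable (sg (F := F)) := by
  unfold sg
  have h0 : Measurable (fun ω : F → Bool => ω 0) := measurable_pi_apply (0 : F)
  exact Measurable.ite (h0 (measurableSet_singleton true)) measurable_const measurable_const

theorem T2_abs_sg (ω : F → Bool) : |sg ω| ≤ 1 := by
  unfold sg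
  split_ifs <;> simp

theorem T2_integrable {X : Type*} [MeasurableSpace X] {P : Measure X} [IsProbabilityMeasure P]
    {f : X → ℝ} (hf : Measurable f) {C : ℝ} (hC : ∀ x, |f x| ≤ C) : Integrable f P :=
  Integrable.of_bound hf.aestronglyMeasurable C (Filter.Eventually.of_forall hC)

theorem T2_mp {X : Type*} [MeasurableSpace X] {P : Measure X} {φ : X → X}
    (hφ : MeasurePreserving φ P P) {f : X → ℝ} (hf : Measurable f) :
    ∫ x, f (φ x) ∂P = ∫ x, f x ∂P := by
  conv_rhs => rw [← hφ.map_eq]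
  rw [integral_map hφ.measurable.aemeasurable]
  exact hf.aestronglyMeasurable

theorem T2_tau_rot (z : F) (u : K F) (ω : F → Bool) :
    tau z (rot u ω) = rot u (tau (cK F u * z) ω) := by
  funext w
  simp [tau, rot, mul_add]

theorem T2_tau_tau (z w : F) (ω : F → Bool) : tau z (tau w ω) = tau (z + w) ω := by
  funext v
  simp [tau, add_assoc]

/-- Module T2: the Bessel argument -/
theorem Split.bessel (hF : RadClosed F) (D : Split F) (g : (F → Bool) → ℝ) (hg : Measurable g)
    (hb : ∀ ω, |g ω| ≤ 1)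
    (hrot : ∀ ε : ℝ, 0 < ε → ∃ r : ℝ, 0 < r ∧ ∀ u : K F, ‖((u : Circle) : ℂ) - 1‖ < r →
      ∫ ω, (g (rot u ω) - g ω) ^ 2 ∂D.P ≤ ε) (z : F) (hz : z ≠ 0) :
    ∫ ω, (sg (tau z ω) - D.x (tau z ω)) * (sg ω - D.x ω) * g ω ∂D.P = 0 := by
  classical
  have hP : IsProbabilityMeasure D.P := D.prob
  -- the wild part
  set Y : (F → Bool) → ℝ := fun ω => sg ω - D.x ω with hY
  have hYm : Measurable Y := T2_measurable_sg.sub D.x_meas
  have hYb : ∀ ω, |Y ω| ≤ 2 := fun ω => by
    calc |Y ω| ≤ |sg ω| + |D.x ω| := abs_sub _ _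
      _ ≤ 2 := by linarith [T2_abs_sg ω, D.x_bound ω]
  have hYt : ∀ w : F, Measurable (fun ω => Y (tau w ω)) := fun w => hYm.comp (D.tau_mp w).measurable
  have hYrot : ∀ u : K F, (fun ω => Y (rot u ω)) =ᵐ[D.P] Y := fun u => by
    filter_upwards [D.x_rot u] with ω hω
    show sg (rot u ω) - D.x (rot u ω) = sg ω - D.x ω
    rw [hω]
    congr 1
    simp [sg, rot]
  -- orthogonality of translates
  have horth : ∀ w w' : F, w ≠ w' → ∫ ω, Y (tau w ω) * Y (tau w' ω) ∂D.P = 0 := fun w w' h => by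
    have h1 := D.y_orth (w - w') (sub_ne_zero.mpr h)
    have h2 := T2_mp (D.tau_mp w') (f := fun ω => Y (tau (w - w') ω) * Y ω) ((hYt _).mul hYm)
    rw [← h1, ← h2]
    apply integral_congr_ae
    filter_upwards with ω
    simp only [T2_tau_tau, sub_add_cancel]
  -- the function `h = Y g`
  set h : (F → Bool) → ℝ := fun ω => Y ω * g ω with hh
  have hhm : Measurable h := hYm.mul hg
  have hhb : ∀ ω, |h ω| ≤ 2 := fun ω => by
    rw [hh]
    simp only [abs_mul]
    calc |Y ω| * |g ω| ≤ 2 * 1 := by gcongr; exact hYb ω; exact hb ω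
      _ = 2 := by ring
  set I : ℝ := ∫ ω, Y (tau z ω) * Y ω * g ω ∂D.P with hI
  show I = 0
  -- rotation
  have hI2 : ∀ u : K F, I = ∫ ω, Y (tau (cK F u * z) ω) * Y ω * g (rot u ω) ∂D.P := fun u => by
    rw [hI, ← T2_mp (D.rot_mp u) (f := fun ω => Y (tau z ω) * Y ω * g ω)
      (((hYt z).mul hYm).mul hg)]
    apply integral_congr_ae
    have h3 : ∀ᵐ ω ∂D.P, Y (rot u (tau (cK F u * z) ω)) = Y (tau (cK F u * z) ω) :=
      (D.tau_mp (cK F u * z)).quasiMeasurePreserving.ae (hYrot u)
    filter_upwards [h3, hYrot u] with ω h4 h5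
    rw [T2_tau_rot, h4, h5]
  have hrotm : ∀ u : K F, Measurable (fun ω => g (rot u ω)) := fun u =>
    hg.comp (D.rot_mp u).measurable
  have key : ∀ δ : ℝ, 0 < δ → |I| ≤ δ := by
    intro δ hδ
    obtain ⟨r, hr, hr2⟩ := hrot (δ / 8 * (δ / 8)) (by positivity)
    have hclose : ∀ u : K F, ‖((u : Circle) : ℂ) - 1‖ < r →
        |I - ∫ ω, Y (tau (cK F u * z) ω) * h ω ∂D.P| ≤ δ / 2 := fun u hu => by
      have h1 := hr2 u hu
      have hm1 : Measurable (fun ω => Y (tau (cK F u * z) ω) * Y ω * g (rot u ω)) :=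
        ((hYt _).mul hYm).mul (hrotm u)
      have hm2 : Measurable (fun ω => Y (tau (cK F u * z) ω) * h ω) := (hYt _).mul hhm
      have hb1 : ∀ ω, |Y (tau (cK F u * z) ω) * Y ω * g (rot u ω)| ≤ 4 := fun ω => by
        rw [abs_mul, abs_mul]
        calc |Y (tau (cK F u * z) ω)| * |Y ω| * |g (rot u ω)| ≤ 2 * 2 * 1 := by
              gcongr; exact hYb _; exact hYb _; exact hb _
          _ = 4 := by ring
      have hb2 : ∀ ω, |Y (tau (cK F u * z) ω) * h ω| ≤ 4 := fun ω => by
        rw [abs_mul]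
        calc |Y (tau (cK F u * z) ω)| * |h ω| ≤ 2 * 2 := by
              gcongr; exact hYb _; exact hhb _
          _ = 4 := by ring
      rw [hI2 u, ← integral_sub (T2_integrable hm1 hb1) (T2_integrable hm2 hb2)]
      have hdm : Measurable (fun ω => (g (rot u ω) - g ω) ^ 2) := ((hrotm u).sub hg).pow_const 2
      have hdb : ∀ ω, |(g (rot u ω) - g ω) ^ 2| ≤ 4 := fun ω => by
        have : |g (rot u ω) - g ω| ≤ 2 := by
          calc |g (rot u ω) - g ω| ≤ |g (rot u ω)| + |g ω| := abs_sub _ _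
            _ ≤ 2 := by linarith [hb (rot u ω), hb ω]
        rw [abs_pow]
        calc |g (rot u ω) - g ω| ^ 2 ≤ 2 ^ 2 := by gcongr
          _ = 4 := by norm_num
      calc |∫ ω, (Y (tau (cK F u * z) ω) * Y ω * g (rot u ω) - Y (tau (cK F u * z) ω) * h ω) ∂D.P|
          ≤ ∫ ω, |Y (tau (cK F u * z) ω) * Y ω * g (rot u ω) - Y (tau (cK F u * z) ω) * h ω| ∂D.P :=
            abs_integral_le_integral_abs
        _ ≤ ∫ ω, (2 * (8 / δ) * (g (rot u ω) - g ω) ^ 2 + δ / 4) ∂D.P := by
            apply integral_mono_of_nonneg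
            · exact Filter.Eventually.of_forall fun ω => abs_nonneg _
            · exact ((T2_integrable hdm hdb).const_mul _).add (integrable_const _)
            · refine Filter.Eventually.of_forall fun ω => ?_
              have e1 : Y (tau (cK F u * z) ω) * Y ω * g (rot u ω) - Y (tau (cK F u * z) ω) * h ω =
                  Y (tau (cK F u * z) ω) * Y ω * (g (rot u ω) - g ω) := by
                rw [hh]; ring
              show |Y (tau (cK F u * z) ω) * Y ω * g (rot u ω) - Y (tau (cK F u * z) ω) * h ω| ≤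
                2 * (8 / δ) * (g (rot u ω) - g ω) ^ 2 + δ / 4
              rw [e1, abs_mul, abs_mul]
              have e2 : |Y (tau (cK F u * z) ω)| * |Y ω| ≤ 2 * 2 := by
                gcongr; exact hYb _; exact hYb _
              set a := |g (rot u ω) - g ω| with ha
              have e3 : (g (rot u ω) - g ω) ^ 2 = a ^ 2 := by rw [ha, sq_abs]
              rw [e3]
              have e4 : 0 ≤ a := abs_nonneg _
              have e5 : 4 * a ≤ 2 * (8 / δ) * a ^ 2 + δ / 4 := by
                have e6 : 0 ≤ (16 / δ) * (a - δ / 8) ^ 2 := by positivity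
                have e7 : (16 / δ) * (a - δ / 8) ^ 2 = 2 * (8 / δ) * a ^ 2 + δ / 4 - 4 * a := by
                  field_simp
                  ring
                linarith
              calc |Y (tau (cK F u * z) ω)| * |Y ω| * a ≤ 2 * 2 * a := by gcongr
                _ ≤ _ := by linarith
        _ = 2 * (8 / δ) * ∫ ω, (g (rot u ω) - g ω) ^ 2 ∂D.P + δ / 4 := by
            rw [integral_add ((T2_integrable hdm hdb).const_mul _) (integrable_const _),
              integral_const_mul]
            simp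
        _ ≤ 2 * (8 / δ) * (δ / 8 * (δ / 8)) + δ / 4 := by gcongr
        _ = δ / 2 := by field_simp; ring
    -- choose many rotations
    obtain ⟨M, hM⟩ := exists_nat_gt (8 / δ)
    have hM0 : (0:ℝ) < M := lt_trans (by positivity) hM
    obtain ⟨s, hs, hcard⟩ := (infinite_near_one hF hr).exists_subset_card_eq (M ^ 2)
    have hcard' : ((s.card : ℕ) : ℝ) = (M:ℝ) ^ 2 := by rw [hcard]; push_cast; ring
    set A : (F → Bool) → ℝ := fun ω => ∑ u ∈ s, Y (tau (cK F u * z) ω) with hA
    have hAm : Measurable A := Finset.measurable_sum _ fun u _ => hYt _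
    have hint2 : ∀ w w' : F, Integrable (fun ω => Y (tau w ω) * Y (tau w' ω)) D.P := fun w w' =>
      T2_integrable ((hYt w).mul (hYt w')) (C := 4) fun ω => by
        rw [abs_mul]
        calc |Y (tau w ω)| * |Y (tau w' ω)| ≤ 2 * 2 := by gcongr; exact hYb _; exact hYb _
          _ = 4 := by ring
    have hAsq : ∫ ω, A ω ^ 2 ∂D.P ≤ 4 * (M:ℝ) ^ 2 := by
      have e1 : ∀ ω, A ω ^ 2 = ∑ u ∈ s, ∑ v ∈ s,
          Y (tau (cK F u * z) ω) * Y (tau (cK F v * z) ω) := fun ω => by
        rw [hA, sq, Finset.sum_mul_sum]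
      simp_rw [e1]
      rw [integral_finsetSum _ (fun u _ => integrable_finsetSum _ fun v _ => hint2 _ _)]
      simp_rw [integral_finsetSum _ (fun v _ => hint2 _ _)]
      have e2 : ∀ u ∈ s, ∑ v ∈ s, ∫ ω, Y (tau (cK F u * z) ω) * Y (tau (cK F v * z) ω) ∂D.P ≤ 4 := by
        intro u hu
        rw [Finset.sum_eq_single_of_mem u hu]
        · calc ∫ ω, Y (tau (cK F u * z) ω) * Y (tau (cK F u * z) ω) ∂D.P
              ≤ ∫ _ω : F → Bool, (4:ℝ) ∂D.P := by
                apply integral_mono (hint2 _ _) (integrable_const _)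
                intro ω
                have := hYb (tau (cK F u * z) ω)
                have h2 := abs_le.mp this
                show Y (tau (cK F u * z) ω) * Y (tau (cK F u * z) ω) ≤ 4
                nlinarith
            _ = 4 := by simp
        · intro v _ hvu
          apply horth
          intro heq
          apply hvu
          have := mul_right_cancel₀ hz heq
          exact (cK_injective this).symm
      calc ∑ u ∈ s, ∑ v ∈ s, ∫ ω, Y (tau (cK F u * z) ω) * Y (tau (cK F v * z) ω) ∂D.P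
          ≤ ∑ u ∈ s, (4:ℝ) := Finset.sum_le_sum e2
        _ = 4 * (M:ℝ) ^ 2 := by rw [Finset.sum_const, nsmul_eq_mul, hcard']; ring
    have hintYh : ∀ w : F, Integrable (fun ω => Y (tau w ω) * h ω) D.P := fun w =>
      T2_integrable ((hYt w).mul hhm) (C := 4) fun ω => by
        rw [abs_mul]
        calc |Y (tau w ω)| * |h ω| ≤ 2 * 2 := by gcongr; exact hYb _; exact hhb _
          _ = 4 := by ring
    have hAb : ∀ ω, |A ω| ≤ 2 * (M:ℝ) ^ 2 := fun ω => by
      calc |A ω| ≤ ∑ u ∈ s, |Y (tau (cK F u * z) ω)| := Finset.abs_sum_le_sum_abs _ _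
        _ ≤ ∑ u ∈ s, (2:ℝ) := Finset.sum_le_sum fun u _ => hYb _
        _ = 2 * (M:ℝ) ^ 2 := by rw [Finset.sum_const, nsmul_eq_mul, hcard']; ring
    have hAint : Integrable (fun ω => A ω ^ 2) D.P :=
      T2_integrable (hAm.pow_const 2) (C := (2 * (M:ℝ) ^ 2) ^ 2) fun ω => by
        rw [abs_pow]; gcongr; exact hAb ω
    have hhint : Integrable (fun ω => h ω ^ 2) D.P :=
      T2_integrable (hhm.pow_const 2) (C := 2 ^ 2) fun ω => by
        rw [abs_pow]; gcongr; exact hhb ω
    have hh2 : ∫ ω, h ω ^ 2 ∂D.P ≤ 4 := by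
      calc ∫ ω, h ω ^ 2 ∂D.P ≤ ∫ _ω : F → Bool, (4:ℝ) ∂D.P := by
            apply integral_mono hhint (integrable_const _)
            intro ω
            have h2 := abs_le.mp (hhb ω)
            show h ω ^ 2 ≤ 4
            nlinarith
        _ = 4 := by simp
    have hsum : |∑ u ∈ s, ∫ ω, Y (tau (cK F u * z) ω) * h ω ∂D.P| ≤ 4 * M := by
      rw [← integral_finsetSum _ (fun u _ => hintYh _)]
      have e1 : ∀ ω, ∑ u ∈ s, Y (tau (cK F u * z) ω) * h ω = A ω * h ω := fun ω => by
        rw [hA, Finset.sum_mul]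
      simp_rw [e1]
      calc |∫ ω, A ω * h ω ∂D.P| ≤ ∫ ω, |A ω * h ω| ∂D.P := abs_integral_le_integral_abs
        _ ≤ ∫ ω, ((1 / (2 * M)) * A ω ^ 2 + (M / 2) * h ω ^ 2) ∂D.P := by
            apply integral_mono_of_nonneg
            · exact Filter.Eventually.of_forall fun ω => abs_nonneg _
            · exact (hAint.const_mul _).add (hhint.const_mul _)
            · refine Filter.Eventually.of_forall fun ω => ?_
              show |A ω * h ω| ≤ (1 / (2 * M)) * A ω ^ 2 + (M / 2) * h ω ^ 2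
              rw [abs_mul, ← sq_abs (A ω), ← sq_abs (h ω)]
              set a := |A ω|
              set b := |h ω|
              have e6 : 0 ≤ (1 / (2 * (M:ℝ))) * (a - M * b) ^ 2 := by positivity
              have e7 : (1 / (2 * (M:ℝ))) * (a - M * b) ^ 2 =
                  (1 / (2 * M)) * a ^ 2 + (M / 2) * b ^ 2 - a * b := by
                field_simp
                ring
              linarith
        _ = (1 / (2 * M)) * ∫ ω, A ω ^ 2 ∂D.P + (M / 2) * ∫ ω, h ω ^ 2 ∂D.P := by
            rw [integral_add (hAint.const_mul _) (hhint.const_mul _), integral_const_mul,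
              integral_const_mul]
        _ ≤ (1 / (2 * M)) * (4 * (M:ℝ) ^ 2) + (M / 2) * 4 := by gcongr
        _ = 4 * M := by field_simp; ring
    -- conclusion
    have hI3 : (M:ℝ) ^ 2 * |I| ≤ (M:ℝ) ^ 2 * (δ / 2) + 4 * M := by
      have e1 : (M:ℝ) ^ 2 * I = ∑ u ∈ s, (I - ∫ ω, Y (tau (cK F u * z) ω) * h ω ∂D.P) +
          ∑ u ∈ s, ∫ ω, Y (tau (cK F u * z) ω) * h ω ∂D.P := by
        rw [← Finset.sum_add_distrib]
        simp only [sub_add_cancel]
        rw [Finset.sum_const, nsmul_eq_mul, hcard']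
      have e2 : |∑ u ∈ s, (I - ∫ ω, Y (tau (cK F u * z) ω) * h ω ∂D.P)| ≤ (M:ℝ) ^ 2 * (δ / 2) := by
        calc |∑ u ∈ s, (I - ∫ ω, Y (tau (cK F u * z) ω) * h ω ∂D.P)|
            ≤ ∑ u ∈ s, |I - ∫ ω, Y (tau (cK F u * z) ω) * h ω ∂D.P| :=
              Finset.abs_sum_le_sum_abs _ _
          _ ≤ ∑ u ∈ s, (δ / 2) := Finset.sum_le_sum fun u hu => hclose u (hs hu)
          _ = (M:ℝ) ^ 2 * (δ / 2) := by rw [Finset.sum_const, nsmul_eq_mul, hcard']
      have e3 : (M:ℝ) ^ 2 * |I| = |(M:ℝ) ^ 2 * I| := by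
        rw [abs_mul, abs_of_nonneg (by positivity : (0:ℝ) ≤ (M:ℝ) ^ 2)]
      rw [e3, e1]
      calc |_ + _| ≤ |∑ u ∈ s, (I - ∫ ω, Y (tau (cK F u * z) ω) * h ω ∂D.P)| +
            |∑ u ∈ s, ∫ ω, Y (tau (cK F u * z) ω) * h ω ∂D.P| := abs_add_le _ _
        _ ≤ _ := add_le_add e2 hsum
    have hM8 : 8 < M * δ := by
      rw [div_lt_iff₀ hδ] at hM
      exact hM
    have e5 : (M:ℝ) ^ 2 * |I| ≤ (M:ℝ) ^ 2 * δ := by nlinarith
    exact le_of_mul_le_mul_left e5 (by positivity)
  by_contra hne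
  have h1 := key (|I| / 2) (by positivity)
  have h2 : 0 < |I| := abs_pos.mpr hne
  linarith

end TR

end Pool.Agent.RadPD
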