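import Pool.Agent.RadPD.T2

set_option autoImplicit false

namespace Pool.Agent.RadPD

open MeasureTheory ProbabilityTheory

section T3Aux

variable {Ω ι : Type*} [MeasurableSpace Ω]

/-- bounded measurable functions continuous along a family of maps -/
structure T3Cont (P : Measure Ω) (T : ι → Ω → Ω) (s : ι → ℝ) (f : Ω → ℝ) : Prop where
  meas : Measurable f
  bdd : ∃ C : ℝ, 0 ≤ C ∧ ∀ ω, |f ω| ≤ C
  cont : ∀ ε : ℝ, 0 < ε → ∃ r : ℝ, 0 < r ∧ ∀ i, s i < r → ∫ ω, (f (T i ω) - f ω) ^ 2 ∂P ≤ ε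

lemma T3_integrable (P : Measure Ω) [IsProbabilityMeasure P] {f : Ω → ℝ} (hf : Measurable f)
    (C : ℝ) (hC : ∀ ω, |f ω| ≤ C) : Integrable f P :=
  Integrable.of_bound hf.aestronglyMeasurable C (Filter.Eventually.of_forall hC)

lemma T3Cont.const (P : Measure Ω) (T : ι → Ω → Ω) (s : ι → ℝ) (c : ℝ) :
    T3Cont P T s (fun _ => c) where
  meas := measurable_const
  bdd := ⟨|c|, abs_nonneg _, fun _ => le_rfl⟩
  cont := fun ε hε => ⟨1, one_pos, fun i _ => by simpa using hε.le⟩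

lemma T3_sq_integrable (P : Measure Ω) [IsProbabilityMeasure P] {f : Ω → ℝ} (hf : Measurable f)
    {C : ℝ} (hC : ∀ ω, |f ω| ≤ C) {T : Ω → Ω} (hT : Measurable T) :
    Integrable (fun ω => (f (T ω) - f ω) ^ 2) P := by
  refine T3_integrable P (((hf.comp hT).sub hf).pow_const 2) ((2 * C) ^ 2) fun ω => ?_
  rw [abs_of_nonneg (sq_nonneg _)]
  have h1 := abs_le.1 (hC (T ω))
  have h2 := abs_le.1 (hC ω)
  exact sq_le_sq' (by linarith) (by linarith)

lemma T3Cont.comb {P : Measure Ω} [IsProbabilityMeasure P] {T : ι → Ω → Ω} {s : ι → ℝ}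
    (hT : ∀ i, Measurable (T i)) {f g h : Ω → ℝ} (hf : T3Cont P T s f) (hg : T3Cont P T s g)
    (hm : Measurable h) {C A : ℝ} (hC : ∀ ω, |h ω| ≤ C) (hC0 : 0 ≤ C) (hA : 0 ≤ A)
    (hle : ∀ ω ω', (h ω - h ω') ^ 2 ≤ A * (f ω - f ω') ^ 2 + A * (g ω - g ω') ^ 2) :
    T3Cont P T s h where
  meas := hm
  bdd := ⟨C, hC0, hC⟩
  cont := by
    intro ε hε
    obtain ⟨Cf, _, hCf⟩ := hf.bdd
    obtain ⟨Cg, _, hCg⟩ := hg.bdd
    set δ := ε / (2 * (A + 1)) with hδ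
    have hA1 : 0 < A + 1 := by linarith
    have hδ0 : 0 < δ := by positivity
    obtain ⟨r₁, hr₁, H₁⟩ := hf.cont δ hδ0
    obtain ⟨r₂, hr₂, H₂⟩ := hg.cont δ hδ0
    refine ⟨min r₁ r₂, lt_min hr₁ hr₂, fun i hi => ?_⟩
    have i₁ := T3_sq_integrable P hf.meas hCf (hT i)
    have i₂ := T3_sq_integrable P hg.meas hCg (hT i)
    have i₃ := T3_sq_integrable P hm hC (hT i)
    calc ∫ ω, (h (T i ω) - h ω) ^ 2 ∂P
        ≤ ∫ ω, (A * (f (T i ω) - f ω) ^ 2 + A * (g (T i ω) - g ω) ^ 2) ∂P :=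
          integral_mono i₃ ((i₁.const_mul A).add (i₂.const_mul A)) fun ω => hle _ _
      _ = A * ∫ ω, (f (T i ω) - f ω) ^ 2 ∂P + A * ∫ ω, (g (T i ω) - g ω) ^ 2 ∂P := by
          rw [integral_add (i₁.const_mul A) (i₂.const_mul A), integral_const_mul,
            integral_const_mul]
      _ ≤ A * δ + A * δ := by
          have h1 := H₁ i (lt_of_lt_of_le hi (min_le_left _ _))
          have h2 := H₂ i (lt_of_lt_of_le hi (min_le_right _ _))
          gcongr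
      _ ≤ (A + 1) * δ + (A + 1) * δ := by gcongr <;> linarith
      _ = ε := by rw [hδ]; field_simp; ring

lemma T3Cont.add {P : Measure Ω} [IsProbabilityMeasure P] {T : ι → Ω → Ω} {s : ι → ℝ}
    (hT : ∀ i, Measurable (T i)) {f g : Ω → ℝ} (hf : T3Cont P T s f) (hg : T3Cont P T s g) :
    T3Cont P T s (fun ω => f ω + g ω) := by
  obtain ⟨Cf, hf0, hCf⟩ := hf.bdd
  obtain ⟨Cg, hg0, hCg⟩ := hg.bdd
  refine T3Cont.comb hT hf hg (hf.meas.add hg.meas) (C := Cf + Cg) (A := 2)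
    (fun ω => (abs_add_le _ _).trans (add_le_add (hCf ω) (hCg ω))) (by linarith) (by norm_num) ?_
  intro ω ω'
  nlinarith [sq_nonneg ((f ω - f ω') - (g ω - g ω'))]

lemma T3Cont.mul {P : Measure Ω} [IsProbabilityMeasure P] {T : ι → Ω → Ω} {s : ι → ℝ}
    (hT : ∀ i, Measurable (T i)) {f g : Ω → ℝ} (hf : T3Cont P T s f) (hg : T3Cont P T s g) :
    T3Cont P T s (fun ω => f ω * g ω) := by
  obtain ⟨Cf, hf0, hCf⟩ := hf.bdd
  obtain ⟨Cg, hg0, hCg⟩ := hg.bdd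
  refine T3Cont.comb hT hf hg (hf.meas.mul hg.meas) (C := Cf * Cg)
    (A := 2 * (Cf ^ 2 + Cg ^ 2)) ?_ (by positivity) (by positivity) ?_
  · intro ω
    rw [abs_mul]
    exact mul_le_mul (hCf ω) (hCg ω) (abs_nonneg _) hf0
  · intro ω ω'
    have h1 : f ω' ^ 2 ≤ Cf ^ 2 := sq_le_sq' (by linarith [(abs_le.1 (hCf ω')).1])
      (abs_le.1 (hCf ω')).2
    have h2 : g ω ^ 2 ≤ Cg ^ 2 := sq_le_sq' (by linarith [(abs_le.1 (hCg ω)).1])
      (abs_le.1 (hCg ω)).2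
    have e : f ω * g ω - f ω' * g ω' = (f ω - f ω') * g ω + f ω' * (g ω - g ω') := by ring
    have e2 : ((f ω - f ω') * g ω + f ω' * (g ω - g ω')) ^ 2 ≤
        2 * (g ω ^ 2 * (f ω - f ω') ^ 2) + 2 * (f ω' ^ 2 * (g ω - g ω') ^ 2) := by
      nlinarith [sq_nonneg ((f ω - f ω') * g ω - f ω' * (g ω - g ω'))]
    have e3 : g ω ^ 2 * (f ω - f ω') ^ 2 ≤ (Cf ^ 2 + Cg ^ 2) * (f ω - f ω') ^ 2 :=
      mul_le_mul_of_nonneg_right (by nlinarith [sq_nonneg Cf]) (sq_nonneg _)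
    have e4 : f ω' ^ 2 * (g ω - g ω') ^ 2 ≤ (Cf ^ 2 + Cg ^ 2) * (g ω - g ω') ^ 2 :=
      mul_le_mul_of_nonneg_right (by nlinarith [sq_nonneg Cg]) (sq_nonneg _)
    rw [e]
    linarith

lemma T3_Z_add {P : Measure Ω} {f g : Ω → ℝ} (hf : Integrable f P ∧ ∫ ω, f ω ∂P = 0)
    (hg : Integrable g P ∧ ∫ ω, g ω ∂P = 0) :
    Integrable (fun ω => f ω + g ω) P ∧ ∫ ω, (f ω + g ω) ∂P = 0 :=
  ⟨hf.1.add hg.1, by rw [integral_add hf.1 hg.1, hf.2, hg.2, add_zero]⟩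

end T3Aux

section TR

variable {F : Subfield ℂ}

lemma T3_tau_tau (w z : F) (ω : F → Bool) : tau w (tau z ω) = tau (w + z) ω := by
  funext v
  simp only [tau]
  congr 1
  ring

lemma T3_tau_rot (w : F) (u : K F) (ω : F → Bool) :
    tau w (rot u ω) = rot u (tau (cK F u * w) ω) := by
  funext v
  simp only [tau, rot]
  congr 1
  ring

/-- change of variables -/
lemma T3_int_tau (D : Split F) (w : F) {h : (F → Bool) → ℝ} (hh : Measurable h) :
    ∫ ω, h (tau w ω) ∂D.P = ∫ ω, h ω ∂D.P := by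
  have h1 := integral_map (μ := D.P) (φ := tau (C := Bool) w) (f := h)
    (D.tau_mp w).measurable.aemeasurable hh.aestronglyMeasurable
  rw [(D.tau_mp w).map_eq] at h1
  exact h1.symm

lemma T3_sg_meas : Measurable (sg (F := F)) := by
  have h : MeasurableSet ((fun ω : F → Bool => ω 0) ⁻¹' {true}) :=
    (measurable_pi_apply (0 : F)) (measurableSet_singleton true)
  unfold sg
  exact Measurable.ite h measurable_const measurable_const

lemma T3_sg_abs (ω : F → Bool) : |sg ω| = 1 := by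
  unfold sg
  split_ifs <;> simp

/-- translation continuity of `x (tau w)` -/
lemma T3_tr (D : Split F) (w : F) :
    T3Cont D.P (tau (C := Bool)) (fun z : F => ‖(z : ℂ)‖) (fun ω => D.x (tau w ω)) where
  meas := D.x_meas.comp (D.tau_mp w).measurable
  bdd := ⟨1, zero_le_one, fun ω => D.x_bound _⟩
  cont := by
    intro ε hε
    obtain ⟨r, hr, H⟩ := D.x_cont ε hε
    refine ⟨r, hr, fun z hz => ?_⟩
    have e : ∀ ω : F → Bool, (D.x (tau w (tau z ω)) - D.x (tau w ω)) ^ 2 =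
        (fun ω' => (D.x (tau z ω') - D.x ω') ^ 2) (tau w ω) := by
      intro ω
      simp only [T3_tau_tau]
      rw [add_comm w z]
    simp_rw [e]
    rw [T3_int_tau D w (h := fun ω' => (D.x (tau z ω') - D.x ω') ^ 2)
      (((D.x_meas.comp (D.tau_mp z).measurable).sub D.x_meas).pow_const 2)]
    exact H z hz

/-- rotation continuity of `x (tau w)` -/
lemma T3_ro (D : Split F) (w : F) :
    T3Cont D.P (rot (C := Bool)) (fun u : K F => ‖((u : Circle) : ℂ) - 1‖)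
      (fun ω => D.x (tau w ω)) where
  meas := D.x_meas.comp (D.tau_mp w).measurable
  bdd := ⟨1, zero_le_one, fun ω => D.x_bound _⟩
  cont := by
    intro ε hε
    obtain ⟨r, hr, H⟩ := D.x_cont ε hε
    have hw1 : 0 < ‖(w : ℂ)‖ + 1 := by positivity
    refine ⟨r / (‖(w : ℂ)‖ + 1), by positivity, fun u hu => ?_⟩
    have hz : ‖((cK F u * w - w : F) : ℂ)‖ < r := by
      have e : ((cK F u * w - w : F) : ℂ) = (((u : Circle) : ℂ) - 1) * (w : ℂ) := by
        push_cast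
        rw [coe_cK]
        ring
      rw [e, norm_mul]
      calc ‖((u : Circle) : ℂ) - 1‖ * ‖(w : ℂ)‖
          ≤ ‖((u : Circle) : ℂ) - 1‖ * (‖(w : ℂ)‖ + 1) := by gcongr; linarith
        _ < r / (‖(w : ℂ)‖ + 1) * (‖(w : ℂ)‖ + 1) := by gcongr
        _ = r := by field_simp
    have hae : ∀ᵐ ω ∂D.P, D.x (tau w (rot u ω)) = D.x (tau (cK F u * w) ω) := by
      have h1 := (D.tau_mp (cK F u * w)).quasiMeasurePreserving.ae (D.x_rot u)
      filter_upwards [h1] with ω hω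
      rw [T3_tau_rot]
      exact hω
    have e1 : ∫ ω, (D.x (tau w (rot u ω)) - D.x (tau w ω)) ^ 2 ∂D.P =
        ∫ ω, (fun ω' => (D.x (tau (cK F u * w - w) ω') - D.x ω') ^ 2) (tau w ω) ∂D.P := by
      refine integral_congr_ae ?_
      filter_upwards [hae] with ω hω
      rw [hω]
      simp only [T3_tau_tau]
      rw [sub_add_cancel]
    rw [e1, T3_int_tau D w (h := fun ω' => (D.x (tau (cK F u * w - w) ω') - D.x ω') ^ 2)
      (((D.x_meas.comp (D.tau_mp _).measurable).sub D.x_meas).pow_const 2)]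
    exact H _ hz

lemma T3_y_meas (D : Split F) (w : F) :
    Measurable (fun ω : F → Bool => sg (tau w ω) - D.x (tau w ω)) :=
  (T3_sg_meas.comp (D.tau_mp w).measurable).sub (D.x_meas.comp (D.tau_mp w).measurable)

lemma T3_y_abs (D : Split F) (w : F) (ω : F → Bool) :
    |sg (tau w ω) - D.x (tau w ω)| ≤ 2 := by
  have h1 := T3_sg_abs (tau w ω)
  have h2 := D.x_bound (tau w ω)
  calc |sg (tau w ω) - D.x (tau w ω)| ≤ |sg (tau w ω)| + |D.x (tau w ω)| := abs_sub _ _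
    _ ≤ 2 := by linarith

lemma T3_perp (D : Split F) (w : F) {G : (F → Bool) → ℝ}
    (hG : T3Cont D.P (tau (C := Bool)) (fun z : F => ‖(z : ℂ)‖) G) :
    ∫ ω, (sg (tau w ω) - D.x (tau w ω)) * G ω ∂D.P = 0 := by
  have := D.prob
  obtain ⟨C, hC0, hC⟩ := hG.bdd
  have hC1 : 0 < C + 1 := by linarith
  have e : ∀ ω : F → Bool, (sg (tau w ω) - D.x (tau w ω)) * G ω =
      (fun ω' => (C + 1) * ((sg ω' - D.x ω') * ((C + 1)⁻¹ * G (tau (-w) ω')))) (tau w ω) := by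
    intro ω
    simp only [T3_tau_tau]
    rw [neg_add_cancel]
    have : tau (0 : F) ω = ω := by funext v; simp [tau]
    rw [this]
    field_simp
  simp_rw [e]
  rw [T3_int_tau D w (h := fun ω' => (C + 1) * ((sg ω' - D.x ω') * ((C + 1)⁻¹ *
    G (tau (-w) ω')))) ((((T3_sg_meas.sub D.x_meas).mul
      ((hG.meas.comp (D.tau_mp (-w)).measurable).const_mul _))).const_mul _)]
  rw [integral_const_mul, D.y_perp (fun ω' => (C + 1)⁻¹ * G (tau (-w) ω'))
    ((hG.meas.comp (D.tau_mp (-w)).measurable).const_mul _), mul_zero]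
  · intro ω
    rw [abs_mul, abs_of_pos (inv_pos.2 hC1), inv_mul_le_iff₀ hC1]
    linarith [hC (tau (-w) ω)]
  · intro ε hε
    obtain ⟨r, hr, H⟩ := hG.cont (ε * (C + 1) ^ 2) (by positivity)
    refine ⟨r, hr, fun z hz => ?_⟩
    have e2 : ∀ ω : F → Bool, ((C + 1)⁻¹ * G (tau (-w) (tau z ω)) - (C + 1)⁻¹ * G (tau (-w) ω)) ^ 2
        = (fun ω' => ((C + 1)⁻¹) ^ 2 * (G (tau z ω') - G ω') ^ 2) (tau (-w) ω) := by
      intro ω
      simp only [T3_tau_tau]
      rw [add_comm (-w) z]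
      ring
    simp_rw [e2]
    rw [T3_int_tau D (-w) (h := fun ω' => ((C + 1)⁻¹) ^ 2 * (G (tau z ω') - G ω') ^ 2)
      ((((hG.meas.comp (D.tau_mp z).measurable).sub hG.meas).pow_const 2).const_mul _),
      integral_const_mul]
    calc ((C + 1)⁻¹) ^ 2 * ∫ ω, (G (tau z ω) - G ω) ^ 2 ∂D.P
        ≤ ((C + 1)⁻¹) ^ 2 * (ε * (C + 1) ^ 2) := by
          have := H z hz
          gcongr
      _ = ε := by field_simp

lemma T3_bes (hF : RadClosed F) (D : Split F) {w v : F} (hwv : w ≠ v) {G : (F → Bool) → ℝ}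
    (hG : T3Cont D.P (rot (C := Bool)) (fun u : K F => ‖((u : Circle) : ℂ) - 1‖)
      (fun ω => G (tau (-v) ω))) (hGm : Measurable G) :
    ∫ ω, (sg (tau w ω) - D.x (tau w ω)) * (sg (tau v ω) - D.x (tau v ω)) * G ω ∂D.P = 0 := by
  have := D.prob
  obtain ⟨C, hC0, hC⟩ := hG.bdd
  have hC1 : 0 < C + 1 := by linarith
  have e : ∀ ω : F → Bool,
      (sg (tau w ω) - D.x (tau w ω)) * (sg (tau v ω) - D.x (tau v ω)) * G ω =
      (fun ω' => (C + 1) * ((sg (tau (w - v) ω') - D.x (tau (w - v) ω')) * (sg ω' - D.x ω') *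
        ((C + 1)⁻¹ * G (tau (-v) ω')))) (tau v ω) := by
    intro ω
    simp only [T3_tau_tau]
    rw [neg_add_cancel, sub_add_cancel]
    have : tau (0 : F) ω = ω := by funext v; simp [tau]
    rw [this]
    field_simp
  simp_rw [e]
  rw [T3_int_tau D v (h := fun ω' => (C + 1) * ((sg (tau (w - v) ω') - D.x (tau (w - v) ω')) *
      (sg ω' - D.x ω') * ((C + 1)⁻¹ * G (tau (-v) ω'))))
    ((((T3_y_meas D (w - v)).mul (T3_sg_meas.sub D.x_meas)).mul
      ((hGm.comp (D.tau_mp (-v)).measurable).const_mul _)).const_mul _)]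
  rw [integral_const_mul, Split.bessel hF D (fun ω' => (C + 1)⁻¹ * G (tau (-v) ω'))
    ((hGm.comp (D.tau_mp (-v)).measurable).const_mul _) ?_ ?_ _ (sub_ne_zero.2 hwv), mul_zero]
  · intro ω
    rw [abs_mul, abs_of_pos (inv_pos.2 hC1), inv_mul_le_iff₀ hC1]
    linarith [hC ω]
  · intro ε hε
    obtain ⟨r, hr, H⟩ := hG.cont (ε * (C + 1) ^ 2) (by positivity)
    refine ⟨r, hr, fun u hu => ?_⟩
    have e2 : ∀ ω : F → Bool, ((C + 1)⁻¹ * G (tau (-v) (rot u ω)) - (C + 1)⁻¹ *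
        G (tau (-v) ω)) ^ 2
        = ((C + 1)⁻¹) ^ 2 * (G (tau (-v) (rot u ω)) - G (tau (-v) ω)) ^ 2 := by
      intro ω
      ring
    simp_rw [e2]
    rw [integral_const_mul]
    calc ((C + 1)⁻¹) ^ 2 * ∫ ω, (G (tau (-v) (rot u ω)) - G (tau (-v) ω)) ^ 2 ∂D.P
        ≤ ((C + 1)⁻¹) ^ 2 * (ε * (C + 1) ^ 2) := by
          have := H u hu
          gcongr
      _ = ε := by field_simp

/-- Module T3: the continuous part on a forbidden triple -/
theorem Split.triple (hF : RadClosed F) (D : Split F) (z1 z2 z3 : F) (h12 : z1 ≠ z2)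
    (h13 : z1 ≠ z3) (h23 : z2 ≠ z3)
    (h : ∀ᵐ ω ∂D.P, ¬ (ω z1 = ω z2 ∧ ω z2 = ω z3)) :
    ∀ᵐ ω ∂D.P, D.x (tau z1 ω) * D.x (tau z2 ω) + D.x (tau z2 ω) * D.x (tau z3 ω) +
      D.x (tau z3 ω) * D.x (tau z1 ω) + 1 = 0 := by
  have := D.prob
  have hτm : ∀ z : F, Measurable (tau (C := Bool) z) := fun z => (D.tau_mp z).measurable
  have hrm : ∀ u : K F, Measurable (rot (C := Bool) u) := fun u => (D.rot_mp u).measurable
  -- the polynomial
  let Q : F → F → F → (F → Bool) → ℝ := fun a b c ω =>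
    D.x (tau a ω) * D.x (tau b ω) + D.x (tau b ω) * D.x (tau c ω) +
      D.x (tau c ω) * D.x (tau a ω) + 1
  have hQt : ∀ a b c : F, T3Cont D.P (tau (C := Bool)) (fun z : F => ‖(z : ℂ)‖) (Q a b c) :=
    fun a b c => T3Cont.add hτm (T3Cont.add hτm (T3Cont.add hτm
      (T3Cont.mul hτm (T3_tr D a) (T3_tr D b)) (T3Cont.mul hτm (T3_tr D b) (T3_tr D c)))
      (T3Cont.mul hτm (T3_tr D c) (T3_tr D a))) (T3Cont.const _ _ _ 1)
  have hQr : ∀ a b c : F, T3Cont D.P (rot (C := Bool)) (fun u : K F => ‖((u : Circle) : ℂ) - 1‖)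
      (Q a b c) :=
    fun a b c => T3Cont.add hrm (T3Cont.add hrm (T3Cont.add hrm
      (T3Cont.mul hrm (T3_ro D a) (T3_ro D b)) (T3Cont.mul hrm (T3_ro D b) (T3_ro D c)))
      (T3Cont.mul hrm (T3_ro D c) (T3_ro D a))) (T3Cont.const _ _ _ 1)
  set G := Q z1 z2 z3 with hG
  have hGt := hQt z1 z2 z3
  have hGm : Measurable G := hGt.meas
  have hGs : ∀ v : F, T3Cont D.P (rot (C := Bool)) (fun u : K F => ‖((u : Circle) : ℂ) - 1‖)
      (fun ω => G (tau (-v) ω)) := by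
    intro v
    have e : (fun ω => G (tau (-v) ω)) = Q (z1 + -v) (z2 + -v) (z3 + -v) := by
      funext ω
      simp only [hG, Q, T3_tau_tau]
    rw [e]
    exact hQr _ _ _
  let Y : F → (F → Bool) → ℝ := fun z ω => sg (tau z ω) - D.x (tau z ω)
  let X : F → (F → Bool) → ℝ := fun z ω => D.x (tau z ω)
  have hXt : ∀ z, T3Cont D.P (tau (C := Bool)) (fun z : F => ‖(z : ℂ)‖) (X z) := T3_tr D
  have p : ∀ a b : F, ∫ ω, Y a ω * (X b ω * G ω) ∂D.P = 0 := fun a b =>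
    T3_perp D a (T3Cont.mul hτm (hXt b) hGt)
  have q : ∀ a b : F, a ≠ b → ∫ ω, Y a ω * Y b ω * G ω ∂D.P = 0 := fun a b hab =>
    T3_bes hF D hab (hGs b) hGm
  obtain ⟨C, hC0, hC⟩ := hGt.bdd
  have hYm : ∀ a, Measurable (Y a) := T3_y_meas D
  have hYb : ∀ a ω, |Y a ω| ≤ 2 := T3_y_abs D
  have ip : ∀ a b : F, Integrable (fun ω => Y a ω * (X b ω * G ω)) D.P := by
    intro a b
    refine T3_integrable D.P ((hYm a).mul ((hXt b).meas.mul hGm)) (2 * (1 * C)) fun ω => ?_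
    rw [abs_mul, abs_mul]
    exact mul_le_mul (hYb a ω) (mul_le_mul (D.x_bound _) (hC ω) (abs_nonneg _) zero_le_one)
      (by positivity) (by norm_num)
  have iq : ∀ a b : F, Integrable (fun ω => Y a ω * Y b ω * G ω) D.P := by
    intro a b
    refine T3_integrable D.P (((hYm a).mul (hYm b)).mul hGm) (2 * 2 * C) fun ω => ?_
    rw [abs_mul, abs_mul]
    exact mul_le_mul (mul_le_mul (hYb a ω) (hYb b ω) (abs_nonneg _) (by norm_num)) (hC ω)
      (abs_nonneg _) (by norm_num)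
  have iG : Integrable (fun ω => G ω ^ 2) D.P := by
    refine T3_integrable D.P (hGm.pow_const 2) (C ^ 2) fun ω => ?_
    rw [abs_of_nonneg (sq_nonneg _)]
    exact sq_le_sq' (by linarith [(abs_le.1 (hC ω)).1]) (abs_le.1 (hC ω)).2
  -- the relation
  have hrel : ∀ᵐ ω ∂D.P, G ω ^ 2 = -(Y z2 ω * (X z1 ω * G ω) + Y z1 ω * (X z2 ω * G ω) +
      (Y z3 ω * (X z2 ω * G ω) + Y z2 ω * (X z3 ω * G ω)) +
      (Y z1 ω * (X z3 ω * G ω) + Y z3 ω * (X z1 ω * G ω)) +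
      (Y z1 ω * Y z2 ω * G ω + Y z2 ω * Y z3 ω * G ω + Y z3 ω * Y z1 ω * G ω)) := by
    filter_upwards [h] with ω hω
    have hs : sg (tau z1 ω) * sg (tau z2 ω) + sg (tau z2 ω) * sg (tau z3 ω) +
        sg (tau z3 ω) * sg (tau z1 ω) + 1 = 0 := by
      have e : ∀ z : F, sg (tau z ω) = if ω z = true then 1 else -1 := by
        intro z
        simp only [sg, tau, zero_add]
      rw [e, e, e]
      rcases Bool.eq_false_or_eq_true (ω z1) with h1 | h1 <;>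
      rcases Bool.eq_false_or_eq_true (ω z2) with h2 | h2 <;>
      rcases Bool.eq_false_or_eq_true (ω z3) with h3 | h3 <;>
      simp [h1, h2, h3] at hω ⊢
    have e1 : ∀ z : F, sg (tau z ω) = X z ω + Y z ω := by
      intro z
      simp only [X, Y]
      ring
    rw [e1, e1, e1] at hs
    have e2 : G ω = X z1 ω * X z2 ω + X z2 ω * X z3 ω + X z3 ω * X z1 ω + 1 := rfl
    have e3 : G ω = -(Y z2 ω * X z1 ω + Y z1 ω * X z2 ω + (Y z3 ω * X z2 ω + Y z2 ω * X z3 ω) +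
      (Y z1 ω * X z3 ω + Y z3 ω * X z1 ω) +
      (Y z1 ω * Y z2 ω + Y z2 ω * Y z3 ω + Y z3 ω * Y z1 ω)) := by
      rw [e2]
      linarith
    calc G ω ^ 2 = G ω * G ω := sq _
      _ = -(Y z2 ω * X z1 ω + Y z1 ω * X z2 ω + (Y z3 ω * X z2 ω + Y z2 ω * X z3 ω) +
      (Y z1 ω * X z3 ω + Y z3 ω * X z1 ω) +
      (Y z1 ω * Y z2 ω + Y z2 ω * Y z3 ω + Y z3 ω * Y z1 ω)) * G ω := by rw [← e3]
      _ = _ := by ring
  have hint : ∫ ω, G ω ^ 2 ∂D.P = 0 := by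
    rw [integral_congr_ae hrel, integral_neg]
    have P' : ∀ a b : F, Integrable (fun ω => Y a ω * (X b ω * G ω)) D.P ∧
      ∫ ω, Y a ω * (X b ω * G ω) ∂D.P = 0 := fun a b => ⟨ip a b, p a b⟩
    have Q' : ∀ a b : F, a ≠ b → Integrable (fun ω => Y a ω * Y b ω * G ω) D.P ∧
      ∫ ω, Y a ω * Y b ω * G ω ∂D.P = 0 := fun a b hab => ⟨iq a b, q a b hab⟩
    have key := T3_Z_add (T3_Z_add (T3_Z_add (T3_Z_add (P' z2 z1) (P' z1 z2))
      (T3_Z_add (P' z3 z2) (P' z2 z3))) (T3_Z_add (P' z1 z3) (P' z3 z1)))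
      (T3_Z_add (T3_Z_add (Q' z1 z2 h12) (Q' z2 z3 h23)) (Q' z3 z1 h13.symm))
    rw [key.2, neg_zero]
  have h0 := (integral_eq_zero_iff_of_nonneg (fun ω => sq_nonneg (G ω)) iG).1 hint
  filter_upwards [h0] with ω hω
  exact pow_eq_zero_iff (two_ne_zero) |>.1 hω

end TR

end Pool.Agent.RadPD
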