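import Pool.Agent.RadPD.AV
import Pool.Agent.MeasTri.Main

set_option autoImplicit false

namespace Pool.Agent.RadPD

open MeasureTheory ProbabilityTheory Filter Topology Metric Set
open scoped Real ENNReal

open Pool.Agent.MeasTri

lemma ae_shiftC {p : ℂ → Prop} (h : ∀ᵐ z : ℂ, p z) (v : ℂ) : ∀ᵐ z : ℂ, p (v + z) :=
  (measurePreserving_add_left (volume : Measure ℂ) v).quasiMeasurePreserving.ae h

/-! ### Equilateral triangles force all triangles -/

lemma tri_dec : ∀ x0 x1 x2 x3 x4 x5 x6 x7 : Bool,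
    ¬(x6 = x3 ∧ x3 = x5) → ¬(x1 = x2 ∧ x2 = x3) → ¬(x0 = x4 ∧ x4 = x1) →
    ¬(x0 = x2 ∧ x2 = x5) → ¬(x4 = x3 ∧ x3 = x7) → ¬(x0 = x6 ∧ x6 = x7) →
    x0 = x1 → x0 = x2 → False := by
  intro x0 x1 x2 x3 x4 x5 x6 x7
  cases x0 <;> cases x1 <;> cases x2 <;> cases x3 <;> cases x4 <;> cases x5 <;> cases x6 <;>
    cases x7 <;> simp

lemma no_tri_ae {f : ℂ → Bool} {A W : ℂ} (hA : AvoidAE f ‖A‖ ‖A‖ ‖A‖)
    (hW : AvoidAE f ‖W‖ ‖W‖ ‖W‖) (hC : AvoidAE f ‖A - W‖ ‖A - W‖ ‖A - W‖) (P : ℂ) :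
    ∀ᵐ z : ℂ, ¬ (f (P + z) = f (P + A + z) ∧ f (P + z) = f (P + W + z)) := by
  have nz := norm_zt
  have nz1 : ‖zt - 1‖ = 1 := norm_zt_sub_one
  have key : ∀ V : ℂ, AvoidAE f ‖V‖ ‖V‖ ‖V‖ → ∀ X Y Z u : ℂ, ‖u‖ = 1 → Y - X = u * V →
      Z - X = zt * (u * V) → ∀ᵐ z : ℂ, ¬ (f (X + z) = f (Y + z) ∧ f (Y + z) = f (Z + z)) := by
    intro V hV X Y Z u hu hY hZ
    refine hV X Y Z ?_ ?_ ?_
    · rw [norm_sub_rev, hY, norm_mul, hu, one_mul]
    · have : Z - Y = (zt - 1) * (u * V) := by linear_combination hZ - hY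
      rw [norm_sub_rev, this, norm_mul, nz1, norm_mul, hu]; ring
    · rw [norm_sub_rev, hZ, norm_mul, nz, norm_mul, hu]; ring
  have hz := zt_sq
  have n1 : ‖(1 : ℂ)‖ = 1 := by norm_num
  have nm1 : ‖(-1 : ℂ)‖ = 1 := by norm_num
  have nmz : ‖-zt‖ = 1 := by rw [norm_neg, nz]
  have n1z : ‖1 - zt‖ = 1 := by rw [norm_sub_rev, nz1]
  -- side A
  have t1 := key A hA (P + zt * (W - A)) (P + A + zt * (W - A)) (P + zt * W) 1 n1 (by ring)
    (by ring)
  have t3 := key A hA P (P + (1 - zt) * A) (P + A) (1 - zt) n1z (by ring)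
    (by linear_combination A * hz)
  -- side W
  have t4 := key W hW P (P + W) (P + zt * W) 1 n1 (by ring) (by ring)
  have t5 := key W hW (P + (1 - zt) * A) (P + (1 - zt) * A + zt * W)
    (P + (1 - zt) * A + (zt - 1) * W) zt nz (by ring) (by linear_combination (-W) * hz)
  -- side A - W
  have t2 := key (A - W) hC (P + A) (P + W) (P + A + zt * (W - A)) (-1) nm1 (by ring) (by ring)
  have t6 := key (A - W) hC P (P + zt * (W - A)) (P + (zt - 1) * (W - A)) (-zt) nmz (by ring)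
    (by linear_combination (A - W) * hz)
  have e1 : P + (1 - zt) * A + zt * W = P + A + zt * (W - A) := by ring
  have e2 : P + (1 - zt) * A + (zt - 1) * W = P + (zt - 1) * (W - A) := by ring
  rw [e1, e2] at t5
  filter_upwards [t1, t2, t3, t4, t5, t6] with z t1 t2 t3 t4 t5 t6
  rintro ⟨h1, h2⟩
  revert t1 t2 t3 t4 t5 t6 h1 h2
  generalize f (P + z) = x0
  generalize f (P + A + z) = x1
  generalize f (P + W + z) = x2
  generalize f (P + A + zt * (W - A) + z) = x3
  generalize f (P + (1 - zt) * A + z) = x4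
  generalize f (P + zt * W + z) = x5
  generalize f (P + zt * (W - A) + z) = x6
  generalize f (P + (zt - 1) * (W - A) + z) = x7
  exact tri_dec x0 x1 x2 x3 x4 x5 x6 x7

/-- If `f` avoids equilateral triangles of sides `a`, `b`, `c` a.e., it avoids `(a, b, c)` a.e. -/
lemma avoidAE_of_avoidAE_eq {f : ℂ → Bool} {a b c : ℝ} (ha : AvoidAE f a a a)
    (hb : AvoidAE f b b b) (hc : AvoidAE f c c c) : AvoidAE f a b c := by
  intro P Q R h1 h2 h3
  have h := no_tri_ae (f := f) (A := Q - P) (W := R - P) (by rw [norm_sub_rev, h1]; exact ha)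
    (by rw [norm_sub_rev, h3]; exact hc)
    (by rw [show Q - P - (R - P) = Q - R by ring, h2]; exact hb) P
  rw [add_sub_cancel, add_sub_cancel] at h
  filter_upwards [h] with z hz h4
  exact hz ⟨h4.1, h4.1.trans h4.2⟩

/-! ### The regular pentagon -/

lemma pentagon_ae {f : ℂ → Bool} {x y : ℝ} (hx : 0 < x) (hy : 0 < y)
    (hxy : y ^ 2 = (3 + Real.sqrt 5) / 2 * x ^ 2) (h1 : AvoidAE f x x y) (h2 : AvoidAE f y y x) :
    False := by
  have h5 : Real.sqrt 5 * Real.sqrt 5 = 5 := Real.mul_self_sqrt (by norm_num)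
  have hprim : IsPrimitiveRoot (Complex.exp (2 * Real.pi * Complex.I / (5 : ℕ))) 5 :=
    Complex.isPrimitiveRoot_exp 5 (by norm_num)
  have hcast : (Complex.exp (2 * Real.pi * Complex.I / (5 : ℕ))) =
      Complex.exp (2 * Real.pi * Complex.I / 5) := by
    norm_num
  rw [hcast] at hprim
  have hre := re_exp_five
  set z : ℂ := Complex.exp (2 * Real.pi * Complex.I / 5) with hz
  have hz5 : z ^ 5 = 1 := hprim.pow_eq_one
  have hz1 : z ≠ 1 := hprim.ne_one (by norm_num)
  have nz : ‖z‖ = 1 := Complex.norm_eq_one_of_pow_eq_one hz5 (by norm_num)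
  have hd : 0 < ‖z - 1‖ := norm_pos_iff.2 (sub_ne_zero.2 hz1)
  have him : z.re * z.re + z.im * z.im = 1 := by
    have := Complex.normSq_apply z
    rw [Complex.normSq_eq_norm_sq, nz] at this; linarith
  have np1 : ‖z + 1‖ ^ 2 = (3 + Real.sqrt 5) / 2 := by
    rw [← Complex.normSq_eq_norm_sq, Complex.normSq_apply]
    simp
    nlinarith
  set l : ℝ := x / ‖z - 1‖ with hl
  have hlpos : 0 < l := div_pos hx hd
  have c1 : l * ‖z - 1‖ = x := by rw [hl]; field_simp
  have c2 : l * ‖z ^ 2 - 1‖ = y := by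
    have : z ^ 2 - 1 = (z + 1) * (z - 1) := by ring
    rw [this, norm_mul]
    have hpos : 0 ≤ l * (‖z + 1‖ * ‖z - 1‖) := by positivity
    rw [← sq_eq_sq₀ hpos hy.le, hxy]
    have : (l * (‖z + 1‖ * ‖z - 1‖)) ^ 2 = ‖z + 1‖ ^ 2 * (l * ‖z - 1‖) ^ 2 := by ring
    rw [this, c1, np1]
  have nl : ‖(l : ℂ)‖ = l := by rw [Complex.norm_real, Real.norm_of_nonneg hlpos.le]
  have npow : ∀ k : ℕ, ‖z ^ k‖ = 1 := by intro k; rw [norm_pow, nz, one_pow]
  -- distances
  have dx : ∀ (A B w : ℂ), ‖w‖ = 1 → A - B = l * (w * (z - 1)) → ‖A - B‖ = x := by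
    intro A B w hw h
    rw [h, norm_mul, norm_mul, nl, hw, one_mul, c1]
  have dy : ∀ (A B w : ℂ), ‖w‖ = 1 → A - B = l * (w * (z ^ 2 - 1)) → ‖A - B‖ = y := by
    intro A B w hw h
    rw [h, norm_mul, norm_mul, nl, hw, one_mul, c2]
  have nneg : ∀ w : ℂ, ‖w‖ = 1 → ‖-w‖ = 1 := by intro w hw; rw [norm_neg, hw]
  let p0 : ℂ := l * 1
  let p1 : ℂ := l * z
  let p2 : ℂ := l * z ^ 2
  let p3 : ℂ := l * z ^ 3
  let p4 : ℂ := l * z ^ 4
  have n1 : ‖(1 : ℂ)‖ = 1 := by norm_num
  have d01 : ‖p0 - p1‖ = x := dx _ _ (-1) (nneg _ n1) (by simp only [p0, p1]; ring)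
  have d12 : ‖p1 - p2‖ = x := dx _ _ (-z) (nneg _ nz) (by simp only [p1, p2]; ring)
  have d23 : ‖p2 - p3‖ = x := dx _ _ (-z ^ 2) (nneg _ (npow 2)) (by simp only [p2, p3]; ring)
  have d34 : ‖p3 - p4‖ = x := dx _ _ (-z ^ 3) (nneg _ (npow 3)) (by simp only [p3, p4]; ring)
  have d40 : ‖p4 - p0‖ = x := dx _ _ (-z ^ 4) (nneg _ (npow 4))
    (by simp only [p4, p0]; linear_combination (l : ℂ) * hz5)
  have d02 : ‖p0 - p2‖ = y := dy _ _ (-1) (nneg _ n1) (by simp only [p0, p2]; ring)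
  have d13 : ‖p1 - p3‖ = y := dy _ _ (-z) (nneg _ nz) (by simp only [p1, p3]; ring)
  have d24 : ‖p2 - p4‖ = y := dy _ _ (-z ^ 2) (nneg _ (npow 2)) (by simp only [p2, p4]; ring)
  have d30 : ‖p3 - p0‖ = y := dy _ _ (-z ^ 3) (nneg _ (npow 3))
    (by simp only [p3, p0]; linear_combination (l : ℂ) * hz5)
  have d41 : ‖p4 - p1‖ = y := dy _ _ (-z ^ 4) (nneg _ (npow 4))
    (by simp only [p4, p1]; linear_combination (l : ℂ) * z * hz5)
  -- the ten triples
  have t012 := h1 p0 p1 p2 d01 d12 d02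
  have t123 := h1 p1 p2 p3 d12 d23 d13
  have t234 := h1 p2 p3 p4 d23 d34 d24
  have t340 := h1 p3 p4 p0 d34 d40 d30
  have t401 := h1 p4 p0 p1 d40 d01 d41
  have t302 := h2 p3 p0 p2 d30 d02 (by rw [norm_sub_rev]; exact d23)
  have t413 := h2 p4 p1 p3 d41 d13 (by rw [norm_sub_rev]; exact d34)
  have t024 := h2 p0 p2 p4 d02 d24 (by rw [norm_sub_rev]; exact d40)
  have t130 := h2 p1 p3 p0 d13 d30 (by rw [norm_sub_rev]; exact d01)
  have t241 := h2 p2 p4 p1 d24 d41 (by rw [norm_sub_rev]; exact d12)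
  have hall : ∀ᵐ w : ℂ, False := by
    filter_upwards [t012, t123, t234, t340, t401, t302, t413, t024, t130, t241]
      with w t012 t123 t234 t340 t401 t302 t413 t024 t130 t241
    revert t012 t123 t234 t340 t401 t302 t413 t024 t130 t241
    generalize f (p0 + w) = x0
    generalize f (p1 + w) = x1
    generalize f (p2 + w) = x2
    generalize f (p3 + w) = x3
    generalize f (p4 + w) = x4
    cases x0 <;> cases x1 <;> cases x2 <;> cases x3 <;> cases x4 <;> simp
  exact hall.exists.choose_spec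

/-! ### Densities -/

/-- comparison of densities for a triple forbidden almost everywhere -/
lemma dens_triple_ae {A : Set ℂ} {p q1 q2 : ℂ}
    (h : ∀ᵐ z : ℂ, ¬ (p + z ∈ A ∧ q1 + z ∈ A ∧ q2 + z ∈ A)) (k : ℕ) :
    dens A k p ≤ dens Aᶜ k q1 + dens Aᶜ k q2 := by
  unfold dens
  rw [← add_div]
  refine div_le_div_of_nonneg_right ?_ (ballVol_pos k).le
  have hsub : (A ∩ closedBall p (rad k) : Set ℂ) ≤ᵐ[volume]
      (((fun x => x + (q1 - p)) ⁻¹' (Aᶜ ∩ closedBall q1 (rad k))) ∪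
      ((fun x => x + (q2 - p)) ⁻¹' (Aᶜ ∩ closedBall q2 (rad k))) : Set ℂ) := by
    filter_upwards [ae_shiftC h (-p)] with x hh hx
    have hx2 := hx.2
    rw [mem_closedBall, dist_eq_norm] at hx2
    have e0 : p + (-p + x) = x := by ring
    have e1 : q1 + (-p + x) = x + (q1 - p) := by ring
    have e2 : q2 + (-p + x) = x + (q2 - p) := by ring
    rw [e0, e1, e2] at hh
    by_cases h1 : x + (q1 - p) ∈ A
    · right
      refine ⟨fun h2 => hh ⟨hx.1, h1, h2⟩, ?_⟩
      rw [mem_closedBall, dist_eq_norm]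
      rwa [show x + (q2 - p) - q2 = x - p by ring]
    · left
      refine ⟨h1, ?_⟩
      rw [mem_closedBall, dist_eq_norm]
      rwa [show x + (q1 - p) - q1 = x - p by ring]
  have tr : ∀ (v : ℂ) (s : Set ℂ), volume ((fun x => x + v) ⁻¹' s) = volume s :=
    fun v s => measure_preimage_add_right volume v s
  unfold Measure.real
  rw [← ENNReal.toReal_add (inter_fin _ _ _) (inter_fin _ _ _)]
  refine ENNReal.toReal_mono (ENNReal.add_ne_top.2 ⟨inter_fin _ _ _, inter_fin _ _ _⟩) ?_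
  refine (measure_mono_ae hsub).trans ((measure_union_le _ _).trans ?_)
  rw [tr, tr]

lemma full_compl_of_triple_ae {A : Set ℂ} (hA : NullMeasurableSet A volume) {p q1 q2 : ℂ}
    (h : ∀ᵐ z : ℂ, ¬ (p + z ∈ A ∧ q1 + z ∈ A ∧ q2 + z ∈ A)) (h1 : Full A q1) (h2 : Full A q2) :
    Full Aᶜ p := by
  rw [full_compl_iff hA]
  have c1 : Tendsto (fun k => dens Aᶜ k q1 + dens Aᶜ k q2) atTop (𝓝 0) := by
    have h1' : Tendsto (fun k => dens Aᶜ k q1) atTop (𝓝 0) := by
      rw [← full_compl_iff hA.compl, compl_compl]; exact h1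
    have h2' : Tendsto (fun k => dens Aᶜ k q2) atTop (𝓝 0) := by
      rw [← full_compl_iff hA.compl, compl_compl]; exact h2
    simpa using h1'.add h2'
  exact squeeze_zero (fun k => dens_nonneg _ _ _) (fun k => dens_triple_ae h k) c1

/-! ### The rotation theorem -/

lemma wild_flip_ae {f : ℂ → Bool} (hA : NullMeasurableSet {z | f z = true} volume) {p : ℂ}
    (hp : IsWild {z | f z = true} p) {x : ℝ} (hx : 0 < x) {u : ℂ}
    (h : AvoidAE f x (x * ‖u - 1‖) x) (hu : ‖u‖ = 1) {v : ℂ} (hv : ‖v‖ = 1) :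
    ¬ (Full {z | f z = true} (p + x * v) ∧ Full {z | f z = true} (p + x * (v * u))) ∧
    ¬ (Full {z | f z = true}ᶜ (p + x * v) ∧ Full {z | f z = true}ᶜ (p + x * (v * u))) := by
  have hdist : ∀ᵐ z : ℂ, ¬ (f (p + z) = f (p + x * v + z) ∧
      f (p + x * v + z) = f (p + x * (v * u) + z)) := by
    refine h p (p + x * v) (p + x * (v * u)) ?_ ?_ ?_
    · rw [show p - (p + x * v) = -(x * v) by ring, norm_neg, norm_mul, hv,
        Complex.norm_real, Real.norm_of_nonneg hx.le, mul_one]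
    · rw [show p + x * v - (p + x * (v * u)) = -(x * v * (u - 1)) by ring, norm_neg,
        norm_mul, norm_mul, hv, Complex.norm_real, Real.norm_of_nonneg hx.le, mul_one]
    · rw [show p - (p + x * (v * u)) = -(x * (v * u)) by ring, norm_neg, norm_mul,
        norm_mul, hv, hu, Complex.norm_real, Real.norm_of_nonneg hx.le, mul_one, mul_one]
  constructor
  · rintro ⟨h1, h2⟩
    refine hp.2 (full_compl_of_triple_ae hA ?_ h1 h2)
    filter_upwards [hdist] with z hz
    rintro ⟨a1, a2, a3⟩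
    exact hz ⟨a1.trans a2.symm, a2.trans a3.symm⟩
  · rintro ⟨h1, h2⟩
    refine hp.1 ?_
    have := full_compl_of_triple_ae hA.compl (p := p) ?_ h1 h2
    · rwa [compl_compl] at this
    · filter_upwards [hdist] with z hz
      rintro ⟨a1, a2, a3⟩
      rw [mem_compl_iff, Set.mem_ofPred_eq, Bool.not_eq_true] at a1 a2 a3
      exact hz ⟨a1.trans a2.symm, a2.trans a3.symm⟩

theorem rotation_theorem_ae {f : ℂ → Bool} (hA : NullMeasurableSet {z | f z = true} volume)
    (h1 : volume {z | f z = true} ≠ 0) (h2 : volume {z | f z = true}ᶜ ≠ 0) {x : ℝ} (hx : 0 < x)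
    (hE : AvoidAE f x x x) {u : ℂ} (hu : ‖u‖ = 1) (hT : AvoidAE f x (x * ‖u - 1‖) x) :
    ∃ n : ℤ, Odd n ∧ u ^ n = -1 := by
  classical
  set A : Set ℂ := {z | f z = true} with hAdef
  obtain ⟨p, hp, hgood⟩ := exists_good_wild hA h1 h2 hx
  let G : Circ → ℂ := fun t => if Full A (p + x * ee t) then 1 else -1
  have hGm : Measurable G := by
    refine Measurable.ite ?_ measurable_const measurable_const
    have : Continuous (fun t : Circ => p + (x : ℂ) * ee t) :=
      continuous_const.add (continuous_const.mul continuous_ee)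
    exact this.measurable (measurableSet_full hA)
  have hG1 : ∀ t, ‖G t‖ = 1 := by
    intro t
    simp only [G]
    split_ifs <;> simp
  have flip : ∀ (w : ℂ) (s : Circ), ee s = w → ‖w‖ = 1 → AvoidAE f x (x * ‖w - 1‖) x →
      ∀ᵐ t : Circ, G (t + s) = - G t := by
    intro w s hs hw hav
    have hshift : ∀ᵐ t : Circ, ¬ IsWild A (p + x * ee (t + s)) :=
      ae_shift (fun t => ¬ IsWild A (p + x * ee t)) hgood s
    filter_upwards [hgood, hshift] with t ht1 ht2
    have hfl := wild_flip_ae hA hp hx hav hw (v := ee t) (norm_ee t)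
    rw [← hs, ← ee_add] at hfl
    simp only [G]
    have t1 : Full A (p + x * ee t) ∨ Full Aᶜ (p + x * ee t) := by
      by_contra hc; exact ht1 (not_or.1 hc)
    have t2 : Full A (p + x * ee (t + s)) ∨ Full Aᶜ (p + x * ee (t + s)) := by
      by_contra hc; exact ht2 (not_or.1 hc)
    by_cases c1 : Full A (p + x * ee t)
    · have c2 : ¬ Full A (p + x * ee (t + s)) := fun c2 => hfl.1 ⟨c1, c2⟩
      simp [c1, c2]
    · have c1' := t1.resolve_left c1
      have c2 : ¬ Full Aᶜ (p + x * ee (t + s)) := fun c2 => hfl.2 ⟨c1', c2⟩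
      have c2' := t2.resolve_right c2
      simp [c1, c2']
  obtain ⟨n, hn⟩ := exists_fourierCoeff hGm hG1
  obtain ⟨s1, hs1⟩ := exists_ee norm_zt
  obtain ⟨s2, hs2⟩ := exists_ee hu
  have e1 := fourierCoeff_flip (flip zt s1 hs1 norm_zt (by
    rw [norm_zt_sub_one, mul_one]; exact hE)) n hn
  have e2 := fourierCoeff_flip (flip u s2 hs2 hu hT) n hn
  rw [hs1] at e1
  rw [hs2] at e2
  refine ⟨n, ?_, e2⟩
  have hz3 : zt ^ (3 : ℤ) = -1 := by
    have := zt_sq
    rw [show (3 : ℤ) = ((3 : ℕ) : ℤ) by rfl, zpow_natCast]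
    linear_combination (zt + 1) * this
  have : ((-1 : ℂ)) ^ n = -1 := by
    rw [← hz3, ← zpow_mul, mul_comm, zpow_mul, e1, hz3]
    norm_num
  rcases Int.even_or_odd n with h | h
  · rw [h.neg_one_zpow] at this
    norm_num at this
  · exact h

/-! ### Side ratio at least two -/

lemma triple_bound_ae {f : ℂ → Bool} {a R : ℝ} (ha : 0 < a) (hE : AvoidAE f a a a)
    {u : ℂ} (hu : ‖u‖ = 1) : ∀ᵐ z : ℂ,
    gR f R z * gR f R (z - a * u) + gR f R z * gR f R (z - a * (zt * u)) +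
      gR f R (z - a * u) * gR f R (z - a * (zt * u)) ≤
    3 * (Metric.closedBall (0 : ℂ) (R + a)).indicator (fun _ => (1 : ℝ)) z -
      4 * (Metric.closedBall (0 : ℂ) (R - a)).indicator (fun _ => (1 : ℝ)) z := by
  have na : ‖(a : ℂ) * u‖ = a := by
    rw [norm_mul, hu, Complex.norm_real, Real.norm_of_nonneg ha.le, mul_one]
  have naz : ‖(a : ℂ) * (zt * u)‖ = a := by
    rw [norm_mul, norm_mul, norm_zt, hu, Complex.norm_real, Real.norm_of_nonneg ha.le, mul_one,
      mul_one]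
  have nd : ‖(-(a * u) : ℂ) - (-(a * (zt * u)))‖ = a := by
    rw [show (-(a * u) : ℂ) - (-(a * (zt * u))) = a * ((zt - 1) * u) by ring, norm_mul, norm_mul,
      norm_zt_sub_one, hu, Complex.norm_real, Real.norm_of_nonneg ha.le, mul_one, mul_one]
  have hav := hE 0 (-(a * u)) (-(a * (zt * u))) (by rw [zero_sub, neg_neg]; exact na) nd
    (by rw [zero_sub, neg_neg]; exact naz)
  filter_upwards [hav] with z hz
  rw [zero_add, show -(a * u : ℂ) + z = z - a * u by ring,
    show -(a * (zt * u) : ℂ) + z = z - a * (zt * u) by ring] at hz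
  rcases le_or_gt ‖z‖ (R - a) with h1 | h1
  · -- everything inside
    have i1 : ‖z - a * u‖ ≤ R := by
      have := norm_sub_le z (a * u); rw [na] at this; linarith
    have i2 : ‖z - a * (zt * u)‖ ≤ R := by
      have := norm_sub_le z (a * (zt * u)); rw [naz] at this; linarith
    rw [gR_mem (by linarith), gR_mem i1, gR_mem i2,
      indicator_of_mem (by rw [mem_closedBall_zero_iff]; linarith),
      indicator_of_mem (by rw [mem_closedBall_zero_iff]; linarith)]
    rw [sgn_sum hz]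
    norm_num
  · rcases le_or_gt ‖z‖ (R + a) with h2 | h2
    · rw [indicator_of_mem (by rw [mem_closedBall_zero_iff]; linarith),
        indicator_of_notMem (by rw [mem_closedBall_zero_iff]; linarith)]
      have b1 := abs_gR_le f R z
      have b2 := abs_gR_le f R (z - a * u)
      have b3 := abs_gR_le f R (z - a * (zt * u))
      have m : ∀ x y : ℝ, |x| ≤ 1 → |y| ≤ 1 → x * y ≤ 1 := by
        intro x y hx hy
        have : |x * y| ≤ 1 := by
          rw [abs_mul]; exact mul_le_one₀ hx (abs_nonneg _) hy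
        exact (le_abs_self _).trans this
      have := m _ _ b1 b2
      have := m _ _ b1 b3
      have := m _ _ b2 b3
      linarith
    · have o1 : R < ‖z - a * u‖ := by
        have := norm_sub_norm_le z (a * u); rw [na] at this; linarith
      rw [gR_notMem (z := z) (by linarith), gR_notMem o1,
        indicator_of_notMem (by rw [mem_closedBall_zero_iff]; linarith),
        indicator_of_notMem (by rw [mem_closedBall_zero_iff]; linarith)]
      norm_num

lemma dir_bound_ae {f : ℂ → Bool} (hA : NullMeasurableSet {z | f z = true} volume) {a R : ℝ}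
    (ha : 0 < a) (haR : a ≤ R) (hE : AvoidAE f a a a) {G : HH}
    (hcorr : ∀ v, corr v G = ∫ z, gR f R z * gR f R (z - v)) (u : ℂ) (hu : ‖u‖ = 1) :
    corr (a * u) G + corr (a * (zt * u)) G + corr (a * (zt ^ 2 * u)) G ≤
      π * (-R ^ 2 + 14 * a * R - a ^ 2) := by
  have i1 : Integrable (fun z => gR f R z * gR f R (z - a * u)) := by
    simpa using integrable_prod_gR hA R 0 (a * u)
  have i2 : Integrable (fun z => gR f R z * gR f R (z - a * (zt * u))) := by
    simpa using integrable_prod_gR hA R 0 (a * (zt * u))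
  have i3 := integrable_prod_gR hA R (a * u) (a * (zt * u))
  have i12 : Integrable (fun z => gR f R z * gR f R (z - a * u) +
    gR f R z * gR f R (z - a * (zt * u))) := i1.add i2
  have i123 : Integrable (fun z => gR f R z * gR f R (z - a * u) +
    gR f R z * gR f R (z - a * (zt * u)) + gR f R (z - a * u) * gR f R (z - a * (zt * u))) :=
    i12.add i3
  have h3 : corr (a * (zt ^ 2 * u)) G = ∫ z, gR f R (z - a * u) * gR f R (z - a * (zt * u)) := by
    rw [hcorr, ← integral_sub_right_eq_self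
      (fun z => gR f R z * gR f R (z - a * (zt ^ 2 * u))) (a * u)]
    congr 1
    ext z
    have : z - a * u - a * (zt ^ 2 * u) = z - a * (zt * u) := by
      rw [zt_sq]; ring
    rw [this]
  rw [h3, hcorr, hcorr, ← integral_add i1 i2, ← integral_add i12 i3]
  have j1 := (integrable_ball (R + a)).const_mul 3
  have j2 := (integrable_ball (R - a)).const_mul 4
  have j12 : Integrable (fun z => 3 * (Metric.closedBall (0 : ℂ) (R + a)).indicator
      (fun _ => (1 : ℝ)) z - 4 * (Metric.closedBall (0 : ℂ) (R - a)).indicator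
      (fun _ => (1 : ℝ)) z) := j1.sub j2
  refine (integral_mono_ae i123 j12 (triple_bound_ae ha hE hu)).trans ?_
  rw [integral_sub j1 j2, integral_const_mul, integral_const_mul, integral_ball _ (by linarith),
    integral_ball _ (by linarith)]
  apply le_of_eq
  ring

lemma circ_bound_ae {f : ℂ → Bool} (hA : NullMeasurableSet {z | f z = true} volume) {a R : ℝ}
    (ha : 0 < a) (haR : a ≤ R) (hE : AvoidAE f a a a) :
    3 * ∫ s : Circ, corr ((a : ℂ) * ee s) (memLp_gR_complex hA R).toLp ≤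
      2 * π * (π * (-R ^ 2 + 14 * a * R - a ^ 2)) :=
  circ_avg _ a _ (fun u hu => dir_bound_ae hA ha haR hE (corr_real (memLp_gR_complex hA R)) u hu)

theorem ratio_two_ae {f : ℂ → Bool} (hA : NullMeasurableSet {z | f z = true} volume) {a b : ℝ}
    (ha : 0 < a) (hab : 2 * a ≤ b) (hEa : AvoidAE f a a a) (hEb : AvoidAE f b b b) : False := by
  have hb : 0 < b := by linarith
  set R : ℝ := 8000 * (a + b) with hR
  have haR : a ≤ R := by rw [hR]; nlinarith
  have hbR : b ≤ R := by rw [hR]; nlinarith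
  have hQ := QQ_nonneg ha.le hab (memLp_gR_complex hA R).toLp
  have h1 := circ_bound_ae hA ha haR hEa
  have h2 := circ_bound_ae hA hb hbR hEb
  have hnorm : ‖(memLp_gR_complex hA R).toLp‖ ^ 2 = π * R ^ 2 := by
    rw [← corr_zero, corr_real, ← integral_ball R (by rw [hR]; positivity)]
    congr 1
    ext z
    rw [sub_zero]
    rcases le_or_gt ‖z‖ R with h | h
    · rw [gR_mem h, indicator_of_mem (by rw [mem_closedBall_zero_iff]; exact h)]
      rcases sgn_cases f z with h1 | h1 <;> rw [h1] <;> norm_num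
    · rw [gR_notMem h, indicator_of_notMem (by rw [mem_closedBall_zero_iff]; linarith)]
      norm_num
  unfold QQ at hQ
  rw [hnorm] at hQ
  have hpi := Real.pi_pos
  -- combine
  have h3 : 0 ≤ 2 * π * 0.666 * (π * R ^ 2) + (2 * π * (π * (-R ^ 2 + 14 * a * R - a ^ 2))) / 3 +
      (2 * π * (π * (-R ^ 2 + 14 * b * R - b ^ 2))) / 3 := by linarith
  have h4 : 2 * π * 0.666 * (π * R ^ 2) + (2 * π * (π * (-R ^ 2 + 14 * a * R - a ^ 2))) / 3 +
      (2 * π * (π * (-R ^ 2 + 14 * b * R - b ^ 2))) / 3 =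
      2 * π ^ 2 * ((0.666 - 2 / 3) * R ^ 2 + 14 / 3 * (a + b) * R - (a ^ 2 + b ^ 2) / 3) := by ring
  rw [h4] at h3
  have h5 : 0 ≤ (0.666 - 2 / 3) * R ^ 2 + 14 / 3 * (a + b) * R - (a ^ 2 + b ^ 2) / 3 := by
    by_contra hneg
    push Not at hneg
    have : 2 * π ^ 2 * ((0.666 - 2 / 3) * R ^ 2 + 14 / 3 * (a + b) * R - (a ^ 2 + b ^ 2) / 3) < 0 :=
      mul_neg_of_pos_of_neg (by positivity) hneg
    linarith
  rw [hR] at h5
  have h6 : (0.666 - 2 / 3 : ℝ) * (8000 * (a + b)) ^ 2 + 14 / 3 * (a + b) * (8000 * (a + b)) -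
      (a ^ 2 + b ^ 2) / 3 = -(16000 / 3) * (a + b) ^ 2 - (a ^ 2 + b ^ 2) / 3 := by ring
  rw [h6] at h5
  nlinarith [sq_nonneg (a + b), sq_nonneg a, sq_nonneg b, mul_pos ha hb]

/-! ### Null colour classes -/

lemma null_class_ae {f : ℂ → Bool} {x : ℝ} (hx : 0 < x) (t : Bool)
    (h : volume {z | f z = t} = 0) : ¬ AvoidAE f x x x := by
  intro hav
  have hae : ∀ᵐ z : ℂ, f z ≠ t := by
    rw [ae_iff]; simpa using h
  have hsh : ∀ v : ℂ, ∀ᵐ z : ℂ, f (v + z) ≠ t := fun v => ae_shiftC hae v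
  have nx : ‖(x : ℂ)‖ = x := by rw [Complex.norm_real, Real.norm_of_nonneg hx.le]
  have h0 := hav 0 (x : ℂ) (x * zt) (by rw [zero_sub, norm_neg, nx])
    (by rw [show (x : ℂ) - x * zt = -(x * (zt - 1)) by ring, norm_neg, norm_mul, nx,
      norm_zt_sub_one, mul_one])
    (by rw [zero_sub, norm_neg, norm_mul, nx, norm_zt, mul_one])
  obtain ⟨z, h0, h1, h2, h3⟩ :=
    (h0.and ((hsh 0).and ((hsh (x : ℂ)).and (hsh (x * zt))))).exists
  refine h0 ⟨?_, ?_⟩
  · revert h1 h2; cases f (0 + z) <;> cases f (x + z) <;> cases t <;> simp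
  · revert h2 h3; cases f (x + z) <;> cases f (x * zt + z) <;> cases t <;> simp

/-! ### The theorem -/

/-- Module T6: almost everywhere version of the theorem on measurable colourings -/
theorem two_sides_ae {f : ℂ → Bool} (hA : NullMeasurableSet {z | f z = true} volume) {x y : ℝ}
    (hx : 0 < x) (hxy : x < y) (hEx : AvoidAE f x x x) (hEy : AvoidAE f y y y) : False := by
  have h1 : volume {z | f z = true} ≠ 0 := fun h => null_class_ae hx true h hEx
  have h2 : volume {z | f z = true}ᶜ ≠ 0 := by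
    intro h
    have : {z | f z = true}ᶜ = {z | f z = false} := by
      ext z
      change ¬ (f z = true) ↔ f z = false
      simp
    rw [this] at h
    exact null_class_ae hx false h hEx
  have hy : 0 < y := hx.trans hxy
  rcases le_or_gt (2 * x) y with h | h
  · exact ratio_two_ae hA hx h hEx hEy
  obtain ⟨u, hu, hu1⟩ := exists_chord (r := y / x) (by positivity)
    ((div_le_iff₀ hx).2 h.le)
  obtain ⟨v, hv, hv1⟩ := exists_chord (r := x / y) (by positivity)
    ((div_le_iff₀ hy).2 (by linarith))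
  have hTu : AvoidAE f x (x * ‖u - 1‖) x := by
    rw [hu1, mul_div_cancel₀ _ hx.ne']
    exact avoidAE_of_avoidAE_eq hEx hEy hEx
  have hTv : AvoidAE f y (y * ‖v - 1‖) y := by
    rw [hv1, mul_div_cancel₀ _ hy.ne']
    exact avoidAE_of_avoidAE_eq hEy hEx hEy
  obtain ⟨n, hn, hun⟩ := rotation_theorem_ae hA h1 h2 hx hEx hu hTu
  obtain ⟨m, hm, hvm⟩ := rotation_theorem_ae hA h1 h2 hy hEy hv hTv
  have hprod : ‖u - 1‖ * ‖v - 1‖ = 1 := by
    rw [hu1, hv1]; field_simp
  have hsum := chord_sum hu hv hn hm hun hvm hprod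
  rw [hu1, hv1] at hsum
  set r : ℝ := y / x with hr
  have hr1 : 1 < r := (one_lt_div hx).2 hxy
  have hinv : x / y = r⁻¹ := by rw [hr, inv_div]
  rw [hinv] at hsum
  have hr0 : r ≠ 0 := by positivity
  have hri : r * r⁻¹ = 1 := mul_inv_cancel₀ hr0
  rcases hsum with hs | hs
  · have : (r - r⁻¹) ^ 2 = 0 := by nlinarith
    have h3 : r = r⁻¹ := by
      have := pow_eq_zero_iff (two_ne_zero) |>.1 this
      linarith
    have h4 : r * r = 1 := by
      calc r * r = r * r⁻¹ := by rw [← h3]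
        _ = 1 := hri
    nlinarith
  · have h5 : Real.sqrt 5 * Real.sqrt 5 = 5 := Real.mul_self_sqrt (by norm_num)
    have h5' : 2 < Real.sqrt 5 := by
      rw [Real.lt_sqrt (by norm_num)]; norm_num
    -- the quadratic equation for `r ^ 2`
    have hq : (r ^ 2 - (3 + Real.sqrt 5) / 2) * (r ^ 2 - (3 - Real.sqrt 5) / 2) = 0 := by
      have e : r ^ 2 * (r ^ 2 + r⁻¹ ^ 2) = r ^ 2 * 3 := by rw [hs]
      have e2 : r ^ 2 * r⁻¹ ^ 2 = 1 := by
        rw [← mul_pow, hri, one_pow]
      nlinarith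
    rcases mul_eq_zero.1 hq with h6 | h6
    · refine pentagon_ae hx hy ?_ (avoidAE_of_avoidAE_eq hEx hEx hEy)
        (avoidAE_of_avoidAE_eq hEy hEy hEx)
      have : y = r * x := by rw [hr]; field_simp
      rw [this, mul_pow]
      have h7 : r ^ 2 = (3 + Real.sqrt 5) / 2 := by linarith
      rw [h7]
    · have h7 : r ^ 2 = (3 - Real.sqrt 5) / 2 := by linarith
      nlinarith

end Pool.Agent.RadPD
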