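import Pool.Agent.RadPD.T1
import Pool.Agent.RadPD.T3
import Pool.Agent.RadPD.T4
import Pool.Agent.RadPD.T5
import Pool.Agent.RadPD.T6
import Pool.Agent.RadPD.RC

set_option autoImplicit false

namespace Pool.Agent.RadPD

open MeasureTheory ProbabilityTheory

open Pool.Agent.MeasTri

theorem T7_zt_mem {F : Subfield ℂ} (hF : RadClosed F) : zt ∈ F := by
  obtain ⟨w, hw, hw2⟩ := hF.root_mem 2 (by norm_num) (-3) (by
    have : ((3 : ℕ) : ℂ) ∈ F := natCast_mem F 3
    have h := F.neg_mem this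
    exact_mod_cast h)
  have h2 : (2 : ℂ) ∈ F := by
    have : ((2 : ℕ) : ℂ) ∈ F := natCast_mem F 2
    exact_mod_cast this
  have hz : (2 * zt - 1) ^ 2 = -3 := by
    have := zt_sq
    linear_combination 4 * this
  have h3 : (2 * zt - 1 - w) * (2 * zt - 1 + w) = 0 := by
    linear_combination hz - hw2
  rcases mul_eq_zero.1 h3 with h4 | h4
  · have : zt = (1 + w) / 2 := by linear_combination h4 / 2
    rw [this]
    exact F.div_mem (F.add_mem F.one_mem hw) h2
  · have : zt = (1 - w) / 2 := by linear_combination h4 / 2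
    rw [this]
    exact F.div_mem (F.sub_mem F.one_mem hw) h2

theorem T7_extreme {a b c : ℝ} (ha : |a| ≤ 1) (hb : |b| ≤ 1) (hc : |c| ≤ 1)
    (h : a * b + b * c + c * a + 1 = 0) :
    (a = 1 ∨ b = 1 ∨ c = 1) ∧ (a = -1 ∨ b = -1 ∨ c = -1) := by
  obtain ⟨ha1, ha2⟩ := abs_le.1 ha
  obtain ⟨hb1, hb2⟩ := abs_le.1 hb
  obtain ⟨hc1, hc2⟩ := abs_le.1 hc
  have h1 : 0 ≤ (1 - a) * (1 - b) * (1 - c) :=
    mul_nonneg (mul_nonneg (by linarith) (by linarith)) (by linarith)
  have h2 : 0 ≤ (1 + a) * (1 + b) * (1 + c) :=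
    mul_nonneg (mul_nonneg (by linarith) (by linarith)) (by linarith)
  have h3 : (1 - a) * (1 - b) * (1 - c) + (1 + a) * (1 + b) * (1 + c) = 0 := by
    linear_combination 2 * h
  have h4 : (1 - a) * (1 - b) * (1 - c) = 0 := by linarith
  have h5 : (1 + a) * (1 + b) * (1 + c) = 0 := by linarith
  constructor
  · rcases mul_eq_zero.1 h4 with h | h
    · rcases mul_eq_zero.1 h with h | h
      · left; linarith
      · right; left; linarith
    · right; right; linarith
  · rcases mul_eq_zero.1 h5 with h | h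
    · rcases mul_eq_zero.1 h with h | h
      · left; linarith
      · right; left; linarith
    · right; right; linarith

/-- Module T7: **two sides, arbitrary colourings** -/
theorem two_sides_all {f : ℂ → Bool} {x y : ℝ} (hx : 0 < x) (hxy : x < y) (hEx : Avoid f x x x)
    (hEy : Avoid f y y y) : False := by
  classical
  obtain ⟨F, hF, hc, hmem⟩ := exists_radClosed {x, y} ((Set.countable_singleton y).insert x)
  have hxF : (x : ℂ) ∈ F := hmem x (by simp)
  have hyF : (y : ℂ) ∈ F := hmem y (by simp)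
  have hztF := T7_zt_mem hF
  have hy : 0 < y := hx.trans hxy
  obtain ⟨P, hP, hτ, hr, hpat⟩ := exists_colMeasure (C := Bool) hF (fun z : F => f (z : ℂ))
  obtain ⟨D, hD⟩ := exists_split hF P hτ hr
  -- the sides
  let side : Bool → ℝ := fun b => if b = true then x else y
  have hside_pos : ∀ b, 0 < side b := by
    intro b; cases b <;> simp [side, hx, hy]
  have hside_av : ∀ b, Avoid f (side b) (side b) (side b) := by
    intro b
    cases b
    · simpa [side] using hEy
    · simpa [side] using hEx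
  have hside_mem : ∀ b, ((side b : ℝ) : ℂ) ∈ F := by
    intro b; cases b <;> simp [side, hxF, hyF]
  let sd : Bool → F := fun b => ⟨((side b : ℝ) : ℂ), hside_mem b⟩
  let zF : F := ⟨zt, hztF⟩
  let pat : K F × Bool → Fin 3 → F := fun i => ![0, sd i.2 * cK F i.1, sd i.2 * (zF * cK F i.1)]
  have hp0 : ∀ i, pat i 0 = 0 := fun i => rfl
  have hp1 : ∀ i, pat i 1 = sd i.2 * cK F i.1 := fun i => rfl
  have hp2 : ∀ i, pat i 2 = sd i.2 * (zF * cK F i.1) := fun i => rfl
  have c1 : ∀ i, ((pat i 1 : F) : ℂ) = (side i.2 : ℂ) * ((i.1 : Circle) : ℂ) := by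
    intro i; rw [hp1]; rfl
  have c2 : ∀ i, ((pat i 2 : F) : ℂ) = (side i.2 : ℂ) * (zt * ((i.1 : Circle) : ℂ)) := by
    intro i; rw [hp2]; rfl
  have nside : ∀ b, ‖((side b : ℝ) : ℂ)‖ = side b := fun b => by
    rw [Complex.norm_real, Real.norm_of_nonneg (hside_pos b).le]
  -- distances
  have d01 : ∀ i, ‖((pat i 0 : F) : ℂ) - ((pat i 1 : F) : ℂ)‖ = side i.2 := by
    intro i
    rw [hp0, c1]
    simp [nside, Circle.norm_coe, -Complex.norm_real]
  have d02 : ∀ i, ‖((pat i 0 : F) : ℂ) - ((pat i 2 : F) : ℂ)‖ = side i.2 := by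
    intro i
    rw [hp0, c2]
    simp [nside, Circle.norm_coe, norm_zt, -Complex.norm_real]
  have d12 : ∀ i, ‖((pat i 1 : F) : ℂ) - ((pat i 2 : F) : ℂ)‖ = side i.2 := by
    intro i
    rw [c1, c2]
    have : (side i.2 : ℂ) * ((i.1 : Circle) : ℂ) - (side i.2 : ℂ) * (zt * ((i.1 : Circle) : ℂ)) =
        -((side i.2 : ℂ) * ((zt - 1) * ((i.1 : Circle) : ℂ))) := by ring
    rw [this, norm_neg, norm_mul, norm_mul, norm_zt_sub_one, nside, Circle.norm_coe]
    ring
  -- the almost sure avoidance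
  have hav : ∀ (i : K F × Bool) (z : F), ∀ᵐ ω ∂P,
      ¬ (ω (z + pat i 0) = ω (z + pat i 1) ∧ ω (z + pat i 1) = ω (z + pat i 2)) := by
    intro i z
    refine hpat 3 (fun j => z + pat i j) (fun c => ¬ (c 0 = c 1 ∧ c 1 = c 2)) ?_
    intro z' u'
    have key : ∀ j k, ‖((z' + cK F u' * (z + pat i j) : F) : ℂ) -
        ((z' + cK F u' * (z + pat i k) : F) : ℂ)‖ =
        ‖((pat i j : F) : ℂ) - ((pat i k : F) : ℂ)‖ := by
      intro j k
      have : ((z' + cK F u' * (z + pat i j) : F) : ℂ) - ((z' + cK F u' * (z + pat i k) : F) : ℂ) =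
          ((cK F u' : F) : ℂ) * (((pat i j : F) : ℂ) - ((pat i k : F) : ℂ)) := by
        push_cast; ring
      rw [this, norm_mul, norm_cK, one_mul]
    exact hside_av i.2 _ _ _ (by rw [key, d01]) (by rw [key, d12]) (by rw [key, d02])
  -- the identity for the continuous part
  have hid : ∀ (i : K F × Bool) (z : F), ∀ᵐ ω ∂D.P,
      D.x (tau (z + pat i 0) ω) * D.x (tau (z + pat i 1) ω) +
      D.x (tau (z + pat i 1) ω) * D.x (tau (z + pat i 2) ω) +
      D.x (tau (z + pat i 2) ω) * D.x (tau (z + pat i 0) ω) + 1 = 0 := by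
    intro i z
    have hne : ∀ j k, ‖((pat i j : F) : ℂ) - ((pat i k : F) : ℂ)‖ = side i.2 →
        z + pat i j ≠ z + pat i k := by
      intro j k h1 h2
      have h3 : pat i j = pat i k := add_left_cancel h2
      rw [h3, sub_self, norm_zero] at h1
      exact (hside_pos i.2).ne h1
    refine D.triple hF _ _ _ (hne 0 1 (d01 i)) (hne 0 2 (d02 i)) (hne 1 2 (d12 i)) ?_
    rw [hD]
    exact hav i z
  have hcK : Countable (K F) := (cK_injective (F := F)).countable
  obtain ⟨g, hgm, hgb, hg⟩ := D.realise hF pat hid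
  let f' : ℂ → Bool := fun z => decide (g z = 1)
  have hf' : MeasurableSet {z | f' z = true} := by
    have : {z | f' z = true} = g ⁻¹' {1} := by
      ext z; simp [f']
    rw [this]
    exact hgm (measurableSet_singleton 1)
  have hAE : ∀ b, AvoidAE f' (side b) (side b) (side b) := by
    intro b
    refine avoidAE_of_dense hF hf' (hside_pos b) ?_
    intro u
    filter_upwards [hg (u, b)] with z hz
    rw [hp0, c1, c2] at hz
    simp only [ZeroMemClass.coe_zero, add_zero] at hz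
    obtain ⟨h1, h2⟩ := T7_extreme (hgb _) (hgb _) (hgb _) hz
    rintro ⟨e1, e2⟩
    have e1' : (g z = 1) ↔ (g (z + (side b : ℂ) * ((u : Circle) : ℂ)) = 1) := by
      simpa [f'] using e1
    have e2' : (g (z + (side b : ℂ) * ((u : Circle) : ℂ)) = 1) ↔
        (g (z + (side b : ℂ) * (zt * ((u : Circle) : ℂ))) = 1) := by
      simpa [f'] using e2
    have a1 : g z = 1 := by
      rcases h1 with h | h | h
      · exact h
      · exact e1'.2 h
      · exact e1'.2 (e2'.2 h)
    have a2 := e1'.1 a1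
    have a3 := e2'.1 a2
    rcases h2 with h | h | h
    · rw [a1] at h; norm_num at h
    · rw [a2] at h; norm_num at h
    · rw [a3] at h; norm_num at h
  have h1 := hAE true
  have h2 := hAE false
  simp only [side, if_true] at h1
  simp only [side, Bool.false_eq_true, if_false] at h2
  exact two_sides_ae hf'.nullMeasurableSet hx hxy h1 h2

/-- **Main theorem, complex plane version.** -/
theorem main_all (f : ℂ → Bool)
    {P Q R : ℂ} (h1 : P ≠ Q) (h2 : Q ≠ R) (h3 : P ≠ R)
    (hne : ¬ (‖P - Q‖ = ‖Q - R‖ ∧ ‖Q - R‖ = ‖P - R‖)) :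
    ¬ Avoid f ‖P - Q‖ ‖Q - R‖ ‖P - R‖ := by
  intro hav
  have pa : 0 < ‖P - Q‖ := norm_pos_iff.2 (sub_ne_zero.2 h1)
  have pb : 0 < ‖Q - R‖ := norm_pos_iff.2 (sub_ne_zero.2 h2)
  have pc : 0 < ‖P - R‖ := norm_pos_iff.2 (sub_ne_zero.2 h3)
  have hEa : Avoid f ‖P - Q‖ ‖P - Q‖ ‖P - Q‖ := by
    have := avoid_eq_of_avoid (f := f) (A := P - Q) (W := P - R) (sub_ne_zero.2 h1) (by
      rw [show P - Q - (P - R) = -(Q - R) by ring, norm_neg]; exact hav)
    exact this
  have hEb : Avoid f ‖Q - R‖ ‖Q - R‖ ‖Q - R‖ := by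
    have := avoid_eq_of_avoid (f := f) (A := Q - R) (W := Q - P) (sub_ne_zero.2 h2) (by
      rw [show Q - R - (Q - P) = P - R by ring, norm_sub_rev Q P]; exact hav.rot)
    exact this
  have hEc : Avoid f ‖P - R‖ ‖P - R‖ ‖P - R‖ := by
    have := avoid_eq_of_avoid (f := f) (A := P - R) (W := Q - R) (sub_ne_zero.2 h3) (by
      rw [show P - R - (Q - R) = P - Q by ring]; exact hav.rot.rot)
    exact this
  rcases lt_trichotomy ‖P - Q‖ ‖Q - R‖ with h | h | h
  · exact two_sides_all pa h hEa hEb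
  · rcases lt_trichotomy ‖Q - R‖ ‖P - R‖ with h' | h' | h'
    · exact two_sides_all pb h' hEb hEc
    · exact hne ⟨h, h'⟩
    · exact two_sides_all pc h' hEc hEb
  · exact two_sides_all pb h hEb hEa

end Pool.Agent.RadPD
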