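import Pool.Agent.RadPD.CO

set_option autoImplicit false

namespace Pool.Agent.RadPD

open MeasureTheory ProbabilityTheory

/-! ## Triangles -/


section TR

variable {F : Subfield ℂ}

/-- the sign of the colour at `0` -/
noncomputable def sg (ω : F → Bool) : ℝ := if ω 0 = true then 1 else -1

/-- data: an invariant random colouring together with the splitting `sg = x + y` into the
continuous part `x` and the wild part `y` -/
structure Split (F : Subfield ℂ) where
  P : Measure (F → Bool)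
  prob : IsProbabilityMeasure P
  tau_mp : ∀ z, MeasurePreserving (tau (C := Bool) z) P P
  rot_mp : ∀ u, MeasurePreserving (rot (C := Bool) u) P P
  x : (F → Bool) → ℝ
  x_meas : Measurable x
  x_bound : ∀ ω, |x ω| ≤ 1
  /-- `x` is translation continuous -/
  x_cont : ∀ ε : ℝ, 0 < ε → ∃ r : ℝ, 0 < r ∧ ∀ z : F, ‖(z : ℂ)‖ < r →
    ∫ ω, (x (tau z ω) - x ω) ^ 2 ∂P ≤ ε
  /-- `x` is rotation invariant -/
  x_rot : ∀ u, (fun ω => x (rot u ω)) =ᵐ[P] x
  /-- `y = sg - x` is orthogonal to the bounded translation continuous functions -/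
  y_perp : ∀ g : (F → Bool) → ℝ, Measurable g → (∀ ω, |g ω| ≤ 1) →
    (∀ ε : ℝ, 0 < ε → ∃ r : ℝ, 0 < r ∧ ∀ z : F, ‖(z : ℂ)‖ < r →
      ∫ ω, (g (tau z ω) - g ω) ^ 2 ∂P ≤ ε) →
    ∫ ω, (sg ω - x ω) * g ω ∂P = 0
  /-- the translates of `y` are orthogonal -/
  y_orth : ∀ z : F, z ≠ 0 → ∫ ω, (sg (tau z ω) - x (tau z ω)) * (sg ω - x ω) ∂P = 0


end TR

end Pool.Agent.RadPD
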