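import Pool.Agent.RadPD.Defs

set_option autoImplicit false

namespace Pool.Agent.RadPD

open MeasureTheory ProbabilityTheory

/-! ## Unitary representations of `F ⋊ K` -/

/-- a unitary (isometric) representation of the motion group of `F` -/
structure URep (F : Subfield ℂ) (H : Type*) [NormedAddCommGroup H] [InnerProductSpace ℂ H] where
  U : F → H →ₗᵢ[ℂ] H
  R : K F → H →ₗᵢ[ℂ] H
  U_zero : ∀ v, U 0 v = v
  U_add : ∀ z w v, U (z + w) v = U z (U w v)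
  R_one : ∀ v, R 1 v = v
  R_mul : ∀ u w v, R (u * w) v = R u (R w v)
  R_U : ∀ u z v, R u (U z v) = U (cK F u * z) (R u v)

section URep

variable {F : Subfield ℂ} {H : Type*} [NormedAddCommGroup H] [InnerProductSpace ℂ H]

/-- translation continuous vectors -/
def URep.Cont (ρ : URep F H) (w : H) : Prop :=
  ∀ ε : ℝ, 0 < ε → ∃ r : ℝ, 0 < r ∧ ∀ z : F, ‖(z : ℂ)‖ < r → ‖ρ.U z w - w‖ ≤ ε

/-- the closed subspace of translation continuous vectors -/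
def URep.Hc (ρ : URep F H) : Submodule ℂ H where
  carrier := {w | ρ.Cont w}
  add_mem' := by
    intro a b ha hb ε hε
    obtain ⟨r, hr, h1⟩ := ha (ε / 2) (by positivity)
    obtain ⟨r', hr', h2⟩ := hb (ε / 2) (by positivity)
    refine ⟨min r r', lt_min hr hr', fun z hz => ?_⟩
    rw [map_add, add_sub_add_comm]
    refine (norm_add_le _ _).trans ?_
    have := h1 z (hz.trans_le (min_le_left _ _))
    have := h2 z (hz.trans_le (min_le_right _ _))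
    linarith
  zero_mem' := by
    intro ε hε
    exact ⟨1, one_pos, fun z _ => by simp [hε.le]⟩
  smul_mem' := by
    intro c a ha ε hε
    obtain ⟨r, hr, h1⟩ := ha (ε / (‖c‖ + 1)) (by positivity)
    refine ⟨r, hr, fun z hz => ?_⟩
    rw [map_smul, ← smul_sub, norm_smul]
    have h2 := h1 z hz
    have h3 : 0 ≤ ‖c‖ := norm_nonneg c
    calc ‖c‖ * ‖ρ.U z a - a‖ ≤ (‖c‖ + 1) * (ε / (‖c‖ + 1)) := by
          apply mul_le_mul (by linarith) h2 (norm_nonneg _) (by linarith)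
      _ = ε := by field_simp

theorem URep.mem_Hc (ρ : URep F H) (w : H) : w ∈ ρ.Hc ↔ ρ.Cont w := Iff.rfl

/-! ### Module UR: elementary facts -/

theorem URep.isClosed_Hc (ρ : URep F H) : IsClosed (ρ.Hc : Set H) := by
  rw [← closure_subset_iff_isClosed]
  intro w hw
  rw [SetLike.mem_coe, ρ.mem_Hc]
  intro ε hε
  rw [Metric.mem_closure_iff] at hw
  obtain ⟨w', hw', hd⟩ := hw (ε / 4) (by positivity)
  obtain ⟨r, hr, h⟩ := (ρ.mem_Hc w').mp hw' (ε / 2) (by positivity)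
  refine ⟨r, hr, fun z hz => ?_⟩
  have h1 := h z hz
  have h2 : ‖ρ.U z (w - w')‖ = ‖w - w'‖ := (ρ.U z).norm_map _
  have h3 : ρ.U z w - w = ρ.U z (w - w') + (ρ.U z w' - w') + (w' - w) := by
    rw [map_sub]; abel
  rw [dist_eq_norm] at hd
  rw [h3]
  have h4 : ‖w' - w‖ = ‖w - w'‖ := norm_sub_rev _ _
  calc ‖ρ.U z (w - w') + (ρ.U z w' - w') + (w' - w)‖
      ≤ ‖ρ.U z (w - w') + (ρ.U z w' - w')‖ + ‖w' - w‖ := norm_add_le _ _
    _ ≤ ‖ρ.U z (w - w')‖ + ‖ρ.U z w' - w'‖ + ‖w' - w‖ := by gcongr; exact norm_add_le _ _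
    _ ≤ ε := by rw [h2, h4]; linarith

theorem URep.U_mem_Hc (ρ : URep F H) {w : H} (hw : w ∈ ρ.Hc) (z : F) : ρ.U z w ∈ ρ.Hc := by
  rw [ρ.mem_Hc] at hw ⊢
  intro ε hε
  obtain ⟨r, hr, h⟩ := hw ε hε
  refine ⟨r, hr, fun z' hz' => ?_⟩
  rw [← ρ.U_add, add_comm, ρ.U_add, ← map_sub, (ρ.U z).norm_map]
  exact h z' hz'

theorem URep.ur_norm_cK_mul (u : K F) (z : F) : ‖((cK F u * z : F) : ℂ)‖ = ‖(z : ℂ)‖ := by
  have h : ((cK F u * z : F) : ℂ) = ((u : Circle) : ℂ) * (z : ℂ) := rfl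
  rw [h, norm_mul, Circle.norm_coe, one_mul]

theorem URep.ur_cK_mul_inv (u : K F) (z : F) : cK F u * (cK F u⁻¹ * z) = z := by
  apply Subtype.ext
  have h : ((cK F u * (cK F u⁻¹ * z) : F) : ℂ) =
      ((u : Circle) : ℂ) * ((((u : Circle)⁻¹ : Circle) : ℂ) * (z : ℂ)) := rfl
  rw [h, ← mul_assoc, ← Circle.coe_mul, mul_inv_cancel, Circle.coe_one, one_mul]

theorem URep.R_mem_Hc (ρ : URep F H) {w : H} (hw : w ∈ ρ.Hc) (u : K F) : ρ.R u w ∈ ρ.Hc := by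
  rw [ρ.mem_Hc] at hw ⊢
  intro ε hε
  obtain ⟨r, hr, h⟩ := hw ε hε
  refine ⟨r, hr, fun z' hz' => ?_⟩
  have h1 : ρ.U z' (ρ.R u w) = ρ.R u (ρ.U (cK F u⁻¹ * z') w) := by
    rw [ρ.R_U, URep.ur_cK_mul_inv]
  rw [h1, ← map_sub, (ρ.R u).norm_map]
  exact h _ (by rw [URep.ur_norm_cK_mul]; exact hz')

theorem URep.U_perp (ρ : URep F H) {v : H} (hv : ∀ w ∈ ρ.Hc, inner ℂ w v = 0) (z : F) :
    ∀ w ∈ ρ.Hc, inner ℂ w (ρ.U z v) = 0 := by
  intro w hw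
  have h1 : w = ρ.U z (ρ.U (-z) w) := by rw [← ρ.U_add, add_neg_cancel, ρ.U_zero]
  rw [h1, (ρ.U z).inner_map_map]
  exact hv _ (ρ.U_mem_Hc hw (-z))

theorem URep.ur_R_perp (ρ : URep F H) {v : H} (hv : ∀ w ∈ ρ.Hc, inner ℂ w v = 0) (u : K F) :
    ∀ w ∈ ρ.Hc, inner ℂ w (ρ.R u v) = 0 := by
  intro w hw
  have h1 : w = ρ.R u (ρ.R u⁻¹ w) := by rw [← ρ.R_mul, mul_inv_cancel, ρ.R_one]
  rw [h1, (ρ.R u).inner_map_map]
  exact hv _ (ρ.R_mem_Hc hw u⁻¹)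

/-- decomposition of a rotation invariant vector -/
theorem URep.exists_decomp [CompleteSpace H] (ρ : URep F H) {v : H} (hv : ∀ u, ρ.R u v = v) :
    ∃ w v' : H, v = w + v' ∧ w ∈ ρ.Hc ∧ (∀ x ∈ ρ.Hc, inner ℂ x v' = 0) ∧ (∀ u, ρ.R u w = w) ∧
      (∀ u, ρ.R u v' = v') := by
  have hcomp : CompleteSpace ρ.Hc := ρ.isClosed_Hc.completeSpace_coe
  obtain ⟨w, hw, v', hv', hsum⟩ := ρ.Hc.exists_add_mem_mem_orthogonal v
  have hperp : ∀ x ∈ ρ.Hc, inner ℂ x v' = 0 := (Submodule.mem_orthogonal _ _).mp hv'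
  have hRw : ∀ u, ρ.R u w = w := by
    intro u
    have h1 : ρ.R u w + ρ.R u v' = w + v' := by rw [← map_add, ← hsum, hv]
    have h2 : ρ.R u w - w = v' - ρ.R u v' := by
      rw [sub_eq_sub_iff_add_eq_add, h1, add_comm]
    have h3 : ρ.R u w - w ∈ ρ.Hc := ρ.Hc.sub_mem (ρ.R_mem_Hc hw u) hw
    have h4 : inner ℂ (ρ.R u w - w) (ρ.R u w - w) = (0 : ℂ) := by
      nth_rewrite 2 [h2]
      rw [inner_sub_right, hperp _ h3, ρ.ur_R_perp hperp u _ h3, sub_zero]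
    rw [inner_self_eq_zero] at h4
    exact sub_eq_zero.mp h4
  refine ⟨w, v', hsum, hw, hperp, hRw, fun u => ?_⟩
  have h1 : ρ.R u w + ρ.R u v' = w + v' := by rw [← map_add, ← hsum, hv]
  rw [hRw u] at h1
  exact add_left_cancel h1

end URep

end Pool.Agent.RadPD
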